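import Pool.Agent.Lib.MP_5b16f0_gt.Lift

/-!
# Fine labellings

Every word has a labelling in which every label occurs at most twice in the boundary: two
boundary points have the same fine label iff they are the end points of the same component.
-/

namespace MP5b16f0

universe u v w

variable {α : Type u} {β : Type v} {γ : Type w}

open Classical in
/-- the number of points of a level with label `l` -/
noncomputable def occ (l : β) (X : List (Pt β)) : ℕ := X.countP (fun a => decide (a.1 = l))

@[simp] theorem occ_nil (l : β) : occ l ([] : List (Pt β)) = 0 := rfl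

@[simp] theorem occ_append (l : β) (X Y : List (Pt β)) :
    occ l (X ++ Y) = occ l X + occ l Y := by simp [occ]

open Classical in
theorem occ_cons (l : β) (a : Pt β) (X : List (Pt β)) :
    occ l (a :: X) = (if a.1 = l then 1 else 0) + occ l X := by
  by_cases h : a.1 = l <;> simp [occ, h, Nat.add_comm]

theorem relabelPts_eq_append {f : α → β} {X : List (Pt α)} {A B : List (Pt β)}
    (h : relabelPts f X = A ++ B) :
    ∃ A' B', X = A' ++ B' ∧ relabelPts f A' = A ∧ relabelPts f B' = B := by
  rw [relabelPts, List.map_eq_append_iff] at h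
  obtain ⟨A', B', h1, h2, h3⟩ := h
  exact ⟨A', B', h1, h2, h3⟩

theorem relabelPts_eq_cons {f : α → β} {X : List (Pt α)} {b : Pt β} {B : List (Pt β)}
    (h : relabelPts f X = b :: B) :
    ∃ a A, X = a :: A ∧ (f a.1, a.2) = b ∧ relabelPts f A = B := by
  rw [relabelPts, List.map_eq_cons_iff] at h
  obtain ⟨a, A, h1, h2, h3⟩ := h
  exact ⟨a, A, h1, h2, h3⟩

theorem relabelPts_eq_nil {f : α → β} {X : List (Pt α)} (h : relabelPts f X = []) : X = [] := by
  simpa [relabelPts] using h

theorem occ_eq_zero {l : β} {X : List (Pt β)} : occ l X = 0 ↔ ∀ a ∈ X, a.1 ≠ l := by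
  simp [occ]

/-- identify two labels -/
noncomputable def merge (l l' : β) : β → β := fun k => open Classical in if k = l' then l else k

theorem occ_merge_self {l l' : β} (h : l ≠ l') (X : List (Pt β)) :
    occ l (relabelPts (merge l l') X) = occ l X + occ l' X := by
  induction X with
  | nil => rfl
  | cons a X ih =>
    rw [relabelPts_cons, occ_cons, occ_cons, occ_cons, ih]
    by_cases h1 : a.1 = l'
    · have : a.1 ≠ l := fun h2 => h (h2 ▸ h1)
      simp [merge, h1, h.symm]; omega
    · by_cases h2 : a.1 = l
      · simp [merge, h2, h]; omega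
      · simp [merge, h1, h2]

theorem occ_merge_other {l l' k : β} (h : k ≠ l) (X : List (Pt β)) :
    occ k (relabelPts (merge l l') X) ≤ occ k X := by
  induction X with
  | nil => simp
  | cons a X ih =>
    rw [relabelPts_cons, occ_cons, occ_cons]
    by_cases h1 : a.1 = l'
    · simp [merge, h1, h.symm]; split <;> omega
    · have : merge l l' a.1 = a.1 := by simp [merge, h1]
      rw [this]
      simpa using ih

theorem exists_fresh (a : α) (X : List (Pt (α × ℕ))) : ∃ k : ℕ, occ (a, k) X = 0 := by
  classical
  obtain ⟨k, hk⟩ := Infinite.exists_notMem_finset (X.map (fun b => b.1.2)).toFinset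
  refine ⟨k, occ_eq_zero.2 fun b hb h => hk ?_⟩
  simp only [List.mem_toFinset, List.mem_map]
  exact ⟨b, hb, by rw [h]⟩

theorem fine_exists {w : Word α} {X Y : List (Pt α)} (h : Run w X Y) :
    ∃ (w' : Word (α × ℕ)) (X' Y' : List (Pt (α × ℕ))), relabel Prod.fst w' = w ∧
      relabelPts Prod.fst X' = X ∧ relabelPts Prod.fst Y' = Y ∧ Run w' X' Y' ∧
      ∀ l, occ l X' + occ l Y' ≤ 2 := by
  induction h with
  | nil X =>
    -- give all points different labels
    induction X with
    | nil => exact ⟨[], [], [], rfl, rfl, rfl, Run.nil _, fun l => by simp⟩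
    | cons a X ih =>
      obtain ⟨w', X', Y', h1, h2, h3, h4, h5⟩ := ih
      have hw : w' = [] := by simpa [relabel] using h1
      subst hw
      cases h4
      obtain ⟨k, hk⟩ := exists_fresh a.1 X'
      refine ⟨[], ((a.1, k), a.2) :: X', ((a.1, k), a.2) :: X', rfl, by simp [h2], by simp [h2],
        Run.nil _, fun l => ?_⟩
      have := h5 l
      rw [occ_cons]
      by_cases hl : (a.1, k) = l
      · subst hl; simp [hk]
      · simp [hl]; exact this
  | @cons A B C D Y g w hg hw ih =>
    obtain ⟨w', X', Y', h1, h2, h3, h4, h5⟩ := ih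
    obtain ⟨A', Z', rfl, hA, hZ⟩ := relabelPts_eq_append h2
    obtain ⟨C', D', rfl, hC, hD⟩ := relabelPts_eq_append hZ
    have lA : A'.length = A.length := by simpa using congrArg List.length hA
    cases hg with
    | cup a =>
      obtain ⟨b1, C1, rfl, hb1, hC1⟩ := relabelPts_eq_cons hC
      obtain ⟨b2, C2, rfl, hb2, hC2⟩ := relabelPts_eq_cons hC1
      obtain rfl := relabelPts_eq_nil hC2
      have e1 : b1.1.1 = a.1 := congrArg Prod.fst hb1
      have e2 : b2.1.1 = a.1 := congrArg Prod.fst hb2
      have e3 : b1.2 = a.2 := congrArg Prod.snd hb1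
      have e4 : b2.2 = !a.2 := congrArg Prod.snd hb2
      have hf : (Prod.fst : α × ℕ → α) ∘ merge b1.1 b2.1 = Prod.fst := by
        funext k
        by_cases hk : k = b2.1
        · simp [merge, hk, e1, e2]
        · simp [merge, hk]
      refine ⟨(A.length, Gen.cup b1) :: relabel (merge b1.1 b2.1) w',
        relabelPts (merge b1.1 b2.1) (A' ++ D'), relabelPts (merge b1.1 b2.1) Y', ?_, ?_, ?_,
        ?_, ?_⟩
      · rw [relabel_cons, relabel_relabel, hf, h1]
        simp [Gen.relabel, e1, e3]
      · rw [relabelPts_relabelPts, hf]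
        simp [hA, hD]
      · rw [relabelPts_relabelPts, hf, h3]
      · have hr := h4.relabel (merge b1.1 b2.1)
        have hb1' : merge b1.1 b2.1 b1.1 = b1.1 := by
          by_cases hk : b1.1 = b2.1
          · simp [merge, hk]
          · simp [merge, hk]
        have hb2' : merge b1.1 b2.1 b2.1 = b1.1 := by simp [merge]
        simp only [relabelPts_append, relabelPts_cons, relabelPts_nil, hb1', hb2'] at hr
        have hc := Gen.Acts.cup b1
        have e5 : op b1 = (b1.1, b2.2) := by simp [op, e3, e4]
        rw [e5] at hc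
        have := Run.cons (A := relabelPts (merge b1.1 b2.1) A')
          (D := relabelPts (merge b1.1 b2.1) D') (Y := relabelPts (merge b1.1 b2.1) Y')
          (w := relabel (merge b1.1 b2.1) w') hc hr
        rw [length_relabelPts, lA] at this
        simpa using this
      · intro l
        have h5l := h5 l
        have h5b1 := h5 b1.1
        have h5b2 := h5 b2.1
        simp only [occ_append, occ_cons, occ_nil] at h5l h5b1 h5b2
        by_cases hb : b1.1 = b2.1
        · have hm : merge b1.1 b2.1 = id := by
            funext k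
            by_cases hk : k = b2.1
            · simp [merge, hb, hk]
            · simp [merge, hk]
          rw [hm]
          simp only [relabelPts_id, occ_append]
          omega
        · by_cases hl : l = b1.1
          · subst hl
            rw [occ_merge_self hb, occ_merge_self hb]
            simp only [occ_append]
            simp [hb, Ne.symm hb] at h5b1 h5b2
            omega
          · have t1 := occ_merge_other (l := b1.1) (l' := b2.1) hl (A' ++ D')
            have t2 := occ_merge_other (l := b1.1) (l' := b2.1) hl Y'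
            simp only [occ_append] at t1
            omega
    | cap a =>
      obtain rfl := relabelPts_eq_nil hC
      obtain ⟨k, hk⟩ := exists_fresh a.1 (A' ++ ([] ++ D') ++ Y')
      refine ⟨(A.length, Gen.cap ((a.1, k), a.2)) :: w',
        A' ++ ([((a.1, k), a.2), op ((a.1, k), a.2)] ++ D'), Y', ?_, ?_, h3, ?_, ?_⟩
      · simp [Gen.relabel, h1]
      · simp [hA, hD, op]
      · have := Run.cons (Gen.Acts.cap (((a.1, k), a.2) : Pt (α × ℕ))) h4
        rwa [lA] at this
      · intro l
        have h5l := h5 l
        simp only [occ_append, occ_cons, occ_nil] at h5l hk ⊢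
        by_cases hl : (a.1, k) = l
        · subst hl
          simp only [op, if_true]
          omega
        · simp [hl, op]; omega
    | crs s a b =>
      obtain ⟨b1, C1, rfl, hb1, hC1⟩ := relabelPts_eq_cons hC
      obtain ⟨b2, C2, rfl, hb2, hC2⟩ := relabelPts_eq_cons hC1
      obtain rfl := relabelPts_eq_nil hC2
      refine ⟨(A.length, Gen.crs s) :: w', A' ++ ([b2, b1] ++ D'), Y', ?_, ?_, h3, ?_, ?_⟩
      · simp [Gen.relabel, h1]
      · simp [hA, hD, hb1, hb2]
      · have := Run.cons (Gen.Acts.crs s b2 b1) h4
        rwa [lA] at this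
      · intro l
        have h5l := h5 l
        simp only [occ_append, occ_cons, occ_nil] at h5l ⊢
        omega

/-- Two points on the bottom with the same fine label have the same label in every labelling. -/
theorem fine_same {w : Word α} {w1 : Word (α × ℕ)} {w2 : Word β} {f : β → α}
    {A1 B1 C1 Y1 : List (Pt (α × ℕ))} {a1 b1 : Pt (α × ℕ)} {A2 B2 C2 Y2 : List (Pt β)}
    {a2 b2 : Pt β}
    (hw1 : relabel Prod.fst w1 = w) (hw2 : relabel f w2 = w)
    (h1 : Run w1 (A1 ++ a1 :: B1 ++ b1 :: C1) Y1) (h2 : Run w2 (A2 ++ a2 :: B2 ++ b2 :: C2) Y2)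
    (hX : relabelPts Prod.fst (A1 ++ a1 :: B1 ++ b1 :: C1) =
      relabelPts f (A2 ++ a2 :: B2 ++ b2 :: C2))
    (lA : A1.length = A2.length) (lB : B1.length = B2.length)
    (hocc : ∀ l, occ l (A1 ++ a1 :: B1 ++ b1 :: C1) + occ l Y1 ≤ 2)
    (hab : a1.1 = b1.1) : a2.1 = b2.1 := by
  by_contra hne
  obtain ⟨hz, hY⟩ := h1.zip h2 (hw1.trans hw2.symm) hX
  have hs := hz.scount (fun l => l = (a1.1, a2.1))
  have ho := hocc a1.1
  simp only [occ_append, occ_cons, hab, if_true] at ho
  have oA : occ b1.1 A1 = 0 := by omega
  have oB : occ b1.1 B1 = 0 := by omega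
  have oC : occ b1.1 C1 = 0 := by omega
  have oY : occ b1.1 Y1 = 0 := by omega
  have key : ∀ (X1 : List (Pt (α × ℕ))) (X2 : List (Pt β)), occ b1.1 X1 = 0 →
      scount (fun l => l = (a1.1, a2.1)) (zipP X1 X2) = 0 := by
    intro X1
    induction X1 with
    | nil => intro X2 _; simp [zipP]
    | cons c X1 ih =>
      intro X2 h
      cases X2 with
      | nil => simp [zipP]
      | cons d X2 =>
        rw [occ_cons] at h
        have h1 : c.1 ≠ b1.1 := by
          intro hc
          simp [hc] at h
        have h2 := ih X2 (by omega)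
        show scount _ (((c.1, d.1), c.2) :: zipP X1 X2) = 0
        rw [scount_cons, h2]
        simp [scount, hab, h1]
  rw [key Y1 Y2 oY] at hs
  have lAB : (A1 ++ a1 :: B1).length = (A2 ++ a2 :: B2).length := by simp [lA, lB]
  rw [zipP_append lAB, zipP_append lA, scount_append, scount_append, key A1 A2 oA] at hs
  have e1 : zipP (a1 :: B1) (a2 :: B2) = [((a1.1, a2.1), a1.2)] ++ zipP B1 B2 := rfl
  have e2 : zipP (b1 :: C1) (b2 :: C2) = [((b1.1, b2.1), b1.2)] ++ zipP C1 C2 := rfl
  rw [e1, e2, scount_append, scount_append, key B1 B2 oB, key C1 C2 oC] at hs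
  have t2 : scount (fun l => l = (a1.1, a2.1)) [((b1.1, b2.1), b1.2)] = 0 := by
    simp [scount, Ne.symm hne]
  rw [t2] at hs
  cases ha : a1.2 <;> simp [scount, ha] at hs

end MP5b16f0
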