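import Pool.Agent.Lib.MP_5b16f0_gt.Cross
import Pool.Agent.Lib.MP_5b16f0_gt.Fine

/-!
# Lifting of moves to labellings; invariance of `NoClosed`
-/

namespace MP5b16f0

universe u v

variable {α : Type u} {β : Type v}

theorem run_nil_iff {X Y : List (Pt α)} : Run ([] : Word α) X Y ↔ X = Y := by
  constructor
  · intro h; cases h; rfl
  · rintro rfl; exact Run.nil _

/-- a single instruction leads from `X` to `X'` -/
def One (p : ℕ) (g : Gen α) (X X' : List (Pt α)) : Prop :=
  ∃ A B C D, g.Acts B C ∧ A.length = p ∧ X = A ++ (B ++ D) ∧ X' = A ++ (C ++ D)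

theorem run_cons_iff {p : ℕ} {g : Gen α} {w : Word α} {X Y : List (Pt α)} :
    Run ((p, g) :: w) X Y ↔ ∃ X', One p g X X' ∧ Run w X' Y := by
  constructor
  · intro h
    cases h with
    | @cons A B C D _ _ _ hg hw => exact ⟨_, ⟨A, B, C, D, hg, rfl, rfl, rfl⟩, hw⟩
  · rintro ⟨X', ⟨A, B, C, D, hg, rfl, rfl, rfl⟩, hw⟩
    exact Run.cons hg hw

theorem one_succ {p : ℕ} {g : Gen α} {x : Pt α} {X X' : List (Pt α)} :
    One (p + 1) g (x :: X) X' ↔ ∃ X'', X' = x :: X'' ∧ One p g X X'' := by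
  constructor
  · rintro ⟨A, B, C, D, hg, hA, hX, rfl⟩
    cases A with
    | nil => simp at hA
    | cons a A =>
      simp only [List.cons_append, List.cons.injEq] at hX
      obtain ⟨rfl, rfl⟩ := hX
      exact ⟨A ++ (C ++ D), rfl, A, B, C, D, hg, by simpa using hA, rfl, rfl⟩
  · rintro ⟨X'', rfl, A, B, C, D, hg, rfl, rfl, rfl⟩
    exact ⟨x :: A, B, C, D, hg, rfl, rfl, rfl⟩

theorem one_one {g : Gen α} {x : Pt α} {X X' : List (Pt α)} :
    One 1 g (x :: X) X' ↔ ∃ X'', X' = x :: X'' ∧ One 0 g X X'' := one_succ (p := 0)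

theorem one_cup {a : Pt α} {X X' : List (Pt α)} :
    One 0 (Gen.cup a) X X' ↔ X' = a :: op a :: X := by
  constructor
  · rintro ⟨A, B, C, D, hg, hA, rfl, rfl⟩
    obtain rfl := List.length_eq_zero_iff.1 hA
    cases hg; rfl
  · rintro rfl
    exact ⟨[], [], [a, op a], X, Gen.Acts.cup a, rfl, rfl, rfl⟩

theorem one_cap {a : Pt α} {X X' : List (Pt α)} :
    One 0 (Gen.cap a) X X' ↔ X = a :: op a :: X' := by
  constructor
  · rintro ⟨A, B, C, D, hg, hA, rfl, rfl⟩
    obtain rfl := List.length_eq_zero_iff.1 hA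
    cases hg; rfl
  · rintro rfl
    exact ⟨[], [a, op a], [], X', Gen.Acts.cap a, rfl, rfl, rfl⟩

theorem one_crs {s : Bool} {X X' : List (Pt α)} :
    One 0 (Gen.crs s) X X' ↔ ∃ a b D, X = a :: b :: D ∧ X' = b :: a :: D := by
  constructor
  · rintro ⟨A, B, C, D, hg, hA, rfl, rfl⟩
    obtain rfl := List.length_eq_zero_iff.1 hA
    cases hg with
    | crs s a b => exact ⟨a, b, D, rfl, rfl⟩
  · rintro ⟨a, b, D, rfl, rfl⟩
    exact ⟨[], [a, b], [b, a], D, Gen.Acts.crs s a b, rfl, rfl, rfl⟩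

theorem relabel_eq_nil {f : α → β} {w : Word α} (h : relabel f w = []) : w = [] := by
  simpa [relabel] using h

theorem relabel_eq_cons {f : α → β} {w : Word α} {x : ℕ × Gen β} {v : Word β}
    (h : relabel f w = x :: v) :
    ∃ g w', w = (x.1, g) :: w' ∧ g.relabel f = x.2 ∧ relabel f w' = v := by
  rw [relabel, List.map_eq_cons_iff] at h
  obtain ⟨a, A, h1, h2, h3⟩ := h
  subst h2
  exact ⟨a.2, A, h1, rfl, h3⟩

theorem relabel_eq_append {f : α → β} {w : Word α} {u v : Word β}
    (h : relabel f w = u ++ v) :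
    ∃ u' v', w = u' ++ v' ∧ relabel f u' = u ∧ relabel f v' = v := by
  rw [relabel, List.map_eq_append_iff] at h
  obtain ⟨A', B', h1, h2, h3⟩ := h
  exact ⟨A', B', h1, h2, h3⟩

theorem gen_cup_of_relabel {f : α → β} {g : Gen α} {b : Pt β} (h : g.relabel f = Gen.cup b) :
    ∃ a, g = Gen.cup a ∧ (f a.1, a.2) = b := by
  cases g with
  | cup a => simp only [Gen.relabel, Gen.cup.injEq] at h; exact ⟨a, rfl, h⟩
  | cap a => simp [Gen.relabel] at h
  | crs s => simp [Gen.relabel] at h

theorem gen_cap_of_relabel {f : α → β} {g : Gen α} {b : Pt β} (h : g.relabel f = Gen.cap b) :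
    ∃ a, g = Gen.cap a ∧ (f a.1, a.2) = b := by
  cases g with
  | cup a => simp [Gen.relabel] at h
  | cap a => simp only [Gen.relabel, Gen.cap.injEq] at h; exact ⟨a, rfl, h⟩
  | crs s => simp [Gen.relabel] at h

theorem gen_crs_of_relabel {f : α → β} {g : Gen α} {s : Bool} (h : g.relabel f = Gen.crs s) :
    g = Gen.crs s := by
  cases g with
  | cup a => simp [Gen.relabel] at h
  | cap a => simp [Gen.relabel] at h
  | crs s => simpa [Gen.relabel] using h

theorem one_crs' {s : Bool} {a b : Pt α} {D X' : List (Pt α)} :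
    One 0 (Gen.crs s) (a :: b :: D) X' ↔ X' = b :: a :: D := by
  rw [one_crs]
  constructor
  · rintro ⟨a', b', D', h1, h2⟩
    simp only [List.cons.injEq] at h1
    obtain ⟨rfl, rfl, rfl⟩ := h1
    exact h2
  · intro h; exact ⟨a, b, D, rfl, h⟩

theorem op_eq_iff {a b : Pt α} : op a = b ↔ a = op b := by
  constructor
  · rintro rfl; simp
  · rintro rfl; simp


/-- lifts of a word are determined by their boundary -/
def Rigid (f : β → α) (X : List (Pt α)) (r : Word α) : Prop :=
  ∀ (r' r'' : Word β) (X' Y' : List (Pt β)), relabel f r' = r → relabel f r'' = r →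
    relabelPts f X' = X → Run r' X' Y' → Run r'' X' Y' → r' = r''

/-- a lift of the left hand side of a move gives a lift of the right hand side -/
def LiftTo (f : β → α) (X : List (Pt α)) (r s : Word α) : Prop :=
  ∀ (r' : Word β) (X' Y' : List (Pt β)), relabel f r' = r → relabelPts f X' = X →
    Run r' X' Y' → ∃ s', relabel f s' = s ∧ Run s' X' Y'

theorem lift_cup {f : β → α} {r' : Word β} {p : ℕ} {a : Pt α} {w : Word α}
    (h : relabel f r' = (p, Gen.cup a) :: w) :
    ∃ b w', r' = (p, Gen.cup b) :: w' ∧ (f b.1, b.2) = a ∧ relabel f w' = w := by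
  obtain ⟨g, w', h1, h2, h3⟩ := relabel_eq_cons h
  obtain ⟨b, rfl, hb⟩ := gen_cup_of_relabel h2
  exact ⟨b, w', h1, hb, h3⟩

theorem lift_cap {f : β → α} {r' : Word β} {p : ℕ} {a : Pt α} {w : Word α}
    (h : relabel f r' = (p, Gen.cap a) :: w) :
    ∃ b w', r' = (p, Gen.cap b) :: w' ∧ (f b.1, b.2) = a ∧ relabel f w' = w := by
  obtain ⟨g, w', h1, h2, h3⟩ := relabel_eq_cons h
  obtain ⟨b, rfl, hb⟩ := gen_cap_of_relabel h2
  exact ⟨b, w', h1, hb, h3⟩

theorem lift_crs {f : β → α} {r' : Word β} {p : ℕ} {s : Bool} {w : Word α}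
    (h : relabel f r' = (p, Gen.crs s) :: w) :
    ∃ w', r' = (p, Gen.crs s) :: w' ∧ relabel f w' = w := by
  obtain ⟨g, w', h1, h2, h3⟩ := relabel_eq_cons h
  obtain rfl := gen_crs_of_relabel h2
  exact ⟨w', h1, h3⟩

theorem f_op {f : β → α} {b : Pt β} {a : Pt α} (h : (f b.1, b.2) = a) :
    (f (op b).1, (op b).2) = op a := by
  subst h; rfl

theorem lift_zig1 (f : β → α) (a : Pt α) :
    LiftTo f [a] [(1, Gen.cup (op a)), (0, Gen.cap a)] [] := by
  intro r' X' Y' hr hX hrun
  obtain ⟨b, r1, rfl, hb, hr1⟩ := lift_cup hr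
  obtain ⟨c, r2, rfl, hc, hr2⟩ := lift_cap hr1
  obtain rfl := relabel_eq_nil hr2
  obtain ⟨d, X1, rfl, hd, hX1⟩ := relabelPts_eq_cons hX
  obtain rfl := relabelPts_eq_nil hX1
  simp only [run_cons_iff, run_nil_iff, one_one, one_cup, one_cap, one_crs', exists_eq_left, exists_eq_right, exists_and_left, exists_eq_right_right', exists_eq_left', List.cons.injEq, and_true, and_assoc, ↓existsAndEq, true_and, List.nil_eq, List.cons_ne_nil, reduceCtorEq, and_false, false_and, exists_false, List.ne_cons_self] at hrun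
  obtain ⟨rfl, rfl, rfl⟩ := hrun
  exact ⟨[], rfl, by simpa using Run.nil _⟩

theorem rigid_zig1 (f : β → α) (a : Pt α) :
    Rigid f [a] [(1, Gen.cup (op a)), (0, Gen.cap a)] := by
  intro r' r'' X' Y' hr hs hX hrun hrun2
  obtain ⟨b, r1, rfl, hb, hr1⟩ := lift_cup hr
  obtain ⟨c, r2, rfl, hc, hr2⟩ := lift_cap hr1
  obtain rfl := relabel_eq_nil hr2
  obtain ⟨b', s1, rfl, hb', hs1⟩ := lift_cup hs
  obtain ⟨c', s2, rfl, hc', hs2⟩ := lift_cap hs1
  obtain rfl := relabel_eq_nil hs2
  obtain ⟨d, X1, rfl, hd, hX1⟩ := relabelPts_eq_cons hX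
  obtain rfl := relabelPts_eq_nil hX1
  simp only [run_cons_iff, run_nil_iff, one_one, one_cup, one_cap, one_crs', exists_eq_left, exists_eq_right, exists_and_left, exists_eq_right_right', exists_eq_left', List.cons.injEq, and_true, and_assoc, ↓existsAndEq, true_and, List.nil_eq, List.cons_ne_nil, reduceCtorEq, and_false, false_and, exists_false, List.ne_cons_self] at hrun hrun2
  obtain ⟨rfl, rfl, _⟩ := hrun
  obtain ⟨rfl, rfl, _⟩ := hrun2
  rfl

theorem lift_zig2 (f : β → α) (a : Pt α) :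
    LiftTo f [a] [] [(1, Gen.cup (op a)), (0, Gen.cap a)] := by
  intro r' X' Y' hr hX hrun
  obtain rfl := relabel_eq_nil hr
  obtain ⟨d, X1, rfl, hd, hX1⟩ := relabelPts_eq_cons hX
  obtain rfl := relabelPts_eq_nil hX1
  simp only [run_cons_iff, run_nil_iff, one_one, one_cup, one_cap, one_crs', exists_eq_left, exists_eq_right, exists_and_left, exists_eq_right_right', exists_eq_left', List.cons.injEq, and_true, and_assoc, ↓existsAndEq, true_and, List.nil_eq, List.cons_ne_nil, reduceCtorEq, and_false, false_and, exists_false, List.ne_cons_self] at hrun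
  subst hrun
  refine ⟨[(1, Gen.cup (op d)), (0, Gen.cap d)], ?_, ?_⟩
  · simp [Gen.relabel, hd, f_op hd]
  · exact (Move.zig d).run_left

theorem lift_zag1 (f : β → α) (a : Pt α) :
    LiftTo f [a] [(0, Gen.cup a), (1, Gen.cap (op a))] [] := by
  intro r' X' Y' hr hX hrun
  obtain ⟨b, r1, rfl, hb, hr1⟩ := lift_cup hr
  obtain ⟨c, r2, rfl, hc, hr2⟩ := lift_cap hr1
  obtain rfl := relabel_eq_nil hr2
  obtain ⟨d, X1, rfl, hd, hX1⟩ := relabelPts_eq_cons hX
  obtain rfl := relabelPts_eq_nil hX1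
  simp only [run_cons_iff, run_nil_iff, one_one, one_cup, one_cap, one_crs', exists_eq_left, exists_eq_right, exists_and_left, exists_eq_right_right', exists_eq_left', List.cons.injEq, and_true, and_assoc, ↓existsAndEq, true_and, List.nil_eq, List.cons_ne_nil, reduceCtorEq, and_false, false_and, exists_false, List.ne_cons_self] at hrun
  obtain ⟨rfl, h1, rfl⟩ := hrun
  rw [← h1, op_op]
  exact ⟨[], rfl, Run.nil _⟩

theorem rigid_zag1 (f : β → α) (a : Pt α) :
    Rigid f [a] [(0, Gen.cup a), (1, Gen.cap (op a))] := by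
  intro r' r'' X' Y' hr hs hX hrun hrun2
  obtain ⟨b, r1, rfl, hb, hr1⟩ := lift_cup hr
  obtain ⟨c, r2, rfl, hc, hr2⟩ := lift_cap hr1
  obtain rfl := relabel_eq_nil hr2
  obtain ⟨b', s1, rfl, hb', hs1⟩ := lift_cup hs
  obtain ⟨c', s2, rfl, hc', hs2⟩ := lift_cap hs1
  obtain rfl := relabel_eq_nil hs2
  obtain ⟨d, X1, rfl, hd, hX1⟩ := relabelPts_eq_cons hX
  obtain rfl := relabelPts_eq_nil hX1
  simp only [run_cons_iff, run_nil_iff, one_one, one_cup, one_cap, one_crs', exists_eq_left, exists_eq_right, exists_and_left, exists_eq_right_right', exists_eq_left', List.cons.injEq, and_true, and_assoc, ↓existsAndEq, true_and, List.nil_eq, List.cons_ne_nil, reduceCtorEq, and_false, false_and, exists_false, List.ne_cons_self] at hrun hrun2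
  obtain ⟨rfl, rfl, _⟩ := hrun
  obtain ⟨h1, rfl, _⟩ := hrun2
  simp only [List.cons.injEq, and_true] at h1
  rw [h1]

theorem lift_zag2 (f : β → α) (a : Pt α) :
    LiftTo f [a] [] [(0, Gen.cup a), (1, Gen.cap (op a))] := by
  intro r' X' Y' hr hX hrun
  obtain rfl := relabel_eq_nil hr
  obtain ⟨d, X1, rfl, hd, hX1⟩ := relabelPts_eq_cons hX
  obtain rfl := relabelPts_eq_nil hX1
  simp only [run_cons_iff, run_nil_iff, one_one, one_cup, one_cap, one_crs', exists_eq_left, exists_eq_right, exists_and_left, exists_eq_right_right', exists_eq_left', List.cons.injEq, and_true, and_assoc, ↓existsAndEq, true_and, List.nil_eq, List.cons_ne_nil, reduceCtorEq, and_false, false_and, exists_false, List.ne_cons_self] at hrun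
  subst hrun
  refine ⟨[(0, Gen.cup d), (1, Gen.cap (op d))], ?_, ?_⟩
  · simp [Gen.relabel, hd, f_op hd]
  · exact (Move.zag d).run_left

theorem lift_r1cup1 (f : β → α) (a : Pt α) (s : Bool) :
    LiftTo f [] [(0, Gen.cup a), (0, Gen.crs s)] [(0, Gen.cup (op a))] := by
  intro r' X' Y' hr hX hrun
  obtain ⟨b, r1, rfl, hb, hr1⟩ := lift_cup hr
  obtain ⟨r2, rfl, hr2⟩ := lift_crs hr1
  obtain rfl := relabel_eq_nil hr2
  obtain rfl := relabelPts_eq_nil hX
  simp only [run_cons_iff, run_nil_iff, one_one, one_cup, one_cap, one_crs', exists_eq_left, exists_eq_right, exists_and_left, exists_eq_right_right', exists_eq_left', List.cons.injEq, and_true, and_assoc, ↓existsAndEq, true_and, List.nil_eq, List.cons_ne_nil, reduceCtorEq, and_false, false_and, exists_false, List.ne_cons_self] at hrun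
  subst hrun
  refine ⟨[(0, Gen.cup (op b))], ?_, ?_⟩
  · simp [Gen.relabel, f_op hb]
  · simp only [run_cons_iff, run_nil_iff, one_one, one_cup, one_cap, one_crs', exists_eq_left, exists_eq_right, exists_and_left, exists_eq_right_right', exists_eq_left', List.cons.injEq, and_true, and_assoc, ↓existsAndEq, true_and, List.nil_eq, List.cons_ne_nil, reduceCtorEq, and_false, false_and, exists_false, List.ne_cons_self]; simp

theorem rigid_r1cup1 (f : β → α) (a : Pt α) (s : Bool) :
    Rigid f [] [(0, Gen.cup a), (0, Gen.crs s)] := by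
  intro r' r'' X' Y' hr hs hX hrun hrun2
  obtain ⟨b, r1, rfl, hb, hr1⟩ := lift_cup hr
  obtain ⟨r2, rfl, hr2⟩ := lift_crs hr1
  obtain rfl := relabel_eq_nil hr2
  obtain ⟨b', s1, rfl, hb', hs1⟩ := lift_cup hs
  obtain ⟨s2, rfl, hs2⟩ := lift_crs hs1
  obtain rfl := relabel_eq_nil hs2
  obtain rfl := relabelPts_eq_nil hX
  simp only [run_cons_iff, run_nil_iff, one_one, one_cup, one_cap, one_crs', exists_eq_left, exists_eq_right, exists_and_left, exists_eq_right_right', exists_eq_left', List.cons.injEq, and_true, and_assoc, ↓existsAndEq, true_and, List.nil_eq, List.cons_ne_nil, reduceCtorEq, and_false, false_and, exists_false, List.ne_cons_self] at hrun hrun2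
  rw [hrun] at hrun2
  simp only [List.cons.injEq, and_true] at hrun2
  rw [hrun2.2]

theorem lift_r1cup2 (f : β → α) (a : Pt α) (s : Bool) :
    LiftTo f [] [(0, Gen.cup (op a))] [(0, Gen.cup a), (0, Gen.crs s)] := by
  intro r' X' Y' hr hX hrun
  obtain ⟨b, r1, rfl, hb, hr1⟩ := lift_cup hr
  obtain rfl := relabel_eq_nil hr1
  obtain rfl := relabelPts_eq_nil hX
  simp only [run_cons_iff, run_nil_iff, one_one, one_cup, one_cap, one_crs', exists_eq_left, exists_eq_right, exists_and_left, exists_eq_right_right', exists_eq_left', List.cons.injEq, and_true, and_assoc, ↓existsAndEq, true_and, List.nil_eq, List.cons_ne_nil, reduceCtorEq, and_false, false_and, exists_false, List.ne_cons_self] at hrun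
  subst hrun
  refine ⟨[(0, Gen.cup (op b)), (0, Gen.crs s)], ?_, ?_⟩
  · simp [Gen.relabel, f_op hb]
  · simp only [run_cons_iff, run_nil_iff, one_one, one_cup, one_cap, one_crs', exists_eq_left, exists_eq_right, exists_and_left, exists_eq_right_right', exists_eq_left', List.cons.injEq, and_true, and_assoc, ↓existsAndEq, true_and, List.nil_eq, List.cons_ne_nil, reduceCtorEq, and_false, false_and, exists_false, List.ne_cons_self]; simp

theorem rigid_r1cup2 (f : β → α) (a : Pt α) : Rigid f [] [(0, Gen.cup (op a))] := by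
  intro r' r'' X' Y' hr hs hX hrun hrun2
  obtain ⟨b, r1, rfl, hb, hr1⟩ := lift_cup hr
  obtain rfl := relabel_eq_nil hr1
  obtain ⟨b', s1, rfl, hb', hs1⟩ := lift_cup hs
  obtain rfl := relabel_eq_nil hs1
  obtain rfl := relabelPts_eq_nil hX
  simp only [run_cons_iff, run_nil_iff, one_one, one_cup, one_cap, one_crs', exists_eq_left, exists_eq_right, exists_and_left, exists_eq_right_right', exists_eq_left', List.cons.injEq, and_true, and_assoc, ↓existsAndEq, true_and, List.nil_eq, List.cons_ne_nil, reduceCtorEq, and_false, false_and, exists_false, List.ne_cons_self] at hrun hrun2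
  rw [← hrun] at hrun2
  simp only [List.cons.injEq, and_true] at hrun2
  rw [hrun2.1]

theorem lift_r1cap1 (f : β → α) (a : Pt α) (s : Bool) :
    LiftTo f [a, op a] [(0, Gen.crs s), (0, Gen.cap (op a))] [(0, Gen.cap a)] := by
  intro r' X' Y' hr hX hrun
  obtain ⟨r1, rfl, hr1⟩ := lift_crs hr
  obtain ⟨b, r2, rfl, hb, hr2⟩ := lift_cap hr1
  obtain rfl := relabel_eq_nil hr2
  obtain ⟨d1, X1, rfl, hd1, hX1⟩ := relabelPts_eq_cons hX
  obtain ⟨d2, X2, rfl, hd2, hX2⟩ := relabelPts_eq_cons hX1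
  obtain rfl := relabelPts_eq_nil hX2
  simp only [run_cons_iff, run_nil_iff, one_one, one_cup, one_cap, one_crs', exists_eq_left, exists_eq_right, exists_and_left, exists_eq_right_right', exists_eq_left', List.cons.injEq, and_true, and_assoc, ↓existsAndEq, true_and, List.nil_eq, List.cons_ne_nil, reduceCtorEq, and_false, false_and, exists_false, List.ne_cons_self] at hrun
  obtain ⟨rfl, rfl, rfl⟩ := hrun
  refine ⟨[(0, Gen.cap (op d2))], ?_, ?_⟩
  · simp [Gen.relabel, hd1]
  · simp only [run_cons_iff, run_nil_iff, one_one, one_cup, one_cap, one_crs', exists_eq_left, exists_eq_right, exists_and_left, exists_eq_right_right', exists_eq_left', List.cons.injEq, and_true, and_assoc, ↓existsAndEq, true_and, List.nil_eq, List.cons_ne_nil, reduceCtorEq, and_false, false_and, exists_false, List.ne_cons_self]; simp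

theorem rigid_r1cap1 (f : β → α) (a : Pt α) (s : Bool) :
    Rigid f [a, op a] [(0, Gen.crs s), (0, Gen.cap (op a))] := by
  intro r' r'' X' Y' hr hs hX hrun hrun2
  obtain ⟨r1, rfl, hr1⟩ := lift_crs hr
  obtain ⟨b, r2, rfl, hb, hr2⟩ := lift_cap hr1
  obtain rfl := relabel_eq_nil hr2
  obtain ⟨s1, rfl, hs1⟩ := lift_crs hs
  obtain ⟨b', s2, rfl, hb', hs2⟩ := lift_cap hs1
  obtain rfl := relabel_eq_nil hs2
  obtain ⟨d1, X1, rfl, hd1, hX1⟩ := relabelPts_eq_cons hX
  obtain ⟨d2, X2, rfl, hd2, hX2⟩ := relabelPts_eq_cons hX1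
  obtain rfl := relabelPts_eq_nil hX2
  simp only [run_cons_iff, run_nil_iff, one_one, one_cup, one_cap, one_crs', exists_eq_left, exists_eq_right, exists_and_left, exists_eq_right_right', exists_eq_left', List.cons.injEq, and_true, and_assoc, ↓existsAndEq, true_and, List.nil_eq, List.cons_ne_nil, reduceCtorEq, and_false, false_and, exists_false, List.ne_cons_self] at hrun hrun2
  obtain ⟨rfl, rfl, rfl⟩ := hrun
  rw [hrun2.1]

theorem lift_r1cap2 (f : β → α) (a : Pt α) (s : Bool) :
    LiftTo f [a, op a] [(0, Gen.cap a)] [(0, Gen.crs s), (0, Gen.cap (op a))] := by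
  intro r' X' Y' hr hX hrun
  obtain ⟨b, r2, rfl, hb, hr2⟩ := lift_cap hr
  obtain rfl := relabel_eq_nil hr2
  obtain ⟨d1, X1, rfl, hd1, hX1⟩ := relabelPts_eq_cons hX
  obtain ⟨d2, X2, rfl, hd2, hX2⟩ := relabelPts_eq_cons hX1
  obtain rfl := relabelPts_eq_nil hX2
  simp only [run_cons_iff, run_nil_iff, one_one, one_cup, one_cap, one_crs', exists_eq_left, exists_eq_right, exists_and_left, exists_eq_right_right', exists_eq_left', List.cons.injEq, and_true, and_assoc, ↓existsAndEq, true_and, List.nil_eq, List.cons_ne_nil, reduceCtorEq, and_false, false_and, exists_false, List.ne_cons_self] at hrun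
  obtain ⟨rfl, rfl, rfl⟩ := hrun
  refine ⟨[(0, Gen.crs s), (0, Gen.cap (op d1))], ?_, ?_⟩
  · simp [Gen.relabel, hd2]
  · simp only [run_cons_iff, run_nil_iff, one_one, one_cup, one_cap, one_crs', exists_eq_left, exists_eq_right, exists_and_left, exists_eq_right_right', exists_eq_left', List.cons.injEq, and_true, and_assoc, ↓existsAndEq, true_and, List.nil_eq, List.cons_ne_nil, reduceCtorEq, and_false, false_and, exists_false, List.ne_cons_self]; simp

theorem rigid_r1cap2 (f : β → α) (a : Pt α) : Rigid f [a, op a] [(0, Gen.cap a)] := by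
  intro r' r'' X' Y' hr hs hX hrun hrun2
  obtain ⟨b, r2, rfl, hb, hr2⟩ := lift_cap hr
  obtain rfl := relabel_eq_nil hr2
  obtain ⟨b', s2, rfl, hb', hs2⟩ := lift_cap hs
  obtain rfl := relabel_eq_nil hs2
  obtain ⟨d1, X1, rfl, hd1, hX1⟩ := relabelPts_eq_cons hX
  obtain ⟨d2, X2, rfl, hd2, hX2⟩ := relabelPts_eq_cons hX1
  obtain rfl := relabelPts_eq_nil hX2
  simp only [run_cons_iff, run_nil_iff, one_one, one_cup, one_cap, one_crs', exists_eq_left, exists_eq_right, exists_and_left, exists_eq_right_right', exists_eq_left', List.cons.injEq, and_true, and_assoc, ↓existsAndEq, true_and, List.nil_eq, List.cons_ne_nil, reduceCtorEq, and_false, false_and, exists_false, List.ne_cons_self] at hrun hrun2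
  obtain ⟨rfl, rfl, rfl⟩ := hrun
  rw [hrun2.1]

theorem lift_slideCup1 (f : β → α) (a b : Pt α) (s : Bool) :
    LiftTo f [b] [(0, Gen.cup a), (1, Gen.crs s)] [(1, Gen.cup a), (0, Gen.crs !s)] := by
  intro r' X' Y' hr hX hrun
  obtain ⟨c, r1, rfl, hc, hr1⟩ := lift_cup hr
  obtain ⟨r2, rfl, hr2⟩ := lift_crs hr1
  obtain rfl := relabel_eq_nil hr2
  obtain ⟨d, X1, rfl, hd, hX1⟩ := relabelPts_eq_cons hX
  obtain rfl := relabelPts_eq_nil hX1
  simp only [run_cons_iff, run_nil_iff, one_one, one_cup, one_cap, one_crs', exists_eq_left, exists_eq_right, exists_and_left, exists_eq_right_right', exists_eq_left', List.cons.injEq, and_true, and_assoc, ↓existsAndEq, true_and, List.nil_eq, List.cons_ne_nil, reduceCtorEq, and_false, false_and, exists_false, List.ne_cons_self] at hrun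
  subst hrun
  refine ⟨[(1, Gen.cup c), (0, Gen.crs !s)], ?_, ?_⟩
  · simp [Gen.relabel, hc]
  · simp only [run_cons_iff, run_nil_iff, one_one, one_cup, one_cap, one_crs', exists_eq_left, exists_eq_right, exists_and_left, exists_eq_right_right', exists_eq_left', List.cons.injEq, and_true, and_assoc, ↓existsAndEq, true_and, List.nil_eq, List.cons_ne_nil, reduceCtorEq, and_false, false_and, exists_false, List.ne_cons_self]

theorem rigid_slideCup1 (f : β → α) (a b : Pt α) (s : Bool) :
    Rigid f [b] [(0, Gen.cup a), (1, Gen.crs s)] := by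
  intro r' r'' X' Y' hr hs hX hrun hrun2
  obtain ⟨c, r1, rfl, hc, hr1⟩ := lift_cup hr
  obtain ⟨r2, rfl, hr2⟩ := lift_crs hr1
  obtain rfl := relabel_eq_nil hr2
  obtain ⟨c', s1, rfl, hc', hs1⟩ := lift_cup hs
  obtain ⟨s2, rfl, hs2⟩ := lift_crs hs1
  obtain rfl := relabel_eq_nil hs2
  obtain ⟨d, X1, rfl, hd, hX1⟩ := relabelPts_eq_cons hX
  obtain rfl := relabelPts_eq_nil hX1
  simp only [run_cons_iff, run_nil_iff, one_one, one_cup, one_cap, one_crs', exists_eq_left, exists_eq_right, exists_and_left, exists_eq_right_right', exists_eq_left', List.cons.injEq, and_true, and_assoc, ↓existsAndEq, true_and, List.nil_eq, List.cons_ne_nil, reduceCtorEq, and_false, false_and, exists_false, List.ne_cons_self] at hrun hrun2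
  rw [hrun] at hrun2
  simp only [List.cons.injEq, and_true] at hrun2
  rw [hrun2.1]

theorem lift_slideCup2 (f : β → α) (a b : Pt α) (s : Bool) :
    LiftTo f [b] [(1, Gen.cup a), (0, Gen.crs !s)] [(0, Gen.cup a), (1, Gen.crs s)] := by
  intro r' X' Y' hr hX hrun
  obtain ⟨c, r1, rfl, hc, hr1⟩ := lift_cup hr
  obtain ⟨r2, rfl, hr2⟩ := lift_crs hr1
  obtain rfl := relabel_eq_nil hr2
  obtain ⟨d, X1, rfl, hd, hX1⟩ := relabelPts_eq_cons hX
  obtain rfl := relabelPts_eq_nil hX1
  simp only [run_cons_iff, run_nil_iff, one_one, one_cup, one_cap, one_crs', exists_eq_left, exists_eq_right, exists_and_left, exists_eq_right_right', exists_eq_left', List.cons.injEq, and_true, and_assoc, ↓existsAndEq, true_and, List.nil_eq, List.cons_ne_nil, reduceCtorEq, and_false, false_and, exists_false, List.ne_cons_self] at hrun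
  subst hrun
  refine ⟨[(0, Gen.cup c), (1, Gen.crs s)], ?_, ?_⟩
  · simp [Gen.relabel, hc]
  · simp only [run_cons_iff, run_nil_iff, one_one, one_cup, one_cap, one_crs', exists_eq_left, exists_eq_right, exists_and_left, exists_eq_right_right', exists_eq_left', List.cons.injEq, and_true, and_assoc, ↓existsAndEq, true_and, List.nil_eq, List.cons_ne_nil, reduceCtorEq, and_false, false_and, exists_false, List.ne_cons_self]

theorem rigid_slideCup2 (f : β → α) (a b : Pt α) (s : Bool) :
    Rigid f [b] [(1, Gen.cup a), (0, Gen.crs !s)] := by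
  intro r' r'' X' Y' hr hs hX hrun hrun2
  obtain ⟨c, r1, rfl, hc, hr1⟩ := lift_cup hr
  obtain ⟨r2, rfl, hr2⟩ := lift_crs hr1
  obtain rfl := relabel_eq_nil hr2
  obtain ⟨c', s1, rfl, hc', hs1⟩ := lift_cup hs
  obtain ⟨s2, rfl, hs2⟩ := lift_crs hs1
  obtain rfl := relabel_eq_nil hs2
  obtain ⟨d, X1, rfl, hd, hX1⟩ := relabelPts_eq_cons hX
  obtain rfl := relabelPts_eq_nil hX1
  simp only [run_cons_iff, run_nil_iff, one_one, one_cup, one_cap, one_crs', exists_eq_left, exists_eq_right, exists_and_left, exists_eq_right_right', exists_eq_left', List.cons.injEq, and_true, and_assoc, ↓existsAndEq, true_and, List.nil_eq, List.cons_ne_nil, reduceCtorEq, and_false, false_and, exists_false, List.ne_cons_self] at hrun hrun2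
  rw [hrun] at hrun2
  simp only [List.cons.injEq, and_true] at hrun2
  rw [hrun2.1]

theorem lift_slideCap1 (f : β → α) (a b : Pt α) (s : Bool) :
    LiftTo f [a, b, op a] [(1, Gen.crs s), (0, Gen.cap a)] [(0, Gen.crs !s), (1, Gen.cap a)] := by
  intro r' X' Y' hr hX hrun
  obtain ⟨r1, rfl, hr1⟩ := lift_crs hr
  obtain ⟨c, r2, rfl, hc, hr2⟩ := lift_cap hr1
  obtain rfl := relabel_eq_nil hr2
  obtain ⟨d1, X1, rfl, hd1, hX1⟩ := relabelPts_eq_cons hX
  obtain ⟨d2, X2, rfl, hd2, hX2⟩ := relabelPts_eq_cons hX1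
  obtain ⟨d3, X3, rfl, hd3, hX3⟩ := relabelPts_eq_cons hX2
  obtain rfl := relabelPts_eq_nil hX3
  simp only [run_cons_iff, run_nil_iff, one_one, one_cup, one_cap, one_crs', exists_eq_left, exists_eq_right, exists_and_left, exists_eq_right_right', exists_eq_left', List.cons.injEq, and_true, and_assoc, ↓existsAndEq, true_and, List.nil_eq, List.cons_ne_nil, reduceCtorEq, and_false, false_and, exists_false, List.ne_cons_self] at hrun
  obtain ⟨rfl, rfl, rfl⟩ := hrun
  refine ⟨[(0, Gen.crs !s), (1, Gen.cap d1)], ?_, ?_⟩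
  · simp [Gen.relabel, hc]
  · simp only [run_cons_iff, run_nil_iff, one_one, one_cup, one_cap, one_crs', exists_eq_left, exists_eq_right, exists_and_left, exists_eq_right_right', exists_eq_left', List.cons.injEq, and_true, and_assoc, ↓existsAndEq, true_and, List.nil_eq, List.cons_ne_nil, reduceCtorEq, and_false, false_and, exists_false, List.ne_cons_self]

theorem rigid_slideCap1 (f : β → α) (a b : Pt α) (s : Bool) :
    Rigid f [a, b, op a] [(1, Gen.crs s), (0, Gen.cap a)] := by
  intro r' r'' X' Y' hr hs hX hrun hrun2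
  obtain ⟨r1, rfl, hr1⟩ := lift_crs hr
  obtain ⟨c, r2, rfl, hc, hr2⟩ := lift_cap hr1
  obtain rfl := relabel_eq_nil hr2
  obtain ⟨s1, rfl, hs1⟩ := lift_crs hs
  obtain ⟨c', s2, rfl, hc', hs2⟩ := lift_cap hs1
  obtain rfl := relabel_eq_nil hs2
  obtain ⟨d1, X1, rfl, hd1, hX1⟩ := relabelPts_eq_cons hX
  obtain ⟨d2, X2, rfl, hd2, hX2⟩ := relabelPts_eq_cons hX1
  obtain ⟨d3, X3, rfl, hd3, hX3⟩ := relabelPts_eq_cons hX2
  obtain rfl := relabelPts_eq_nil hX3
  simp only [run_cons_iff, run_nil_iff, one_one, one_cup, one_cap, one_crs', exists_eq_left, exists_eq_right, exists_and_left, exists_eq_right_right', exists_eq_left', List.cons.injEq, and_true, and_assoc, ↓existsAndEq, true_and, List.nil_eq, List.cons_ne_nil, reduceCtorEq, and_false, false_and, exists_false, List.ne_cons_self] at hrun hrun2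
  obtain ⟨rfl, rfl, rfl⟩ := hrun
  rw [hrun2.1]

theorem lift_slideCap2 (f : β → α) (a b : Pt α) (s : Bool) :
    LiftTo f [a, b, op a] [(0, Gen.crs !s), (1, Gen.cap a)] [(1, Gen.crs s), (0, Gen.cap a)] := by
  intro r' X' Y' hr hX hrun
  obtain ⟨r1, rfl, hr1⟩ := lift_crs hr
  obtain ⟨c, r2, rfl, hc, hr2⟩ := lift_cap hr1
  obtain rfl := relabel_eq_nil hr2
  obtain ⟨d1, X1, rfl, hd1, hX1⟩ := relabelPts_eq_cons hX
  obtain ⟨d2, X2, rfl, hd2, hX2⟩ := relabelPts_eq_cons hX1
  obtain ⟨d3, X3, rfl, hd3, hX3⟩ := relabelPts_eq_cons hX2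
  obtain rfl := relabelPts_eq_nil hX3
  simp only [run_cons_iff, run_nil_iff, one_one, one_cup, one_cap, one_crs', exists_eq_left, exists_eq_right, exists_and_left, exists_eq_right_right', exists_eq_left', List.cons.injEq, and_true, and_assoc, ↓existsAndEq, true_and, List.nil_eq, List.cons_ne_nil, reduceCtorEq, and_false, false_and, exists_false, List.ne_cons_self] at hrun
  obtain ⟨rfl, rfl, rfl⟩ := hrun
  refine ⟨[(1, Gen.crs s), (0, Gen.cap d1)], ?_, ?_⟩
  · simp [Gen.relabel, hc]
  · simp only [run_cons_iff, run_nil_iff, one_one, one_cup, one_cap, one_crs', exists_eq_left, exists_eq_right, exists_and_left, exists_eq_right_right', exists_eq_left', List.cons.injEq, and_true, and_assoc, ↓existsAndEq, true_and, List.nil_eq, List.cons_ne_nil, reduceCtorEq, and_false, false_and, exists_false, List.ne_cons_self]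

theorem rigid_slideCap2 (f : β → α) (a b : Pt α) (s : Bool) :
    Rigid f [a, b, op a] [(0, Gen.crs !s), (1, Gen.cap a)] := by
  intro r' r'' X' Y' hr hs hX hrun hrun2
  obtain ⟨r1, rfl, hr1⟩ := lift_crs hr
  obtain ⟨c, r2, rfl, hc, hr2⟩ := lift_cap hr1
  obtain rfl := relabel_eq_nil hr2
  obtain ⟨s1, rfl, hs1⟩ := lift_crs hs
  obtain ⟨c', s2, rfl, hc', hs2⟩ := lift_cap hs1
  obtain rfl := relabel_eq_nil hs2
  obtain ⟨d1, X1, rfl, hd1, hX1⟩ := relabelPts_eq_cons hX
  obtain ⟨d2, X2, rfl, hd2, hX2⟩ := relabelPts_eq_cons hX1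
  obtain ⟨d3, X3, rfl, hd3, hX3⟩ := relabelPts_eq_cons hX2
  obtain rfl := relabelPts_eq_nil hX3
  simp only [run_cons_iff, run_nil_iff, one_one, one_cup, one_cap, one_crs', exists_eq_left, exists_eq_right, exists_and_left, exists_eq_right_right', exists_eq_left', List.cons.injEq, and_true, and_assoc, ↓existsAndEq, true_and, List.nil_eq, List.cons_ne_nil, reduceCtorEq, and_false, false_and, exists_false, List.ne_cons_self] at hrun hrun2
  obtain ⟨rfl, rfl, rfl⟩ := hrun
  rw [hrun2.2.1]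

/-- words consisting of crossings only -/
def OnlyCrs (w : Word α) : Prop := ∀ x ∈ w, ∃ s, x.2 = Gen.crs s

theorem onlyCrs_inj {f : β → α} {w : Word α} (hw : OnlyCrs w) {w' w'' : Word β}
    (h' : relabel f w' = w) (h'' : relabel f w'' = w) : w' = w'' := by
  induction w generalizing w' w'' with
  | nil => rw [relabel_eq_nil h', relabel_eq_nil h'']
  | cons x w ih =>
    obtain ⟨p, g⟩ := x
    obtain ⟨s, hs⟩ := hw (p, g) List.mem_cons_self
    simp only at hs
    subst hs
    obtain ⟨r1, rfl, hr1⟩ := lift_crs h'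
    obtain ⟨r2, rfl, hr2⟩ := lift_crs h''
    rw [ih (fun x hx => hw x (List.mem_cons_of_mem _ hx)) hr1 hr2]

theorem OnlyCrs.rigid (f : β → α) {w : Word α} (hw : OnlyCrs w) (X : List (Pt α)) :
    Rigid f X w := by
  intro r' r'' X' Y' hr hs _ _ _
  exact onlyCrs_inj hw hr hs

theorem lift_r2a (f : β → α) (a b : Pt α) (s : Bool) :
    LiftTo f [a, b] [(0, Gen.crs s), (0, Gen.crs !s)] [] := by
  intro r' X' Y' hr hX hrun
  obtain ⟨r1, rfl, hr1⟩ := lift_crs hr
  obtain ⟨r2, rfl, hr2⟩ := lift_crs hr1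
  obtain rfl := relabel_eq_nil hr2
  obtain ⟨d1, X1, rfl, hd1, hX1⟩ := relabelPts_eq_cons hX
  obtain ⟨d2, X2, rfl, hd2, hX2⟩ := relabelPts_eq_cons hX1
  obtain rfl := relabelPts_eq_nil hX2
  simp only [run_cons_iff, run_nil_iff, one_one, one_cup, one_cap, one_crs', exists_eq_left, exists_eq_right, exists_and_left, exists_eq_right_right', exists_eq_left', List.cons.injEq, and_true, and_assoc, ↓existsAndEq, true_and, List.nil_eq, List.cons_ne_nil, reduceCtorEq, and_false, false_and, exists_false, List.ne_cons_self] at hrun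
  subst hrun
  exact ⟨[], rfl, Run.nil _⟩

theorem lift_r2b (f : β → α) (a b : Pt α) (s : Bool) :
    LiftTo f [a, b] [] [(0, Gen.crs s), (0, Gen.crs !s)] := by
  intro r' X' Y' hr hX hrun
  obtain rfl := relabel_eq_nil hr
  obtain ⟨d1, X1, rfl, hd1, hX1⟩ := relabelPts_eq_cons hX
  obtain ⟨d2, X2, rfl, hd2, hX2⟩ := relabelPts_eq_cons hX1
  obtain rfl := relabelPts_eq_nil hX2
  simp only [run_cons_iff, run_nil_iff, one_one, one_cup, one_cap, one_crs', exists_eq_left, exists_eq_right, exists_and_left, exists_eq_right_right', exists_eq_left', List.cons.injEq, and_true, and_assoc, ↓existsAndEq, true_and, List.nil_eq, List.cons_ne_nil, reduceCtorEq, and_false, false_and, exists_false, List.ne_cons_self] at hrun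
  subst hrun
  exact ⟨[(0, Gen.crs s), (0, Gen.crs !s)], rfl, (Move.r2 _ _ s).run_left⟩

theorem lift_r3a (f : β → α) (a b c : Pt α) (s : Bool) :
    LiftTo f [a, b, c] [(0, Gen.crs s), (1, Gen.crs s), (0, Gen.crs s)]
      [(1, Gen.crs s), (0, Gen.crs s), (1, Gen.crs s)] := by
  intro r' X' Y' hr hX hrun
  obtain ⟨r1, rfl, hr1⟩ := lift_crs hr
  obtain ⟨r2, rfl, hr2⟩ := lift_crs hr1
  obtain ⟨r3, rfl, hr3⟩ := lift_crs hr2
  obtain rfl := relabel_eq_nil hr3
  obtain ⟨d1, X1, rfl, hd1, hX1⟩ := relabelPts_eq_cons hX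
  obtain ⟨d2, X2, rfl, hd2, hX2⟩ := relabelPts_eq_cons hX1
  obtain ⟨d3, X3, rfl, hd3, hX3⟩ := relabelPts_eq_cons hX2
  obtain rfl := relabelPts_eq_nil hX3
  simp only [run_cons_iff, run_nil_iff, one_one, one_cup, one_cap, one_crs', exists_eq_left, exists_eq_right, exists_and_left, exists_eq_right_right', exists_eq_left', List.cons.injEq, and_true, and_assoc, ↓existsAndEq, true_and, List.nil_eq, List.cons_ne_nil, reduceCtorEq, and_false, false_and, exists_false, List.ne_cons_self] at hrun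
  subst hrun
  exact ⟨_, rfl, (Move.r3 _ _ _ s).run_right⟩

theorem lift_r3b (f : β → α) (a b c : Pt α) (s : Bool) :
    LiftTo f [a, b, c] [(1, Gen.crs s), (0, Gen.crs s), (1, Gen.crs s)]
      [(0, Gen.crs s), (1, Gen.crs s), (0, Gen.crs s)] := by
  intro r' X' Y' hr hX hrun
  obtain ⟨r1, rfl, hr1⟩ := lift_crs hr
  obtain ⟨r2, rfl, hr2⟩ := lift_crs hr1
  obtain ⟨r3, rfl, hr3⟩ := lift_crs hr2
  obtain rfl := relabel_eq_nil hr3
  obtain ⟨d1, X1, rfl, hd1, hX1⟩ := relabelPts_eq_cons hX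
  obtain ⟨d2, X2, rfl, hd2, hX2⟩ := relabelPts_eq_cons hX1
  obtain ⟨d3, X3, rfl, hd3, hX3⟩ := relabelPts_eq_cons hX2
  obtain rfl := relabelPts_eq_nil hX3
  simp only [run_cons_iff, run_nil_iff, one_one, one_cup, one_cap, one_crs', exists_eq_left, exists_eq_right, exists_and_left, exists_eq_right_right', exists_eq_left', List.cons.injEq, and_true, and_assoc, ↓existsAndEq, true_and, List.nil_eq, List.cons_ne_nil, reduceCtorEq, and_false, false_and, exists_false, List.ne_cons_self] at hrun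
  subst hrun
  exact ⟨_, rfl, (Move.r3 _ _ _ s).run_left⟩

/-- decomposing `One` for a lift of an elementary tangle -/
theorem one_lift {f : β → α} {g : Gen α} {B C : List (Pt α)} (hg : g.Acts B C)
    {g' : Gen β} (hgg : g'.relabel f = g) {A' B' D' : List (Pt β)}
    {X' : List (Pt β)} (hB : relabelPts f B' = B)
    (h : One A'.length g' (A' ++ (B' ++ D')) X') :
    ∃ C', g'.Acts B' C' ∧ X' = A' ++ (C' ++ D') ∧ relabelPts f C' = C := by
  obtain ⟨A1, B1, C1, D1, h1, h2, h3, rfl⟩ := h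
  obtain ⟨rfl, h4⟩ := List.append_inj h3 h2.symm
  have h5 := h1.relabel f
  rw [hgg] at h5
  have hl := hg.len h5
  have lB : B'.length = B1.length := by
    rw [← hB] at hl
    simpa using hl
  obtain ⟨rfl, rfl⟩ := List.append_inj h4 lB
  refine ⟨C1, h1, rfl, ?_⟩
  rw [hB] at h5
  exact h5.det hg

theorem acts_lift_det {f : β → α} {g g' : Gen β} {B C : List (Pt β)}
    (h : g.Acts B C) (h' : g'.Acts B C) (hf : g.relabel f = g'.relabel f) : g = g' := by
  cases h with
  | cup a =>
    cases h'; rfl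
  | cap a => cases h'; rfl
  | crs s a b =>
    cases h' with
    | crs s' => simpa [Gen.relabel] using hf

theorem comm_char {f : β → α} {g h : Gen α} {B C B' C' : List (Pt α)} (hg : g.Acts B C)
    (hh : h.Acts B' C') (M : List (Pt α)) {r' : Word β} {X' Y' : List (Pt β)}
    (hr : relabel f r' = [(0, g), (C.length + M.length, h)])
    (hX : relabelPts f X' = B ++ (M ++ B')) (hrun : Run r' X' Y') :
    ∃ (g' h' : Gen β) (B1 C1 M1 B2 C2 : List (Pt β)), g'.relabel f = g ∧ h'.relabel f = h ∧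
      relabelPts f B1 = B ∧ relabelPts f C1 = C ∧ relabelPts f M1 = M ∧
      relabelPts f B2 = B' ∧ relabelPts f C2 = C' ∧
      g'.Acts B1 C1 ∧ h'.Acts B2 C2 ∧ r' = [(0, g'), (C.length + M.length, h')] ∧
      X' = B1 ++ (M1 ++ B2) ∧ Y' = C1 ++ (M1 ++ C2) := by
  obtain ⟨g', r1, rfl, hg', hr1⟩ := relabel_eq_cons hr
  obtain ⟨h', r2, rfl, hh', hr2⟩ := relabel_eq_cons hr1
  obtain rfl := relabel_eq_nil hr2
  obtain ⟨B1, MB, rfl, hB1, hMB⟩ := relabelPts_eq_append hX
  obtain ⟨M1, B2, rfl, hM1, hB2⟩ := relabelPts_eq_append hMB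
  rw [run_cons_iff] at hrun
  obtain ⟨X1, ho1, hrun⟩ := hrun
  rw [run_cons_iff] at hrun
  obtain ⟨X2, ho2, hrun⟩ := hrun
  rw [run_nil_iff] at hrun
  subst hrun
  obtain ⟨C1, a1, rfl, hC1⟩ := one_lift (A' := []) (D' := M1 ++ B2) hg hg' hB1 ho1
  have l1 : C.length + M.length = (C1 ++ M1).length := by
    rw [← hC1, ← hM1]; simp
  have e1 : [] ++ (C1 ++ (M1 ++ B2)) = (C1 ++ M1) ++ (B2 ++ []) := by simp
  rw [e1] at ho2
  simp only at ho2
  rw [l1] at ho2
  obtain ⟨C2, a2, rfl, hC2⟩ := one_lift (A' := C1 ++ M1) (D' := []) hh hh' hB2 ho2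
  exact ⟨g', h', B1, C1, M1, B2, C2, hg', hh', hB1, hC1, hM1, hB2, hC2, a1, a2, rfl, rfl,
    by simp⟩

theorem comm_char' {f : β → α} {g h : Gen α} {B C B' C' : List (Pt α)} (hg : g.Acts B C)
    (hh : h.Acts B' C') (M : List (Pt α)) {r' : Word β} {X' Y' : List (Pt β)}
    (hr : relabel f r' = [(B.length + M.length, h), (0, g)])
    (hX : relabelPts f X' = B ++ (M ++ B')) (hrun : Run r' X' Y') :
    ∃ (g' h' : Gen β) (B1 C1 M1 B2 C2 : List (Pt β)), g'.relabel f = g ∧ h'.relabel f = h ∧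
      relabelPts f B1 = B ∧ relabelPts f C1 = C ∧ relabelPts f M1 = M ∧
      relabelPts f B2 = B' ∧ relabelPts f C2 = C' ∧
      g'.Acts B1 C1 ∧ h'.Acts B2 C2 ∧ r' = [(B.length + M.length, h'), (0, g')] ∧
      X' = B1 ++ (M1 ++ B2) ∧ Y' = C1 ++ (M1 ++ C2) := by
  obtain ⟨h', r1, rfl, hh', hr1⟩ := relabel_eq_cons hr
  obtain ⟨g', r2, rfl, hg', hr2⟩ := relabel_eq_cons hr1
  obtain rfl := relabel_eq_nil hr2
  obtain ⟨B1, MB, rfl, hB1, hMB⟩ := relabelPts_eq_append hX
  obtain ⟨M1, B2, rfl, hM1, hB2⟩ := relabelPts_eq_append hMB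
  rw [run_cons_iff] at hrun
  obtain ⟨X1, ho1, hrun⟩ := hrun
  rw [run_cons_iff] at hrun
  obtain ⟨X2, ho2, hrun⟩ := hrun
  rw [run_nil_iff] at hrun
  subst hrun
  have l1 : B.length + M.length = (B1 ++ M1).length := by
    rw [← hB1, ← hM1]; simp
  have e1 : (B1 ++ (M1 ++ B2)) = (B1 ++ M1) ++ (B2 ++ []) := by simp
  rw [e1] at ho1
  simp only at ho1
  rw [l1] at ho1
  obtain ⟨C2, a2, rfl, hC2⟩ := one_lift (A' := B1 ++ M1) (D' := []) hh hh' hB2 ho1
  have e2 : B1 ++ M1 ++ (C2 ++ []) = [] ++ (B1 ++ (M1 ++ C2)) := by simp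
  rw [e2] at ho2
  obtain ⟨C1, a1, rfl, hC1⟩ := one_lift (A' := []) (D' := M1 ++ C2) hg hg' hB1 ho2
  exact ⟨g', h', B1, C1, M1, B2, C2, hg', hh', hB1, hC1, hM1, hB2, hC2, a1, a2, rfl, rfl,
    by simp⟩

theorem Move.liftTo {X Y : List (Pt α)} {r s : Word α} (h : Move X Y r s) (f : β → α) :
    LiftTo f X r s ∧ LiftTo f X s r := by
  cases h with
  | @comm g h B C B' C' hg hh M =>
    constructor
    · intro r' X' Y' hr hX hrun
      obtain ⟨g', h', B1, C1, M1, B2, C2, e1, e2, e3, e4, e5, e6, e7, a1, a2, rfl, rfl, rfl⟩ :=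
        comm_char hg hh M hr hX hrun
      have := Move.comm a1 a2 M1
      refine ⟨_, ?_, this.run_right⟩
      have l1 : B1.length = B.length := by rw [← e3]; simp
      have l2 : M1.length = M.length := by rw [← e5]; simp
      simp [e1, e2, l1, l2]
    · intro r' X' Y' hr hX hrun
      obtain ⟨g', h', B1, C1, M1, B2, C2, e1, e2, e3, e4, e5, e6, e7, a1, a2, rfl, rfl, rfl⟩ :=
        comm_char' hg hh M hr hX hrun
      have := Move.comm a1 a2 M1
      refine ⟨_, ?_, this.run_left⟩
      have l1 : C1.length = C.length := by rw [← e4]; simp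
      have l2 : M1.length = M.length := by rw [← e5]; simp
      simp [e1, e2, l1, l2]
  | zig a => exact ⟨lift_zig1 f a, lift_zig2 f a⟩
  | zag a => exact ⟨lift_zag1 f a, lift_zag2 f a⟩
  | r1cup a s => exact ⟨lift_r1cup1 f a s, lift_r1cup2 f a s⟩
  | r1cap a s => exact ⟨lift_r1cap1 f a s, lift_r1cap2 f a s⟩
  | r2 a b s => exact ⟨lift_r2a f a b s, lift_r2b f a b s⟩
  | r3 a b c s => exact ⟨lift_r3a f a b c s, lift_r3b f a b c s⟩
  | slideCup a b s => exact ⟨lift_slideCup1 f a b s, lift_slideCup2 f a b s⟩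
  | slideCap a b s => exact ⟨lift_slideCap1 f a b s, lift_slideCap2 f a b s⟩

theorem Move.rigid {X Y : List (Pt α)} {r s : Word α} (h : Move X Y r s) (f : β → α) :
    Rigid f X r ∧ Rigid f X s := by
  cases h with
  | @comm g h B C B' C' hg hh M =>
    constructor
    · intro r' r'' X' Y' hr hr2 hX hrun hrun2
      obtain ⟨g', h', B1, C1, M1, B2, C2, e1, e2, e3, e4, e5, e6, e7, a1, a2, rfl, rfl, rfl⟩ :=
        comm_char hg hh M hr hX hrun
      obtain ⟨g'', h'', B1', C1', M1', B2', C2', e1', e2', e3', e4', e5', e6', e7', a1', a2',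
        rfl, hX', hY'⟩ := comm_char hg hh M hr2 hX hrun2
      have t1 : B1.length = B1'.length := by
        rw [← length_relabelPts f B1, ← length_relabelPts f B1', e3, e3']
      have t2 : C1.length = C1'.length := by
        rw [← length_relabelPts f C1, ← length_relabelPts f C1', e4, e4']
      have t3 : M1.length = M1'.length := by
        rw [← length_relabelPts f M1, ← length_relabelPts f M1', e5, e5']
      obtain ⟨rfl, hX2⟩ := List.append_inj hX' t1
      obtain ⟨rfl, rfl⟩ := List.append_inj hX2 t3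
      obtain ⟨rfl, hY2⟩ := List.append_inj hY' t2
      obtain ⟨_, rfl⟩ := List.append_inj hY2 rfl
      rw [acts_lift_det a1 a1' (e1.trans e1'.symm), acts_lift_det a2 a2' (e2.trans e2'.symm)]
    · intro r' r'' X' Y' hr hr2 hX hrun hrun2
      obtain ⟨g', h', B1, C1, M1, B2, C2, e1, e2, e3, e4, e5, e6, e7, a1, a2, rfl, rfl, rfl⟩ :=
        comm_char' hg hh M hr hX hrun
      obtain ⟨g'', h'', B1', C1', M1', B2', C2', e1', e2', e3', e4', e5', e6', e7', a1', a2',
        rfl, hX', hY'⟩ := comm_char' hg hh M hr2 hX hrun2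
      have t1 : B1.length = B1'.length := by
        rw [← length_relabelPts f B1, ← length_relabelPts f B1', e3, e3']
      have t2 : C1.length = C1'.length := by
        rw [← length_relabelPts f C1, ← length_relabelPts f C1', e4, e4']
      have t3 : M1.length = M1'.length := by
        rw [← length_relabelPts f M1, ← length_relabelPts f M1', e5, e5']
      obtain ⟨rfl, hX2⟩ := List.append_inj hX' t1
      obtain ⟨rfl, rfl⟩ := List.append_inj hX2 t3
      obtain ⟨rfl, hY2⟩ := List.append_inj hY' t2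
      obtain ⟨_, rfl⟩ := List.append_inj hY2 rfl
      rw [acts_lift_det a1 a1' (e1.trans e1'.symm), acts_lift_det a2 a2' (e2.trans e2'.symm)]
  | zig a => exact ⟨rigid_zig1 f a, OnlyCrs.rigid f (by simp [OnlyCrs]) _⟩
  | zag a => exact ⟨rigid_zag1 f a, OnlyCrs.rigid f (by simp [OnlyCrs]) _⟩
  | r1cup a s => exact ⟨rigid_r1cup1 f a s, rigid_r1cup2 f a⟩
  | r1cap a s => exact ⟨rigid_r1cap1 f a s, rigid_r1cap2 f a⟩
  | r2 a b s =>
    exact ⟨OnlyCrs.rigid f (by simp [OnlyCrs]) _, OnlyCrs.rigid f (by simp [OnlyCrs]) _⟩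
  | r3 a b c s =>
    exact ⟨OnlyCrs.rigid f (by simp [OnlyCrs]) _, OnlyCrs.rigid f (by simp [OnlyCrs]) _⟩
  | slideCup a b s => exact ⟨rigid_slideCup1 f a b s, rigid_slideCup2 f a b s⟩
  | slideCap a b s => exact ⟨rigid_slideCap1 f a b s, rigid_slideCap2 f a b s⟩

/-- a lift of a shifted word is the shift of a lift -/
theorem relabel_eq_sh {f : β → α} {k : ℕ} {w : Word α} {w' : Word β}
    (h : relabel f w' = sh k w) : ∃ w'', w' = sh k w'' ∧ relabel f w'' = w := by
  induction w generalizing w' with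
  | nil => exact ⟨[], relabel_eq_nil h, rfl⟩
  | cons x w ih =>
    obtain ⟨p, g⟩ := x
    obtain ⟨g', r1, rfl, h1, h2⟩ := relabel_eq_cons h
    obtain ⟨w'', rfl, h3⟩ := ih h2
    exact ⟨(p, g') :: w'', rfl, by simp [h3]; exact h1⟩

theorem run_unshift {f : β → α} {s : Word α} {X0 Y0 : List (Pt α)} (hs : Run s X0 Y0)
    {s' : Word β} {A' X' C' Z : List (Pt β)} (h1 : relabel f s' = s)
    (h2 : relabelPts f X' = X0) (h3 : Run (sh A'.length s') (A' ++ (X' ++ C')) Z) :
    ∃ Y', Z = A' ++ (Y' ++ C') ∧ Run s' X' Y' ∧ relabelPts f Y' = Y0 := by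
  induction hs generalizing s' X' with
  | nil X =>
    obtain rfl := relabel_eq_nil h1
    cases h3
    exact ⟨X', rfl, Run.nil _, h2⟩
  | @cons A B C D Y g w hg hw ih =>
    obtain ⟨g', r1, rfl, h4, h5⟩ := relabel_eq_cons h1
    obtain ⟨A1, X1, rfl, hA1, hX1⟩ := relabelPts_eq_append h2
    obtain ⟨B1, D1, rfl, hB1, hD1⟩ := relabelPts_eq_append hX1
    rw [sh_cons, run_cons_iff] at h3
    obtain ⟨Z1, ho, hr⟩ := h3
    have l1 : A.length + A'.length = (A' ++ A1).length := by
      rw [← hA1]; simp [Nat.add_comm]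
    have e1 : A' ++ (A1 ++ (B1 ++ D1) ++ C') = (A' ++ A1) ++ (B1 ++ (D1 ++ C')) := by simp
    rw [e1] at ho
    simp only at ho
    rw [l1] at ho
    obtain ⟨C1, a1, rfl, hC1⟩ := one_lift (A' := A' ++ A1) (D' := D1 ++ C') hg h4 hB1 ho
    have e2 : (A' ++ A1) ++ (C1 ++ (D1 ++ C')) = A' ++ ((A1 ++ (C1 ++ D1)) ++ C') := by simp
    rw [e2] at hr
    obtain ⟨Y', rfl, hY1, hY2⟩ := ih h5 (by simp [hA1, hC1, hD1]) hr
    refine ⟨Y', rfl, ?_, hY2⟩
    have := Run.cons (A := A1) (D := D1) a1 hY1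
    have l2 : A1.length = A.length := by rw [← hA1]; simp
    rwa [l2] at this

/-- one step of lifting an isotopy -/
theorem lift_step {f : β → α} {X A C X0 Y0 : List (Pt α)} {u r s v : Word α}
    (hu : Run u X (A ++ (X0 ++ C))) (hs : Run s X0 Y0) (hL : LiftTo f X0 s r)
    {w' : Word β} {X' Y' : List (Pt β)} (hw' : relabel f w' = u ++ (sh A.length s ++ v))
    (hX' : relabelPts f X' = X) (hrun : Run w' X' Y') :
    ∃ (u' s' r' v' : Word β) (A' C' X0' Y0' : List (Pt β)), w' = u' ++ (sh A.length s' ++ v') ∧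
      relabel f u' = u ∧ relabel f s' = s ∧ relabel f v' = v ∧ relabel f r' = r ∧
      relabelPts f A' = A ∧ relabelPts f X0' = X0 ∧ relabelPts f C' = C ∧
      relabelPts f Y0' = Y0 ∧
      Run u' X' (A' ++ (X0' ++ C')) ∧ Run s' X0' Y0' ∧ Run r' X0' Y0' ∧
      Run v' (A' ++ (Y0' ++ C')) Y' := by
  obtain ⟨u', w1, rfl, h1, h2⟩ := relabel_eq_append hw'
  obtain ⟨s1, v', rfl, h3, h4⟩ := relabel_eq_append h2
  obtain ⟨s', rfl, h5⟩ := relabel_eq_sh h3
  obtain ⟨Z1, hr1, hr2⟩ := hrun.append_inv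
  obtain ⟨Z2, hr3, hr4⟩ := hr2.append_inv
  have hZ1 : relabelPts f Z1 = A ++ (X0 ++ C) := by
    have := hr1.relabel f
    rw [h1, hX'] at this
    exact this.det hu
  obtain ⟨A', Z3, rfl, hA', hZ3⟩ := relabelPts_eq_append hZ1
  obtain ⟨X0', C', rfl, hX0', hC'⟩ := relabelPts_eq_append hZ3
  have lA : A.length = A'.length := by rw [← hA']; simp
  have hr3' := hr3
  rw [lA] at hr3'
  obtain ⟨Y0', rfl, hY1, hY2⟩ := run_unshift hs h5 hX0' hr3'
  obtain ⟨r', h6, h7⟩ := hL s' X0' Y0' h5 hX0' hY1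
  exact ⟨u', s', r', v', A', C', X0', Y0', rfl, h1, h5, h4, h6, hA', hX0', hC', hY2, hr1,
    hY1, h7, hr4⟩

theorem noClosed_step {X Y A C X0 Y0 : List (Pt α)} {u r s v : Word α}
    (hu : Run u X (A ++ (X0 ++ C))) (hs : Run s X0 Y0) (hr : Run r X0 Y0)
    (hL : LiftTo (Prod.fst : α × Bool → α) X0 s r)
    (hR : Rigid (Prod.fst : α × Bool → α) X0 s) (hv : Run v (A ++ (Y0 ++ C)) Y)
    (h : NoClosed (u ++ (sh A.length r ++ v)) X Y) :
    NoClosed (u ++ (sh A.length s ++ v)) X Y := by
  intro w' hw' hrun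
  have hid : (Prod.fst : α × Bool → α) ∘ (fun a => (a, true)) = id := rfl
  obtain ⟨u', s', r', v', A', C', X0', Y0', rfl, h1, h2, h3, h4, h5, h6, h7, h8, h9, h10, h11,
    h12⟩ := lift_step hu hs hL hw' (by rw [relabelPts_relabelPts, hid, relabelPts_id]) hrun
  have lA : A'.length = A.length := by rw [← h5]; simp
  have hw1 : Run (u' ++ (sh A.length r' ++ v')) (relabelPts (fun a => (a, true)) X)
      (relabelPts (fun a => (a, true)) Y) := by
    refine h9.append (Run.append ?_ h12)
    have := h11.shift A' C'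
    rwa [lA] at this
  have key := h (u' ++ (sh A.length r' ++ v')) (by simp [h1, h3, h4]) hw1
  rw [relabel_append, relabel_append] at key
  have lu : u'.length = (relabel (fun a => (a, true)) u).length := by
    rw [← h1]; simp [relabel]
  obtain ⟨k1, k2⟩ := List.append_inj key lu
  have lr : (sh A.length r').length = (relabel (fun a => (a, true)) (sh A.length r)).length := by
    rw [← h4]; simp [relabel, sh]
  obtain ⟨k3, k4⟩ := List.append_inj k2 lr
  have hu2 := hu.relabel (fun a => (a, true))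
  rw [k1] at h9
  have hZ := h9.det hu2
  rw [relabelPts_append, relabelPts_append] at hZ
  obtain ⟨e1, e2⟩ := List.append_inj hZ (by rw [lA]; simp)
  obtain ⟨e3, e4⟩ := List.append_inj e2 (by rw [← h6]; simp)
  have hr' : r' = relabel (fun a => (a, true)) r := by
    have : sh A.length r' = sh A.length (relabel (fun a => (a, true)) r) := by simpa using k3
    have hinj : ∀ (k : ℕ) (a b : Word (α × Bool)), sh k a = sh k b → a = b := by
      intro k a
      induction a with
      | nil => intro b hb; cases b with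
        | nil => rfl
        | cons y b => simp [sh] at hb
      | cons x a ih =>
        intro b hb
        cases b with
        | nil => simp [sh] at hb
        | cons y b =>
          obtain ⟨p, g⟩ := x
          obtain ⟨q, g'⟩ := y
          simp only [sh_cons, List.cons.injEq, Prod.mk.injEq, Nat.add_right_cancel_iff] at hb
          obtain ⟨⟨rfl, rfl⟩, hb⟩ := hb
          rw [ih b hb]
    exact hinj _ _ _ this
  have hY0 : Y0' = relabelPts (fun a => (a, true)) Y0 := by
    have := hr.relabel (fun a => (a, true))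
    rw [hr', e3] at h11
    exact h11.det this
  have hs' : s' = relabel (fun a => (a, true)) s := by
    refine hR s' _ X0' Y0' h2 (by rw [relabel_relabel, hid, relabel_id]) h6 h10 ?_
    rw [e3, hY0]
    exact hs.relabel _
  rw [k1, k4, hs']
  simp

theorem Step.noClosed {X Y : List (Pt α)} {w w' : Word α} (h : Step X Y w w') :
    NoClosed w X Y ↔ NoClosed w' X Y := by
  cases h with
  | mk hu hm hv =>
    exact ⟨noClosed_step hu hm.run_right hm.run_left (hm.liftTo _).2 (hm.rigid _).2 hv,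
      noClosed_step hu hm.run_left hm.run_right (hm.liftTo _).1 (hm.rigid _).1 hv⟩

/-- having no closed components is invariant under isotopy -/
theorem Iso.noClosed {X Y : List (Pt α)} {w w' : Word α} (h : Iso X Y w w') :
    NoClosed w X Y ↔ NoClosed w' X Y := by
  induction h with
  | rel _ _ h => exact h.noClosed
  | refl _ => rfl
  | symm _ _ _ ih => exact ih.symm
  | trans _ _ _ _ _ ih1 ih2 => exact ih1.trans ih2

theorem noClosed_cc {X Y : List (Pt α)} {u v : Word α} {p : ℕ} {s t : Bool}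
    (h : NoClosed (u ++ (p, Gen.crs s) :: v) X Y) : NoClosed (u ++ (p, Gen.crs t) :: v) X Y := by
  intro w' hw' hrun
  obtain ⟨u', w1, rfl, h1, h2⟩ := relabel_eq_append hw'
  obtain ⟨v', rfl, h3⟩ := lift_crs h2
  have := h (u' ++ (p, Gen.crs s) :: v') (by simp [h1, h3, Gen.relabel]) hrun.crs_change
  rw [relabel_append, relabel_cons] at this
  obtain ⟨k1, k2⟩ := List.append_inj this (by rw [← h1]; simp [relabel])
  simp only [List.cons.injEq] at k2
  rw [k1, k2.2]
  simp [Gen.relabel]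

/-- having no closed components is invariant under crossing changes -/
theorem E1.noClosed {X Y : List (Pt α)} {w w' : Word α} (h : E1 X Y w w') :
    NoClosed w X Y ↔ NoClosed w' X Y := by
  induction h with
  | rel _ _ h =>
    cases h with
    | iso h => exact h.noClosed
    | cc h => exact ⟨noClosed_cc, noClosed_cc⟩
  | refl _ => rfl
  | symm _ _ _ ih => exact ih.symm
  | trans _ _ _ _ _ ih1 ih2 => exact ih1.trans ih2

/-- labellings can be transported along isotopies -/
theorem iso_lift {f : β → α} {X Y : List (Pt α)} {w w' : Word α} (h : Iso X Y w w') :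
    ∀ {X' Y' : List (Pt β)}, relabelPts f X' = X →
      ((∃ w1, relabel f w1 = w ∧ Run w1 X' Y') ↔ (∃ w1, relabel f w1 = w' ∧ Run w1 X' Y')) := by
  induction h with
  | rel _ _ h =>
    intro X' Y' hX'
    cases h with
    | @mk A C X0 Y0 u r s v hu hm hv =>
      constructor
      · rintro ⟨w1, hw1, hrun⟩
        obtain ⟨u', s', r', v', A', C', X0', Y0', rfl, h1, h2, h3, h4, h5, h6, h7, h8, h9, h10,
          h11, h12⟩ := lift_step hu hm.run_left (hm.liftTo f).1 hw1 hX' hrun
        have lA : A'.length = A.length := by rw [← h5]; simp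
        refine ⟨u' ++ (sh A.length r' ++ v'), by simp [h1, h3, h4], h9.append (Run.append ?_ h12)⟩
        have := h11.shift A' C'
        rwa [lA] at this
      · rintro ⟨w1, hw1, hrun⟩
        obtain ⟨u', s', r', v', A', C', X0', Y0', rfl, h1, h2, h3, h4, h5, h6, h7, h8, h9, h10,
          h11, h12⟩ := lift_step hu hm.run_right (hm.liftTo f).2 hw1 hX' hrun
        have lA : A'.length = A.length := by rw [← h5]; simp
        refine ⟨u' ++ (sh A.length r' ++ v'), by simp [h1, h3, h4], h9.append (Run.append ?_ h12)⟩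
        have := h11.shift A' C'
        rwa [lA] at this
  | refl _ => intro X' Y' _; rfl
  | symm _ _ _ ih => intro X' Y' h; exact (ih h).symm
  | trans _ _ _ _ _ ih1 ih2 => intro X' Y' h; exact (ih1 h).trans (ih2 h)

end MP5b16f0
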