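import Pool.Agent.Lib.MP_5b16f0_gt.Detach
import Pool.Agent.Lib.MP_5b16f0_gt.NC

/-!
# Moving all fingers of a box to the bottom
-/

namespace MP5b16f0

universe u v

variable {α : Type u} {β : Type v}

/-- `π` permutes the pairs `prs ys` to `prs zs`, with inverse `πi`; the cups are permuted -/
structure PermW (ys zs : List (Pt α)) (π πi : Word α) : Prop where
  run : Run π (prs ys) (prs zs)
  runi : Run πi (prs zs) (prs ys)
  inv : Iso (prs ys) (prs ys) (π ++ πi) []
  inv' : Iso (prs zs) (prs zs) (πi ++ π) []
  cups : Iso [] (prs zs) (cups ys ++ π) (cups zs)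

theorem PermW.refl (ys : List (Pt α)) : PermW ys ys [] [] :=
  ⟨Run.nil _, Run.nil _, Iso.refl _, Iso.refl _, Iso.of_eq (by simp)⟩

theorem PermW.cast {ys zs ys' zs' : List (Pt α)} {π πi : Word α} (h : PermW ys zs π πi)
    (hy : ys = ys') (hz : zs = zs') : PermW ys' zs' π πi := by subst hy hz; exact h

theorem PermW.trans {ys zs ts : List (Pt α)} {π πi ρ ρi : Word α} (h : PermW ys zs π πi)
    (h' : PermW zs ts ρ ρi) : PermW ys ts (π ++ ρ) (ρi ++ πi) := by
  refine ⟨h.run.append h'.run, h'.runi.append h.runi, ?_, ?_, ?_⟩
  · refine Iso.trans (Iso.of_eq ?_) ((h'.inv.congr h.run h.runi).trans (Iso.trans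
      (Iso.of_eq ?_) h.inv))
    · simp
    · simp
  · refine Iso.trans (Iso.of_eq ?_) ((h.inv'.congr h'.runi h'.run).trans (Iso.trans
      (Iso.of_eq ?_) h'.inv'))
    · simp
    · simp
  · refine Iso.trans (Iso.of_eq ?_) ((h.cups.appR h'.run).trans h'.cups)
    simp

theorem Theta.perm {N : ℕ} {ys zs : List (Pt α)} {π πi θ : Word α} (h : PermW ys zs π πi)
    (hθ : Theta N ys θ) : Theta N zs (θ ++ π) := by
  obtain ⟨w, wi, hw, hi⟩ := hθ
  refine ⟨πi ++ (w ++ π), πi ++ (wi ++ π), hw.conj h.runi h.run h.inv' h.inv, ?_⟩
  have e1 := hi.appR h.run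
  have e2 := (h.inv.congr (run_cups ys) (hw.run.append h.run)).symm
  have e3 := h.cups.appR (h.runi.append (hw.run.append h.run))
  refine e1.trans (Iso.trans (Iso.of_eq ?_) (e2.trans (Iso.trans (Iso.of_eq ?_) e3)))
  · simp
  · simp

/-- exchanging two blocks of pairs -/
theorem permW_blk (s : Bool) (U W : List (Pt α)) :
    PermW (U ++ W) (W ++ U) (blkR s (prs U).length (prs W).length)
      (blkR (!s) (prs W).length (prs U).length) := by
  refine ⟨?_, ?_, ?_, ?_, ?_⟩
  · rw [prs_append, prs_append]; exact run_blkR s _ _
  · rw [prs_append, prs_append]; exact run_blkR (!s) _ _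
  · rw [prs_append]; exact blkR_inv s _ _
  · have := blkR_inv (!s) (prs W) (prs U)
    rw [Bool.not_not] at this
    rw [prs_append]; exact this
  · have e1 := ((natB2 s (prs U) (run_cups W)).symm.cast (by simp) rfl).appL (run_cups U)
    have e2 := interchange (run_cups W) (run_cups U)
    simp only [List.length_nil, sh_zero, blkR_zero', List.nil_append] at e1 e2
    refine Iso.trans (Iso.of_eq ?_) ((e1.cast rfl (by simp)).trans (Iso.trans
      ((e2.symm.cast rfl (by simp))) (Iso.of_eq ?_)))
    · rw [cups_append]; simp
    · rw [cups_append]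

theorem PermW.shiftL {ys zs : List (Pt α)} {π πi : Word α} (h : PermW ys zs π πi)
    (T : List (Pt α)) :
    PermW (T ++ ys) (T ++ zs) (sh (prs T).length π) (sh (prs T).length πi) := by
  refine ⟨?_, ?_, ?_, ?_, ?_⟩
  · rw [prs_append, prs_append]; exact h.run.shiftL _
  · rw [prs_append, prs_append]; exact h.runi.shiftL _
  · rw [prs_append, ← sh_append]; exact h.inv.shiftL _
  · rw [prs_append, ← sh_append]; exact h.inv'.shiftL _
  · have := (h.cups.shiftL (prs T)).appL (u := MP5b16f0.cups T) (by simpa using run_cups T)
    refine Iso.trans (Iso.of_eq ?_) ((this.cast rfl (by simp)).trans (Iso.of_eq ?_))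
    · rw [cups_append]; simp
    · rw [cups_append]

theorem onlyCrs_slR (s : Bool) (k : ℕ) : OnlyCrs (slR s k : Word α) := by
  induction k with
  | zero => intro x hx; simp at hx
  | succ k ih =>
    intro x hx
    rw [slR_succ, List.mem_cons] at hx
    rcases hx with rfl | hx
    · exact ⟨s, rfl⟩
    · simp only [sh, List.mem_map] at hx
      obtain ⟨y, hy, rfl⟩ := hx
      exact ih y hy

theorem OnlyCrs.sh {w : Word α} (h : OnlyCrs w) (k : ℕ) : OnlyCrs (sh k w) := by
  intro x hx
  simp only [MP5b16f0.sh, List.mem_map] at hx
  obtain ⟨y, hy, rfl⟩ := hx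
  exact h y hy

theorem OnlyCrs.append {w w' : Word α} (h : OnlyCrs w) (h' : OnlyCrs w') :
    OnlyCrs (w ++ w') := by
  intro x hx
  rw [List.mem_append] at hx
  rcases hx with hx | hx
  · exact h x hx
  · exact h' x hx

theorem onlyCrs_blkR (s : Bool) (n k : ℕ) : OnlyCrs (blkR s n k : Word α) := by
  induction n with
  | zero => intro x hx; simp at hx
  | succ n ih =>
    rw [blkR_succ]
    exact (ih.sh 1).append (onlyCrs_slR s k)

@[simp] theorem relabel_slR (f : β → α) (s : Bool) (k : ℕ) :
    relabel f (slR s k : Word β) = slR s k := by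
  induction k with
  | zero => rfl
  | succ k ih => simp [slR_succ, ih, Gen.relabel]

@[simp] theorem relabel_blkR (f : β → α) (s : Bool) (n k : ℕ) :
    relabel f (blkR s n k : Word β) = blkR s n k := by
  induction n with
  | zero => rfl
  | succ n ih => simp [blkR_succ, ih]

/-- Some finger can be detached: it is attached again at a point of the bottom level `V`. -/
theorem exists_detach {V xs : List (Pt α)} {e : Word α} (hV : ∀ l, occ l V ≤ 1)
    (hxs : xs ≠ []) (he : Run e (V ++ prs xs) V)
    (hnc : NoClosed (sh V.length (cups xs) ++ e) V V) :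
    ∃ (A C X1 X2 : List (Pt α)) (q x : Pt α), V = A ++ q :: C ∧ xs = X1 ++ x :: X2 ∧
      q.1 = x.1 ∧
      JEq x (V ++ prs (X1 ++ X2)) V (sh (V ++ prs X1).length (blkR false (prs X2).length 2) ++ e)
        (sh A.length (att x q (C ++ prs (X1 ++ X2)).length) ++
          (((V ++ prs (X1 ++ X2)).length, Gen.cup (op x)) ::
            (sh (V ++ prs X1).length (blkR false (prs X2).length 2) ++ e))) := by
  obtain ⟨e1, A1, C1, L1, L2, Y1, a1, b1, h1, h2, h3, h4, h5, h6, h7⟩ :=
    exists_conn hV hxs he hnc
  rw [relabelPts_append, relabelPts_cons] at h2 h3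
  obtain ⟨X1, x, X2, rfl, hx⟩ := prs_eq_append h3.symm
  have hq : (a1.1.1 : α) = x.1 := by
    rw [h6]
    rcases hx with ⟨_, hb, _⟩ | ⟨_, hb, _⟩
    · exact congrArg Prod.fst hb
    · exact congrArg Prod.fst hb
  refine ⟨relabelPts Prod.fst A1, relabelPts Prod.fst C1, X1, X2, (a1.1.1, a1.2), x, h2.symm,
    rfl, hq, ?_⟩
  have hrun : Run (sh (V ++ prs X1).length (blkR false (prs X2).length 2) ++ e)
      (relabelPts Prod.fst A1 ++ (a1.1.1, a1.2) ::
        ((relabelPts Prod.fst C1 ++ prs (X1 ++ X2)) ++ [op x, x])) V := by
    have r1 : Run (sh (V ++ prs X1).length (blkR false (prs X2).length 2))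
        (V ++ (prs (X1 ++ X2) ++ [op x, x])) (V ++ prs (X1 ++ x :: X2)) := by
      exact Run.cast ((run_blkR false (prs X2) [op x, x]).shiftL (V ++ prs X1)) (by first | rfl | (simp; done) | (simp; omega) | (simp; ring_nf; done) | (simp; constructor <;> (first | rfl | omega | (ring_nf; done))) | (ring_nf; done)) (by first | rfl | (simp; done) | (simp; omega) | (simp; ring_nf; done) | (simp; constructor <;> (first | rfl | omega | (ring_nf; done))) | (ring_nf; done)) (by first | rfl | (simp; done) | (simp; omega) | (simp; ring_nf; done) | (simp; constructor <;> (first | rfl | omega | (ring_nf; done))) | (ring_nf; done))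
    have := r1.append he
    rw [← h2] at this
    rw [← h2]
    simpa using this
  have hcon := detach (x := x) (q := (a1.1.1, a1.2)) (A := relabelPts Prod.fst A1)
    (C := relabelPts Prod.fst C1 ++ prs (X1 ++ X2)) hq hrun ?_
  · rw [← h2]
    have e0 : relabelPts Prod.fst A1 ++ (a1.1.1, a1.2) :: (relabelPts Prod.fst C1 ++
      prs (X1 ++ X2)) = relabelPts Prod.fst A1 ++ (a1.1.1, a1.2) :: relabelPts Prod.fst C1 ++
      prs (X1 ++ X2) := by simp
    rw [e0] at hcon
    rw [← h2] at hcon
    exact hcon
  · intro e' A' C' Y' q' j1 j2 k1 k2 k3 k4 k5 k6 k7 k8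
    obtain ⟨β', e'', rfl, m1, m2⟩ := relabel_eq_append k1
    obtain rfl : β' = sh (V ++ prs X1).length (blkR false (prs X2).length 2) :=
      onlyCrs_inj ((onlyCrs_blkR _ _ _).sh _) m1 (by simp)
    rw [prs_append] at k4
    obtain ⟨C0, PX, rfl, k9, k10⟩ := relabelPts_eq_append k4
    obtain ⟨P1, P2, rfl, k11, k12⟩ := relabelPts_eq_append k10
    have lV : (V ++ prs X1).length = (A' ++ q' :: (C0 ++ P1)).length := by
      rw [← h2, ← k11, ← k9, ← k2]
      simp
    have lP : (prs X2).length = P2.length := by rw [← k12]; simp
    have r1 : Run (sh (V ++ prs X1).length (blkR false (prs X2).length 2))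
        (A' ++ q' :: (C0 ++ (P1 ++ P2) ++ [j1, j2]))
        (A' ++ q' :: (C0 ++ P1) ++ ([j1, j2] ++ P2)) := by
      have := (run_blkR false P2 [j1, j2]).shiftL (A' ++ q' :: (C0 ++ P1))
      rw [← lV, ← lP] at this
      simpa using this
    have r2 := k7.append_cancel r1
    have hXe : relabelPts Prod.fst (A1 ++ a1 :: C1 ++ (L1 ++ b1 :: L2)) = V ++
        prs (X1 ++ x :: X2) := by
      rw [relabelPts_append, relabelPts_append, relabelPts_cons, relabelPts_append,
        relabelPts_cons, h2, h3]
    have lA : A1.length = A'.length := by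
      rw [← length_relabelPts Prod.fst A1, ← k2, length_relabelPts]
    have lC : C1.length = C0.length := by
      rw [← length_relabelPts Prod.fst C1, ← k9, length_relabelPts]
    rcases hx with ⟨n1, n2, n3⟩ | ⟨n1, n2, n3⟩
    · -- left leg
      left
      have lL : L1.length = P1.length := by
        rw [← length_relabelPts Prod.fst L1, n1, ← k11, length_relabelPts]
      have := fine_same (w := e) (f := Prod.fst) (A1 := A1) (B1 := C1 ++ L1) (C1 := L2)
        (A2 := A') (B2 := C0 ++ P1) (C2 := j2 :: P2) (a2 := q') (b2 := j1) h1 m2
        (by simpa using h5) (by simpa using r2)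
        (by
          have e3 : A1 ++ a1 :: (C1 ++ L1) ++ b1 :: L2 = A1 ++ a1 :: C1 ++ (L1 ++ b1 :: L2) := by
            simp
          rw [e3, hXe, ← h2]
          simp [k2, k3, k9, k11, k12, k5, k6])
        lA (by simp [lC, lL]) (by intro l; have := h7 l; simpa using this) h6
      rw [← this]; exact k8
    · right
      have lL : L1.length = P1.length + 1 := by
        rw [← length_relabelPts Prod.fst L1, n1, ← k11]
        simp
      have := fine_same (w := e) (f := Prod.fst) (A1 := A1) (B1 := C1 ++ L1) (C1 := L2)
        (A2 := A') (B2 := C0 ++ (P1 ++ [j1])) (C2 := P2) (a2 := q') (b2 := j2) h1 m2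
        (by simpa using h5) (by simpa using r2)
        (by
          have e3 : A1 ++ a1 :: (C1 ++ L1) ++ b1 :: L2 = A1 ++ a1 :: C1 ++ (L1 ++ b1 :: L2) := by
            simp
          rw [e3, hXe, ← h2]
          simp [k2, k3, k9, k11, k12, k5, k6])
        lA (by simp [lC, lL]) (by intro l; have := h7 l; simpa using this) h6
      rw [← this]; exact k8

/-- Moving all fingers of a box to the bottom, one after the other. -/
theorem absorb_all {V : List (Pt α)} (hV : ∀ l, occ l V ≤ 1) (n : ℕ) :
    ∀ (xs ys : List (Pt α)) (A e : Word α), xs.length = n → Run A (V ++ prs ys) V →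
      Run e (V ++ prs xs) V → NoClosed (sh V.length (cups xs) ++ e) V V →
      ∃ (zs : List (Pt α)) (π πi A' : Word α), PermW (ys ++ xs) zs π πi ∧
        Run A' (V ++ prs zs) V ∧
        (Iso V V (sh V.length (cups ys) ++ A) [] → Iso V V (sh V.length (cups zs) ++ A') []) ∧
        ∀ (N : ℕ) (θ : Word α), Theta N (ys ++ xs) θ →
          Cong (N + 1) V V (sh V.length θ ++ (A ++ e))
            (sh V.length (θ ++ π) ++ (A' ++ (sh V.length (cups xs) ++ e))) := by
  induction n with
  | zero =>
    intro xs ys A e hn hA he hnc
    obtain rfl := List.length_eq_zero_iff.1 hn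
    exact ⟨ys, [], [], A, (PermW.refl ys).cast (by simp) rfl, hA, fun h => h,
      fun N θ _ => Cong.of_eq (by simp)⟩
  | succ n ih =>
    intro xs ys A e hn hA he hnc
    have hxs : xs ≠ [] := by rintro rfl; simp at hn
    obtain ⟨A0, C0, X1, X2, q, x, hVq, rfl, hq, hj⟩ := exists_detach hV hxs he hnc
    -- abbreviations
    set β0 : Word α := blkR true 2 (prs X2).length with hβ0
    set β1 : Word α := blkR false (prs X2).length 2 with hβ1
    set e2 : Word α := sh (V ++ prs X1).length β1 ++ e with he2
    set e3 : Word α := ((V ++ prs (X1 ++ X2)).length, Gen.cup (op x)) :: e2 with he3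
    set γ : Word α := blkR false (prs (X1 ++ X2)).length 2 with hγ
    have p1 : PermW (ys ++ (X1 ++ x :: X2)) (ys ++ (X1 ++ (X2 ++ [x])))
        (sh (prs ys).length (sh (prs X1).length β0))
        (sh (prs ys).length (sh (prs X1).length β1)) := by
      have := ((permW_blk true [x] X2).shiftL X1).shiftL ys
      exact this
    have p2 : PermW (ys ++ (X1 ++ (X2 ++ [x]))) (ys ++ ([x] ++ (X1 ++ X2)))
        (sh (prs ys).length γ) (sh (prs ys).length (blkR true 2 (prs (X1 ++ X2)).length)) := by
      have := (permW_blk false (X1 ++ X2) [x]).shiftL ys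
      exact this.cast (by simp) rfl
    have re2 : Run e2 (V ++ (prs (X1 ++ X2) ++ [op x, x])) V := by
      have r1 : Run (sh (V ++ prs X1).length β1)
          (V ++ (prs (X1 ++ X2) ++ [op x, x])) (V ++ prs (X1 ++ x :: X2)) := by
        exact Run.cast ((run_blkR false (prs X2) [op x, x]).shiftL (V ++ prs X1)) (by first | rfl | (simp; done) | (simp; omega) | (simp; ring_nf; done) | (simp; constructor <;> (first | rfl | omega | (ring_nf; done))) | (ring_nf; done)) (by first | rfl | (simp; done) | (simp; omega) | (simp; ring_nf; done) | (simp; constructor <;> (first | rfl | omega | (ring_nf; done))) | (ring_nf; done)) (by first | rfl | (simp; done) | (simp; omega) | (simp; ring_nf; done) | (simp; constructor <;> (first | rfl | omega | (ring_nf; done))) | (ring_nf; done))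
      exact r1.append he
    have re3 : Run e3 (V ++ prs (X1 ++ X2)) V := by
      have r1 : Run [((V ++ prs (X1 ++ X2)).length, Gen.cup (op x))] (V ++ prs (X1 ++ X2))
          (V ++ (prs (X1 ++ X2) ++ [op x, x])) := by
        have := run_cup (op x) (V ++ prs (X1 ++ X2)) []
        simpa using this
      exact r1.append re2
    -- the finger attached at `q`
    have rA2 : Run (A ++ sh A0.length (att x q C0.length)) (V ++ prs (ys ++ [x])) V := by
      have r1 : Run A (V ++ prs (ys ++ [x])) (A0 ++ (q :: (C0 ++ [op x, x]))) := by
        have := hA.right [op x, x]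
        rw [hVq] at this ⊢
        simpa using this
      refine r1.append ?_
      have := (run_att hq C0).shiftL A0
      rw [← hVq] at this
      exact this
    -- cups of `xs` followed by `e` is isotopic to cups of `X1 ++ X2` followed by `e3`
    have iso_e : Iso V V (sh V.length (cups (X1 ++ X2)) ++ e3)
        (sh V.length (cups (X1 ++ x :: X2)) ++ e) := by
      have p3 := ((permW_blk true [x] X2).shiftL X1)
      have i1 := p3.cups.shiftL V
      have i2 := (i1.cast (X' := V) (by simp) rfl).appR (v := e2) (Y' := V) (by
        have := re2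
        simpa using this)
      have i3 := (p3.inv.shiftL V).congr (u := sh V.length (cups (X1 ++ ([x] ++ X2)))) (v := e)
        (X' := V) (Y' := V) (by
          have := (run_cups (X1 ++ ([x] ++ X2))).shiftL V
          simpa using this) he
      refine Iso.trans (Iso.of_eq ?_) (i2.symm.trans (Iso.trans (Iso.of_eq ?_) (i3.trans
        (Iso.of_eq ?_))))
      · rw [he3, ← List.append_assoc X1 X2 [x], cups_append (X1 ++ X2) [x]]
        simp [cups_cons, Nat.add_comm]
      · rw [he2]
        simp [hβ1, hβ0, Nat.add_comm]
      · simp
    have hnc3 : NoClosed (sh V.length (cups (X1 ++ X2)) ++ e3) V V :=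
      iso_e.noClosed.2 hnc
    obtain ⟨zs, π, πi, A', q1, q2, q3, q4⟩ := ih (X1 ++ X2) (ys ++ [x])
      (A ++ sh A0.length (att x q C0.length)) e3 (by simp at hn ⊢; omega) rA2 re3 hnc3
    refine ⟨zs, sh (prs ys).length (sh (prs X1).length β0) ++ (sh (prs ys).length γ ++ π),
      _, A', p1.trans (p2.trans (q1.cast (by simp) rfl)), q2, ?_, ?_⟩
    · intro hi
      apply q3
      -- the finger retracts
      have c1 : Run (sh (V ++ prs ys).length [(0, Gen.cup (op x))]) (V ++ prs ys)
          (V ++ (prs ys ++ [op x, x])) := by
        have := run_cup (op x) (V ++ prs ys) []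
        simpa using this
      have rc : Run [(0, Gen.cup (op x))] [] [op x, x] := by exact Run.cast (run_cup (op x) [] []) (by first | rfl | (simp; done) | (simp; omega) | (simp; ring_nf; done) | (simp; constructor <;> (first | rfl | omega | (ring_nf; done))) | (ring_nf; done)) (by first | rfl | (simp; done) | (simp; omega) | (simp; ring_nf; done) | (simp; constructor <;> (first | rfl | omega | (ring_nf; done))) | (ring_nf; done)) (by first | rfl | (simp; done) | (simp; omega) | (simp; ring_nf; done) | (simp; constructor <;> (first | rfl | omega | (ring_nf; done))) | (ring_nf; done))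
      have i1 := (interchange hA rc).symm.congr (u := sh V.length (cups ys))
        (v := sh A0.length (att x q C0.length)) (X' := V) (Y' := V)
        (by have := (run_cups ys).shiftL V; simpa using this)
        (by
          have := (run_att hq C0).shiftL A0
          rw [← hVq] at this
          rw [hVq] at this ⊢
          simpa using this)
      have hw : Run [(C0.length, Gen.cup (op x))] C0 (C0 ++ [op x, x]) := by
        exact Run.cast (run_cup (op x) C0 []) (by first | rfl | (simp; done) | (simp; omega) | (simp; ring_nf; done) | (simp; constructor <;> (first | rfl | omega | (ring_nf; done))) | (ring_nf; done)) (by first | rfl | (simp; done) | (simp; omega) | (simp; ring_nf; done) | (simp; constructor <;> (first | rfl | omega | (ring_nf; done))) | (ring_nf; done)) (by first | rfl | (simp; done) | (simp; omega) | (simp; ring_nf; done) | (simp; constructor <;> (first | rfl | omega | (ring_nf; done))) | (ring_nf; done))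
      have ratt : Run (att x q C0.length) (q :: (C0 ++ [op x, x])) (q :: C0) := run_att hq C0
      -- cup followed by `att` is trivial
      have i2 : Iso (q :: C0) (q :: C0) (((C0.length + 1, Gen.cup (op x)) :: att x q C0.length))
          [] := by
        have n1 := (natB1 false [op x, x] (Run.nil C0))
        have n2 := (natB2 false C0 rc).shiftL [q] |>.appR (v := attG x q) (Y' := q :: C0)
          (by exact Run.cast ((run_attG hq).right C0) (by first | rfl | (simp; done) | (simp; omega) | (simp; ring_nf; done) | (simp; constructor <;> (first | rfl | omega | (ring_nf; done))) | (ring_nf; done)) (by first | rfl | (simp; done) | (simp; omega) | (simp; ring_nf; done) | (simp; constructor <;> (first | rfl | omega | (ring_nf; done))) | (ring_nf; done)) (by first | rfl | (simp; done) | (simp; omega) | (simp; ring_nf; done) | (simp; constructor <;> (first | rfl | omega | (ring_nf; done))) | (ring_nf; done)))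
        have n3 : Iso [q] [q] ((1, Gen.cup (op x)) :: attG x q) [] := by
          rcases eq_or_op hq with ⟨g1, g2⟩ | ⟨g1, g2⟩
          · subst g2
            have := (Move.zig q).iso
            simpa [attG] using this
          · subst g2
            have m1 := (natR false (op x) rc).appR (v := [(1, Gen.cap x)]) (Y' := [op x])
              (run1 (Gen.Acts.cap x) [op x] [] rfl rfl rfl |> fun h => by
                have h2 : Run [(1, Gen.cap x)] [op x, x, op x] [op x] := h
                simpa using h2)
            have m2 := (mv_zag (a := op x) (b := x) (by simp))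
            refine Iso.trans (Iso.of_eq ?_) (m1.symm.trans (Iso.trans (Iso.of_eq ?_) m2))
            · simp [attG, op_ne]
            · simp
        have n3' := n3.right C0
        refine Iso.trans (Iso.of_eq ?_) ((n2.symm.cast (by simp) rfl).trans
          (Iso.trans (Iso.of_eq ?_) (n3'.cast (by simp) (by simp))))
        · simp [att, Nat.add_comm]
        · simp
      have i3 := (i2.shiftL A0).appL (u := sh V.length (cups ys) ++ A) (X' := V)
        (by
          rw [← hVq]
          refine Run.append ?_ hA
          have := (run_cups ys).shiftL V; simpa using this)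
      rw [← hVq] at i3
      refine Iso.trans (Iso.of_eq ?_) ((i1).trans (Iso.trans (Iso.of_eq ?_) (i3.trans
        (Iso.trans (Iso.of_eq ?_) hi))))
      · rw [cups_append]; simp [cups_cons]; omega
      · rw [hVq]; simp [Nat.add_comm, Nat.add_left_comm]
      · simp
    · intro N θ hθ
      -- move `x` to the right
      have t1 : Theta N (ys ++ (X1 ++ (X2 ++ [x])))
          (θ ++ sh (prs ys).length (sh (prs X1).length β0)) := hθ.perm p1
      have t2 : Theta N (ys ++ ([x] ++ (X1 ++ X2)))
          ((θ ++ sh (prs ys).length (sh (prs X1).length β0)) ++ sh (prs ys).length γ) :=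
        t1.perm p2
      have hfin := q4 N _ (by simpa using t2)
      have rθ : Run (sh V.length θ) V (V ++ prs (ys ++ (X1 ++ x :: X2))) := by
        have := hθ.run.shiftL V
        simpa using this
      -- step 1 : insert the slide and its inverse
      have s1 : Iso V V (sh V.length θ ++ (A ++ e))
          (sh V.length θ ++ (A ++ (sh (V ++ prs X1).length β0 ++ e2))) := by
        have i := ((blkR_inv true [op x, x] (prs X2)).shiftL (V ++ prs X1)).symm.appR
          (v := e) (Y' := V) (by
            have := he
            simpa using this)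
        have i' := (i.cast (X' := V ++ prs (X1 ++ x :: X2)) (by simp) rfl).appL
          (u := sh V.length θ ++ A) (X' := V) (by
            refine Run.append rθ ?_
            have := hA.right (prs (X1 ++ x :: X2))
            simpa using this)
        refine Iso.trans (Iso.of_eq ?_) (i'.trans (Iso.of_eq ?_))
        · simp
        · simp [he2, hβ0, hβ1]
      -- step 2 : commute `A` with the slide
      have s2 : Iso V V (sh V.length θ ++ ((A ++ sh V.length (sh (prs X1).length β0)) ++ e2))
          (sh V.length θ ++ ((sh (V ++ prs ys).length (sh (prs X1).length β0) ++ A) ++ e2)) := by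
        have r1 : Run (sh (prs X1).length β0) (prs (X1 ++ x :: X2))
            (prs (X1 ++ X2) ++ [op x, x]) := by
          have := ((permW_blk true [x] X2).shiftL X1).run
          simpa [hβ0] using this
        exact (interchange hA r1).congr (by simpa using rθ) re2
      -- step 3 : detach
      have s3 := theta_jeq (N := N) (ys := ys ++ (X1 ++ X2)) (x := x)
        (θ := θ ++ sh (prs ys).length (sh (prs X1).length β0))
        (by simpa using t1) (V := V) (Z := V ++ prs (X1 ++ X2)) (A := A)
        (by
          have := hA.right (prs (X1 ++ X2))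
          simpa using this) hj
      -- step 4 : slide the finger over the other pairs
      have s4 : Iso V V
          (sh V.length (θ ++ sh (prs ys).length (sh (prs X1).length β0)) ++
            ((A ++ sh V.length γ) ++ (sh A0.length (att x q C0.length) ++ e3)))
          (sh V.length (θ ++ sh (prs ys).length (sh (prs X1).length β0)) ++
            ((sh (V ++ prs ys).length γ ++ A) ++ (sh A0.length (att x q C0.length) ++ e3))) := by
        have r1 : Run γ (prs (X1 ++ X2) ++ [op x, x]) ([op x, x] ++ prs (X1 ++ X2)) := by
          rw [hγ]; exact run_blkR false (prs (X1 ++ X2)) [op x, x]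
        refine (interchange hA r1).congr ?_ ?_
        · have := t1.run.shiftL V
          simpa using this
        · refine Run.append (Y := V ++ prs (X1 ++ X2)) ?_ re3
          have := ((run_att hq C0).shiftL A0).right (prs (X1 ++ X2))
          rw [hVq]
          simpa using this
      refine (s1.trans ((Iso.of_eq ?_).trans (s2.trans (Iso.of_eq ?_)))).cong.trans
        (s3.trans ((Iso.cong ((Iso.of_eq ?_).trans (s4.trans (Iso.of_eq ?_)))).trans
        (hfin.trans ?_)))
      · simp
        rw [Nat.add_comm]
      · simp
        congr 1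
        omega
      · simp [att, hγ, hVq, blkR_add]
        ring_nf
      · simp
        ring_nf
      · have k1 : Run (sh V.length ((θ ++ sh (prs ys).length (sh (prs X1).length β0)) ++
            sh (prs ys).length γ ++ π)) V (V ++ prs zs) := by
          have := (t2.perm (q1.cast (by simp) rfl)).run.shiftL V
          simpa using this
        have k2 := (iso_e.appL (u := _ ++ A') (k1.append q2)).cong (N := N + 1)
        refine Cong.trans (Cong.of_eq ?_) (k2.trans (Cong.of_eq ?_))
        · simp
        · simp

end MP5b16f0
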