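import Pool.Agent.Lib.MP_5b16f0_gt.Defs

/-!
# Basic calculus of tangle words
-/

namespace MP5b16f0

universe u v

variable {α : Type u} {β : Type v}

@[simp] theorem op_op (a : Pt α) : op (op a) = a := by
  simp [op]

@[simp] theorem sh_nil (k : ℕ) : sh k ([] : Word α) = [] := rfl

@[simp] theorem sh_cons (k p : ℕ) (g : Gen α) (w : Word α) :
    sh k ((p, g) :: w) = (p + k, g) :: sh k w := rfl

@[simp] theorem sh_append (k : ℕ) (u v : Word α) : sh k (u ++ v) = sh k u ++ sh k v := by
  simp [sh]

@[simp] theorem sh_zero (w : Word α) : sh 0 w = w := by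
  induction w with
  | nil => rfl
  | cons x w ih => obtain ⟨p, g⟩ := x; simp [ih]

@[simp] theorem sh_sh (k l : ℕ) (w : Word α) : sh k (sh l w) = sh (l + k) w := by
  induction w with
  | nil => rfl
  | cons x w ih => obtain ⟨p, g⟩ := x; simp [ih, Nat.add_assoc]



/-! ### `Run` -/

theorem Run.append {u v : Word α} {X Y Z : List (Pt α)} (hu : Run u X Y) (hv : Run v Y Z) :
    Run (u ++ v) X Z := by
  induction hu with
  | nil X => simpa using hv
  | cons hg _ ih => exact Run.cons hg (ih hv)

theorem Run.append_inv {u v : Word α} {X Z : List (Pt α)} (h : Run (u ++ v) X Z) :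
    ∃ Y, Run u X Y ∧ Run v Y Z := by
  induction u generalizing X with
  | nil => exact ⟨X, Run.nil X, h⟩
  | cons x u ih =>
    obtain ⟨p, g⟩ := x
    rw [List.cons_append] at h
    cases h with
    | cons hg hw =>
      obtain ⟨Y, h1, h2⟩ := ih hw
      exact ⟨Y, Run.cons hg h1, h2⟩

theorem Run.shift {w : Word α} {X Y : List (Pt α)} (h : Run w X Y) (A C : List (Pt α)) :
    Run (sh A.length w) (A ++ (X ++ C)) (A ++ (Y ++ C)) := by
  induction h with
  | nil X => exact Run.nil _
  | @cons A' B C' D Y g w hg _ ih =>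
    have := @Run.cons α (A ++ A') B C' (D ++ C) (A ++ (Y ++ C)) g (sh A.length w) hg
      (by simpa using ih)
    simpa [Nat.add_comm] using this

theorem Run.shiftL {w : Word α} {X Y : List (Pt α)} (h : Run w X Y) (A : List (Pt α)) :
    Run (sh A.length w) (A ++ X) (A ++ Y) := by
  simpa using h.shift A []

theorem Run.right {w : Word α} {X Y : List (Pt α)} (h : Run w X Y) (C : List (Pt α)) :
    Run w (X ++ C) (Y ++ C) := by
  simpa using h.shift [] C

theorem Run.single {g : Gen α} {B C : List (Pt α)} (hg : g.Acts B C) (A D : List (Pt α)) :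
    Run [(A.length, g)] (A ++ (B ++ D)) (A ++ (C ++ D)) :=
  Run.cons hg (Run.nil _)

theorem Gen.Acts.det {g : Gen α} {B C C' : List (Pt α)} (h : g.Acts B C) (h' : g.Acts B C') :
    C = C' := by
  cases h <;> cases h' <;> rfl

theorem Gen.Acts.len {g : Gen α} {B C B' C' : List (Pt α)} (h : g.Acts B C) (h' : g.Acts B' C') :
    B.length = B'.length := by
  cases h <;> cases h' <;> rfl

theorem Run.det {w : Word α} {X Y Y' : List (Pt α)} (h : Run w X Y) (h' : Run w X Y') :
    Y = Y' := by
  induction h with
  | nil X => cases h'; rfl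
  | @cons A B C D Y g w hg _ ih =>
    generalize hX : A ++ (B ++ D) = X at h'
    generalize hp : A.length = p at h'
    cases h' with
    | @cons A' B' C' D' _ _ _ hg' hw' =>
      obtain ⟨h1, h2⟩ := List.append_inj hX hp
      obtain ⟨h3, h4⟩ := List.append_inj h2 (hg.len hg')
      subst h1 h3 h4
      rw [hg.det hg'] at ih
      exact ih hw'

theorem Run.append_cancel {u v : Word α} {X Y Z : List (Pt α)} (h : Run (u ++ v) X Z)
    (hu : Run u X Y) : Run v Y Z := by
  obtain ⟨Y', h1, h2⟩ := h.append_inv
  rwa [hu.det h1]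

theorem Move.run_left {X Y : List (Pt α)} {r s : Word α} (h : Move X Y r s) : Run r X Y := by
  cases h with
  | @comm g h B C B' C' hg hh M =>
    have h1 := Run.single hg [] (M ++ B')
    have h2 := Run.single hh (C ++ M) []
    simp only [List.append_nil, List.nil_append, List.append_assoc, List.length_append,
      List.length_nil] at h1 h2
    exact h1.append h2
  | zig a =>
    have h1 := Run.single (Gen.Acts.cup (op a)) [a] []
    have h2 := Run.single (Gen.Acts.cap a) [] [a]
    simp at h1 h2
    exact h1.append h2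
  | zag a =>
    have h1 := Run.single (Gen.Acts.cup a) [] [a]
    have h2 := Run.single (Gen.Acts.cap (op a)) [a] []
    simp at h1 h2
    exact h1.append h2
  | r1cup a s =>
    have h1 := Run.single (Gen.Acts.cup a) [] []
    have h2 := Run.single (Gen.Acts.crs s a (op a)) [] []
    simp at h1 h2
    exact h1.append h2
  | r1cap a s =>
    have h1 := Run.single (Gen.Acts.crs s a (op a)) [] []
    have h2 := Run.single (Gen.Acts.cap (op a)) [] []
    simp at h1 h2
    exact h1.append h2
  | r2 a b s =>
    have h1 := Run.single (Gen.Acts.crs s a b) [] []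
    have h2 := Run.single (Gen.Acts.crs (!s) b a) [] []
    simp at h1 h2
    exact h1.append h2
  | r3 a b c s =>
    have h1 := Run.single (Gen.Acts.crs s a b) [] [c]
    have h2 := Run.single (Gen.Acts.crs s a c) [b] []
    have h3 := Run.single (Gen.Acts.crs s b c) [] [a]
    simp at h1 h2 h3
    exact h1.append (h2.append h3)
  | slideCup a b s =>
    have h1 := Run.single (Gen.Acts.cup a) [] [b]
    have h2 := Run.single (Gen.Acts.crs s (op a) b) [a] []
    simp at h1 h2
    exact h1.append h2
  | slideCap a b s =>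
    have h1 := Run.single (Gen.Acts.crs s b (op a)) [a] []
    have h2 := Run.single (Gen.Acts.cap a) [] [b]
    simp at h1 h2
    exact h1.append h2

theorem Move.run_right {X Y : List (Pt α)} {r s : Word α} (h : Move X Y r s) : Run s X Y := by
  cases h with
  | @comm g h B C B' C' hg hh M =>
    have h1 := Run.single hg [] (M ++ C')
    have h2 := Run.single hh (B ++ M) []
    simp only [List.append_nil, List.nil_append, List.append_assoc, List.length_append,
      List.length_nil] at h1 h2
    exact h2.append h1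
  | zig a => exact Run.nil _
  | zag a => exact Run.nil _
  | r1cup a s =>
    have h1 := Run.single (Gen.Acts.cup (op a)) [] []
    simpa using h1
  | r1cap a s =>
    have h1 := Run.single (Gen.Acts.cap a) [] []
    simpa using h1
  | r2 a b s => exact Run.nil _
  | r3 a b c s =>
    have h1 := Run.single (Gen.Acts.crs s b c) [a] []
    have h2 := Run.single (Gen.Acts.crs s a c) [] [b]
    have h3 := Run.single (Gen.Acts.crs s a b) [c] []
    simp at h1 h2 h3
    exact h1.append (h2.append h3)
  | slideCup a b s =>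
    have h1 := Run.single (Gen.Acts.cup a) [b] []
    have h2 := Run.single (Gen.Acts.crs (!s) b a) [] [op a]
    simp at h1 h2
    exact h1.append h2
  | slideCap a b s =>
    have h1 := Run.single (Gen.Acts.crs (!s) a b) [] [op a]
    have h2 := Run.single (Gen.Acts.cap a) [b] []
    simp at h1 h2
    exact h1.append h2

/-! ### `Iso` -/

theorem Iso.refl {X Y : List (Pt α)} (w : Word α) : Iso X Y w w := Relation.EqvGen.refl w

theorem Iso.symm {X Y : List (Pt α)} {w w' : Word α} (h : Iso X Y w w') : Iso X Y w' w :=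
  Relation.EqvGen.symm _ _ h

theorem Iso.trans {X Y : List (Pt α)} {w w' w'' : Word α} (h : Iso X Y w w')
    (h' : Iso X Y w' w'') : Iso X Y w w'' :=
  Relation.EqvGen.trans _ _ _ h h'

theorem Iso.of_eq {X Y : List (Pt α)} {w w' : Word α} (h : w = w') : Iso X Y w w' := by
  subst h; exact Iso.refl w

instance {X Y : List (Pt α)} : Trans (Iso X Y) (Iso X Y) (Iso X Y) := ⟨Iso.trans⟩

theorem Step.run_iff {X Y : List (Pt α)} {w w' : Word α} (h : Step X Y w w') :
    Run w X Y ∧ Run w' X Y := by
  cases h with
  | mk hu hm hv =>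
    exact ⟨hu.append ((hm.run_left.shift _ _).append hv),
      hu.append ((hm.run_right.shift _ _).append hv)⟩

theorem Iso.run_iff {X Y : List (Pt α)} {w w' : Word α} (h : Iso X Y w w') :
    Run w X Y ↔ Run w' X Y := by
  induction h with
  | rel _ _ h => exact ⟨fun _ => h.run_iff.2, fun _ => h.run_iff.1⟩
  | refl _ => rfl
  | symm _ _ _ ih => exact ih.symm
  | trans _ _ _ _ _ ih1 ih2 => exact ih1.trans ih2

theorem Iso.run {X Y : List (Pt α)} {w w' : Word α} (h : Iso X Y w w') (hw : Run w X Y) :
    Run w' X Y := h.run_iff.1 hw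

theorem Iso.congr {X Y X' Y' : List (Pt α)} {w w' u v : Word α} (h : Iso X Y w w')
    (hu : Run u X' X) (hv : Run v Y Y') : Iso X' Y' (u ++ (w ++ v)) (u ++ (w' ++ v)) := by
  induction h with
  | rel _ _ h =>
    cases h with
    | @mk A C X0 Y0 u0 r s v0 hu0 hm hv0 =>
      have := Step.mk (hu.append hu0) hm (hv0.append hv)
      apply Relation.EqvGen.rel
      simpa using this
  | refl _ => exact Iso.refl _
  | symm _ _ _ ih => exact ih.symm
  | trans _ _ _ _ _ ih1 ih2 => exact ih1.trans ih2

theorem Iso.appL {X Y X' : List (Pt α)} {w w' u : Word α} (hu : Run u X' X)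
    (h : Iso X Y w w') : Iso X' Y (u ++ w) (u ++ w') := by
  simpa using h.congr hu (Run.nil Y)

theorem Iso.appR {X Y Y' : List (Pt α)} {w w' v : Word α} (h : Iso X Y w w')
    (hv : Run v Y Y') : Iso X Y' (w ++ v) (w' ++ v) := by
  simpa using h.congr (Run.nil X) hv

theorem Iso.app {X Y Z : List (Pt α)} {w w' v v' : Word α} (h : Iso X Y w w')
    (hv : Iso Y Z v v') (h1 : Run w X Y) (h2 : Run v Y Z) :
    Iso X Z (w ++ v) (w' ++ v') :=
  (h.appR h2).trans (hv.appL (h.run h1))

theorem Iso.shift {X Y : List (Pt α)} {w w' : Word α} (h : Iso X Y w w')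
    (A C : List (Pt α)) :
    Iso (A ++ (X ++ C)) (A ++ (Y ++ C)) (sh A.length w) (sh A.length w') := by
  induction h with
  | rel _ _ h =>
    cases h with
    | @mk A0 C0 X0 Y0 u0 r s v0 hu0 hm hv0 =>
      have h1 := hu0.shift A C
      have h2 := hv0.shift A C
      have := @Step.mk α (A ++ (X ++ C)) (A ++ (Y ++ C)) (A ++ A0) (C0 ++ C) X0 Y0
        (sh A.length u0) r s (sh A.length v0) (by simpa using h1) hm (by simpa using h2)
      apply Relation.EqvGen.rel
      simpa [Nat.add_comm] using this
  | refl _ => exact Iso.refl _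
  | symm _ _ _ ih => exact ih.symm
  | trans _ _ _ _ _ ih1 ih2 => exact ih1.trans ih2

theorem Iso.shiftL {X Y : List (Pt α)} {w w' : Word α} (h : Iso X Y w w')
    (A : List (Pt α)) :
    Iso (A ++ X) (A ++ Y) (sh A.length w) (sh A.length w') := by
  simpa using h.shift A []

theorem Iso.right {X Y : List (Pt α)} {w w' : Word α} (h : Iso X Y w w')
    (C : List (Pt α)) : Iso (X ++ C) (Y ++ C) w w' := by
  simpa using h.shift [] C

theorem Move.iso {X Y : List (Pt α)} {r s : Word α} (h : Move X Y r s) : Iso X Y r s := by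
  have := @Step.mk α X Y [] [] X Y [] r s [] (by simpa using Run.nil X) h
    (by simpa using Run.nil Y)
  apply Relation.EqvGen.rel
  simpa using this

/-- cast of types -/
theorem Iso.cast {X Y X' Y' : List (Pt α)} {w w' : Word α} (h : Iso X Y w w')
    (hX : X = X') (hY : Y = Y') : Iso X' Y' w w' := by subst hX hY; exact h

theorem Run.cast {X Y X' Y' : List (Pt α)} {w w' : Word α} (h : Run w X Y)
    (hX : X = X') (hY : Y = Y') (hw : w = w') : Run w' X' Y' := by subst hX hY hw; exact h

theorem Iso.adapt {X Y X' Y' : List (Pt α)} {w w' u u' : Word α} (h : Iso X Y w w')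
    (hX : X = X') (hY : Y = Y') (hw : w = u) (hw' : w' = u') : Iso X' Y' u u' := by
  subst hX hY hw hw'; exact h

theorem Iso.ctx {X Y X' Y' : List (Pt α)} {w w' u v : Word α} (h : Iso X Y w w')
    (A C : List (Pt α)) (hu : Run u X' (A ++ (X ++ C))) (hv : Run v (A ++ (Y ++ C)) Y') :
    Iso X' Y' (u ++ (sh A.length w ++ v)) (u ++ (sh A.length w' ++ v)) :=
  (h.shift A C).congr hu hv

/-- one step of an explicit computation -/
theorem Iso.head {X Y X' Y' : List (Pt α)} {r s W W' : Word α} (h : Iso X Y r s)
    (A C : List (Pt α)) (u v : Word α) (hW : W = u ++ (sh A.length r ++ v))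
    (hu : Run u X' (A ++ (X ++ C))) (hv : Run v (A ++ (Y ++ C)) Y')
    (hrest : Iso X' Y' (u ++ (sh A.length s ++ v)) W') : Iso X' Y' W W' := by
  subst hW
  exact (h.ctx A C hu hv).trans hrest



theorem run_cons' {g : Gen α} {p : ℕ} {w : Word α} {X Y : List (Pt α)} (B C : List (Pt α))
    (hg : g.Acts B C) (h1 : (X.take p).length = p)
    (h2 : X = X.take p ++ (B ++ X.drop (p + B.length)))
    (hw : Run w (X.take p ++ (C ++ X.drop (p + B.length))) Y) : Run ((p, g) :: w) X Y := by
  have := Run.cons hg hw
  rw [h1] at this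
  rw [h2]
  exact this

theorem acts_cup {a b : Pt α} (h : b = op a) : (Gen.cup a).Acts [] [a, b] := by
  subst h; exact Gen.Acts.cup a

theorem acts_cap {a b : Pt α} (h : b = op a) : (Gen.cap a).Acts [a, b] [] := by
  subst h; exact Gen.Acts.cap a


theorem mv_zig {a b : Pt α} (h : b = op a) : Iso [a] [a] [(1, Gen.cup b), (0, Gen.cap a)] [] := by
  subst h; exact (Move.zig a).iso

theorem mv_zag {a b : Pt α} (h : b = op a) : Iso [a] [a] [(0, Gen.cup a), (1, Gen.cap b)] [] := by
  subst h; exact (Move.zag a).iso

theorem mv_r1cup {a b : Pt α} (h : b = op a) (s : Bool) :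
    Iso [] [b, a] [(0, Gen.cup a), (0, Gen.crs s)] [(0, Gen.cup b)] := by
  subst h; exact (Move.r1cup a s).iso

theorem mv_r1cap {a b : Pt α} (h : b = op a) (s : Bool) :
    Iso [a, b] [] [(0, Gen.crs s), (0, Gen.cap b)] [(0, Gen.cap a)] := by
  subst h; exact (Move.r1cap a s).iso

theorem mv_slideCup {a b : Pt α} (h : b = op a) (c : Pt α) (s : Bool) :
    Iso [c] [a, c, b] [(0, Gen.cup a), (1, Gen.crs s)] [(1, Gen.cup a), (0, Gen.crs !s)] := by
  subst h; exact (Move.slideCup a c s).iso

theorem mv_slideCap {a b : Pt α} (h : b = op a) (c : Pt α) (s : Bool) :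
    Iso [a, c, b] [c] [(1, Gen.crs s), (0, Gen.cap a)] [(0, Gen.crs !s), (1, Gen.cap a)] := by
  subst h; exact (Move.slideCap a c s).iso

/-! ### Interchange -/

theorem comm_single {g : Gen α} {B C : List (Pt α)} (hg : g.Acts B C) (A D : List (Pt α))
    {v : Word α} {Y Y' : List (Pt α)} (hv : Run v Y Y') :
    Iso (A ++ (B ++ (D ++ Y))) (A ++ (C ++ (D ++ Y')))
      ((A.length, g) :: sh (A.length + (C.length + D.length)) v)
      (sh (A.length + (B.length + D.length)) v ++ [(A.length, g)]) := by
  induction hv with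
  | nil Y =>
    exact Iso.refl _
  | @cons A' B' C' D' Y' h v hh hv ih =>
    have hm := (Move.comm hg hh (D ++ A')).iso.shift A D'
    have e1 := hm.appR (v := sh (A.length + (C.length + D.length)) v)
      (Y' := A ++ (C ++ (D ++ Y'))) (by
        have := hv.shiftL (A ++ (C ++ D))
        simpa [Nat.add_assoc] using this)
    have hr : Run [(A.length + (B.length + D.length) + A'.length, h)]
        (A ++ (B ++ (D ++ (A' ++ (B' ++ D'))))) (A ++ (B ++ (D ++ (A' ++ (C' ++ D'))))) := by
      have := Run.single hh (A ++ (B ++ (D ++ A'))) D'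
      simpa [Nat.add_assoc] using this
    have e2 := ih.appL hr
    have := e1.trans ((Iso.of_eq (by (first | rfl | (simp; done) | (simp; omega) | (simp; ring_nf; done) | (simp; constructor <;> (first | rfl | omega | (ring_nf; done))) | (ring_nf; done)))).trans
      (e2.cast (by simp) (by simp)))
    refine (Iso.trans (Iso.of_eq ?_) (this.trans (Iso.of_eq ?_))).cast ?_ ?_
    all_goals (first | rfl | (simp; done) | (simp; omega) | (simp; ring_nf; done) | (simp; constructor <;> (first | rfl | omega | (ring_nf; done))) | (ring_nf; done))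

/-- Tangles next to each other commute. -/
theorem interchange {u v : Word α} {X X' Y Y' : List (Pt α)} (hu : Run u X X')
    (hv : Run v Y Y') :
    Iso (X ++ Y) (X' ++ Y') (u ++ sh X'.length v) (sh X.length v ++ u) := by
  induction hu with
  | nil X => simpa using Iso.refl _
  | @cons A B C D Z g w hg hw ih =>
    have e1 : Iso (A ++ (B ++ (D ++ Y))) (Z ++ Y') ([(A.length, g)] ++ (w ++ sh Z.length v))
        ([(A.length, g)] ++ (sh (A ++ (C ++ D)).length v ++ w)) :=
      Iso.appL (Run.single hg A (D ++ Y)) (ih.cast (by simp) rfl)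
    have e2 := (comm_single hg A D hv).appR (v := w) (Y' := Z ++ Y') (by
      simpa using hw.right Y')
    refine (e1.trans ((Iso.of_eq ?_).trans (e2.trans (Iso.of_eq ?_)))).cast ?_ rfl
    all_goals simp

end MP5b16f0
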