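import Mathlib

/-!
# Composition lemma

`F_p`-valued functions of a polynomial map into a finite abelian `p`-group are polynomial.
-/

set_option autoImplicit false

namespace Pool.Agent.Lib.MP_5b16f0_gt

open Finset

/-- Möbius inversion on the powerset of a finite set. -/
theorem moebius_powerset {Q : Type*} [AddCommGroup Q] {ι : Type*} [DecidableEq ι]
    (φ : Finset ι → Q) (S : Finset ι) :
    ∑ T ∈ S.powerset, ∑ U ∈ T.powerset, (-1 : ℤ) ^ (T.card + U.card) • φ U = φ S := by
  classical
  have hcomm : ∑ T ∈ S.powerset, ∑ U ∈ T.powerset, (-1 : ℤ) ^ (T.card + U.card) • φ U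
      = ∑ U ∈ S.powerset, ∑ T ∈ S.powerset with U ⊆ T, (-1 : ℤ) ^ (T.card + U.card) • φ U := by
    refine Finset.sum_comm' ?_
    intro T U
    simp only [mem_powerset, mem_filter]
    constructor
    · rintro ⟨hT, hU⟩
      exact ⟨⟨hT, hU⟩, hU.trans hT⟩
    · rintro ⟨⟨hT, hU⟩, _⟩
      exact ⟨hT, hU⟩
  rw [hcomm, Finset.sum_eq_single_of_mem S (by simp)]
  · rw [show ({T ∈ S.powerset | S ⊆ T} : Finset (Finset ι)) = {S} from ?_]
    · simp [← two_mul, pow_mul]
    · ext T
      simp only [mem_filter, mem_powerset, mem_singleton]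
      constructor
      · rintro ⟨h1, h2⟩
        exact Finset.Subset.antisymm h1 h2
      · rintro rfl
        exact ⟨Finset.Subset.refl _, Finset.Subset.refl _⟩
  · intro U hU hne
    rw [mem_powerset] at hU
    obtain ⟨c, hcS, hcU⟩ : ∃ c ∈ S, c ∉ U := by
      by_contra hcon
      push Not at hcon
      exact hne (Finset.Subset.antisymm hU hcon)
    refine Finset.sum_involution (fun T _ => if c ∈ T then T.erase c else insert c T) ?_ ?_ ?_ ?_
    · intro T hT
      by_cases hc : c ∈ T
      · have h1 : T.card = (T.erase c).card + 1 := (Finset.card_erase_add_one hc).symm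
        simp only [hc, if_true]
        rw [h1, ← add_smul]
        have : (-1 : ℤ) ^ ((T.erase c).card + 1 + U.card) + (-1) ^ ((T.erase c).card + U.card) = 0 := by
          ring
        rw [this, zero_smul]
      · have h1 : (insert c T).card = T.card + 1 := Finset.card_insert_of_notMem hc
        simp only [hc, if_false]
        rw [h1, ← add_smul]
        have : (-1 : ℤ) ^ (T.card + U.card) + (-1) ^ (T.card + 1 + U.card) = 0 := by
          ring
        rw [this, zero_smul]
    · intro T hT _ heq
      by_cases hc : c ∈ T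
      · simp only [hc, if_true] at heq
        rw [← heq] at hc
        simp at hc
      · simp only [hc, if_false] at heq
        rw [← heq] at hc
        simp at hc
    · intro T hT
      rw [mem_filter, mem_powerset] at hT ⊢
      by_cases hc : c ∈ T
      · simp only [hc, if_true]
        refine ⟨(Finset.erase_subset _ _).trans hT.1, ?_⟩
        intro x hx
        exact Finset.mem_erase.2 ⟨fun h => hcU (h ▸ hx), hT.2 hx⟩
      · simp only [hc, if_false]
        refine ⟨Finset.insert_subset hcS hT.1, ?_⟩
        exact hT.2.trans (Finset.subset_insert _ _)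
    · intro T hT
      by_cases hc : c ∈ T
      · simp [hc, Finset.insert_erase hc]
      · simp [hc, Finset.erase_insert hc]

/-- In the group ring over `F_p` of a group of exponent `p ^ s`, products of at least
`|Q| p ^ s` elements `[q] - 1` vanish. -/
theorem prod_single_sub_one_eq_zero {Q : Type*} [AddCommGroup Q] [Finite Q] (p s : ℕ)
    [Fact p.Prime] (hp : ∀ q : Q, p ^ s • q = 0) {κ : Type*} (F : Finset κ) (a : κ → Q)
    (hF : Nat.card Q * p ^ s ≤ F.card) :
    ∏ T ∈ F, (AddMonoidAlgebra.single (a T) (1 : ZMod p) - 1 : AddMonoidAlgebra (ZMod p) Q) = 0 := by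
  classical
  have : Fintype Q := Fintype.ofFinite Q
  have : CharP (AddMonoidAlgebra (ZMod p) Q) p := by
    refine charP_of_injective_algebraMap (R := ZMod p) (A := AddMonoidAlgebra (ZMod p) Q) ?_ p
    exact (algebraMap (ZMod p) (AddMonoidAlgebra (ZMod p) Q)).injective
  rw [Nat.card_eq_fintype_card, ← Finset.card_univ] at hF
  obtain ⟨q, _, hq⟩ := Finset.exists_le_card_fiber_of_mul_le_card_of_maps_to
    (f := a) (s := F) (t := Finset.univ) (fun _ _ => Finset.mem_univ _)
    ⟨0, Finset.mem_univ _⟩ hF
  rw [← Finset.prod_filter_mul_prod_filter_not F (fun T => a T = q)]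
  have h1 : ∏ T ∈ F with a T = q,
      (AddMonoidAlgebra.single (a T) (1 : ZMod p) - 1 : AddMonoidAlgebra (ZMod p) Q) = 0 := by
    rw [Finset.prod_congr rfl (g := fun _ => (AddMonoidAlgebra.single q (1 : ZMod p) - 1 :
      AddMonoidAlgebra (ZMod p) Q)) (fun T hT => by rw [(Finset.mem_filter.1 hT).2]),
      Finset.prod_const]
    refine pow_eq_zero_of_le hq ?_
    rw [sub_pow_char_pow, one_pow, AddMonoidAlgebra.single_pow, hp, one_pow,
      ← AddMonoidAlgebra.one_def, sub_self]
  rw [h1, zero_mul]

/-- Alternating sums over the subsets of `C` containing a fixed proper subset vanish. -/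
theorem alternating_sum_superset {R : Type*} [CommRing R] {ι : Type*} [DecidableEq ι]
    (C U : Finset ι) (hU : U ⊆ C) (hne : U ≠ C) :
    ∑ S ∈ C.powerset, (-1 : R) ^ S.card * (if U ⊆ S then 1 else 0) = 0 := by
  obtain ⟨c, hcC, hcU⟩ : ∃ c ∈ C, c ∉ U := by
    by_contra hcon
    push Not at hcon
    exact hne (Finset.Subset.antisymm hU hcon)
  refine Finset.sum_involution (fun T _ => if c ∈ T then T.erase c else insert c T) ?_ ?_ ?_ ?_
  · intro T hT
    by_cases hc : c ∈ T
    · have h1 : T.card = (T.erase c).card + 1 := (Finset.card_erase_add_one hc).symm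
      have h2 : U ⊆ T ↔ U ⊆ T.erase c := by
        constructor
        · intro h x hx
          exact Finset.mem_erase.2 ⟨fun h' => hcU (h' ▸ hx), h hx⟩
        · intro h
          exact h.trans (Finset.erase_subset _ _)
      simp only [hc, if_true, ← h2]
      rw [h1]
      ring
    · have h1 : (insert c T).card = T.card + 1 := Finset.card_insert_of_notMem hc
      have h2 : U ⊆ insert c T ↔ U ⊆ T := by
        constructor
        · intro h x hx
          rcases Finset.mem_insert.1 (h hx) with h' | h'
          · exact absurd (h' ▸ hx) hcU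
          · exact h'
        · intro h
          exact h.trans (Finset.subset_insert _ _)
      simp only [hc, if_false, h2]
      rw [h1]
      ring
  · intro T hT _ heq
    by_cases hc : c ∈ T
    · simp only [hc, if_true] at heq
      rw [← heq] at hc
      simp at hc
    · simp only [hc, if_false] at heq
      rw [← heq] at hc
      simp at hc
  · intro T hT
    rw [mem_powerset] at hT ⊢
    by_cases hc : c ∈ T
    · simp only [hc, if_true]
      exact (Finset.erase_subset _ _).trans hT
    · simp only [hc, if_false]
      exact Finset.insert_subset hcC hT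
  · intro T hT
    by_cases hc : c ∈ T
    · simp [hc, Finset.insert_erase hc]
    · simp [hc, Finset.erase_insert hc]

/-- **Composition lemma**: if `φ` is a map from the subsets of a finite set `C` into a finite
abelian group of exponent `p ^ s` all of whose alternating sums over more than `n` elements
vanish, then for every `f : Q → F_p` the alternating sum of `f ∘ φ` over the subsets of `C`
vanishes as soon as `C` has more than `N` elements, with `N` independent of `C` and `φ`. -/
theorem comp_poly {Q : Type*} [AddCommGroup Q] [Finite Q] (p s : ℕ) [Fact p.Prime]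
    (hp : ∀ q : Q, p ^ s • q = 0) (n : ℕ) (f : Q → ZMod p) :
    ∃ N : ℕ, ∀ {ι : Type} [DecidableEq ι] (C : Finset ι) (φ : Finset ι → Q),
      (∀ T ⊆ C, n < T.card → ∑ S ∈ T.powerset, (-1 : ℤ) ^ (S.card) • φ S = 0) →
      N < C.card → ∑ S ∈ C.powerset, (-1 : ZMod p) ^ (S.card) * f (φ S) = 0 := by
  classical
  refine ⟨n * (Nat.card Q * p ^ s), ?_⟩
  intro ι _ C φ hφ hC
  set M : ℕ := Nat.card Q * p ^ s with hM
  -- the Möbius coefficients
  set a : Finset ι → Q := fun T => ∑ U ∈ T.powerset, (-1 : ℤ) ^ (T.card + U.card) • φ U with ha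
  have ha0 : ∀ T ⊆ C, n < T.card → a T = 0 := by
    intro T hT hn
    have h := hφ T hT hn
    have : a T = (-1 : ℤ) ^ T.card • ∑ S ∈ T.powerset, (-1 : ℤ) ^ (S.card) • φ S := by
      rw [ha, Finset.smul_sum]
      refine Finset.sum_congr rfl fun U _ => ?_
      rw [smul_smul, pow_add]
    rw [this, h, smul_zero]
  set 𝒯 : Finset (Finset ι) := C.powerset.filter (fun T => T.card ≤ n) with h𝒯
  set R := AddMonoidAlgebra (ZMod p) Q
  set y : Finset ι → R := fun T => AddMonoidAlgebra.single (a T) (1 : ZMod p) - 1 with hy
  -- the group ring element of `φ S`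
  have hφS : ∀ S ∈ C.powerset, (AddMonoidAlgebra.single (φ S) (1 : ZMod p) : R)
      = ∏ T ∈ 𝒯, (1 + (if T ⊆ S then (1 : R) else 0) * y T) := by
    intro S hS
    rw [mem_powerset] at hS
    have h1 : φ S = ∑ T ∈ 𝒯 with T ⊆ S, a T := by
      rw [← moebius_powerset φ S]
      symm
      refine Finset.sum_subset_zero_on_sdiff ?_ ?_ (fun _ _ => rfl)
      · intro T hT
        rw [mem_filter, h𝒯, mem_filter] at hT
        exact mem_powerset.2 hT.2
      · intro T hT
        rw [mem_sdiff, mem_powerset, mem_filter, h𝒯, mem_filter, mem_powerset] at hT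
        refine ha0 T (hT.1.trans hS) ?_
        by_contra hcon
        exact hT.2 ⟨⟨hT.1.trans hS, not_lt.1 hcon⟩, hT.1⟩
    have h2 : ∀ (A : Finset (Finset ι)), (AddMonoidAlgebra.single (∑ T ∈ A, a T) (1 : ZMod p) : R)
        = ∏ T ∈ A, AddMonoidAlgebra.single (a T) (1 : ZMod p) := by
      intro A
      induction A using Finset.induction_on with
      | empty => simp [AddMonoidAlgebra.one_def]
      | insert T A hT ih =>
        rw [Finset.sum_insert hT, Finset.prod_insert hT, ← ih, AddMonoidAlgebra.single_mul_single,
          one_mul]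
    rw [h1, h2, Finset.prod_filter]
    refine Finset.prod_congr rfl fun T _ => ?_
    by_cases hTS : T ⊆ S
    · simp [hTS, hy]
    · simp [hTS]
  -- the linear functional extending `f`
  let L : R →+ ZMod p :=
    { toFun := fun x => x.coeff.sum fun q c => c * f q
      map_zero' := by simp
      map_add' := by
        intro x x'
        rw [AddMonoidAlgebra.coeff_add, Finsupp.sum_add_index']
        · simp
        · intros; ring }
  have hL : ∀ q, L (AddMonoidAlgebra.single q (1 : ZMod p)) = f q := by
    intro q
    change (AddMonoidAlgebra.single q (1 : ZMod p)).coeff.sum (fun q c => c * f q) = f q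
    rw [AddMonoidAlgebra.coeff_single, Finsupp.sum_single_index] <;> simp
  -- the sum in the group ring vanishes
  have hR : ∑ S ∈ C.powerset, (-1 : R) ^ S.card * AddMonoidAlgebra.single (φ S) (1 : ZMod p) = 0 := by
    have h3 : ∀ S ∈ C.powerset, (-1 : R) ^ S.card * AddMonoidAlgebra.single (φ S) (1 : ZMod p)
        = ∑ F ∈ 𝒯.powerset, ((-1 : R) ^ S.card * (if F.sup id ⊆ S then 1 else 0)) * ∏ T ∈ F, y T := by
      intro S hS
      rw [hφS S hS, Finset.prod_one_add, Finset.mul_sum]
      refine Finset.sum_congr rfl fun F _ => ?_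
      rw [Finset.prod_mul_distrib, Finset.prod_ite_zero]
      have : (∀ T ∈ F, T ⊆ S) ↔ F.sup id ⊆ S := Finset.sup_le_iff.symm
      simp only [this, Finset.prod_const_one]
      ring
    rw [Finset.sum_congr rfl h3, Finset.sum_comm]
    refine Finset.sum_eq_zero fun F hF => ?_
    rw [mem_powerset] at hF
    rw [← Finset.sum_mul]
    by_cases hcard : M ≤ F.card
    · rw [prod_single_sub_one_eq_zero p s hp F a hcard, mul_zero]
    · push Not at hcard
      have hsub : F.sup id ⊆ C :=
        Finset.sup_le fun T hT => mem_powerset.1 (mem_filter.1 (hF hT)).1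
      rw [alternating_sum_superset C (F.sup id) hsub, zero_mul]
      intro heq
      have hle : (F.sup id).card ≤ ∑ T ∈ F, T.card := by
        rw [Finset.sup_eq_biUnion]
        exact Finset.card_biUnion_le
      have hle2 : ∑ T ∈ F, T.card ≤ F.card * n :=
        Finset.sum_le_card_nsmul _ _ _ fun T hT => (mem_filter.1 (hF hT)).2
      rw [heq] at hle
      have : C.card ≤ n * M := by
        calc C.card ≤ F.card * n := hle.trans hle2
          _ ≤ M * n := Nat.mul_le_mul_right n hcard.le
          _ = n * M := mul_comm _ _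
      omega
  have hfin : L (∑ S ∈ C.powerset, (-1 : R) ^ S.card * AddMonoidAlgebra.single (φ S) (1 : ZMod p)) = 0 := by
    rw [hR, map_zero]
  rw [map_sum] at hfin
  rw [← hfin]
  refine Finset.sum_congr rfl fun S _ => ?_
  rcases Nat.even_or_odd S.card with h | h
  · rw [h.neg_one_pow, h.neg_one_pow, one_mul, one_mul, hL]
  · rw [h.neg_one_pow, h.neg_one_pow, neg_one_mul, neg_one_mul, map_neg, hL]

end Pool.Agent.Lib.MP_5b16f0_gt
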