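import Pool.Agent.Lib.MP_5b16f0_gt.Basic

/-!
# Relabelling, colourings, fine labellings
-/

namespace MP5b16f0

universe u v w

variable {α : Type u} {β : Type v} {γ : Type w}

@[simp] theorem relabel_nil (f : α → β) : relabel f ([] : Word α) = [] := rfl

@[simp] theorem relabel_cons (f : α → β) (p : ℕ) (g : Gen α) (w : Word α) :
    relabel f ((p, g) :: w) = (p, g.relabel f) :: relabel f w := rfl

@[simp] theorem relabel_append (f : α → β) (u v : Word α) :
    relabel f (u ++ v) = relabel f u ++ relabel f v := by simp [relabel]

@[simp] theorem relabel_sh (f : α → β) (k : ℕ) (w : Word α) :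
    relabel f (sh k w) = sh k (relabel f w) := by
  simp [relabel, sh, List.map_map, Function.comp_def]

@[simp] theorem relabelPts_nil (f : α → β) : relabelPts f ([] : List (Pt α)) = [] := rfl

@[simp] theorem relabelPts_cons (f : α → β) (a : Pt α) (X : List (Pt α)) :
    relabelPts f (a :: X) = (f a.1, a.2) :: relabelPts f X := rfl

@[simp] theorem relabelPts_append (f : α → β) (X Y : List (Pt α)) :
    relabelPts f (X ++ Y) = relabelPts f X ++ relabelPts f Y := by simp [relabelPts]

@[simp] theorem length_relabelPts (f : α → β) (X : List (Pt α)) :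
    (relabelPts f X).length = X.length := by simp [relabelPts]

@[simp] theorem Gen.relabel_relabel (f : α → β) (h : β → γ) (g : Gen α) :
    (g.relabel f).relabel h = g.relabel (h ∘ f) := by cases g <;> rfl

@[simp] theorem relabel_relabel (f : α → β) (h : β → γ) (w : Word α) :
    relabel h (relabel f w) = relabel (h ∘ f) w := by
  simp [relabel, List.map_map, Function.comp_def]

@[simp] theorem relabelPts_relabelPts (f : α → β) (h : β → γ) (X : List (Pt α)) :
    relabelPts h (relabelPts f X) = relabelPts (h ∘ f) X := by
  simp [relabelPts, List.map_map, Function.comp_def]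

@[simp] theorem Gen.relabel_id (g : Gen α) : g.relabel id = g := by cases g <;> rfl

@[simp] theorem relabel_id (w : Word α) : relabel id w = w := by
  simp [relabel]

@[simp] theorem relabelPts_id (X : List (Pt α)) : relabelPts id X = X := by
  simp [relabelPts]

theorem Gen.Acts.relabel {g : Gen α} {B C : List (Pt α)} (h : g.Acts B C) (f : α → β) :
    (g.relabel f).Acts (relabelPts f B) (relabelPts f C) := by
  cases h with
  | cup a => exact Gen.Acts.cup (f a.1, a.2)
  | cap a => exact Gen.Acts.cap (f a.1, a.2)
  | crs s a b => exact Gen.Acts.crs s (f a.1, a.2) (f b.1, b.2)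

theorem Run.relabel {w : Word α} {X Y : List (Pt α)} (h : Run w X Y) (f : α → β) :
    Run (relabel f w) (relabelPts f X) (relabelPts f Y) := by
  induction h with
  | nil X => exact Run.nil _
  | @cons A B C D Y g w hg _ ih =>
    have := @Run.cons β (relabelPts f A) (relabelPts f B) (relabelPts f C) (relabelPts f D)
      (relabelPts f Y) (g.relabel f) (MP5b16f0.relabel f w) (hg.relabel f) (by simpa using ih)
    simpa using this

theorem Move.relabel {X Y : List (Pt α)} {r s : Word α} (h : Move X Y r s) (f : α → β) :
    Move (relabelPts f X) (relabelPts f Y) (relabel f r) (relabel f s) := by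
  cases h with
  | @comm g h B C B' C' hg hh M =>
    have := Move.comm (hg.relabel f) (hh.relabel f) (relabelPts f M)
    simpa using this
  | zig a => exact Move.zig (f a.1, a.2)
  | zag a => exact Move.zag (f a.1, a.2)
  | r1cup a s => exact Move.r1cup (f a.1, a.2) s
  | r1cap a s => exact Move.r1cap (f a.1, a.2) s
  | r2 a b s => exact Move.r2 (f a.1, a.2) (f b.1, b.2) s
  | r3 a b c s => exact Move.r3 (f a.1, a.2) (f b.1, b.2) (f c.1, c.2) s
  | slideCup a b s => exact Move.slideCup (f a.1, a.2) (f b.1, b.2) s
  | slideCap a b s => exact Move.slideCap (f a.1, a.2) (f b.1, b.2) s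

theorem Iso.relabel {X Y : List (Pt α)} {w w' : Word α} (h : Iso X Y w w') (f : α → β) :
    Iso (relabelPts f X) (relabelPts f Y) (relabel f w) (relabel f w') := by
  induction h with
  | rel _ _ h =>
    cases h with
    | @mk A C X0 Y0 u r s v hu hm hv =>
      have h1 := hu.relabel f
      have h2 := hv.relabel f
      have := @Step.mk β (relabelPts f X) (relabelPts f Y) (relabelPts f A) (relabelPts f C)
        (relabelPts f X0) (relabelPts f Y0) (MP5b16f0.relabel f u) (MP5b16f0.relabel f r)
        (MP5b16f0.relabel f s) (MP5b16f0.relabel f v) (by simpa using h1) (hm.relabel f)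
        (by simpa using h2)
      exact Relation.EqvGen.rel _ _ (by simpa using this)
  | refl _ => exact Iso.refl _
  | symm _ _ _ ih => exact ih.symm
  | trans _ _ _ _ _ ih1 ih2 => exact ih1.trans ih2

/-! ### Signed count of the points with a given property -/

/-- the signed number of points of a level whose label satisfies `P` -/
noncomputable def scount (P : α → Prop) : List (Pt α) → ℤ
  | [] => 0
  | a :: X => (open Classical in if P a.1 then (if a.2 then 1 else -1) else 0) + scount P X

@[simp] theorem scount_nil (P : α → Prop) : scount P [] = 0 := rfl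

theorem scount_cons (P : α → Prop) (a : Pt α) (X : List (Pt α)) :
    scount P (a :: X) = scount P [a] + scount P X := by
  simp [scount]

@[simp] theorem scount_append (P : α → Prop) (X Y : List (Pt α)) :
    scount P (X ++ Y) = scount P X + scount P Y := by
  induction X with
  | nil => simp
  | cons a X ih => rw [List.cons_append, scount_cons, ih, scount_cons P a X]; ring

theorem Gen.Acts.scount {g : Gen α} {B C : List (Pt α)} (h : g.Acts B C) (P : α → Prop) :
    scount P B = scount P C := by
  cases h with
  | cup a => obtain ⟨l, o⟩ := a; cases o <;> by_cases hP : P l <;> simp [MP5b16f0.scount, op, hP]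
  | cap a => obtain ⟨l, o⟩ := a; cases o <;> by_cases hP : P l <;> simp [MP5b16f0.scount, op, hP]
  | crs s a b => simp [MP5b16f0.scount]; ring

theorem Run.scount {w : Word α} {X Y : List (Pt α)} (h : Run w X Y) (P : α → Prop) :
    scount P X = scount P Y := by
  induction h with
  | nil X => rfl
  | cons hg _ ih => simp only [scount_append] at ih ⊢; rw [hg.scount P, ih]

/-! ### The common refinement of two labellings -/

/-- zip of two generators of the same shape -/
def zipG : Gen α → Gen β → Gen (α × β)
  | Gen.cup a, Gen.cup b => Gen.cup ((a.1, b.1), a.2)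
  | Gen.cap a, Gen.cap b => Gen.cap ((a.1, b.1), a.2)
  | Gen.crs s, _ => Gen.crs s
  | _, Gen.crs s => Gen.crs s
  | _, _ => Gen.crs true

/-- zip of two words of the same shape -/
def zipW (w : Word α) (w' : Word β) : Word (α × β) :=
  List.zipWith (fun x y => (x.1, zipG x.2 y.2)) w w'

/-- zip of two levels of the same shape -/
def zipP (X : List (Pt α)) (Y : List (Pt β)) : List (Pt (α × β)) :=
  List.zipWith (fun a b => ((a.1, b.1), a.2)) X Y

theorem zipP_append {X X' : List (Pt α)} {Y Y' : List (Pt β)} (h : X.length = Y.length) :
    zipP (X ++ X') (Y ++ Y') = zipP X Y ++ zipP X' Y' := by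
  simp [zipP, List.zipWith_append h]

theorem length_zipP {X : List (Pt α)} {Y : List (Pt β)} (h : X.length = Y.length) :
    (zipP X Y).length = X.length := by
  simp [zipP, h]

theorem Gen.Acts.zip {g : Gen α} {B C : List (Pt α)} (h : g.Acts B C) {g' : Gen β}
    {B' C' : List (Pt β)} (h' : g'.Acts B' C') {f : α → γ} {f' : β → γ}
    (hf : g.relabel f = g'.relabel f') (hB : relabelPts f B = relabelPts f' B') :
    (zipG g g').Acts (zipP B B') (zipP C C') ∧ relabelPts f C = relabelPts f' C' ∧
      B.length = B'.length ∧ C.length = C'.length := by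
  cases h with
  | cup a =>
    cases h' with
    | cup b =>
      simp only [Gen.relabel, Gen.cup.injEq, Prod.mk.injEq] at hf
      refine ⟨?_, ?_, rfl, rfl⟩
      · have := Gen.Acts.cup (((a.1, b.1), a.2) : Pt (α × β))
        simpa [zipG, zipP, op] using this
      · simp [op, hf.1, hf.2]
    | cap b => simp [Gen.relabel] at hf
    | crs s b c => simp [Gen.relabel] at hf
  | cap a =>
    cases h' with
    | cap b =>
      simp only [Gen.relabel, Gen.cap.injEq, Prod.mk.injEq] at hf
      refine ⟨?_, ?_, rfl, rfl⟩
      · have := Gen.Acts.cap (((a.1, b.1), a.2) : Pt (α × β))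
        simpa [zipG, zipP, op] using this
      · simp
    | cup b => simp [Gen.relabel] at hf
    | crs s b c => simp [Gen.relabel] at hf
  | crs s a b =>
    cases h' with
    | crs s' c d =>
      simp only [relabelPts_cons, relabelPts_nil, List.cons.injEq, Prod.mk.injEq, and_true] at hB
      refine ⟨?_, ?_, rfl, rfl⟩
      · have := Gen.Acts.crs s (((a.1, c.1), a.2) : Pt (α × β)) ((b.1, d.1), b.2)
        simpa [zipG, zipP] using this
      · simp [hB.1, hB.2]
    | cup b => simp [Gen.relabel] at hf
    | cap b => simp [Gen.relabel] at hf

theorem Run.zip {w : Word α} {X Y : List (Pt α)} (h : Run w X Y) {w' : Word β}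
    {X' Y' : List (Pt β)} (h' : Run w' X' Y') {f : α → γ} {f' : β → γ}
    (hf : MP5b16f0.relabel f w = MP5b16f0.relabel f' w') (hX : relabelPts f X = relabelPts f' X') :
    Run (zipW w w') (zipP X X') (zipP Y Y') ∧ relabelPts f Y = relabelPts f' Y' := by
  induction h generalizing w' X' with
  | nil X =>
    cases h' with
    | nil X' => exact ⟨Run.nil _, hX⟩
    | cons hg hw => simp at hf
  | @cons A B C D Y g w hg hw ih =>
    cases h' with
    | nil X' => simp at hf
    | @cons A' B' C' D' _ g' w' hg' hw' =>
      simp only [relabel_cons, List.cons.injEq, Prod.mk.injEq] at hf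
      simp only [relabelPts_append] at hX
      obtain ⟨e1, e2⟩ := List.append_inj hX (by simpa using hf.1.1)
      have hBl : B.length = B'.length := by
        have h1 := hg.relabel f
        have h2 := hg'.relabel f'
        rw [hf.1.2] at h1
        simpa using h1.len h2
      obtain ⟨e3, e4⟩ := List.append_inj e2 (by simpa using hBl)
      obtain ⟨z1, z2, z3, z4⟩ := hg.zip hg' hf.1.2 e3
      have lA : A.length = A'.length := hf.1.1
      have lD : D.length = D'.length := by simpa using congrArg List.length e4
      obtain ⟨r1, r2⟩ := ih hw' hf.2 (by simp [e1, z2, e4])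
      refine ⟨?_, r2⟩
      rw [zipP_append lA, zipP_append z4] at r1
      rw [zipP_append lA, zipP_append z3]
      have := Run.cons z1 r1
      rw [length_zipP lA] at this
      simpa [zipW] using this

theorem relabelPts_fst_zipP {X : List (Pt α)} {Y : List (Pt β)} (h : X.length = Y.length) :
    relabelPts Prod.fst (zipP X Y) = X := by
  induction X generalizing Y with
  | nil => simp [zipP]
  | cons a X ih =>
    cases Y with
    | nil => simp at h
    | cons b Y => simpa [zipP] using ih (by simpa using h)

end MP5b16f0
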