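import Pool.Agent.Lib.MP_5b16f0_gt.Finger
import Pool.Agent.Lib.MP_5b16f0_gt.Lift

/-!
# Transport of the root of a finger along a component
-/

namespace MP5b16f0

universe u v

variable {α : Type u} {β : Type v}

/-- colour a level -/
def paint (c : ℕ → Bool) : List (Pt α) → List (Pt (α × Bool))
  | [] => []
  | q :: Z => ((q.1, c 0), q.2) :: paint (fun n => c (n + 1)) Z

@[simp] theorem paint_nil (c : ℕ → Bool) : paint c ([] : List (Pt α)) = [] := rfl

theorem paint_cons (c : ℕ → Bool) (q : Pt α) (Z : List (Pt α)) :
    paint c (q :: Z) = ((q.1, c 0), q.2) :: paint (fun n => c (n + 1)) Z := rfl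

theorem paint_append (c : ℕ → Bool) (A B : List (Pt α)) :
    paint c (A ++ B) = paint c A ++ paint (fun n => c (n + A.length)) B := by
  induction A generalizing c with
  | nil => simp
  | cons a A ih => simp [paint_cons, ih, Nat.add_assoc]

@[simp] theorem length_paint (c : ℕ → Bool) (A : List (Pt α)) :
    (paint c A).length = A.length := by
  induction A generalizing c with
  | nil => rfl
  | cons a A ih => simp [paint_cons, ih]

theorem paint_congr {c d : ℕ → Bool} {A : List (Pt α)} (h : ∀ p < A.length, c p = d p) :
    paint c A = paint d A := by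
  induction A generalizing c d with
  | nil => rfl
  | cons a A ih =>
    rw [paint_cons, paint_cons, h 0 (by simp), ih]
    intro p hp
    exact h (p + 1) (by simpa using hp)

@[simp] theorem relabel_fst_paint (c : ℕ → Bool) (A : List (Pt α)) :
    relabelPts Prod.fst (paint c A) = A := by
  induction A generalizing c with
  | nil => rfl
  | cons a A ih => simp [paint_cons, ih]

/-- The finger may be attached at the point in position `p` of the level `Z` between the words
`u` and `v`, modulo `JEq`, giving the word `R`. -/
def ColP (x : Pt α) (X Y : List (Pt α)) (R u v : Word α) (Z : List (Pt α)) (p : ℕ) : Prop :=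
  ∃ (A : List (Pt α)) (q : Pt α) (C : List (Pt α)), Z = A ++ q :: C ∧ A.length = p ∧ q.1 = x.1 ∧
    JEq x X Y (u ++ (sh p (att x q C.length) ++ v)) R

theorem colP_iff {x : Pt α} {X Y : List (Pt α)} {R u v : Word α} {A : List (Pt α)} {q : Pt α}
    {C : List (Pt α)} : ColP x X Y R u v (A ++ q :: C) A.length ↔
      q.1 = x.1 ∧ JEq x X Y (u ++ (sh A.length (att x q C.length) ++ v)) R := by
  constructor
  · rintro ⟨A', q', C', h1, h2, h3, h4⟩
    obtain ⟨e1, e2⟩ := List.append_inj h1 h2.symm
    simp only [List.cons.injEq] at e2
    obtain ⟨e2, e3⟩ := e2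
    subst e1 e2 e3
    exact ⟨h3, h4⟩
  · rintro ⟨h1, h2⟩
    exact ⟨A, q, C, rfl, rfl, h1, h2⟩

theorem split_at {Z : List (Pt α)} {p : ℕ} (h : p < Z.length) :
    ∃ A q C, Z = A ++ q :: C ∧ A.length = p := by
  refine ⟨Z.take p, Z[p], Z.drop (p + 1), ?_, ?_⟩
  · rw [List.cons_getElem_drop_succ, List.take_append_drop]
  · simp; omega

variable {x : Pt α} {X Y : List (Pt α)} {R : Word α}

/-- points to the left of an elementary tangle -/
theorem colP_left {u w : Word α} {g : Gen α} {A1 A2 B C D : List (Pt α)} {q : Pt α}
    (hg : g.Acts B C) (hu : Run u X (A1 ++ q :: A2 ++ (B ++ D)))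
    (hw : Run w (A1 ++ q :: A2 ++ (C ++ D)) Y) :
    ColP x X Y R u (((A1 ++ q :: A2).length, g) :: w) (A1 ++ q :: A2 ++ (B ++ D)) A1.length ↔
      ColP x X Y R (u ++ [((A1 ++ q :: A2).length, g)]) w (A1 ++ q :: A2 ++ (C ++ D))
        A1.length := by
  have e1 : A1 ++ q :: A2 ++ (B ++ D) = A1 ++ q :: (A2 ++ (B ++ D)) := by simp
  have e2 : A1 ++ q :: A2 ++ (C ++ D) = A1 ++ q :: (A2 ++ (C ++ D)) := by simp
  rw [e1, e2, colP_iff, colP_iff]
  refine and_congr_right fun h => ?_
  have key : JEq x X Y
      (u ++ (sh A1.length (sh 1 [(A2.length, g)] ++ att x q (A2 ++ (C ++ D)).length) ++ w))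
      (u ++ (sh A1.length (att x q (A2 ++ (B ++ D)).length ++ sh 1 [(A2.length, g)]) ++ w)) := by
    have := ((att_comm h (Run.single hg A2 D)).shiftL A1)
    have r1 : Run u (X ++ [op x, x]) (A1 ++ q :: (A2 ++ (B ++ D)) ++ [op x, x]) := by
      exact Run.cast (hu.right [op x, x]) (by first | rfl | (simp; done) | (simp; omega) | (simp; ring_nf; done) | (simp; constructor <;> (first | rfl | omega | (ring_nf; done))) | (ring_nf; done)) (by first | rfl | (simp; done) | (simp; omega) | (simp; ring_nf; done) | (simp; constructor <;> (first | rfl | omega | (ring_nf; done))) | (ring_nf; done)) (by first | rfl | (simp; done) | (simp; omega) | (simp; ring_nf; done) | (simp; constructor <;> (first | rfl | omega | (ring_nf; done))) | (ring_nf; done))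
    exact ((this.cast (by simp) rfl).congr r1 (by exact Run.cast hw (by first | rfl | (simp; done) | (simp; omega) | (simp; ring_nf; done) | (simp; constructor <;> (first | rfl | omega | (ring_nf; done))) | (ring_nf; done)) (by first | rfl | (simp; done) | (simp; omega) | (simp; ring_nf; done) | (simp; constructor <;> (first | rfl | omega | (ring_nf; done))) | (ring_nf; done)) (by first | rfl | (simp; done) | (simp; omega) | (simp; ring_nf; done) | (simp; constructor <;> (first | rfl | omega | (ring_nf; done))) | (ring_nf; done)))).jeq
  constructor
  · intro h2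
    refine JEq.trans (JEq.of_eq ?_) (key.trans (JEq.trans (JEq.of_eq ?_) h2))
    · (first | rfl | (simp; done) | (simp; omega) | (simp; ring_nf; done) | (simp; constructor <;> (first | rfl | omega | (ring_nf; done))) | (ring_nf; done))
    · (first | rfl | (simp; done) | (simp; omega) | (simp; ring_nf; done) | (simp; constructor <;> (first | rfl | omega | (ring_nf; done))) | (ring_nf; done))
  · intro h2
    refine JEq.trans (JEq.of_eq ?_) (key.symm.trans (JEq.trans (JEq.of_eq ?_) h2))
    · (first | rfl | (simp; done) | (simp; omega) | (simp; ring_nf; done) | (simp; constructor <;> (first | rfl | omega | (ring_nf; done))) | (ring_nf; done))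
    · (first | rfl | (simp; done) | (simp; omega) | (simp; ring_nf; done) | (simp; constructor <;> (first | rfl | omega | (ring_nf; done))) | (ring_nf; done))

/-- points to the right of an elementary tangle -/
theorem colP_right {u w : Word α} {g : Gen α} {A B C D1 D2 : List (Pt α)} {q : Pt α}
    (hg : g.Acts B C) (hu : Run u X (A ++ (B ++ (D1 ++ q :: D2))))
    (hw : Run w (A ++ (C ++ (D1 ++ q :: D2))) Y) :
    ColP x X Y R u ((A.length, g) :: w) (A ++ (B ++ (D1 ++ q :: D2)))
        (A.length + (B.length + D1.length)) ↔
      ColP x X Y R (u ++ [(A.length, g)]) w (A ++ (C ++ (D1 ++ q :: D2)))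
        (A.length + (C.length + D1.length)) := by
  have e1 : A ++ (B ++ (D1 ++ q :: D2)) = (A ++ (B ++ D1)) ++ q :: D2 := by simp
  have e2 : A ++ (C ++ (D1 ++ q :: D2)) = (A ++ (C ++ D1)) ++ q :: D2 := by simp
  have l1 : A.length + (B.length + D1.length) = (A ++ (B ++ D1)).length := by simp
  have l2 : A.length + (C.length + D1.length) = (A ++ (C ++ D1)).length := by simp
  rw [e1, e2, l1, l2, colP_iff, colP_iff]
  refine and_congr_right fun h => ?_
  have key : JEq x X Y
      (u ++ (([(A.length, g)] ++ sh (A ++ (C ++ D1)).length (att x q D2.length)) ++ w))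
      (u ++ ((sh (A ++ (B ++ D1)).length (att x q D2.length) ++ [(A.length, g)]) ++ w)) := by
    have := interchange (Run.single hg A D1) (run_att h D2)
    have r1 : Run u (X ++ [op x, x]) (A ++ (B ++ D1) ++ (q :: (D2 ++ [op x, x]))) := by
      exact Run.cast (hu.right [op x, x]) (by first | rfl | (simp; done) | (simp; omega) | (simp; ring_nf; done) | (simp; constructor <;> (first | rfl | omega | (ring_nf; done))) | (ring_nf; done)) (by first | rfl | (simp; done) | (simp; omega) | (simp; ring_nf; done) | (simp; constructor <;> (first | rfl | omega | (ring_nf; done))) | (ring_nf; done)) (by first | rfl | (simp; done) | (simp; omega) | (simp; ring_nf; done) | (simp; constructor <;> (first | rfl | omega | (ring_nf; done))) | (ring_nf; done))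
    exact (this.congr r1 (by exact Run.cast hw (by first | rfl | (simp; done) | (simp; omega) | (simp; ring_nf; done) | (simp; constructor <;> (first | rfl | omega | (ring_nf; done))) | (ring_nf; done)) (by first | rfl | (simp; done) | (simp; omega) | (simp; ring_nf; done) | (simp; constructor <;> (first | rfl | omega | (ring_nf; done))) | (ring_nf; done)) (by first | rfl | (simp; done) | (simp; omega) | (simp; ring_nf; done) | (simp; constructor <;> (first | rfl | omega | (ring_nf; done))) | (ring_nf; done)))).jeq
  constructor
  · intro h2
    refine JEq.trans (JEq.of_eq ?_) (key.trans (JEq.trans (JEq.of_eq ?_) h2))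
    · (first | rfl | (simp; done) | (simp; omega) | (simp; ring_nf; done) | (simp; constructor <;> (first | rfl | omega | (ring_nf; done))) | (ring_nf; done))
    · (first | rfl | (simp; done) | (simp; omega) | (simp; ring_nf; done) | (simp; constructor <;> (first | rfl | omega | (ring_nf; done))) | (ring_nf; done))
  · intro h2
    refine JEq.trans (JEq.of_eq ?_) (key.symm.trans (JEq.trans (JEq.of_eq ?_) h2))
    · (first | rfl | (simp; done) | (simp; omega) | (simp; ring_nf; done) | (simp; constructor <;> (first | rfl | omega | (ring_nf; done))) | (ring_nf; done))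
    · (first | rfl | (simp; done) | (simp; omega) | (simp; ring_nf; done) | (simp; constructor <;> (first | rfl | omega | (ring_nf; done))) | (ring_nf; done))

theorem colP_crs1 {u w : Word α} {A D : List (Pt α)} {a b : Pt α} {s : Bool}
    (hu : Run u X (A ++ (a :: b :: D))) (hw : Run w (A ++ (b :: a :: D)) Y) :
    ColP x X Y R u ((A.length, Gen.crs s) :: w) (A ++ (a :: b :: D)) A.length ↔
      ColP x X Y R (u ++ [(A.length, Gen.crs s)]) w (A ++ (b :: a :: D)) (A.length + 1) := by
  have e2 : A ++ (b :: a :: D) = (A ++ [b]) ++ a :: D := by simp
  have l2 : A.length + 1 = (A ++ [b]).length := by simp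
  rw [e2, l2, colP_iff, colP_iff]
  refine and_congr_right fun h => ?_
  have key := (((jeq_crs1 h b D s).shiftL A).appR (v := w) (by exact Run.cast hw (by first | rfl | (simp; done) | (simp; omega) | (simp; ring_nf; done) | (simp; constructor <;> (first | rfl | omega | (ring_nf; done))) | (ring_nf; done)) (by first | rfl | (simp; done) | (simp; omega) | (simp; ring_nf; done) | (simp; constructor <;> (first | rfl | omega | (ring_nf; done))) | (ring_nf; done)) (by first | rfl | (simp; done) | (simp; omega) | (simp; ring_nf; done) | (simp; constructor <;> (first | rfl | omega | (ring_nf; done))) | (ring_nf; done)))).appL hu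
  constructor
  · intro h2
    refine JEq.trans (JEq.of_eq ?_) (key.trans (JEq.trans (JEq.of_eq ?_) h2))
    · (first | rfl | (simp; done) | (simp; omega) | (simp; ring_nf; done) | (simp; constructor <;> (first | rfl | omega | (ring_nf; done))) | (ring_nf; done))
    · (first | rfl | (simp; done) | (simp; omega) | (simp; ring_nf; done) | (simp; constructor <;> (first | rfl | omega | (ring_nf; done))) | (ring_nf; done))
  · intro h2
    refine JEq.trans (JEq.of_eq ?_) (key.symm.trans (JEq.trans (JEq.of_eq ?_) h2))
    · (first | rfl | (simp; done) | (simp; omega) | (simp; ring_nf; done) | (simp; constructor <;> (first | rfl | omega | (ring_nf; done))) | (ring_nf; done))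
    · (first | rfl | (simp; done) | (simp; omega) | (simp; ring_nf; done) | (simp; constructor <;> (first | rfl | omega | (ring_nf; done))) | (ring_nf; done))

theorem colP_crs2 {u w : Word α} {A D : List (Pt α)} {a b : Pt α} {s : Bool}
    (hu : Run u X (A ++ (a :: b :: D))) (hw : Run w (A ++ (b :: a :: D)) Y) :
    ColP x X Y R u ((A.length, Gen.crs s) :: w) (A ++ (a :: b :: D)) (A.length + 1) ↔
      ColP x X Y R (u ++ [(A.length, Gen.crs s)]) w (A ++ (b :: a :: D)) A.length := by
  have e2 : A ++ (a :: b :: D) = (A ++ [a]) ++ b :: D := by simp
  have l2 : A.length + 1 = (A ++ [a]).length := by simp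
  rw [e2, l2, colP_iff, colP_iff]
  refine and_congr_right fun h => ?_
  have key := (((jeq_crs2 h a D s).shiftL A).appR (v := w) (by exact Run.cast hw (by first | rfl | (simp; done) | (simp; omega) | (simp; ring_nf; done) | (simp; constructor <;> (first | rfl | omega | (ring_nf; done))) | (ring_nf; done)) (by first | rfl | (simp; done) | (simp; omega) | (simp; ring_nf; done) | (simp; constructor <;> (first | rfl | omega | (ring_nf; done))) | (ring_nf; done)) (by first | rfl | (simp; done) | (simp; omega) | (simp; ring_nf; done) | (simp; constructor <;> (first | rfl | omega | (ring_nf; done))) | (ring_nf; done)))).appL hu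
  constructor
  · intro h2
    refine JEq.trans (JEq.of_eq ?_) (key.trans (JEq.trans (JEq.of_eq ?_) h2))
    · (first | rfl | (simp; done) | (simp; omega) | (simp; ring_nf; done) | (simp; constructor <;> (first | rfl | omega | (ring_nf; done))) | (ring_nf; done))
    · (first | rfl | (simp; done) | (simp; omega) | (simp; ring_nf; done) | (simp; constructor <;> (first | rfl | omega | (ring_nf; done))) | (ring_nf; done))
  · intro h2
    refine JEq.trans (JEq.of_eq ?_) (key.symm.trans (JEq.trans (JEq.of_eq ?_) h2))
    · (first | rfl | (simp; done) | (simp; omega) | (simp; ring_nf; done) | (simp; constructor <;> (first | rfl | omega | (ring_nf; done))) | (ring_nf; done))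
    · (first | rfl | (simp; done) | (simp; omega) | (simp; ring_nf; done) | (simp; constructor <;> (first | rfl | omega | (ring_nf; done))) | (ring_nf; done))

theorem colP_cup {u w : Word α} {A D : List (Pt α)} {a : Pt α}
    (hu : Run u X (A ++ D)) (hw : Run w (A ++ (a :: op a :: D)) Y) :
    ColP x X Y R (u ++ [(A.length, Gen.cup a)]) w (A ++ (a :: op a :: D)) A.length ↔
      ColP x X Y R (u ++ [(A.length, Gen.cup a)]) w (A ++ (a :: op a :: D)) (A.length + 1) := by
  have l2 : A.length + 1 = (A ++ [a]).length := by simp
  rw [colP_iff, l2]
  have e2 : A ++ (a :: op a :: D) = (A ++ [a]) ++ op a :: D := by simp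
  rw [e2, colP_iff]
  refine and_congr_right fun h => ?_
  have key := (((jeq_cup h D).shiftL A).appR (v := w) (by exact Run.cast hw (by first | rfl | (simp; done) | (simp; omega) | (simp; ring_nf; done) | (simp; constructor <;> (first | rfl | omega | (ring_nf; done))) | (ring_nf; done)) (by first | rfl | (simp; done) | (simp; omega) | (simp; ring_nf; done) | (simp; constructor <;> (first | rfl | omega | (ring_nf; done))) | (ring_nf; done)) (by first | rfl | (simp; done) | (simp; omega) | (simp; ring_nf; done) | (simp; constructor <;> (first | rfl | omega | (ring_nf; done))) | (ring_nf; done)))).appL hu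
  constructor
  · intro h2
    refine JEq.trans (JEq.of_eq ?_) (key.symm.trans (JEq.trans (JEq.of_eq ?_) h2))
    · (first | rfl | (simp; done) | (simp; omega) | (simp; ring_nf; done) | (simp; constructor <;> (first | rfl | omega | (ring_nf; done))) | (ring_nf; done))
    · (first | rfl | (simp; done) | (simp; omega) | (simp; ring_nf; done) | (simp; constructor <;> (first | rfl | omega | (ring_nf; done))) | (ring_nf; done))
  · intro h2
    refine JEq.trans (JEq.of_eq ?_) (key.trans (JEq.trans (JEq.of_eq ?_) h2))
    · (first | rfl | (simp; done) | (simp; omega) | (simp; ring_nf; done) | (simp; constructor <;> (first | rfl | omega | (ring_nf; done))) | (ring_nf; done))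
    · (first | rfl | (simp; done) | (simp; omega) | (simp; ring_nf; done) | (simp; constructor <;> (first | rfl | omega | (ring_nf; done))) | (ring_nf; done))

theorem colP_cap {u w : Word α} {A D : List (Pt α)} {a : Pt α}
    (hu : Run u X (A ++ (a :: op a :: D))) (hw : Run w (A ++ D) Y) :
    ColP x X Y R u ((A.length, Gen.cap a) :: w) (A ++ (a :: op a :: D)) A.length ↔
      ColP x X Y R u ((A.length, Gen.cap a) :: w) (A ++ (a :: op a :: D)) (A.length + 1) := by
  have l2 : A.length + 1 = (A ++ [a]).length := by simp
  rw [colP_iff, l2]
  have e2 : A ++ (a :: op a :: D) = (A ++ [a]) ++ op a :: D := by simp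
  rw [e2, colP_iff]
  refine and_congr_right fun h => ?_
  have key := (((jeq_cap h D).shiftL A).appR (v := w) (by exact Run.cast hw (by first | rfl | (simp; done) | (simp; omega) | (simp; ring_nf; done) | (simp; constructor <;> (first | rfl | omega | (ring_nf; done))) | (ring_nf; done)) (by first | rfl | (simp; done) | (simp; omega) | (simp; ring_nf; done) | (simp; constructor <;> (first | rfl | omega | (ring_nf; done))) | (ring_nf; done)) (by first | rfl | (simp; done) | (simp; omega) | (simp; ring_nf; done) | (simp; constructor <;> (first | rfl | omega | (ring_nf; done))) | (ring_nf; done)))).appL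
    (u := u) (Z0 := X) (by exact Run.cast hu (by first | rfl | (simp; done) | (simp; omega) | (simp; ring_nf; done) | (simp; constructor <;> (first | rfl | omega | (ring_nf; done))) | (ring_nf; done)) (by first | rfl | (simp; done) | (simp; omega) | (simp; ring_nf; done) | (simp; constructor <;> (first | rfl | omega | (ring_nf; done))) | (ring_nf; done)) (by first | rfl | (simp; done) | (simp; omega) | (simp; ring_nf; done) | (simp; constructor <;> (first | rfl | omega | (ring_nf; done))) | (ring_nf; done)))
  constructor
  · intro h2
    refine JEq.trans (JEq.of_eq ?_) (key.symm.trans (JEq.trans (JEq.of_eq ?_) h2))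
    · (first | rfl | (simp; done) | (simp; omega) | (simp; ring_nf; done) | (simp; constructor <;> (first | rfl | omega | (ring_nf; done))) | (ring_nf; done))
    · (first | rfl | (simp; done) | (simp; omega) | (simp; ring_nf; done) | (simp; constructor <;> (first | rfl | omega | (ring_nf; done))) | (ring_nf; done))
  · intro h2
    refine JEq.trans (JEq.of_eq ?_) (key.trans (JEq.trans (JEq.of_eq ?_) h2))
    · (first | rfl | (simp; done) | (simp; omega) | (simp; ring_nf; done) | (simp; constructor <;> (first | rfl | omega | (ring_nf; done))) | (ring_nf; done))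
    · (first | rfl | (simp; done) | (simp; omega) | (simp; ring_nf; done) | (simp; constructor <;> (first | rfl | omega | (ring_nf; done))) | (ring_nf; done))

open Classical in
/-- The points at which the finger may be attached form a colouring of the word. -/
theorem transport {u v : Word α} {Z : List (Pt α)} (hu : Run u X Z) (hv : Run v Z Y) :
    ∃ v' : Word (α × Bool), relabel Prod.fst v' = v ∧
      Run v' (paint (fun p => decide (ColP x X Y R u v Z p)) Z)
        (paint (fun p => decide (ColP x X Y R (u ++ v) [] Y p)) Y) := by
  induction hv generalizing u with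
  | nil Z => exact ⟨[], rfl, by simpa using Run.nil _⟩
  | @cons A B C D Y g w hg hw ih =>
    have hu1 : Run (u ++ [(A.length, g)]) X (A ++ (C ++ D)) := hu.append (Run.single hg A D)
    obtain ⟨w', h1, h2⟩ := ih hu1
    rw [List.append_assoc, List.singleton_append] at h2
    rw [paint_append, paint_append] at h2
    have hA : paint (fun p => decide (ColP x X Y R u ((A.length, g) :: w) (A ++ (B ++ D)) p)) A
        = paint (fun p => decide (ColP x X Y R (u ++ [(A.length, g)]) w (A ++ (C ++ D)) p)) A := by
      apply paint_congr
      intro p hp
      obtain ⟨A1, q, A2, rfl, rfl⟩ := split_at hp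
      simp only [decide_eq_decide]
      exact colP_left hg (by simpa using hu) (by simpa using hw)
    have hD : paint (fun p => decide (ColP x X Y R u ((A.length, g) :: w) (A ++ (B ++ D))
          (p + B.length + A.length))) D
        = paint (fun p => decide (ColP x X Y R (u ++ [(A.length, g)]) w (A ++ (C ++ D))
          (p + C.length + A.length))) D := by
      apply paint_congr
      intro p hp
      obtain ⟨D1, q, D2, rfl, rfl⟩ := split_at hp
      simp only [decide_eq_decide]
      have := colP_right (x := x) (R := R) hg hu hw
      convert this using 2 <;> omega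
    have key : ∃ g' : Gen (α × Bool), g'.relabel Prod.fst = g ∧ g'.Acts
        (paint (fun p => decide (ColP x X Y R u ((A.length, g) :: w) (A ++ (B ++ D))
          (p + A.length))) B)
        (paint (fun p => decide (ColP x X Y R (u ++ [(A.length, g)]) w (A ++ (C ++ D))
          (p + A.length))) C) := by
      cases hg with
      | cup a =>
        refine ⟨Gen.cup ((a.1, decide (ColP x X Y R (u ++ [(A.length, Gen.cup a)]) w
          (A ++ (a :: op a :: D)) A.length)), a.2), rfl, ?_⟩
        have := colP_cup (x := x) (R := R) (a := a) (A := A) (D := D) hu hw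
        have e : paint (fun p => decide (ColP x X Y R (u ++ [(A.length, Gen.cup a)]) w
            (A ++ ([a, op a] ++ D)) (p + A.length))) [a, op a] =
            [((a.1, decide (ColP x X Y R (u ++ [(A.length, Gen.cup a)]) w
              (A ++ (a :: op a :: D)) A.length)), a.2),
             op ((a.1, decide (ColP x X Y R (u ++ [(A.length, Gen.cup a)]) w
              (A ++ (a :: op a :: D)) A.length)), a.2)] := by
          simp only [paint_cons, paint_nil, List.cons_append, List.nil_append, Nat.zero_add,
            Nat.add_comm 1 A.length, this]
          rfl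
        rw [e]
        exact Gen.Acts.cup _
      | cap a =>
        refine ⟨Gen.cap ((a.1, decide (ColP x X Y R u ((A.length, Gen.cap a) :: w)
          (A ++ (a :: op a :: D)) A.length)), a.2), rfl, ?_⟩
        have := colP_cap (x := x) (R := R) (a := a) (A := A) (D := D) hu hw
        have e : paint (fun p => decide (ColP x X Y R u ((A.length, Gen.cap a) :: w)
            (A ++ ([a, op a] ++ D)) (p + A.length))) [a, op a] =
            [((a.1, decide (ColP x X Y R u ((A.length, Gen.cap a) :: w)
              (A ++ (a :: op a :: D)) A.length)), a.2),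
             op ((a.1, decide (ColP x X Y R u ((A.length, Gen.cap a) :: w)
              (A ++ (a :: op a :: D)) A.length)), a.2)] := by
          simp only [paint_cons, paint_nil, List.cons_append, List.nil_append, Nat.zero_add,
            Nat.add_comm 1 A.length, this]
          rfl
        rw [e]
        exact Gen.Acts.cap _
      | crs s a b =>
        refine ⟨Gen.crs s, rfl, ?_⟩
        have t1 := colP_crs1 (x := x) (R := R) (a := a) (b := b) (s := s) (A := A) (D := D) hu hw
        have t2 := colP_crs2 (x := x) (R := R) (a := a) (b := b) (s := s) (A := A) (D := D) hu hw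
        simp only [List.cons_append, List.nil_append, paint_cons, paint_nil, Nat.zero_add,
          Nat.add_comm _ A.length, Nat.add_zero]
        simp only [t1, t2]
        exact Gen.Acts.crs s _ _
    obtain ⟨g', hg1, hg2⟩ := key
    refine ⟨(A.length, g') :: w', by simp [h1, hg1], ?_⟩
    rw [paint_append, paint_append, hA, hD]
    have := Run.cons hg2 h2
    simpa using this

end MP5b16f0
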