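import Pool.Agent.Lib.MP_5b16f0_gt.Cross
import Pool.Agent.Lib.MP_5b16f0_gt.Transport

/-!
# Insertion of invertible words, boxes with fingers
-/

namespace MP5b16f0

universe u v

variable {α : Type u} {β : Type v}

/-- isotopy or insertion of an invertible word `w` with `w - 1` in the `N`-th term of the
filtration -/
inductive GStep (N : ℕ) (X Y : List (Pt α)) : Word α → Word α → Prop
  | iso {w w' : Word α} (h : Iso X Y w w') : GStep N X Y w w'
  | ins {u v w wi : Word α} {Z : List (Pt α)} (hu : Run u X Z) (hv : Run v Z Y)
      (hw : InvW N Z w wi) : GStep N X Y (u ++ v) (u ++ (w ++ v))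

/-- the equivalence relation generated by isotopy and by the insertion of invertible words `w`
with `w - 1` in the `N`-th term of the filtration -/
def Cong (N : ℕ) (X Y : List (Pt α)) : Word α → Word α → Prop := Relation.EqvGen (GStep N X Y)

theorem Cong.refl {N : ℕ} {X Y : List (Pt α)} (w : Word α) : Cong N X Y w w :=
  Relation.EqvGen.refl w

theorem Cong.of_eq {N : ℕ} {X Y : List (Pt α)} {w w' : Word α} (h : w = w') :
    Cong N X Y w w' := by subst h; exact Cong.refl w

theorem Cong.symm {N : ℕ} {X Y : List (Pt α)} {w w' : Word α} (h : Cong N X Y w w') :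
    Cong N X Y w' w := Relation.EqvGen.symm _ _ h

theorem Cong.trans {N : ℕ} {X Y : List (Pt α)} {w w' w'' : Word α} (h : Cong N X Y w w')
    (h' : Cong N X Y w' w'') : Cong N X Y w w'' := Relation.EqvGen.trans _ _ _ h h'

theorem Iso.cong {N : ℕ} {X Y : List (Pt α)} {w w' : Word α} (h : Iso X Y w w') :
    Cong N X Y w w' := Relation.EqvGen.rel _ _ (GStep.iso h)

theorem Cong.ins {N : ℕ} {X Y Z : List (Pt α)} {u v w wi : Word α} (hu : Run u X Z)
    (hv : Run v Z Y) (hw : InvW N Z w wi) : Cong N X Y (u ++ v) (u ++ (w ++ v)) :=
  Relation.EqvGen.rel _ _ (GStep.ins hu hv hw)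

theorem GStep.run_iff {N : ℕ} {X Y : List (Pt α)} {w w' : Word α} (h : GStep N X Y w w') :
    Run w X Y ↔ Run w' X Y := by
  cases h with
  | iso h => exact h.run_iff
  | ins hu hv hw => exact ⟨fun _ => hu.append (hw.run.append hv), fun _ => hu.append hv⟩

theorem Cong.run_iff {N : ℕ} {X Y : List (Pt α)} {w w' : Word α} (h : Cong N X Y w w') :
    Run w X Y ↔ Run w' X Y := by
  induction h with
  | rel _ _ h => exact h.run_iff
  | refl _ => rfl
  | symm _ _ _ ih => exact ih.symm
  | trans _ _ _ _ _ ih1 ih2 => exact ih1.trans ih2

theorem Cong.run {N : ℕ} {X Y : List (Pt α)} {w w' : Word α} (h : Cong N X Y w w')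
    (hw : Run w X Y) : Run w' X Y := h.run_iff.1 hw

theorem Cong.appL {N : ℕ} {X Y Z : List (Pt α)} {w w' u : Word α} (hu : Run u X Y)
    (h : Cong N Y Z w w') : Cong N X Z (u ++ w) (u ++ w') := by
  induction h with
  | rel _ _ h =>
    cases h with
    | iso h => exact (h.appL hu).cong
    | ins hu' hv' hw =>
      have := Cong.ins (hu.append hu') hv' hw
      simpa using this
  | refl _ => exact Cong.refl _
  | symm _ _ _ ih => exact ih.symm
  | trans _ _ _ _ _ ih1 ih2 => exact ih1.trans ih2

theorem Cong.appR {N : ℕ} {X Y Z : List (Pt α)} {w w' v : Word α} (h : Cong N X Y w w')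
    (hv : Run v Y Z) : Cong N X Z (w ++ v) (w' ++ v) := by
  induction h with
  | rel _ _ h =>
    cases h with
    | iso h => exact (h.appR hv).cong
    | ins hu' hv' hw =>
      have := Cong.ins hu' (hv'.append hv) hw
      simpa using this
  | refl _ => exact Cong.refl _
  | symm _ _ _ ih => exact ih.symm
  | trans _ _ _ _ _ ih1 ih2 => exact ih1.trans ih2

theorem Cong.congr {N : ℕ} {X Y X' Y' : List (Pt α)} {w w' u v : Word α} (h : Cong N X Y w w')
    (hu : Run u X' X) (hv : Run v Y Y') : Cong N X' Y' (u ++ (w ++ v)) (u ++ (w' ++ v)) :=
  (h.appR hv).appL hu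

theorem Cong.app {N : ℕ} {X Y Z : List (Pt α)} {w w' v v' : Word α} (h : Cong N X Y w w')
    (hv : Cong N Y Z v v') (h1 : Run w X Y) (h2 : Run v Y Z) :
    Cong N X Z (w ++ v) (w' ++ v') :=
  (h.appR h2).trans (hv.appL (h.run h1))

theorem Cong.shift {N : ℕ} {X Y : List (Pt α)} {w w' : Word α} (h : Cong N X Y w w')
    (A C : List (Pt α)) :
    Cong N (A ++ (X ++ C)) (A ++ (Y ++ C)) (sh A.length w) (sh A.length w') := by
  induction h with
  | rel _ _ h =>
    cases h with
    | iso h => exact (h.shift A C).cong
    | ins hu' hv' hw =>
      have := Cong.ins (hu'.shift A C) (hv'.shift A C) (hw.shift A C)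
      simpa using this
  | refl _ => exact Cong.refl _
  | symm _ _ _ ih => exact ih.symm
  | trans _ _ _ _ _ ih1 ih2 => exact ih1.trans ih2

theorem Cong.shiftL {N : ℕ} {X Y : List (Pt α)} {w w' : Word α} (h : Cong N X Y w w')
    (A : List (Pt α)) :
    Cong N (A ++ X) (A ++ Y) (sh A.length w) (sh A.length w') := by
  simpa using h.shift A []

theorem Cong.adapt {N : ℕ} {X Y X' Y' : List (Pt α)} {w w' u u' : Word α}
    (h : Cong N X Y w w')
    (hX : X = X') (hY : Y = Y') (hw : w = u) (hw' : w' = u') : Cong N X' Y' u u' := by
  subst hX hY hw hw'; exact h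


theorem Cong.cast' {N : ℕ} {X Y X' Y' : List (Pt α)} {w w' : Word α}
    (h : Cong N X Y w w') (hX : X = X') (hY : Y = Y') : Cong N X' Y' w w' := by
  subst hX hY; exact h

theorem Cong.mem_J {N : ℕ} {X Y : List (Pt α)} {w w' : Word α} (h : Cong N X Y w w')
    (hw : Run w X Y) : cl w - cl w' ∈ J N X Y := by
  induction h with
  | rel _ _ h =>
    cases h with
    | iso h => exact iso_mem_J hw h
    | @ins u v w wi Z hu hv hw' =>
      have := neg_mem (J_mulR (J_mulL hw'.mem hu) hv)
      rw [cl_append, cl_append, cl_append]
      have e : cl u * cl v - cl u * (cl w * cl v) = -(cl u * (cl w - 1) * cl v) := by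
        noncomm_ring
      rw [e]; exact this
  | refl _ => simp [zero_mem]
  | symm _ _ h ih =>
    rw [← neg_sub]
    exact neg_mem (ih (Cong.run_iff h |>.2 hw))
  | trans _ _ _ h1 _ ih1 ih2 =>
    have := add_mem (ih1 hw) (ih2 (Cong.run h1 hw))
    simpa using this

/-! ### Pairs -/

/-- the level consisting of the pairs `[op x, x]` -/
def prs : List (Pt α) → List (Pt α)
  | [] => []
  | x :: xs => op x :: x :: prs xs

/-- the cups creating `prs xs` -/
def cups : List (Pt α) → Word α
  | [] => []
  | x :: xs => (0, Gen.cup (op x)) :: sh 2 (cups xs)

@[simp] theorem prs_nil : prs ([] : List (Pt α)) = [] := rfl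
@[simp] theorem prs_cons (x : Pt α) (xs : List (Pt α)) : prs (x :: xs) = op x :: x :: prs xs := rfl
@[simp] theorem prs_append (xs ys : List (Pt α)) : prs (xs ++ ys) = prs xs ++ prs ys := by
  induction xs with
  | nil => rfl
  | cons x xs ih => simp [ih]
@[simp] theorem length_prs (xs : List (Pt α)) : (prs xs).length = 2 * xs.length := by
  induction xs with
  | nil => rfl
  | cons x xs ih => simp [ih]; ring

@[simp] theorem cups_nil : cups ([] : List (Pt α)) = [] := rfl
theorem cups_cons (x : Pt α) (xs : List (Pt α)) :
    cups (x :: xs) = (0, Gen.cup (op x)) :: sh 2 (cups xs) := rfl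
theorem cups_append (xs ys : List (Pt α)) :
    cups (xs ++ ys) = cups xs ++ sh (prs xs).length (cups ys) := by
  induction xs with
  | nil => simp
  | cons x xs ih => simp [cups_cons, ih]

theorem run_cups (xs : List (Pt α)) : Run (cups xs) [] (prs xs) := by
  induction xs with
  | nil => exact Run.nil _
  | cons x xs ih =>
    have h1 : Run [(0, Gen.cup (op x))] [] [op x, x] := by exact Run.cast (run_cup (op x) [] []) (by first | rfl | (simp; done) | (simp; omega) | (simp; ring_nf; done) | (simp; constructor <;> (first | rfl | omega | (ring_nf; done))) | (ring_nf; done)) (by first | rfl | (simp; done) | (simp; omega) | (simp; ring_nf; done) | (simp; constructor <;> (first | rfl | omega | (ring_nf; done))) | (ring_nf; done)) (by first | rfl | (simp; done) | (simp; omega) | (simp; ring_nf; done) | (simp; constructor <;> (first | rfl | omega | (ring_nf; done))) | (ring_nf; done))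
    have h2 := ih.shiftL [op x, x]
    exact Run.cast (h1.append h2) (by first | rfl | (simp; done) | (simp; omega) | (simp; ring_nf; done) | (simp; constructor <;> (first | rfl | omega | (ring_nf; done))) | (ring_nf; done)) (by first | rfl | (simp; done) | (simp; omega) | (simp; ring_nf; done) | (simp; constructor <;> (first | rfl | omega | (ring_nf; done))) | (ring_nf; done)) (by first | rfl | (simp; done) | (simp; omega) | (simp; ring_nf; done) | (simp; constructor <;> (first | rfl | omega | (ring_nf; done))) | (ring_nf; done))

/-- a box on the pairs `prs ys`, created by cups -/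
def Theta (N : ℕ) (ys : List (Pt α)) (θ : Word α) : Prop :=
  ∃ w wi : Word α, InvW N (prs ys) w wi ∧ Iso [] (prs ys) θ (cups ys ++ w)

theorem Theta.run {N : ℕ} {ys : List (Pt α)} {θ : Word α} (h : Theta N ys θ) :
    Run θ [] (prs ys) := by
  obtain ⟨w, wi, h1, h2⟩ := h
  exact h2.symm.run ((run_cups ys).append h1.run)

/-! ### Fingers of boxes pass crossings modulo the next step of the filtration -/

/-- the word creating a cup with the strand `r` on the left of a finger, whose right leg passes
over or under the finger -/
def cupPass (r : Pt α) (s : Bool) : Word α := (0, Gen.cup (op r)) :: sh 1 (slR s 2)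

theorem run_cupPass (r a b : Pt α) (s : Bool) :
    Run (cupPass r s) [a, b] [op r, a, b, r] := by
  have h1 : Run [(0, Gen.cup (op r))] [a, b] [op r, r, a, b] := by
    exact Run.cast (run_cup (op r) [] [a, b]) (by first | rfl | (simp; done) | (simp; omega) | (simp; ring_nf; done) | (simp; constructor <;> (first | rfl | omega | (ring_nf; done))) | (ring_nf; done)) (by first | rfl | (simp; done) | (simp; omega) | (simp; ring_nf; done) | (simp; constructor <;> (first | rfl | omega | (ring_nf; done))) | (ring_nf; done)) (by first | rfl | (simp; done) | (simp; omega) | (simp; ring_nf; done) | (simp; constructor <;> (first | rfl | omega | (ring_nf; done))) | (ring_nf; done))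
  have h2 : Run (sh 1 (slR s 2)) [op r, r, a, b] [op r, a, b, r] := by
    exact Run.cast ((run_slR s r [a, b]).shiftL [op r]) (by first | rfl | (simp; done) | (simp; omega) | (simp; ring_nf; done) | (simp; constructor <;> (first | rfl | omega | (ring_nf; done))) | (ring_nf; done)) (by first | rfl | (simp; done) | (simp; omega) | (simp; ring_nf; done) | (simp; constructor <;> (first | rfl | omega | (ring_nf; done))) | (ring_nf; done)) (by first | rfl | (simp; done) | (simp; omega) | (simp; ring_nf; done) | (simp; constructor <;> (first | rfl | omega | (ring_nf; done))) | (ring_nf; done))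
  exact h1.append h2

theorem cupPass_iso (r a b : Pt α) (s : Bool) :
    Iso [a, b] [op r, a, b, r] (cupPass r s) ((2, Gen.cup (op r)) :: blkR (!s) 2 1) := by
  have h0 : Run [(0, Gen.cup (op r))] [] [op r, r] := by exact Run.cast (run_cup (op r) [] []) (by first | rfl | (simp; done) | (simp; omega) | (simp; ring_nf; done) | (simp; constructor <;> (first | rfl | omega | (ring_nf; done))) | (ring_nf; done)) (by first | rfl | (simp; done) | (simp; omega) | (simp; ring_nf; done) | (simp; constructor <;> (first | rfl | omega | (ring_nf; done))) | (ring_nf; done)) (by first | rfl | (simp; done) | (simp; omega) | (simp; ring_nf; done) | (simp; constructor <;> (first | rfl | omega | (ring_nf; done))) | (ring_nf; done))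
  have e1 : Iso [a, b] [a, b, op r, r] (cupPass r s ++ slR s 2) [(2, Gen.cup (op r))] := by
    have := natB1 s [a, b] h0
    refine (Iso.trans (Iso.of_eq ?_) (this.trans (Iso.of_eq ?_))).cast rfl rfl
    · simp [blkR_succ, cupPass]
    · simp
  have r1 : Run (blkR (!s) 2 1) [a, b, op r, r] [op r, a, b, r] := by
    exact Run.cast ((run_blkR (!s) [a, b] [op r]).right [r]) (by first | rfl | (simp; done) | (simp; omega) | (simp; ring_nf; done) | (simp; constructor <;> (first | rfl | omega | (ring_nf; done))) | (ring_nf; done)) (by first | rfl | (simp; done) | (simp; omega) | (simp; ring_nf; done) | (simp; constructor <;> (first | rfl | omega | (ring_nf; done))) | (ring_nf; done)) (by first | rfl | (simp; done) | (simp; omega) | (simp; ring_nf; done) | (simp; constructor <;> (first | rfl | omega | (ring_nf; done))) | (ring_nf; done))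
  have e2 := e1.appR r1
  have e3 : Iso [a, b] [op r, a, b, r] (cupPass r s ++ (slR s 2 ++ blkR (!s) 2 1))
      (cupPass r s ++ []) := by
    have := ((slR_inv s (op r) [a, b]).right [r]).appL (run_cupPass r a b s)
    exact Iso.adapt this (by first | rfl | (simp; done) | (simp; omega) | (simp; ring_nf; done) | (simp; constructor <;> (first | rfl | omega | (ring_nf; done))) | (ring_nf; done)) (by first | rfl | (simp; done) | (simp; omega) | (simp; ring_nf; done) | (simp; constructor <;> (first | rfl | omega | (ring_nf; done))) | (ring_nf; done)) (by first | rfl | (simp; done) | (simp; omega) | (simp; ring_nf; done) | (simp; constructor <;> (first | rfl | omega | (ring_nf; done))) | (ring_nf; done)) (by first | rfl | (simp; done) | (simp; omega) | (simp; ring_nf; done) | (simp; constructor <;> (first | rfl | omega | (ring_nf; done))) | (ring_nf; done))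
  refine Iso.trans (Iso.of_eq (by simp)) (e3.symm.trans (Iso.trans (Iso.of_eq (by simp))
    (e2.trans (Iso.of_eq (by simp)))))

theorem cup_cupPass (x r : Pt α) (s : Bool) :
    Iso [] [op r, op x, x, r] ((0, Gen.cup (op x)) :: cupPass r s)
      [(0, Gen.cup (op r)), (1, Gen.cup (op x))] := by
  have h0 : Run [(0, Gen.cup (op x))] [] [op x, x] := by exact Run.cast (run_cup (op x) [] []) (by first | rfl | (simp; done) | (simp; omega) | (simp; ring_nf; done) | (simp; constructor <;> (first | rfl | omega | (ring_nf; done))) | (ring_nf; done)) (by first | rfl | (simp; done) | (simp; omega) | (simp; ring_nf; done) | (simp; constructor <;> (first | rfl | omega | (ring_nf; done))) | (ring_nf; done)) (by first | rfl | (simp; done) | (simp; omega) | (simp; ring_nf; done) | (simp; constructor <;> (first | rfl | omega | (ring_nf; done))) | (ring_nf; done))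
  have h1 : Run [(0, Gen.cup (op r))] [] [op r, r] := by exact Run.cast (run_cup (op r) [] []) (by first | rfl | (simp; done) | (simp; omega) | (simp; ring_nf; done) | (simp; constructor <;> (first | rfl | omega | (ring_nf; done))) | (ring_nf; done)) (by first | rfl | (simp; done) | (simp; omega) | (simp; ring_nf; done) | (simp; constructor <;> (first | rfl | omega | (ring_nf; done))) | (ring_nf; done)) (by first | rfl | (simp; done) | (simp; omega) | (simp; ring_nf; done) | (simp; constructor <;> (first | rfl | omega | (ring_nf; done))) | (ring_nf; done))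
  have e1 : Iso [] [op r, op x, x, r]
      (([(0, Gen.cup (op x))] ++ [(0, Gen.cup (op r))]) ++ sh 1 (slR s 2))
      (([(0, Gen.cup (op r))] ++ [(2, Gen.cup (op x))]) ++ sh 1 (slR s 2)) := by
    have := (interchange h1 h0).symm.appR (v := sh 1 (slR s 2)) (Y' := [op r, op x, x, r])
      (by exact Run.cast ((run_slR s r [op x, x]).shiftL [op r]) (by first | rfl | (simp; done) | (simp; omega) | (simp; ring_nf; done) | (simp; constructor <;> (first | rfl | omega | (ring_nf; done))) | (ring_nf; done)) (by first | rfl | (simp; done) | (simp; omega) | (simp; ring_nf; done) | (simp; constructor <;> (first | rfl | omega | (ring_nf; done))) | (ring_nf; done)) (by first | rfl | (simp; done) | (simp; omega) | (simp; ring_nf; done) | (simp; constructor <;> (first | rfl | omega | (ring_nf; done))) | (ring_nf; done)))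
    exact Iso.adapt this (by first | rfl | (simp; done) | (simp; omega) | (simp; ring_nf; done) | (simp; constructor <;> (first | rfl | omega | (ring_nf; done))) | (ring_nf; done)) (by first | rfl | (simp; done) | (simp; omega) | (simp; ring_nf; done) | (simp; constructor <;> (first | rfl | omega | (ring_nf; done))) | (ring_nf; done)) (by first | rfl | (simp; done) | (simp; omega) | (simp; ring_nf; done) | (simp; constructor <;> (first | rfl | omega | (ring_nf; done))) | (ring_nf; done)) (by first | rfl | (simp; done) | (simp; omega) | (simp; ring_nf; done) | (simp; constructor <;> (first | rfl | omega | (ring_nf; done))) | (ring_nf; done))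
  have e2 : Iso [] [op r, op x, x, r]
      ([(0, Gen.cup (op r))] ++ sh 1 (slR s 0 ++ [(0, Gen.cup (op x))]))
      ([(0, Gen.cup (op r))] ++ sh 1 (sh 1 [(0, Gen.cup (op x))] ++ slR s 2)) := by
    have := ((natR s r h0).shiftL [op r]).appL h1
    exact Iso.adapt this (by first | rfl | (simp; done) | (simp; omega) | (simp; ring_nf; done) | (simp; constructor <;> (first | rfl | omega | (ring_nf; done))) | (ring_nf; done)) (by first | rfl | (simp; done) | (simp; omega) | (simp; ring_nf; done) | (simp; constructor <;> (first | rfl | omega | (ring_nf; done))) | (ring_nf; done)) (by first | rfl | (simp; done) | (simp; omega) | (simp; ring_nf; done) | (simp; constructor <;> (first | rfl | omega | (ring_nf; done))) | (ring_nf; done)) (by first | rfl | (simp; done) | (simp; omega) | (simp; ring_nf; done) | (simp; constructor <;> (first | rfl | omega | (ring_nf; done))) | (ring_nf; done))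
  refine Iso.trans (Iso.of_eq ?_) (e1.trans (Iso.trans (Iso.of_eq ?_) (e2.symm.trans
    (Iso.of_eq ?_))))
  · simp [cupPass]
  · simp
  · simp

theorem theta_cupPass {N : ℕ} {ys : List (Pt α)} {x r : Pt α} {w wi : Word α}
    (hw : InvW N (prs (ys ++ [x])) w wi) (s : Bool) :
    Iso [] (prs ys ++ [op r, op x, x, r])
      (cups (ys ++ [x]) ++ (w ++ sh (prs ys).length (cupPass r s)))
      ((cups ys ++ sh (prs ys).length [(0, Gen.cup (op r)), (1, Gen.cup (op x))]) ++
        (sh (prs ys).length (blkR s 1 2) ++ (w ++ sh (prs ys).length (blkR (!s) 2 1)))) := by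
  have hwr : Run w (prs ys ++ [op x, x]) (prs ys ++ [op x, x]) := by exact Run.cast hw.run (by first | rfl | (simp; done) | (simp; omega) | (simp; ring_nf; done) | (simp; constructor <;> (first | rfl | omega | (ring_nf; done))) | (ring_nf; done)) (by first | rfl | (simp; done) | (simp; omega) | (simp; ring_nf; done) | (simp; constructor <;> (first | rfl | omega | (ring_nf; done))) | (ring_nf; done)) (by first | rfl | (simp; done) | (simp; omega) | (simp; ring_nf; done) | (simp; constructor <;> (first | rfl | omega | (ring_nf; done))) | (ring_nf; done))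
  have hcup : Run [(0, Gen.cup (op r))] [] [op r, r] := by exact Run.cast (run_cup (op r) [] []) (by first | rfl | (simp; done) | (simp; omega) | (simp; ring_nf; done) | (simp; constructor <;> (first | rfl | omega | (ring_nf; done))) | (ring_nf; done)) (by first | rfl | (simp; done) | (simp; omega) | (simp; ring_nf; done) | (simp; constructor <;> (first | rfl | omega | (ring_nf; done))) | (ring_nf; done)) (by first | rfl | (simp; done) | (simp; omega) | (simp; ring_nf; done) | (simp; constructor <;> (first | rfl | omega | (ring_nf; done))) | (ring_nf; done))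
  have rb : Run (sh (prs ys).length (blkR (!s) 2 1)) (prs ys ++ [op x, x, op r, r])
      (prs ys ++ [op r, op x, x, r]) := by
    exact Run.cast (((run_blkR (!s) [op x, x] [op r]).shift (prs ys) [r])) (by first | rfl | (simp; done) | (simp; omega) | (simp; ring_nf; done) | (simp; constructor <;> (first | rfl | omega | (ring_nf; done))) | (ring_nf; done)) (by first | rfl | (simp; done) | (simp; omega) | (simp; ring_nf; done) | (simp; constructor <;> (first | rfl | omega | (ring_nf; done))) | (ring_nf; done)) (by first | rfl | (simp; done) | (simp; omega) | (simp; ring_nf; done) | (simp; constructor <;> (first | rfl | omega | (ring_nf; done))) | (ring_nf; done))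
  have rb' : Run (sh (prs ys).length (blkR s 1 2)) (prs ys ++ [op r, op x, x, r])
      (prs ys ++ [op x, x, op r, r]) := by
    exact Run.cast (((run_blkR s [op r] [op x, x]).shift (prs ys) [r])) (by first | rfl | (simp; done) | (simp; omega) | (simp; ring_nf; done) | (simp; constructor <;> (first | rfl | omega | (ring_nf; done))) | (ring_nf; done)) (by first | rfl | (simp; done) | (simp; omega) | (simp; ring_nf; done) | (simp; constructor <;> (first | rfl | omega | (ring_nf; done))) | (ring_nf; done)) (by first | rfl | (simp; done) | (simp; omega) | (simp; ring_nf; done) | (simp; constructor <;> (first | rfl | omega | (ring_nf; done))) | (ring_nf; done))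
  have hc : Run (cups (ys ++ [x])) [] (prs ys ++ [op x, x]) := by
    exact Run.cast (run_cups (ys ++ [x])) (by first | rfl | (simp; done) | (simp; omega) | (simp; ring_nf; done) | (simp; constructor <;> (first | rfl | omega | (ring_nf; done))) | (ring_nf; done)) (by first | rfl | (simp; done) | (simp; omega) | (simp; ring_nf; done) | (simp; constructor <;> (first | rfl | omega | (ring_nf; done))) | (ring_nf; done)) (by first | rfl | (simp; done) | (simp; omega) | (simp; ring_nf; done) | (simp; constructor <;> (first | rfl | omega | (ring_nf; done))) | (ring_nf; done))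
  -- replace `cupPass`
  have e1 : Iso [] (prs ys ++ [op r, op x, x, r])
      ((cups (ys ++ [x]) ++ w) ++ sh (prs ys).length (cupPass r s))
      ((cups (ys ++ [x]) ++ w) ++ sh (prs ys).length ((2, Gen.cup (op r)) :: blkR (!s) 2 1)) :=
    ((cupPass_iso r (op x) x s).shiftL (prs ys)).appL (hc.append hwr)
  -- commute `w` with the cup at the far right
  have e2 : Iso [] (prs ys ++ [op r, op x, x, r])
      (cups (ys ++ [x]) ++ ((w ++ sh (prs ys ++ [op x, x]).length [(0, Gen.cup (op r))]) ++
        sh (prs ys).length (blkR (!s) 2 1)))
      (cups (ys ++ [x]) ++ ((sh (prs ys ++ [op x, x]).length [(0, Gen.cup (op r))] ++ w) ++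
        sh (prs ys).length (blkR (!s) 2 1))) := by
    have := ((interchange hwr hcup).congr (u := cups (ys ++ [x]))
      (v := sh (prs ys).length (blkR (!s) 2 1)) (by exact Run.cast hc (by first | rfl | (simp; done) | (simp; omega) | (simp; ring_nf; done) | (simp; constructor <;> (first | rfl | omega | (ring_nf; done))) | (ring_nf; done)) (by first | rfl | (simp; done) | (simp; omega) | (simp; ring_nf; done) | (simp; constructor <;> (first | rfl | omega | (ring_nf; done))) | (ring_nf; done)) (by first | rfl | (simp; done) | (simp; omega) | (simp; ring_nf; done) | (simp; constructor <;> (first | rfl | omega | (ring_nf; done))) | (ring_nf; done))) (by exact Run.cast rb (by first | rfl | (simp; done) | (simp; omega) | (simp; ring_nf; done) | (simp; constructor <;> (first | rfl | omega | (ring_nf; done))) | (ring_nf; done)) (by first | rfl | (simp; done) | (simp; omega) | (simp; ring_nf; done) | (simp; constructor <;> (first | rfl | omega | (ring_nf; done))) | (ring_nf; done)) (by first | rfl | (simp; done) | (simp; omega) | (simp; ring_nf; done) | (simp; constructor <;> (first | rfl | omega | (ring_nf;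 done))) | (ring_nf; done))))
    exact this
  -- insert the slide and its inverse
  have e3 : Iso [] (prs ys ++ [op r, op x, x, r])
      ((cups (ys ++ [x]) ++ sh (prs ys ++ [op x, x]).length [(0, Gen.cup (op r))]) ++
        (sh (prs ys).length (blkR (!s) 2 1 ++ blkR s 1 2) ++
          (w ++ sh (prs ys).length (blkR (!s) 2 1))))
      ((cups (ys ++ [x]) ++ sh (prs ys ++ [op x, x]).length [(0, Gen.cup (op r))]) ++
        (sh (prs ys).length [] ++
          (w ++ sh (prs ys).length (blkR (!s) 2 1)))) := by
    have h1 : Run (cups (ys ++ [x]) ++ sh (prs ys ++ [op x, x]).length [(0, Gen.cup (op r))])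
        [] (prs ys ++ [op x, x, op r, r]) := by
      refine hc.append ?_
      exact Run.cast (hcup.shiftL (prs ys ++ [op x, x])) (by first | rfl | (simp; done) | (simp; omega) | (simp; ring_nf; done) | (simp; constructor <;> (first | rfl | omega | (ring_nf; done))) | (ring_nf; done)) (by first | rfl | (simp; done) | (simp; omega) | (simp; ring_nf; done) | (simp; constructor <;> (first | rfl | omega | (ring_nf; done))) | (ring_nf; done)) (by first | rfl | (simp; done) | (simp; omega) | (simp; ring_nf; done) | (simp; constructor <;> (first | rfl | omega | (ring_nf; done))) | (ring_nf; done))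
    have h2 : Run (w ++ sh (prs ys).length (blkR (!s) 2 1)) (prs ys ++ [op x, x, op r, r])
        (prs ys ++ [op r, op x, x, r]) := by
      refine Run.append ?_ rb
      exact Run.cast (hwr.right [op r, r]) (by first | rfl | (simp; done) | (simp; omega) | (simp; ring_nf; done) | (simp; constructor <;> (first | rfl | omega | (ring_nf; done))) | (ring_nf; done)) (by first | rfl | (simp; done) | (simp; omega) | (simp; ring_nf; done) | (simp; constructor <;> (first | rfl | omega | (ring_nf; done))) | (ring_nf; done)) (by first | rfl | (simp; done) | (simp; omega) | (simp; ring_nf; done) | (simp; constructor <;> (first | rfl | omega | (ring_nf; done))) | (ring_nf; done))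
    have h3 : Iso [op x, x, op r] [op x, x, op r] (blkR (!s) 2 1 ++ blkR s 1 2) [] := by
      have := blkR_inv (!s) [op x, x] [op r]
      simpa using this
    have := (h3.shift (prs ys) [r]).congr (by simpa using h1) (by simpa using h2)
    simpa using this
  -- the cup with its slide is again `cupPass`
  have e4 : Iso [] (prs ys ++ [op r, op x, x, r])
      ((cups (ys ++ [x])) ++ (sh (prs ys).length (cupPass r s) ++
        (sh (prs ys).length (blkR s 1 2) ++ (w ++ sh (prs ys).length (blkR (!s) 2 1)))))
      ((cups (ys ++ [x])) ++ (sh (prs ys).length ((2, Gen.cup (op r)) :: blkR (!s) 2 1) ++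
        (sh (prs ys).length (blkR s 1 2) ++ (w ++ sh (prs ys).length (blkR (!s) 2 1))))) := by
    refine ((cupPass_iso r (op x) x s).shiftL (prs ys)).congr hc ?_
    refine rb'.append (Run.append ?_ rb)
    exact Run.cast (hwr.right [op r, r]) (by first | rfl | (simp; done) | (simp; omega) | (simp; ring_nf; done) | (simp; constructor <;> (first | rfl | omega | (ring_nf; done))) | (ring_nf; done)) (by first | rfl | (simp; done) | (simp; omega) | (simp; ring_nf; done) | (simp; constructor <;> (first | rfl | omega | (ring_nf; done))) | (ring_nf; done)) (by first | rfl | (simp; done) | (simp; omega) | (simp; ring_nf; done) | (simp; constructor <;> (first | rfl | omega | (ring_nf; done))) | (ring_nf; done))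
  -- nested cups
  have e5 : Iso [] (prs ys ++ [op r, op x, x, r])
      (cups ys ++ (sh (prs ys).length ((0, Gen.cup (op x)) :: cupPass r s) ++
        (sh (prs ys).length (blkR s 1 2) ++ (w ++ sh (prs ys).length (blkR (!s) 2 1)))))
      (cups ys ++ (sh (prs ys).length [(0, Gen.cup (op r)), (1, Gen.cup (op x))] ++
        (sh (prs ys).length (blkR s 1 2) ++ (w ++ sh (prs ys).length (blkR (!s) 2 1))))) := by
    refine ((cup_cupPass x r s).shiftL (prs ys)).congr ?_ ?_
    · exact Run.cast (run_cups ys) (by first | rfl | (simp; done) | (simp; omega) | (simp; ring_nf; done) | (simp; constructor <;> (first | rfl | omega | (ring_nf; done))) | (ring_nf; done)) (by first | rfl | (simp; done) | (simp; omega) | (simp; ring_nf; done) | (simp; constructor <;> (first | rfl | omega | (ring_nf; done))) | (ring_nf; done)) (by first | rfl | (simp; done) | (simp; omega) | (simp; ring_nf; done) | (simp; constructor <;> (first | rfl | omega | (ring_nf; done))) | (ring_nf; done))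
    refine rb'.append (Run.append ?_ rb)
    exact Run.cast (hwr.right [op r, r]) (by first | rfl | (simp; done) | (simp; omega) | (simp; ring_nf; done) | (simp; constructor <;> (first | rfl | omega | (ring_nf; done))) | (ring_nf; done)) (by first | rfl | (simp; done) | (simp; omega) | (simp; ring_nf; done) | (simp; constructor <;> (first | rfl | omega | (ring_nf; done))) | (ring_nf; done)) (by first | rfl | (simp; done) | (simp; omega) | (simp; ring_nf; done) | (simp; constructor <;> (first | rfl | omega | (ring_nf; done))) | (ring_nf; done))
  refine Iso.trans (Iso.of_eq ?_) (e1.trans (Iso.trans (Iso.of_eq ?_) (e2.trans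
    (Iso.trans (Iso.of_eq ?_) (e3.symm.trans (Iso.trans (Iso.of_eq ?_) (e4.symm.trans
    (Iso.trans (Iso.of_eq ?_) (e5.trans (Iso.of_eq ?_))))))))))
  · simp
  · (first | rfl | (simp; done) | (simp; omega) | (simp; ring_nf; done) | (simp; constructor <;> (first | rfl | omega | (ring_nf; done))) | (ring_nf; done))
  · (first | rfl | (simp; done) | (simp; omega) | (simp; ring_nf; done) | (simp; constructor <;> (first | rfl | omega | (ring_nf; done))) | (ring_nf; done))
  · (first | rfl | (simp; done) | (simp; omega) | (simp; ring_nf; done) | (simp; constructor <;> (first | rfl | omega | (ring_nf; done))) | (ring_nf; done))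
  · simp [cups_append, cups_cons]
  · simp

/-- Passing a strand over or under a finger of a box gives the same result modulo the next
step. -/
theorem theta_exch {N : ℕ} {ys : List (Pt α)} {x r : Pt α} {θ : Word α}
    (hθ : Theta N (ys ++ [x]) θ) :
    Cong (N + 1) [] (prs ys ++ [op r, op x, x, r])
      (θ ++ sh (prs ys).length (cupPass r false)) (θ ++ sh (prs ys).length (cupPass r true)) := by
  obtain ⟨w, wi, hw, hθ⟩ := hθ
  set m := (prs ys).length with hm
  set Z := prs ys ++ [op r, op x, x, r] with hZ
  have hc : Run (cups (ys ++ [x])) [] (prs ys ++ [op x, x]) := by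
    exact Run.cast (run_cups (ys ++ [x])) (by first | rfl | (simp; done) | (simp; omega) | (simp; ring_nf; done) | (simp; constructor <;> (first | rfl | omega | (ring_nf; done))) | (ring_nf; done)) (by first | rfl | (simp; done) | (simp; omega) | (simp; ring_nf; done) | (simp; constructor <;> (first | rfl | omega | (ring_nf; done))) | (ring_nf; done)) (by first | rfl | (simp; done) | (simp; omega) | (simp; ring_nf; done) | (simp; constructor <;> (first | rfl | omega | (ring_nf; done))) | (ring_nf; done))
  have hP : ∀ s, Run (sh m (cupPass r s)) (prs ys ++ [op x, x]) Z := fun s =>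
    (run_cupPass r (op x) x s).shiftL (prs ys)
  have e : ∀ s, Iso [] Z (θ ++ sh m (cupPass r s))
      ((cups ys ++ sh m [(0, Gen.cup (op r)), (1, Gen.cup (op x))]) ++
        (sh m (blkR s 1 2) ++ (w ++ sh m (blkR (!s) 2 1)))) := fun s => by
    have h1 := (hθ.cast rfl (by simp)).appR (hP s)
    exact h1.trans ((Iso.of_eq (by rw [List.append_assoc])).trans (theta_cupPass hw s))
  have hE : Run (cups ys ++ sh m [(0, Gen.cup (op r)), (1, Gen.cup (op x))]) [] Z := by
    refine (run_cups ys).append ?_
    have : Run [(0, Gen.cup (op r)), (1, Gen.cup (op x))] [] [op r, op x, x, r] := by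
      have h1 : Run [(0, Gen.cup (op r))] [] [op r, r] := by exact Run.cast (run_cup (op r) [] []) (by first | rfl | (simp; done) | (simp; omega) | (simp; ring_nf; done) | (simp; constructor <;> (first | rfl | omega | (ring_nf; done))) | (ring_nf; done)) (by first | rfl | (simp; done) | (simp; omega) | (simp; ring_nf; done) | (simp; constructor <;> (first | rfl | omega | (ring_nf; done))) | (ring_nf; done)) (by first | rfl | (simp; done) | (simp; omega) | (simp; ring_nf; done) | (simp; constructor <;> (first | rfl | omega | (ring_nf; done))) | (ring_nf; done))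
      have h2 : Run [(1, Gen.cup (op x))] [op r, r] [op r, op x, x, r] := by
        exact Run.cast (run_cup (op x) [op r] [r]) (by first | rfl | (simp; done) | (simp; omega) | (simp; ring_nf; done) | (simp; constructor <;> (first | rfl | omega | (ring_nf; done))) | (ring_nf; done)) (by first | rfl | (simp; done) | (simp; omega) | (simp; ring_nf; done) | (simp; constructor <;> (first | rfl | omega | (ring_nf; done))) | (ring_nf; done)) (by first | rfl | (simp; done) | (simp; omega) | (simp; ring_nf; done) | (simp; constructor <;> (first | rfl | omega | (ring_nf; done))) | (ring_nf; done))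
      exact h1.append h2
    exact Run.cast (this.shiftL (prs ys)) (by first | rfl | (simp; done) | (simp; omega) | (simp; ring_nf; done) | (simp; constructor <;> (first | rfl | omega | (ring_nf; done))) | (ring_nf; done)) (by first | rfl | (simp; done) | (simp; omega) | (simp; ring_nf; done) | (simp; constructor <;> (first | rfl | omega | (ring_nf; done))) | (ring_nf; done)) (by first | rfl | (simp; done) | (simp; omega) | (simp; ring_nf; done) | (simp; constructor <;> (first | rfl | omega | (ring_nf; done))) | (ring_nf; done))
  -- the slides
  have rb : ∀ s, Run (sh m (blkR s 1 2)) Z (prs ys ++ [op x, x, op r, r]) := fun s => by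
    exact Run.cast (((run_blkR s [op r] [op x, x]).shift (prs ys) [r])) (by first | rfl | (simp; done) | (simp; omega) | (simp; ring_nf; done) | (simp; constructor <;> (first | rfl | omega | (ring_nf; done))) | (ring_nf; done)) (by first | rfl | (simp; done) | (simp; omega) | (simp; ring_nf; done) | (simp; constructor <;> (first | rfl | omega | (ring_nf; done))) | (ring_nf; done)) (by first | rfl | (simp; done) | (simp; omega) | (simp; ring_nf; done) | (simp; constructor <;> (first | rfl | omega | (ring_nf; done))) | (ring_nf; done))
  have rc : ∀ s, Run (sh m (blkR s 2 1)) (prs ys ++ [op x, x, op r, r]) Z := fun s => by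
    exact Run.cast (((run_blkR s [op x, x] [op r]).shift (prs ys) [r])) (by first | rfl | (simp; done) | (simp; omega) | (simp; ring_nf; done) | (simp; constructor <;> (first | rfl | omega | (ring_nf; done))) | (ring_nf; done)) (by first | rfl | (simp; done) | (simp; omega) | (simp; ring_nf; done) | (simp; constructor <;> (first | rfl | omega | (ring_nf; done))) | (ring_nf; done)) (by first | rfl | (simp; done) | (simp; omega) | (simp; ring_nf; done) | (simp; constructor <;> (first | rfl | omega | (ring_nf; done))) | (ring_nf; done))
  have bc : ∀ s, Iso Z Z (sh m (blkR s 1 2) ++ sh m (blkR (!s) 2 1)) [] := fun s => by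
    have := ((blkR_inv s [op r] [op x, x]).shift (prs ys) [r])
    exact Iso.adapt this (by first | rfl | (simp; done) | (simp; omega) | (simp; ring_nf; done) | (simp; constructor <;> (first | rfl | omega | (ring_nf; done))) | (ring_nf; done)) (by first | rfl | (simp; done) | (simp; omega) | (simp; ring_nf; done) | (simp; constructor <;> (first | rfl | omega | (ring_nf; done))) | (ring_nf; done)) (by first | rfl | (simp; done) | (simp; omega) | (simp; ring_nf; done) | (simp; constructor <;> (first | rfl | omega | (ring_nf; done))) | (ring_nf; done)) (by first | rfl | (simp; done) | (simp; omega) | (simp; ring_nf; done) | (simp; constructor <;> (first | rfl | omega | (ring_nf; done))) | (ring_nf; done))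
  have cb : ∀ s, Iso (prs ys ++ [op x, x, op r, r]) (prs ys ++ [op x, x, op r, r])
      (sh m (blkR (!s) 2 1) ++ sh m (blkR s 1 2)) [] := fun s => by
    have := ((blkR_inv (!s) [op x, x] [op r]).shift (prs ys) [r])
    rw [Bool.not_not] at this
    exact Iso.adapt this (by first | rfl | (simp; done) | (simp; omega) | (simp; ring_nf; done) | (simp; constructor <;> (first | rfl | omega | (ring_nf; done))) | (ring_nf; done)) (by first | rfl | (simp; done) | (simp; omega) | (simp; ring_nf; done) | (simp; constructor <;> (first | rfl | omega | (ring_nf; done))) | (ring_nf; done)) (by first | rfl | (simp; done) | (simp; omega) | (simp; ring_nf; done) | (simp; constructor <;> (first | rfl | omega | (ring_nf; done))) | (ring_nf; done)) (by first | rfl | (simp; done) | (simp; omega) | (simp; ring_nf; done) | (simp; constructor <;> (first | rfl | omega | (ring_nf; done))) | (ring_nf; done))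
  have hw2 : InvW N (prs ys ++ [op x, x, op r, r]) w wi := by
    have := hw.shift [] [op r, r]
    exact this.cast (by simp) (by simp) (by simp)
  -- `W s` and the conjugating element
  have hW : InvW N Z (sh m (blkR false 1 2) ++ (w ++ sh m (blkR true 2 1)))
      (sh m (blkR false 1 2) ++ (wi ++ sh m (blkR true 2 1))) :=
    hw2.conj (rb false) (rc true) (bc false) (cb false)
  have hg : InvW 1 Z (sh m (blkR false 1 2) ++ sh m (blkR false 2 1))
      (sh m (blkR true 1 2) ++ sh m (blkR true 2 1)) := by
    have i1 : Iso Z Z ((sh m (blkR false 1 2) ++ sh m (blkR false 2 1)) ++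
        (sh m (blkR true 1 2) ++ sh m (blkR true 2 1))) [] := by
      have := (cb true).congr (rb false) (rc true)
      refine Iso.trans (Iso.of_eq ?_) (this.trans (Iso.trans (Iso.of_eq ?_) (bc false)))
      · simp
      · simp
    have i2 : Iso Z Z ((sh m (blkR true 1 2) ++ sh m (blkR true 2 1)) ++
        (sh m (blkR false 1 2) ++ sh m (blkR false 2 1))) [] := by
      have := (cb false).congr (rb true) (rc false)
      refine Iso.trans (Iso.of_eq ?_) (this.trans (Iso.trans (Iso.of_eq ?_) (bc true)))
      · simp
      · simp
    refine ⟨(rb false).append (rc false), (rb true).append (rc true), i1, i2, ?_⟩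
    have h1 : E1 Z Z (sh m (blkR false 1 2) ++ sh m (blkR false 2 1)) [] := by
      refine E1.trans (e1_of_fg ((rb false).append (rc false)) ((rb false).append (rc true)) ?_)
        (bc false).e1
      simp
    have := h1.mem_J ((rb false).append (rc false))
    simpa using this
  have hk := hW.comm hg
  -- `W true` is `W false` times the commutator
  have hWt : Iso Z Z (sh m (blkR true 1 2) ++ (w ++ sh m (blkR false 2 1)))
      ((sh m (blkR false 1 2) ++ (w ++ sh m (blkR true 2 1))) ++
        ((sh m (blkR false 1 2) ++ (wi ++ sh m (blkR true 2 1))) ++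
          ((sh m (blkR true 1 2) ++ sh m (blkR true 2 1)) ++
            ((sh m (blkR false 1 2) ++ (w ++ sh m (blkR true 2 1))) ++
              (sh m (blkR false 1 2) ++ sh m (blkR false 2 1)))))) := by
    have r1 : Run ((sh m (blkR true 1 2) ++ sh m (blkR true 2 1)) ++
            ((sh m (blkR false 1 2) ++ (w ++ sh m (blkR true 2 1))) ++
              (sh m (blkR false 1 2) ++ sh m (blkR false 2 1)))) Z Z :=
      hg.runi.append (hW.run.append hg.run)
    have s1 := (hW.inv.appR r1).symm
    have s2 := ((cb false).congr (u := sh m (blkR true 1 2))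
      (v := w ++ (sh m (blkR true 2 1) ++ (sh m (blkR false 1 2) ++ sh m (blkR false 2 1))))
      (rb true) (hw2.run.append ((rc true).append ((rb false).append (rc false))))).symm
    have s3 := ((cb false).congr (u := sh m (blkR true 1 2) ++ w)
      (v := sh m (blkR false 2 1)) ((rb true).append hw2.run) (rc false)).symm
    refine Iso.trans (Iso.of_eq ?_) (s3.trans (Iso.trans (Iso.of_eq ?_) (s2.trans
      (Iso.trans (Iso.of_eq ?_) (s1.trans (Iso.of_eq ?_))))))
    all_goals simp
  have hfin := Cong.ins (X := []) (Y := Z) (hE.append hW.run) (Run.nil Z) hk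
  refine Cong.trans (e false).cong (Cong.trans (Cong.of_eq ?_) (hfin.trans
    (Cong.trans (Cong.of_eq ?_) ((Cong.trans (Iso.cong (hWt.symm.appL hE))
      (e true).symm.cong)))))
  · simp
  · simp

/-- In the presence of a box, words are only needed up to `JEq`. -/
theorem theta_jeq {N : ℕ} {ys : List (Pt α)} {x : Pt α} {θ : Word α}
    (hθ : Theta N (ys ++ [x]) θ) {V Z Z' : List (Pt α)} {A f f' : Word α}
    (hA : Run A (V ++ prs ys) Z) (h : JEq x Z Z' f f') :
    Cong (N + 1) V Z' (sh V.length θ ++ (A ++ f)) (sh V.length θ ++ (A ++ f')) := by
  have hθr : Run (sh V.length θ) V (V ++ (prs ys ++ [op x, x])) := by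
    exact Run.cast (hθ.run.shiftL V) (by first | rfl | (simp; done) | (simp; omega) | (simp; ring_nf; done) | (simp; constructor <;> (first | rfl | omega | (ring_nf; done))) | (ring_nf; done)) (by first | rfl | (simp; done) | (simp; omega) | (simp; ring_nf; done) | (simp; constructor <;> (first | rfl | omega | (ring_nf; done))) | (ring_nf; done)) (by first | rfl | (simp; done) | (simp; omega) | (simp; ring_nf; done) | (simp; constructor <;> (first | rfl | omega | (ring_nf; done))) | (ring_nf; done))
  have hAr : Run A (V ++ (prs ys ++ [op x, x])) (Z ++ [op x, x]) := by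
    exact Run.cast (hA.right [op x, x]) (by first | rfl | (simp; done) | (simp; omega) | (simp; ring_nf; done) | (simp; constructor <;> (first | rfl | omega | (ring_nf; done))) | (ring_nf; done)) (by first | rfl | (simp; done) | (simp; omega) | (simp; ring_nf; done) | (simp; constructor <;> (first | rfl | omega | (ring_nf; done))) | (ring_nf; done)) (by first | rfl | (simp; done) | (simp; omega) | (simp; ring_nf; done) | (simp; constructor <;> (first | rfl | omega | (ring_nf; done))) | (ring_nf; done))
  induction h with
  | rel _ _ h =>
    cases h with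
    | iso h => exact ((h.appL hAr).appL hθr).cong
    | @exch Z1 r u v hu hv =>
      -- the strand `r` may be pulled down to the box
      have hAu : Run (A ++ u) (V ++ prs ys) (Z1 ++ [r]) := hA.append hu
      have hv' : Run ((Z1.length, Gen.cap r) :: v) (Z1 ++ (r :: op r :: [op x, x, r])) Z' :=
        Run.append (u := [(Z1.length, Gen.cap r)]) (run_cap r Z1 _) hv
      have key : ∀ s, Iso (V ++ (prs ys ++ [op x, x])) Z'
          ((A ++ u) ++ (sh Z1.length (slR s 2) ++ v))
          (sh (V ++ prs ys).length (cupPass r s) ++ ((A ++ u) ++
            ((Z1.length, Gen.cap r) :: v))) := by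
        intro s
        have hAu' : Run (A ++ u) (V ++ (prs ys ++ [op x, x])) (Z1 ++ [r] ++ [op x, x]) := by
          exact Run.cast (hAu.right [op x, x]) (by first | rfl | (simp; done) | (simp; omega) | (simp; ring_nf; done) | (simp; constructor <;> (first | rfl | omega | (ring_nf; done))) | (ring_nf; done)) (by first | rfl | (simp; done) | (simp; omega) | (simp; ring_nf; done) | (simp; constructor <;> (first | rfl | omega | (ring_nf; done))) | (ring_nf; done)) (by first | rfl | (simp; done) | (simp; omega) | (simp; ring_nf; done) | (simp; constructor <;> (first | rfl | omega | (ring_nf; done))) | (ring_nf; done))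
        have hsl : Run (sh Z1.length (slR s 2) ++ v) (Z1 ++ ([r] ++ [op x, x])) Z' := by
          refine Run.append ?_ hv
          exact Run.cast ((run_slR s r [op x, x]).shiftL Z1) (by first | rfl | (simp; done) | (simp; omega) | (simp; ring_nf; done) | (simp; constructor <;> (first | rfl | omega | (ring_nf; done))) | (ring_nf; done)) (by first | rfl | (simp; done) | (simp; omega) | (simp; ring_nf; done) | (simp; constructor <;> (first | rfl | omega | (ring_nf; done))) | (ring_nf; done)) (by first | rfl | (simp; done) | (simp; omega) | (simp; ring_nf; done) | (simp; constructor <;> (first | rfl | omega | (ring_nf; done))) | (ring_nf; done))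
        have e1 := (mv_zig (a := r) (b := op r) rfl).shift Z1 [op x, x] |>.congr
          (u := A ++ u) (v := sh Z1.length (slR s 2) ++ v) (by exact Run.cast hAu' (by first | rfl | (simp; done) | (simp; omega) | (simp; ring_nf; done) | (simp; constructor <;> (first | rfl | omega | (ring_nf; done))) | (ring_nf; done)) (by first | rfl | (simp; done) | (simp; omega) | (simp; ring_nf; done) | (simp; constructor <;> (first | rfl | omega | (ring_nf; done))) | (ring_nf; done)) (by first | rfl | (simp; done) | (simp; omega) | (simp; ring_nf; done) | (simp; constructor <;> (first | rfl | omega | (ring_nf; done))) | (ring_nf; done))) hsl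
        have e2 := (interchange (run_cap r Z1 []) (run_slR s r [op x, x])).congr
          (u := (A ++ u) ++ [(Z1.length + 1, Gen.cup (op r))]) (v := v)
          (X' := V ++ (prs ys ++ [op x, x])) (Y' := Z')
          (by
            refine hAu'.append ?_
            exact Run.cast (run_cup (op r) (Z1 ++ [r]) [op x, x]) (by first | rfl | (simp; done) | (simp; omega) | (simp; ring_nf; done) | (simp; constructor <;> (first | rfl | omega | (ring_nf; done))) | (ring_nf; done)) (by first | rfl | (simp; done) | (simp; omega) | (simp; ring_nf; done) | (simp; constructor <;> (first | rfl | omega | (ring_nf; done))) | (ring_nf; done)) (by first | rfl | (simp; done) | (simp; omega) | (simp; ring_nf; done) | (simp; constructor <;> (first | rfl | omega | (ring_nf; done))) | (ring_nf; done))) (by exact Run.cast hv (by first | rfl | (simp; done) | (simp; omega) | (simp; ring_nf; done) | (simp; constructor <;> (first | rfl | omega | (ring_nf; done))) | (ring_nf; done)) (by first | rfl | (simp; done) | (simp; omega) | (simp; ring_nf; done) | (simp; constructor <;> (first | rfl | omega | (ring_nf; done))) | (ring_nf;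 done)) (by first | rfl | (simp; done) | (simp; omega) | (simp; ring_nf; done) | (simp; constructor <;> (first | rfl | omega | (ring_nf; done))) | (ring_nf; done)))
        have e3 := (interchange hAu (run_cupPass r (op x) x s)).appR
          (v := (Z1.length, Gen.cap r) :: v) (Y' := Z') (by exact Run.cast hv' (by first | rfl | (simp; done) | (simp; omega) | (simp; ring_nf; done) | (simp; constructor <;> (first | rfl | omega | (ring_nf; done))) | (ring_nf; done)) (by first | rfl | (simp; done) | (simp; omega) | (simp; ring_nf; done) | (simp; constructor <;> (first | rfl | omega | (ring_nf; done))) | (ring_nf; done)) (by first | rfl | (simp; done) | (simp; omega) | (simp; ring_nf; done) | (simp; constructor <;> (first | rfl | omega | (ring_nf; done))) | (ring_nf; done)))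
        refine Iso.trans ?_ (e1.symm.trans (Iso.trans ?_ (e2.trans (Iso.trans ?_
          ((e3.cast (by simp) rfl).trans ?_)))))
        all_goals apply Iso.of_eq
        all_goals simp [cupPass]
        all_goals ring_nf
      have h1 := (theta_exch (r := r) hθ).shiftL V
      have h2 : Run ((A ++ u) ++ ((Z1.length, Gen.cap r) :: v))
          (V ++ (prs ys ++ [op r, op x, x, r])) Z' := by
        refine Run.append ?_ hv'
        exact Run.cast (hAu.right [op r, op x, x, r]) (by first | rfl | (simp; done) | (simp; omega) | (simp; ring_nf; done) | (simp; constructor <;> (first | rfl | omega | (ring_nf; done))) | (ring_nf; done)) (by first | rfl | (simp; done) | (simp; omega) | (simp; ring_nf; done) | (simp; constructor <;> (first | rfl | omega | (ring_nf; done))) | (ring_nf; done)) (by first | rfl | (simp; done) | (simp; omega) | (simp; ring_nf; done) | (simp; constructor <;> (first | rfl | omega | (ring_nf; done))) | (ring_nf; done))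
      have h3 := (h1.cast' (X' := V) (by simp) rfl).appR h2
      have k1 := (key false).appL hθr
      have k2 := (key true).appL hθr
      refine Cong.trans ?_ (k1.cong.trans (Cong.trans ?_ (h3.trans (Cong.trans ?_
        (k2.symm.cong.trans ?_)))))
      all_goals apply Cong.of_eq
      all_goals simp
      all_goals ring_nf
  | refl _ => exact Cong.refl _
  | symm _ _ _ ih => exact ih.symm
  | trans _ _ _ _ _ ih1 ih2 => exact ih1.trans ih2

end MP5b16f0
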