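import Pool.Agent.Lib.MP_5b16f0_gt.Lift

/-!
# The Vassiliev filtration

`J N X Y` is the subgroup of the free abelian group on all words which is generated by the
differences of isotopic words from `X` to `Y` and by the resolutions of the singular words from
`X` to `Y` with `N` double points.
-/

namespace MP5b16f0

universe u v

variable {α : Type u} {β : Type v}

/-- formal integral combinations of words; the product is given by concatenation of words -/
abbrev Alg (α : Type u) := MonoidAlgebra ℤ (FreeMonoid (ℕ × Gen α))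

/-- a word as an element of `Alg α` -/
noncomputable def cl (w : Word α) : Alg α := MonoidAlgebra.of ℤ _ (FreeMonoid.ofList w)

@[simp] theorem cl_nil : cl ([] : Word α) = 1 := by
  show MonoidAlgebra.of ℤ _ (1 : FreeMonoid _) = 1
  exact map_one _

theorem cl_append (u v : Word α) : cl (u ++ v) = cl u * cl v := by
  rw [cl, FreeMonoid.ofList_append, map_mul]; rfl

theorem cl_cons (x : ℕ × Gen α) (v : Word α) : cl (x :: v) = cl [x] * cl v := by
  rw [← cl_append]; rfl

/-- the resolution of a singular word -/
noncomputable def res : SWord α → Alg α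
  | [] => 1
  | (p, some g) :: D => cl [(p, g)] * res D
  | (p, none) :: D => (cl [(p, Gen.crs true)] - cl [(p, Gen.crs false)]) * res D

@[simp] theorem res_nil : res ([] : SWord α) = 1 := rfl

theorem res_append (D E : SWord α) : res (D ++ E) = res D * res E := by
  induction D with
  | nil => simp
  | cons x D ih =>
    obtain ⟨p, g⟩ := x
    cases g <;> simp [res, ih, mul_assoc]

theorem pos_append (D E : SWord α) : SWord.pos (D ++ E) = SWord.pos D ++ SWord.pos E := by
  induction D with
  | nil => simp [SWord.pos]
  | cons x D ih =>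
    obtain ⟨p, g⟩ := x
    cases g <;> simp [SWord.pos, ih]

theorem dbl_append (D E : SWord α) : SWord.dbl (D ++ E) = SWord.dbl D + SWord.dbl E := by
  induction D with
  | nil => simp [SWord.dbl]
  | cons x D ih =>
    obtain ⟨p, g⟩ := x
    cases g with
    | some g => simp [SWord.dbl, ih]
    | none => simp [SWord.dbl, ih]; omega

/-- a word as a singular word without double points -/
def toS (w : Word α) : SWord α := w.map (fun x => (x.1, some x.2))

@[simp] theorem toS_nil : toS ([] : Word α) = [] := rfl
@[simp] theorem toS_cons (x : ℕ × Gen α) (w : Word α) : toS (x :: w) = (x.1, some x.2) :: toS w :=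
  rfl
@[simp] theorem toS_append (u v : Word α) : toS (u ++ v) = toS u ++ toS v := by simp [toS]

@[simp] theorem res_toS (w : Word α) : res (toS w) = cl w := by
  induction w with
  | nil => simp
  | cons x w ih => rw [toS_cons, res, ih, ← cl_append]; rfl

@[simp] theorem pos_toS (w : Word α) : SWord.pos (toS w) = w := by
  induction w with
  | nil => rfl
  | cons x w ih => rw [toS_cons, SWord.pos, ih]

@[simp] theorem dbl_toS (w : Word α) : SWord.dbl (toS w) = 0 := by
  induction w with
  | nil => rfl
  | cons x w ih => rw [toS_cons, SWord.dbl, ih]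

/-- replace the first double points by `crs false` : the signs of crossings do not matter for
`Run` -/
theorem Run.crs_change {u v : Word α} {p : ℕ} {s t : Bool} {X Y : List (Pt α)}
    (h : Run (u ++ (p, Gen.crs s) :: v) X Y) : Run (u ++ (p, Gen.crs t) :: v) X Y := by
  obtain ⟨Z, h1, h2⟩ := h.append_inv
  refine h1.append ?_
  cases h2 with
  | cons hg hw =>
    cases hg with
    | crs s a b => exact Run.cons (Gen.Acts.crs t a b) hw

/-! ### Differences of isotopic words -/

/-- the subgroup generated by the differences of isotopic words -/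
noncomputable def K (X Y : List (Pt α)) : AddSubgroup (Alg α) :=
  AddSubgroup.closure {a | ∃ w w' : Word α, Run w X Y ∧ Iso X Y w w' ∧ a = cl w - cl w'}

theorem iso_mem_K {X Y : List (Pt α)} {w w' : Word α} (hw : Run w X Y) (h : Iso X Y w w') :
    cl w - cl w' ∈ K X Y :=
  AddSubgroup.subset_closure ⟨w, w', hw, h, rfl⟩

theorem K_mulL {X Y Z : List (Pt α)} {a : Alg α} (ha : a ∈ K Y Z) {u : Word α}
    (hu : Run u X Y) : cl u * a ∈ K X Z := by
  induction ha using AddSubgroup.closure_induction with
  | mem x hx =>
    obtain ⟨w, w', h1, h2, rfl⟩ := hx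
    rw [mul_sub, ← cl_append, ← cl_append]
    exact iso_mem_K (hu.append h1) (h2.appL hu)
  | zero => simp
  | add x y _ _ hx hy => rw [mul_add]; exact add_mem hx hy
  | neg x _ hx => rw [mul_neg]; exact neg_mem hx

theorem K_mulR {X Y Z : List (Pt α)} {a : Alg α} (ha : a ∈ K X Y) {v : Word α}
    (hv : Run v Y Z) : a * cl v ∈ K X Z := by
  induction ha using AddSubgroup.closure_induction with
  | mem x hx =>
    obtain ⟨w, w', h1, h2, rfl⟩ := hx
    rw [sub_mul, ← cl_append, ← cl_append]
    exact iso_mem_K (h1.append hv) (h2.appR hv)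
  | zero => simp
  | add x y _ _ hx hy => rw [add_mul]; exact add_mem hx hy
  | neg x _ hx => rw [neg_mul]; exact neg_mem hx

theorem res_mul_K {X Y Z : List (Pt α)} {a : Alg α} (ha : a ∈ K Y Z) {D : SWord α}
    (hD : Run D.pos X Y) : res D * a ∈ K X Z := by
  induction D generalizing X with
  | nil => cases hD; simpa using ha
  | cons x D ih =>
    obtain ⟨p, g⟩ := x
    cases g with
    | some g =>
      rw [res, mul_assoc]
      rw [SWord.pos] at hD
      obtain ⟨Z', h1, h2⟩ := (Run.append_inv (u := [(p, g)]) hD)
      exact K_mulL (ih h2) h1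
    | none =>
      rw [res, mul_assoc, sub_mul]
      rw [SWord.pos] at hD
      have hD' := Run.crs_change (u := []) (t := false) hD
      obtain ⟨Z', h1, h2⟩ := (Run.append_inv (u := [(p, Gen.crs true)]) hD)
      obtain ⟨Z'', h1', h2'⟩ := (Run.append_inv (u := [(p, Gen.crs false)]) hD')
      exact sub_mem (K_mulL (ih h2) h1) (K_mulL (ih h2') h1')

theorem K_mul_res {X Y Z : List (Pt α)} {a : Alg α} (ha : a ∈ K X Y) {D : SWord α}
    (hD : Run D.pos Y Z) : a * res D ∈ K X Z := by
  induction D generalizing Y a with
  | nil => cases hD; simpa using ha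
  | cons x D ih =>
    obtain ⟨p, g⟩ := x
    cases g with
    | some g =>
      rw [res, ← mul_assoc]
      rw [SWord.pos] at hD
      obtain ⟨Z', h1, h2⟩ := (Run.append_inv (u := [(p, g)]) hD)
      exact ih (K_mulR ha h1) h2
    | none =>
      rw [res, ← mul_assoc, mul_sub, sub_mul]
      rw [SWord.pos] at hD
      have hD' := Run.crs_change (u := []) (t := false) hD
      obtain ⟨Z', h1, h2⟩ := (Run.append_inv (u := [(p, Gen.crs true)]) hD)
      obtain ⟨Z'', h1', h2'⟩ := (Run.append_inv (u := [(p, Gen.crs false)]) hD')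
      exact sub_mem (ih (K_mulR ha h1) h2) (ih (K_mulR ha h1') h2')

theorem K_mul_K {X Y Z : List (Pt α)} {c b : Alg α} (hc : c ∈ K X Y) (hb : b ∈ K Y Z) :
    c * b ∈ K X Z := by
  induction hb using AddSubgroup.closure_induction with
  | mem x hx =>
    obtain ⟨w, w', h1, h2, rfl⟩ := hx
    rw [mul_sub]
    exact sub_mem (K_mulR hc h1) (K_mulR hc (h2.run h1))
  | zero => simp
  | add x y _ _ hx hy => rw [mul_add]; exact add_mem hx hy
  | neg x _ hx => rw [mul_neg]; exact neg_mem hx

/-! ### The filtration -/

/-- the `N`-th term of the Vassiliev filtration -/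
noncomputable def J (N : ℕ) (X Y : List (Pt α)) : AddSubgroup (Alg α) :=
  AddSubgroup.closure {a | ∃ D : SWord α, Run D.pos X Y ∧ D.dbl = N ∧ a = res D} ⊔ K X Y

theorem K_le_J (N : ℕ) (X Y : List (Pt α)) : K X Y ≤ J N X Y := le_sup_right

theorem res_mem_J {N : ℕ} {X Y : List (Pt α)} {D : SWord α} (h : Run D.pos X Y)
    (hN : D.dbl = N) : res D ∈ J N X Y :=
  (le_sup_left : _ ≤ J N X Y) (AddSubgroup.subset_closure ⟨D, h, hN, rfl⟩)

theorem iso_mem_J {N : ℕ} {X Y : List (Pt α)} {w w' : Word α} (hw : Run w X Y)
    (h : Iso X Y w w') : cl w - cl w' ∈ J N X Y := K_le_J N X Y (iso_mem_K hw h)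

theorem cl_mem_J {X Y : List (Pt α)} {w : Word α} (hw : Run w X Y) : cl w ∈ J 0 X Y := by
  have := res_mem_J (N := 0) (D := toS w) (X := X) (Y := Y) (by simpa using hw) (by simp)
  simpa using this

/-- induction principle for `J` -/
theorem J_induction {N : ℕ} {X Y : List (Pt α)} {P : Alg α → Prop}
    (hres : ∀ D : SWord α, Run D.pos X Y → D.dbl = N → P (res D))
    (hK : ∀ a ∈ K X Y, P a) (h0 : P 0) (hadd : ∀ a b, P a → P b → P (a + b))
    (hneg : ∀ a, P a → P (-a)) {a : Alg α} (ha : a ∈ J N X Y) : P a := by
  obtain ⟨b, hb, c, hc, rfl⟩ := AddSubgroup.mem_sup.1 ha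
  clear ha
  refine hadd _ _ ?_ (hK c hc)
  induction hb using AddSubgroup.closure_induction with
  | mem x hx => obtain ⟨D, h1, h2, rfl⟩ := hx; exact hres D h1 h2
  | zero => exact h0
  | add x y _ _ hx hy => exact hadd _ _ hx hy
  | neg x _ hx => exact hneg _ hx

theorem J_succ_le (N : ℕ) (X Y : List (Pt α)) : J (N + 1) X Y ≤ J N X Y := by
  have key : ∀ (D : SWord α) (u : Word α), Run (u ++ D.pos) X Y → D.dbl = N + 1 →
      cl u * res D ∈ J N X Y := by
    intro D
    induction D with
    | nil => intro u _ h; simp [SWord.dbl] at h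
    | cons x D ih =>
      intro u hu hN
      obtain ⟨p, g⟩ := x
      cases g with
      | some g =>
        rw [res, ← mul_assoc, ← cl_append]
        exact ih _ (by simpa [SWord.pos] using hu) (by simpa [SWord.dbl] using hN)
      | none =>
        rw [res, ← mul_assoc, mul_sub, sub_mul]
        have hN' : SWord.dbl D = N := by simpa [SWord.dbl] using hN
        rw [SWord.pos] at hu
        have hu' := Run.crs_change (t := false) hu
        refine sub_mem ?_ ?_
        · have := res_mem_J (N := N) (D := toS (u ++ [(p, Gen.crs true)]) ++ D) (X := X) (Y := Y)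
            (by rw [pos_append, pos_toS]; simpa using hu) (by rw [dbl_append, dbl_toS, hN']; omega)
          rwa [res_append, res_toS, cl_append] at this
        · have := res_mem_J (N := N) (D := toS (u ++ [(p, Gen.crs false)]) ++ D) (X := X) (Y := Y)
            (by rw [pos_append, pos_toS]; simpa using hu') (by rw [dbl_append, dbl_toS, hN']; omega)
          rwa [res_append, res_toS, cl_append] at this
  intro a ha
  refine J_induction ?_ ?_ ?_ ?_ ?_ ha
  · intro D h1 h2
    simpa using key D [] (by simpa using h1) h2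
  · intro a h; exact K_le_J _ _ _ h
  · exact zero_mem _
  · intro a b; exact add_mem
  · intro a; exact neg_mem

theorem J_antitone {M N : ℕ} (h : M ≤ N) (X Y : List (Pt α)) : J N X Y ≤ J M X Y := by
  induction h with
  | refl => exact le_refl _
  | step _ ih => exact (J_succ_le _ _ _).trans ih

theorem J_mul {M N : ℕ} {X Y Z : List (Pt α)} {a b : Alg α} (ha : a ∈ J M X Y)
    (hb : b ∈ J N Y Z) : a * b ∈ J (M + N) X Z := by
  refine J_induction (P := fun a => a * b ∈ J (M + N) X Z) ?_ ?_ ?_ ?_ ?_ ha
  · intro D hD hM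
    refine J_induction (P := fun b => res D * b ∈ J (M + N) X Z) ?_ ?_ ?_ ?_ ?_ hb
    · intro E hE hN
      rw [← res_append]
      exact res_mem_J (by rw [pos_append]; exact hD.append hE) (by rw [dbl_append, hM, hN])
    · intro b hb; exact K_le_J _ _ _ (res_mul_K hb hD)
    · simp [zero_mem]
    · intro x y hx hy; simp only [mul_add]; exact add_mem hx hy
    · intro x hx; simp only [mul_neg]; exact neg_mem hx
  · intro c hc
    refine J_induction (P := fun b => c * b ∈ J (M + N) X Z) ?_ ?_ ?_ ?_ ?_ hb
    · intro E hE hN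
      exact K_le_J _ _ _ (K_mul_res hc hE)
    · intro b hb
      exact K_le_J _ _ _ (K_mul_K hc hb)
    · simp [zero_mem]
    · intro x y hx hy; simp only [mul_add]; exact add_mem hx hy
    · intro x hx; simp only [mul_neg]; exact neg_mem hx
  · simp [zero_mem]
  · intro x y hx hy; simp only [add_mul]; exact add_mem hx hy
  · intro x hx; simp only [neg_mul]; exact neg_mem hx

theorem J_mulL {N : ℕ} {X Y Z : List (Pt α)} {a : Alg α} (ha : a ∈ J N Y Z) {u : Word α}
    (hu : Run u X Y) : cl u * a ∈ J N X Z := by
  simpa using J_mul (cl_mem_J hu) ha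

theorem J_mulR {N : ℕ} {X Y Z : List (Pt α)} {a : Alg α} (ha : a ∈ J N X Y) {v : Word α}
    (hv : Run v Y Z) : a * cl v ∈ J N X Z := by
  simpa using J_mul ha (cl_mem_J hv)

end MP5b16f0
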