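import Pool.Agent.Lib.MP_5b16f0_gt.Dual
import Pool.Agent.Lib.MP_5b16f0_gt.Ideal

/-!
# Crossing changes, shifts of the filtration, invertible words
-/

namespace MP5b16f0

universe u v

variable {α : Type u} {β : Type v}

/-! ### Crossing changes -/

/-- one isotopy or crossing change -/
inductive CStep (X Y : List (Pt α)) : Word α → Word α → Prop
  | iso {w w' : Word α} (h : Iso X Y w w') : CStep X Y w w'
  | cc {u v : Word α} {p : ℕ} {s t : Bool} (h : Run (u ++ (p, Gen.crs s) :: v) X Y) :
      CStep X Y (u ++ (p, Gen.crs s) :: v) (u ++ (p, Gen.crs t) :: v)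

/-- the equivalence relation generated by isotopy and crossing changes -/
def E1 (X Y : List (Pt α)) : Word α → Word α → Prop := Relation.EqvGen (CStep X Y)

theorem E1.refl {X Y : List (Pt α)} (w : Word α) : E1 X Y w w := Relation.EqvGen.refl w

theorem E1.of_eq {X Y : List (Pt α)} {w w' : Word α} (h : w = w') : E1 X Y w w' := by
  subst h; exact E1.refl w

theorem E1.symm {X Y : List (Pt α)} {w w' : Word α} (h : E1 X Y w w') : E1 X Y w' w :=
  Relation.EqvGen.symm _ _ h

theorem E1.trans {X Y : List (Pt α)} {w w' w'' : Word α} (h : E1 X Y w w')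
    (h' : E1 X Y w' w'') : E1 X Y w w'' := Relation.EqvGen.trans _ _ _ h h'

theorem Iso.e1 {X Y : List (Pt α)} {w w' : Word α} (h : Iso X Y w w') : E1 X Y w w' :=
  Relation.EqvGen.rel _ _ (CStep.iso h)

theorem E1.cc {X Y : List (Pt α)} {u v : Word α} {p : ℕ} {s : Bool} (t : Bool)
    (h : Run (u ++ (p, Gen.crs s) :: v) X Y) :
    E1 X Y (u ++ (p, Gen.crs s) :: v) (u ++ (p, Gen.crs t) :: v) :=
  Relation.EqvGen.rel _ _ (CStep.cc h)

theorem E1.run_iff {X Y : List (Pt α)} {w w' : Word α} (h : E1 X Y w w') :
    Run w X Y ↔ Run w' X Y := by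
  induction h with
  | rel _ _ h =>
    cases h with
    | iso h => exact h.run_iff
    | cc h => exact ⟨fun _ => h.crs_change, fun _ => h⟩
  | refl _ => rfl
  | symm _ _ _ ih => exact ih.symm
  | trans _ _ _ _ _ ih1 ih2 => exact ih1.trans ih2

theorem E1.run {X Y : List (Pt α)} {w w' : Word α} (h : E1 X Y w w') (hw : Run w X Y) :
    Run w' X Y := h.run_iff.1 hw

theorem E1.appL {X Y Z : List (Pt α)} {w w' u : Word α} (hu : Run u X Y) (h : E1 Y Z w w') :
    E1 X Z (u ++ w) (u ++ w') := by
  induction h with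
  | rel _ _ h =>
    cases h with
    | iso h => exact (h.appL hu).e1
    | @cc u0 v0 p s t h =>
      have := E1.cc (X := X) (Y := Z) (u := u ++ u0) (v := v0) (p := p) (s := s) t
        (by simpa using hu.append h)
      simpa using this
  | refl _ => exact E1.refl _
  | symm _ _ _ ih => exact ih.symm
  | trans _ _ _ _ _ ih1 ih2 => exact ih1.trans ih2

theorem E1.appR {X Y Z : List (Pt α)} {w w' v : Word α} (h : E1 X Y w w') (hv : Run v Y Z) :
    E1 X Z (w ++ v) (w' ++ v) := by
  induction h with
  | rel _ _ h =>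
    cases h with
    | iso h => exact (h.appR hv).e1
    | @cc u0 v0 p s t h =>
      have := E1.cc (X := X) (Y := Z) (u := u0) (v := v0 ++ v) (p := p) (s := s) t
        (by simpa using h.append hv)
      simpa using this
  | refl _ => exact E1.refl _
  | symm _ _ _ ih => exact ih.symm
  | trans _ _ _ _ _ ih1 ih2 => exact ih1.trans ih2

theorem E1.congr {X Y X' Y' : List (Pt α)} {w w' u v : Word α} (h : E1 X Y w w')
    (hu : Run u X' X) (hv : Run v Y Y') : E1 X' Y' (u ++ (w ++ v)) (u ++ (w' ++ v)) :=
  (h.appR hv).appL hu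

theorem E1.shift {X Y : List (Pt α)} {w w' : Word α} (h : E1 X Y w w') (A C : List (Pt α)) :
    E1 (A ++ (X ++ C)) (A ++ (Y ++ C)) (sh A.length w) (sh A.length w') := by
  induction h with
  | rel _ _ h =>
    cases h with
    | iso h => exact (h.shift A C).e1
    | @cc u0 v0 p s t h =>
      have := E1.cc (u := sh A.length u0) (v := sh A.length v0) (p := p + A.length) (s := s) t
        (X := A ++ (X ++ C)) (Y := A ++ (Y ++ C)) (by simpa using h.shift A C)
      simpa using this
  | refl _ => exact E1.refl _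
  | symm _ _ _ ih => exact ih.symm
  | trans _ _ _ _ _ ih1 ih2 => exact ih1.trans ih2

theorem E1.shiftL {X Y : List (Pt α)} {w w' : Word α} (h : E1 X Y w w') (A : List (Pt α)) :
    E1 (A ++ X) (A ++ Y) (sh A.length w) (sh A.length w') := by
  simpa using h.shift A []

theorem E1.right {X Y : List (Pt α)} {w w' : Word α} (h : E1 X Y w w') (C : List (Pt α)) :
    E1 (X ++ C) (Y ++ C) w w' := by
  simpa using h.shift [] C

theorem E1.adapt {X Y X' Y' : List (Pt α)} {w w' u u' : Word α} (h : E1 X Y w w')
    (hX : X = X') (hY : Y = Y') (hw : w = u) (hw' : w' = u') : E1 X' Y' u u' := by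
  subst hX hY hw hw'; exact h


/-- forget the sign of a crossing -/
def fgG : Gen α → Gen α
  | Gen.cup a => Gen.cup a
  | Gen.cap a => Gen.cap a
  | Gen.crs _ => Gen.crs true

/-- forget the signs of all crossings -/
def fg (w : Word α) : Word α := w.map (fun x => (x.1, fgG x.2))

@[simp] theorem fg_nil : fg ([] : Word α) = [] := rfl
@[simp] theorem fg_cons (x : ℕ × Gen α) (w : Word α) : fg (x :: w) = (x.1, fgG x.2) :: fg w := rfl
@[simp] theorem fg_append (u v : Word α) : fg (u ++ v) = fg u ++ fg v := by simp [fg]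
@[simp] theorem fg_sh (k : ℕ) (w : Word α) : fg (sh k w) = sh k (fg w) := by
  simp [fg, sh, List.map_map, Function.comp_def]

@[simp] theorem fg_slR (s : Bool) (k : ℕ) : fg (slR s k : Word α) = slR true k := by
  induction k with
  | zero => rfl
  | succ k ih => simp [slR_succ, ih, fgG]

@[simp] theorem fg_blkR (s : Bool) (n k : ℕ) : fg (blkR s n k : Word α) = blkR true n k := by
  induction n with
  | zero => rfl
  | succ n ih => simp [blkR_succ, ih]

theorem e1_fg {X Y : List (Pt α)} {w : Word α} (h : Run w X Y) : E1 X Y w (fg w) := by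
  induction h with
  | nil X => exact E1.refl _
  | @cons A B C D Y g w hg hw ih =>
    have h1 := ih.appL (Run.single hg A D)
    cases hg with
    | cup a => exact h1
    | cap a => exact h1
    | crs s a b =>
      refine E1.trans h1 ?_
      exact E1.cc (u := []) true (by
        exact Run.cons (Gen.Acts.crs s a b) (ih.run hw))

theorem e1_of_fg {X Y : List (Pt α)} {w w' : Word α} (h : Run w X Y) (h' : Run w' X Y)
    (hf : fg w = fg w') : E1 X Y w w' :=
  (e1_fg h).trans ((E1.of_eq hf).trans (e1_fg h').symm)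

theorem E1.mem_J {X Y : List (Pt α)} {w w' : Word α} (h : E1 X Y w w') (hw : Run w X Y) :
    cl w - cl w' ∈ J 1 X Y := by
  induction h with
  | rel _ _ h =>
    cases h with
    | iso h => exact iso_mem_J hw h
    | @cc u v p s t h =>
      have key : ∀ s t : Bool, s ≠ t → s = true → cl (u ++ (p, Gen.crs s) :: v) -
          cl (u ++ (p, Gen.crs t) :: v) ∈ J 1 X Y := by
        intro s t hst hs
        subst hs
        have ht : t = false := by cases t <;> simp_all
        subst ht
        have h' : Run (u ++ (p, Gen.crs true) :: v) X Y := by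
          exact Run.crs_change (t := true) h
        have := res_mem_J (N := 1) (D := toS u ++ ((p, none) :: toS v)) (X := X) (Y := Y)
          (by rw [pos_append, pos_toS, SWord.pos, pos_toS]; exact h')
          (by rw [dbl_append, dbl_toS, SWord.dbl, dbl_toS])
        rw [res_append, res, res_toS, res_toS] at this
        rw [cl_append, cl_append, cl_cons _ v, cl_cons (p, Gen.crs false) v, ← mul_sub, ← sub_mul]
        exact this
      by_cases hst : s = t
      · subst hst; simp [zero_mem]
      · cases s with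
        | true => exact key _ _ hst rfl
        | false =>
          cases t with
          | false => exact absurd rfl hst
          | true =>
            have := key true false (by simp) rfl
            rw [← neg_sub]
            exact neg_mem this
  | refl _ => simp [zero_mem]
  | symm _ _ h ih =>
    rw [← neg_sub]
    exact neg_mem (ih (E1.run_iff h |>.2 hw))
  | trans _ _ _ h1 _ ih1 ih2 =>
    have := add_mem (ih1 hw) (ih2 (E1.run h1 hw))
    simpa using this

/-! ### Shifting the filtration -/

/-- put `k` straight strands to the left -/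
noncomputable def shA (k : ℕ) : Alg α →+* Alg α :=
  MonoidAlgebra.mapDomainRingHom ℤ (FreeMonoid.map (fun x : ℕ × Gen α => (x.1 + k, x.2)))

@[simp] theorem shA_cl (k : ℕ) (w : Word α) : shA k (cl w) = cl (sh k w) := by
  show MonoidAlgebra.mapDomain _ (MonoidAlgebra.single _ 1) = MonoidAlgebra.single _ 1
  rw [MonoidAlgebra.mapDomain_single]
  rfl

/-- put `k` straight strands to the left of a singular word -/
def shS (k : ℕ) (D : SWord α) : SWord α := D.map (fun x => (x.1 + k, x.2))

theorem shA_res (k : ℕ) (D : SWord α) : shA k (res D) = res (shS k D) := by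
  induction D with
  | nil => simp [shS]
  | cons x D ih =>
    obtain ⟨p, g⟩ := x
    cases g with
    | some g =>
      rw [res, map_mul, ih, shA_cl]
      rfl
    | none =>
      rw [res, map_mul, ih, map_sub, shA_cl, shA_cl]
      rfl

theorem pos_shS (k : ℕ) (D : SWord α) : (shS k D).pos = sh k D.pos := by
  induction D with
  | nil => rfl
  | cons x D ih =>
    obtain ⟨p, g⟩ := x
    cases g with
    | some g => show (p + k, g) :: (shS k D).pos = _; rw [ih]; rfl
    | none => show (p + k, Gen.crs true) :: (shS k D).pos = _; rw [ih]; rfl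

theorem dbl_shS (k : ℕ) (D : SWord α) : (shS k D).dbl = D.dbl := by
  induction D with
  | nil => rfl
  | cons x D ih =>
    obtain ⟨p, g⟩ := x
    cases g with
    | some g => show (shS k D).dbl = _; rw [ih]; rfl
    | none => show (shS k D).dbl + 1 = _; rw [ih]; rfl

theorem K_shift {X Y : List (Pt α)} {a : Alg α} (ha : a ∈ K X Y) (A C : List (Pt α)) :
    shA A.length a ∈ K (A ++ (X ++ C)) (A ++ (Y ++ C)) := by
  induction ha using AddSubgroup.closure_induction with
  | mem x hx =>
    obtain ⟨w, w', h1, h2, rfl⟩ := hx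
    rw [map_sub, shA_cl, shA_cl]
    exact iso_mem_K (h1.shift A C) (h2.shift A C)
  | zero => simp
  | add x y _ _ hx hy => rw [map_add]; exact add_mem hx hy
  | neg x _ hx => rw [map_neg]; exact neg_mem hx

theorem J_shift {N : ℕ} {X Y : List (Pt α)} {a : Alg α} (ha : a ∈ J N X Y)
    (A C : List (Pt α)) : shA A.length a ∈ J N (A ++ (X ++ C)) (A ++ (Y ++ C)) := by
  refine J_induction (P := fun a => shA A.length a ∈ J N (A ++ (X ++ C)) (A ++ (Y ++ C)))
    ?_ ?_ ?_ ?_ ?_ ha
  · intro D h1 h2
    rw [shA_res]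
    exact res_mem_J (by rw [pos_shS]; exact h1.shift A C) (by rw [dbl_shS, h2])
  · intro a ha; exact K_le_J _ _ _ (K_shift ha A C)
  · simp [zero_mem]
  · intro a b ha hb; simp only [map_add]; exact add_mem ha hb
  · intro a ha; simp only [map_neg]; exact neg_mem ha

/-! ### Invertible words close to the identity -/

/-- `w` is an invertible word from `Z` to `Z` with `w - 1` in the `N`-th term of the filtration,
and `wi` is its inverse -/
structure InvW (N : ℕ) (Z : List (Pt α)) (w wi : Word α) : Prop where
  run : Run w Z Z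
  runi : Run wi Z Z
  inv : Iso Z Z (w ++ wi) []
  inv' : Iso Z Z (wi ++ w) []
  mem : cl w - 1 ∈ J N Z Z

theorem InvW.symm {N : ℕ} {Z : List (Pt α)} {w wi : Word α} (h : InvW N Z w wi) :
    InvW N Z wi w := by
  refine ⟨h.runi, h.run, h.inv', h.inv, ?_⟩
  have h1 := J_mulL h.mem h.runi
  have h2 := iso_mem_J (N := N) (h.runi.append h.run) h.inv'
  rw [cl_append, cl_nil] at h2
  have : cl wi - 1 = (cl wi * cl w - 1) - cl wi * (cl w - 1) := by
    rw [mul_sub, mul_one]; abel
  rw [this]
  exact sub_mem h2 h1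

theorem InvW.nil {N : ℕ} {Z : List (Pt α)} : InvW N Z [] [] :=
  ⟨Run.nil _, Run.nil _, Iso.refl _, Iso.refl _, by simp [zero_mem]⟩

theorem InvW.shift {N : ℕ} {Z : List (Pt α)} {w wi : Word α} (h : InvW N Z w wi)
    (A C : List (Pt α)) : InvW N (A ++ (Z ++ C)) (sh A.length w) (sh A.length wi) := by
  refine ⟨h.run.shift A C, h.runi.shift A C, ?_, ?_, ?_⟩
  · simpa using h.inv.shift A C
  · simpa using h.inv'.shift A C
  · have := J_shift h.mem A C
    rwa [map_sub, shA_cl, map_one] at this

theorem InvW.cast {N : ℕ} {Z Z' : List (Pt α)} {w wi w' wi' : Word α} (h : InvW N Z w wi)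
    (hZ : Z = Z') (hw : w = w') (hwi : wi = wi') : InvW N Z' w' wi' := by
  subst hZ hw hwi; exact h

theorem InvW.antitone {M N : ℕ} {Z : List (Pt α)} {w wi : Word α} (h : InvW N Z w wi)
    (hMN : M ≤ N) : InvW M Z w wi :=
  ⟨h.run, h.runi, h.inv, h.inv', J_antitone hMN _ _ h.mem⟩

/-- conjugation -/
theorem InvW.conj {N : ℕ} {Z Z' : List (Pt α)} {w wi g gi : Word α} (h : InvW N Z w wi)
    (hg : Run g Z' Z) (hgi : Run gi Z Z') (h1 : Iso Z' Z' (g ++ gi) [])
    (h2 : Iso Z Z (gi ++ g) []) : InvW N Z' (g ++ (w ++ gi)) (g ++ (wi ++ gi)) := by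
  have key : ∀ {w wi : Word α}, InvW N Z w wi →
      Iso Z' Z' ((g ++ (w ++ gi)) ++ (g ++ (wi ++ gi))) [] := by
    intro w wi h
    have e1 := h2.congr (u := g ++ w) (v := wi ++ gi) (hg.append h.run) (h.runi.append hgi)
    have e2 := h.inv.congr (u := g) (v := gi) hg hgi
    refine Iso.trans (Iso.of_eq ?_) (e1.trans (Iso.trans (Iso.of_eq ?_) (e2.trans h1)))
    · simp
    · simp
  refine ⟨hg.append (h.run.append hgi), hg.append (h.runi.append hgi), key h, key h.symm, ?_⟩
  have m1 := J_mulR (J_mulL h.mem hg) hgi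
  have m2 := iso_mem_J (N := N) (hg.append hgi) h1
  rw [cl_append, cl_nil] at m2
  rw [cl_append, cl_append]
  have : cl g * (cl w * cl gi) - 1 = cl g * (cl w - 1) * cl gi + (cl g * cl gi - 1) := by
    rw [mul_sub, sub_mul, mul_one, mul_assoc]; abel
  rw [this]
  exact add_mem m1 m2

theorem InvW.mul {N : ℕ} {Z : List (Pt α)} {w wi g gi : Word α} (h : InvW N Z w wi)
    (hg : InvW N Z g gi) : InvW N Z (w ++ g) (gi ++ wi) := by
  refine ⟨h.run.append hg.run, hg.runi.append h.runi, ?_, ?_, ?_⟩
  · have e := hg.inv.congr (u := w) (v := wi) h.run h.runi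
    refine Iso.trans (Iso.of_eq ?_) (e.trans h.inv)
    simp
  · have e := h.inv'.congr (u := gi) (v := g) hg.runi hg.run
    refine Iso.trans (Iso.of_eq ?_) (e.trans hg.inv')
    simp
  · have m := J_mulR h.mem hg.run
    rw [cl_append]
    have : cl w * cl g - 1 = (cl w - 1) * cl g + (cl g - 1) := by
      rw [sub_mul, one_mul]; abel
    rw [this]
    exact add_mem m hg.mem

/-- commutators -/
theorem InvW.comm {M N : ℕ} {Z : List (Pt α)} {w wi g gi : Word α} (h : InvW N Z w wi)
    (hg : InvW M Z g gi) :
    InvW (N + M) Z (wi ++ (gi ++ (w ++ g))) (gi ++ (wi ++ (g ++ w))) := by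
  have h0 := h.antitone (Nat.zero_le N)
  have hg0 := hg.antitone (Nat.zero_le M)
  have a1 := (h0.symm.mul hg0.symm).mul (h0.mul hg0)
  refine ⟨h.runi.append (hg.runi.append (h.run.append hg.run)),
    hg.runi.append (h.runi.append (hg.run.append h.run)), ?_, ?_, ?_⟩
  · exact Iso.trans (Iso.of_eq (by simp)) a1.inv
  · exact Iso.trans (Iso.of_eq (by simp)) a1.inv'
  · have m1 := J_mul h.mem hg.mem
    have m2 := J_mul hg.mem h.mem
    rw [Nat.add_comm M N] at m2
    have m3 := J_mulL (J_mulL (sub_mem m1 m2) hg.runi) h.runi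
    have m4 := iso_mem_J (N := N + M) (h.runi.append (hg.runi.append (hg.run.append h.run)))
      (show Iso Z Z (wi ++ (gi ++ (g ++ w))) [] from by
        have e := hg.inv'.congr (u := wi) (v := w) h.runi h.run
        exact Iso.trans (Iso.of_eq (by simp)) (e.trans h.inv'))
    simp only [cl_append, cl_nil] at m4 ⊢
    have : cl wi * (cl gi * (cl w * cl g)) - 1 =
        cl wi * (cl gi * ((cl w - 1) * (cl g - 1) - (cl g - 1) * (cl w - 1))) +
          (cl wi * (cl gi * (cl g * cl w)) - 1) := by
      noncomm_ring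
    rw [this]
    exact add_mem m3 m4

end MP5b16f0
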