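import Mathlib

/-!
# Tangle words

The combinatorial model of oriented tangles, string links and links used for `MP_5b16f0_gt`.

A tangle diagram in general position with respect to the height function is read from bottom to
top as a list of elementary pieces (*instructions*) `(p, g)`: the elementary piece `g` (a cup, a
cap or a crossing) is applied to the strands at positions `p` (and `p + 1`), counted from the left
starting at `0`.  A *level* of the diagram is the list of its points, each point carrying a label
(the name of the component it belongs to) and an orientation.  `Iso X Y` is the equivalence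
relation generated by Turaev's moves (planar isotopies and Reidemeister moves in general position
with respect to the height function); by the theorem of Turaev (and Freyd-Yetter, Yetter)
equivalence classes of words are isotopy classes of oriented tangles relative to the boundary.
-/

namespace MP5b16f0

universe u v

/-- A point of a level of a tangle diagram: a label together with an orientation
(`true` : the strand through the point is oriented upwards). -/
abbrev Pt (α : Type u) := α × Bool

/-- The point with the opposite orientation. -/
def op {α : Type u} (a : Pt α) : Pt α := (a.1, !a.2)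

/-- Elementary tangles.
* `cup a` : a local minimum creating the two neighbouring points `a`, `op a`;
* `cap a` : a local maximum joining the two neighbouring points `a`, `op a`;
* `crs s` : a crossing of two neighbouring strands; the strand going from position `p` to
  position `p + 1` passes over the other one iff `s = true`. -/
inductive Gen (α : Type u)
  | cup (a : Pt α)
  | cap (a : Pt α)
  | crs (s : Bool)

/-- `g.Acts B C` : the elementary tangle `g` leads from the points `B` to the points `C`. -/
inductive Gen.Acts {α : Type u} : Gen α → List (Pt α) → List (Pt α) → Prop
  | cup (a : Pt α) : Gen.Acts (Gen.cup a) [] [a, op a]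
  | cap (a : Pt α) : Gen.Acts (Gen.cap a) [a, op a] []
  | crs (s : Bool) (a b : Pt α) : Gen.Acts (Gen.crs s) [a, b] [b, a]

/-- A tangle word: the list of instructions, read from bottom to top. -/
abbrev Word (α : Type u) := List (ℕ × Gen α)

/-- `Run w X Y` : the word `w` is a tangle diagram with bottom level `X` and top level `Y`. -/
inductive Run {α : Type u} : Word α → List (Pt α) → List (Pt α) → Prop
  | nil (X : List (Pt α)) : Run [] X X
  | cons {A B C D Y : List (Pt α)} {g : Gen α} {w : Word α} (hg : g.Acts B C)
      (hw : Run w (A ++ (C ++ D)) Y) : Run ((A.length, g) :: w) (A ++ (B ++ D)) Y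

/-- Put `k` straight strands to the left of a word. -/
def sh {α : Type u} (k : ℕ) (w : Word α) : Word α := w.map (fun x => (x.1 + k, x.2))

/-- The elementary moves between words (Turaev's moves): `Move X Y r s` says that the words `r`
and `s`, both from `X` to `Y`, are related by an elementary move. -/
inductive Move {α : Type u} : List (Pt α) → List (Pt α) → Word α → Word α → Prop
  /-- two elementary tangles far from each other are exchanged -/
  | comm {g h : Gen α} {B C B' C' : List (Pt α)} (hg : g.Acts B C) (hh : h.Acts B' C')
      (M : List (Pt α)) :
      Move (B ++ (M ++ B')) (C ++ (M ++ C')) [(0, g), (C.length + M.length, h)]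
        [(B.length + M.length, h), (0, g)]
  /-- a zigzag is straightened -/
  | zig (a : Pt α) : Move [a] [a] [(1, Gen.cup (op a)), (0, Gen.cap a)] []
  /-- a zigzag is straightened -/
  | zag (a : Pt α) : Move [a] [a] [(0, Gen.cup a), (1, Gen.cap (op a))] []
  /-- Reidemeister I at a minimum -/
  | r1cup (a : Pt α) (s : Bool) :
      Move [] [op a, a] [(0, Gen.cup a), (0, Gen.crs s)] [(0, Gen.cup (op a))]
  /-- Reidemeister I at a maximum -/
  | r1cap (a : Pt α) (s : Bool) :
      Move [a, op a] [] [(0, Gen.crs s), (0, Gen.cap (op a))] [(0, Gen.cap a)]
  /-- Reidemeister II -/
  | r2 (a b : Pt α) (s : Bool) : Move [a, b] [a, b] [(0, Gen.crs s), (0, Gen.crs !s)] []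
  /-- Reidemeister III -/
  | r3 (a b c : Pt α) (s : Bool) :
      Move [a, b, c] [c, b, a] [(0, Gen.crs s), (1, Gen.crs s), (0, Gen.crs s)]
        [(1, Gen.crs s), (0, Gen.crs s), (1, Gen.crs s)]
  /-- a strand passes over or under a minimum -/
  | slideCup (a b : Pt α) (s : Bool) :
      Move [b] [a, b, op a] [(0, Gen.cup a), (1, Gen.crs s)] [(1, Gen.cup a), (0, Gen.crs !s)]
  /-- a strand passes over or under a maximum -/
  | slideCap (a b : Pt α) (s : Bool) :
      Move [a, b, op a] [b] [(1, Gen.crs s), (0, Gen.cap a)] [(0, Gen.crs !s), (1, Gen.cap a)]

/-- One elementary move performed inside a word from `X` to `Y`. -/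
inductive Step {α : Type u} (X Y : List (Pt α)) : Word α → Word α → Prop
  | mk {A C X' Y' : List (Pt α)} {u r s v : Word α} (hu : Run u X (A ++ (X' ++ C)))
      (hm : Move X' Y' r s) (hv : Run v (A ++ (Y' ++ C)) Y) :
      Step X Y (u ++ (sh A.length r ++ v)) (u ++ (sh A.length s ++ v))

/-- Isotopy of tangle words from `X` to `Y`. -/
def Iso {α : Type u} (X Y : List (Pt α)) : Word α → Word α → Prop := Relation.EqvGen (Step X Y)

/-- Change the labels of a generator. -/
def Gen.relabel {α : Type u} {β : Type v} (f : α → β) : Gen α → Gen β
  | Gen.cup a => Gen.cup (f a.1, a.2)
  | Gen.cap a => Gen.cap (f a.1, a.2)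
  | Gen.crs s => Gen.crs s

/-- Change the labels of a word. -/
def relabel {α : Type u} {β : Type v} (f : α → β) (w : Word α) : Word β :=
  w.map (fun x => (x.1, x.2.relabel f))

/-- Change the labels of a level. -/
def relabelPts {α : Type u} {β : Type v} (f : α → β) (X : List (Pt α)) : List (Pt β) :=
  X.map (fun a => (f a.1, a.2))

/-- A tangle word from `X` to `Y` has no closed component: whenever the components are coloured
with two colours and all boundary points get the colour `true`, everything is coloured `true`.
(A colouring of the components of `w` is the same thing as a word over the labels `α × Bool`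
which projects to `w`.) -/
def NoClosed {α : Type u} (w : Word α) (X Y : List (Pt α)) : Prop :=
  ∀ w' : Word (α × Bool), relabel Prod.fst w' = w →
    Run w' (relabelPts (fun a => (a, true)) X) (relabelPts (fun a => (a, true)) Y) →
    w' = relabel (fun a => (a, true)) w

/-- The `m` points `0, 1, ..., m - 1`, all oriented upwards: the bottom and the top level of an
`m`-component string link. -/
def strands (m : ℕ) : List (Pt (Fin m)) := (List.finRange m).map (fun i => (i, true))

/-- `m`-component string links: tangle words from `strands m` to `strands m` without closed
components.  Since labels are constant along components, the `i`-th strand runs from the `i`-th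
bottom point to the `i`-th top point. -/
def StringLink (m : ℕ) (w : Word (Fin m)) : Prop :=
  Run w (strands m) (strands m) ∧ NoClosed w (strands m) (strands m)

/-- `m`-component links with ordered components: tangle words without boundary in which each
label `i : Fin m` is carried by exactly one component (it occurs, and the only colourings of
the components are those obtained by colouring the labels). -/
def LinkWord (m : ℕ) (w : Word (Fin m)) : Prop :=
  Run w [] [] ∧ (∀ i : Fin m, ∃ (p : ℕ) (o : Bool), (p, Gen.cup (i, o)) ∈ w) ∧
    ∀ w' : Word (Fin m × Bool), relabel Prod.fst w' = w → Run w' [] [] →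
      ∃ f : Fin m → Bool, w' = relabel (fun i => (i, f i)) w

/-- The closure of an `m`-component string link (`m` nested arcs are added on the right). -/
def closure (m : ℕ) (w : Word (Fin m)) : Word (Fin m) :=
  (List.finRange m).map (fun i => (i.1, Gen.cup (i, true))) ++ (w ++
    (List.finRange m).reverse.map (fun i => (i.1, Gen.cap (i, true))))

/-- Singular tangle words: `(p, none)` is a double point of the strands at positions `p`,
`p + 1`. -/
abbrev SWord (α : Type u) := List (ℕ × Option (Gen α))

/-- The number of double points of a singular word. -/
def SWord.dbl {α : Type u} : SWord α → ℕ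
  | [] => 0
  | (_, some _) :: D => SWord.dbl D
  | (_, none) :: D => SWord.dbl D + 1

/-- The resolution of a singular word in which every double point is replaced by `crs true`. -/
def SWord.pos {α : Type u} : SWord α → Word α
  | [] => []
  | (p, some g) :: D => (p, g) :: SWord.pos D
  | (p, none) :: D => (p, Gen.crs true) :: SWord.pos D

/-- The extension of `v` to singular words by the Vassiliev skein relation (up to a global sign:
the resolution by `crs false` is always subtracted from the resolution by `crs true`; the
first argument is the part of the word which is already resolved). -/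
def alt {α : Type u} {A : Type v} [AddCommGroup A] (v : Word α → A) : Word α → SWord α → A
  | u, [] => v u
  | u, (p, some g) :: D => alt v (u ++ [(p, g)]) D
  | u, (p, none) :: D => alt v (u ++ [(p, Gen.crs true)]) D - alt v (u ++ [(p, Gen.crs false)]) D

/-- `v` is an invariant of `m`-component string links. -/
def StringLinkInv (m : ℕ) {A : Type v} (v : Word (Fin m) → A) : Prop :=
  ∀ w w' : Word (Fin m), StringLink m w → StringLink m w' →
    Iso (strands m) (strands m) w w' → v w = v w'

/-- `v` is an invariant of `m`-component string links of type `n`. -/
def StringLinkType (m n : ℕ) {A : Type v} [AddCommGroup A] (v : Word (Fin m) → A) : Prop :=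
  StringLinkInv m v ∧
    ∀ D : SWord (Fin m), StringLink m D.pos → D.dbl = n + 1 → alt v [] D = 0

/-- `v` is an invariant of `m`-component links. -/
def LinkInv (m : ℕ) {A : Type v} (v : Word (Fin m) → A) : Prop :=
  ∀ w w' : Word (Fin m), LinkWord m w → LinkWord m w' → Iso [] [] w w' → v w = v w'

/-- `v` is an invariant of `m`-component links of type `n`. -/
def LinkType (m n : ℕ) {A : Type v} [AddCommGroup A] (v : Word (Fin m) → A) : Prop :=
  LinkInv m v ∧ ∀ D : SWord (Fin m), LinkWord m D.pos → D.dbl = n + 1 → alt v [] D = 0

/-- The string links `w`, `w'` are not separated by type `n` invariants of string links. -/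
def Unsep (m n : ℕ) (w w' : Word (Fin m)) : Prop :=
  ∀ (A : Type) [AddCommGroup A] (v : Word (Fin m) → A), StringLinkType m n v → v w = v w'

/-- The relation `≈ₙ` between links of the problem: the equivalence relation generated by
isotopy and by `closure σ ~ closure σ'` for string links `σ`, `σ'` which are not separated by
type `n` invariants of string links. -/
def Approx (m n : ℕ) : Word (Fin m) → Word (Fin m) → Prop :=
  Relation.EqvGen (fun L L' => (LinkWord m L ∧ LinkWord m L' ∧ Iso [] [] L L') ∨
    ∃ σ σ' : Word (Fin m), StringLink m σ ∧ StringLink m σ' ∧ Unsep m n σ σ' ∧
      L = closure m σ ∧ L' = closure m σ')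

end MP5b16f0
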