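import Pool.Agent.Lib.MP_5b16f0_gt.Cong
import Pool.Agent.Lib.MP_5b16f0_gt.Fine

/-!
# Detaching fingers
-/

namespace MP5b16f0

universe u v

variable {α : Type u} {β : Type v}

/-- If the strand through `q` leads to one of the legs of the finger, then the finger can be
detached and attached again at `q`. -/
theorem detach {x q : Pt α} {A C : List (Pt α)} {e : Word α} {Z' : List (Pt α)}
    (hq : q.1 = x.1) (he : Run e (A ++ q :: (C ++ [op x, x])) Z')
    (hconn : ∀ (e' : Word (α × Bool)) (A' C' Y' : List (Pt (α × Bool))) (q' j1 j2 : Pt (α × Bool)),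
      relabel Prod.fst e' = e → relabelPts Prod.fst A' = A → (q'.1.1, q'.2) = q →
      relabelPts Prod.fst C' = C → (j1.1.1, j1.2) = op x → (j2.1.1, j2.2) = x →
      Run e' (A' ++ q' :: (C' ++ [j1, j2])) Y' → q'.1.2 = true → j1.1.2 = true ∨ j2.1.2 = true) :
    JEq x (A ++ q :: C) Z' e (sh A.length (att x q C.length) ++
      (((A ++ q :: C).length, Gen.cup (op x)) :: e)) := by
  classical
  set Z := A ++ q :: C with hZ
  set R := sh A.length (att x q C.length) ++ ((Z.length, Gen.cup (op x)) :: e) with hR
  have hcup : Run [(Z.length, Gen.cup (op x))] Z (Z ++ [op x, x]) := by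
    have := run_cup (op x) Z []
    rwa [List.append_nil, op_op] at this
  have he' : Run e (Z ++ [op x, x]) Z' := by simpa [hZ] using he
  obtain ⟨e', h1, h2⟩ := transport (x := x) (R := R) hcup he'
  -- the colour of `q` is `true`
  have cq : ColP x Z Z' R [(Z.length, Gen.cup (op x))] e (Z ++ [op x, x]) A.length := by
    have e0 : Z ++ [op x, x] = A ++ q :: (C ++ [op x, x]) := by simp [hZ]
    rw [e0, colP_iff]
    refine ⟨hq, ?_⟩
    have hw : Run [(C.length, Gen.cup (op x))] C (C ++ [op x, x]) := by
      exact Run.cast (run_cup (op x) C []) (by first | rfl | (simp; done) | (simp; omega) | (simp; ring_nf; done) | (simp; constructor <;> (first | rfl | omega | (ring_nf; done))) | (ring_nf; done)) (by first | rfl | (simp; done) | (simp; omega) | (simp; ring_nf; done) | (simp; constructor <;> (first | rfl | omega | (ring_nf; done))) | (ring_nf; done)) (by first | rfl | (simp; done) | (simp; omega) | (simp; ring_nf; done) | (simp; constructor <;> (first | rfl | omega | (ring_nf; done))) | (ring_nf; done))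
    have := ((att_comm hq hw).shiftL A).appR (v := e) (Y' := Z') (by exact Run.cast he (by first | rfl | (simp; done) | (simp; omega) | (simp; ring_nf; done) | (simp; constructor <;> (first | rfl | omega | (ring_nf; done))) | (ring_nf; done)) (by first | rfl | (simp; done) | (simp; omega) | (simp; ring_nf; done) | (simp; constructor <;> (first | rfl | omega | (ring_nf; done))) | (ring_nf; done)) (by first | rfl | (simp; done) | (simp; omega) | (simp; ring_nf; done) | (simp; constructor <;> (first | rfl | omega | (ring_nf; done))) | (ring_nf; done)))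
    refine JEq.trans (JEq.of_eq ?_) (JEq.trans (Iso.jeq (this.cast (by simp [hZ]) rfl))
      (JEq.of_eq ?_))
    · simp [hZ]; ring_nf
    · simp [hZ, hR]; ring_nf
  -- so one of the legs of the cup has the colour `true`
  set c : ℕ → Bool := fun p => decide (ColP x Z Z' R [(Z.length, Gen.cup (op x))] e
    (Z ++ [op x, x]) p) with hc
  have hpaint : paint c (Z ++ [op x, x]) = paint c A ++ ((q.1, c A.length), q.2) ::
      (paint (fun n => c (n + 1 + A.length)) C ++
        [((x.1, c Z.length), (op x).2), ((x.1, c (Z.length + 1)), x.2)]) := by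
    rw [hZ]
    simp only [List.append_assoc, List.cons_append, paint_append, paint_cons, paint_nil,
      Nat.zero_add]
    simp only [List.length_append, List.length_cons]
    rw [show C.length + 1 + A.length = A.length + (C.length + 1) by ring]
    rw [show 1 + C.length + 1 + A.length = A.length + (C.length + 1) + 1 by ring]
    rfl
  have hcol := hconn e' (paint c A) (paint (fun n => c (n + 1 + A.length)) C) _
    ((q.1, c A.length), q.2) ((x.1, c Z.length), (op x).2) ((x.1, c (Z.length + 1)), x.2)
    h1 (by simp) rfl (by simp) rfl rfl (by rw [← hpaint]; exact h2) (by simpa [hc] using cq)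
  have end2 : JEq x Z Z' (([(Z.length, Gen.cup (op x)), (Z.length + 1, Gen.cap x)] : Word α) ++ e)
      e := by
    have := ((mv_zag (a := op x) (b := x) (by simp)).shift Z [x]).appR (v := e) (Y' := Z')
      (by exact Run.cast he' (by first | rfl | (simp; done) | (simp; omega) | (simp; ring_nf; done) | (simp; constructor <;> (first | rfl | omega | (ring_nf; done))) | (ring_nf; done)) (by first | rfl | (simp; done) | (simp; omega) | (simp; ring_nf; done) | (simp; constructor <;> (first | rfl | omega | (ring_nf; done))) | (ring_nf; done)) (by first | rfl | (simp; done) | (simp; omega) | (simp; ring_nf; done) | (simp; constructor <;> (first | rfl | omega | (ring_nf; done))) | (ring_nf; done)))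
    exact JEq.trans (JEq.of_eq (by simp [Nat.add_comm])) ((this.cast (by simp) rfl).jeq.trans
      (JEq.of_eq (by simp)))
  rcases hcol with hcol | hcol
  · -- colour of the left leg
    have : ColP x Z Z' R [(Z.length, Gen.cup (op x))] e (Z ++ op x :: [x]) Z.length := by
      simpa [hc] using hcol
    rw [colP_iff] at this
    refine JEq.trans ?_ this.2
    have k := (((jeq_cup (x := x) (a := op x) rfl []).shiftL Z).appR (v := e) (Z'' := Z')
      (by exact Run.cast he' (by first | rfl | (simp; done) | (simp; omega) | (simp; ring_nf; done) | (simp; constructor <;> (first | rfl | omega | (ring_nf; done))) | (ring_nf; done)) (by first | rfl | (simp; done) | (simp; omega) | (simp; ring_nf; done) | (simp; constructor <;> (first | rfl | omega | (ring_nf; done))) | (ring_nf; done)) (by first | rfl | (simp; done) | (simp; omega) | (simp; ring_nf; done) | (simp; constructor <;> (first | rfl | omega | (ring_nf; done))) | (ring_nf; done))))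
    have k' : JEq x Z Z' (sh Z.length ([(0, Gen.cup (op x))] ++
        att x (op x) (([] : List (Pt α)).length + 1)) ++ e)
        (sh Z.length ([(0, Gen.cup (op x))] ++ sh 1 (att x (op (op x)) ([] : List (Pt α)).length))
          ++ e) := k.adapt (by simp) rfl rfl rfl
    refine JEq.trans end2.symm (JEq.trans (JEq.of_eq ?_) (k'.symm.trans (JEq.of_eq ?_)))
    · simp [att, attG, Nat.add_comm]
    · simp
  · have e0 : Z ++ [op x, x] = (Z ++ [op x]) ++ x :: [] := by simp
    have l0 : Z.length + 1 = (Z ++ [op x]).length := by simp
    have : ColP x Z Z' R [(Z.length, Gen.cup (op x))] e ((Z ++ [op x]) ++ x :: [])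
        (Z ++ [op x]).length := by
      rw [← e0, ← l0]
      simpa [hc] using hcol
    rw [colP_iff] at this
    refine JEq.trans ?_ this.2
    refine JEq.trans end2.symm (JEq.of_eq ?_)
    simp [att, attG, Nat.add_comm]

theorem prs_eq_append {xs : List (Pt α)} {L1 L2 : List (Pt α)} {b : Pt α}
    (h : prs xs = L1 ++ b :: L2) :
    ∃ X1 x X2, xs = X1 ++ x :: X2 ∧ ((L1 = prs X1 ∧ b = op x ∧ L2 = x :: prs X2) ∨
      (L1 = prs X1 ++ [op x] ∧ b = x ∧ L2 = prs X2)) := by
  induction xs generalizing L1 with
  | nil => simp at h
  | cons x xs ih =>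
    cases L1 with
    | nil =>
      simp only [prs_cons, List.nil_append, List.cons.injEq] at h
      exact ⟨[], x, xs, rfl, Or.inl ⟨rfl, h.1.symm, h.2.symm⟩⟩
    | cons a L1 =>
      cases L1 with
      | nil =>
        simp only [prs_cons, List.nil_append, List.cons_append, List.cons.injEq] at h
        exact ⟨[], x, xs, rfl, Or.inr ⟨by simp [h.1], h.2.1.symm, h.2.2.symm⟩⟩
      | cons b' L1 =>
        simp only [prs_cons, List.cons_append, List.cons.injEq] at h
        obtain ⟨rfl, rfl, h3⟩ := h
        obtain ⟨X1, y, X2, rfl, h4⟩ := ih h3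
        refine ⟨x :: X1, y, X2, rfl, ?_⟩
        rcases h4 with ⟨h5, h6, h7⟩ | ⟨h5, h6, h7⟩
        · left; exact ⟨by simp [h5], h6, h7⟩
        · right; exact ⟨by simp [h5], h6, h7⟩

theorem scount_prs (P : α → Prop) (xs : List (Pt α)) : scount P (prs xs) = 0 := by
  have := (run_cups xs).scount P
  simpa using this.symm

theorem occ_map_fst_le {l : β} {X : List (Pt β)} {f : β → α} :
    occ l X ≤ occ (f l) (relabelPts f X) := by
  induction X with
  | nil => simp
  | cons a X ih =>
    rw [relabelPts_cons, occ_cons, occ_cons]
    by_cases h : a.1 = l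
    · simp [h]; omega
    · simp [h]; omega

/-- In a tangle from `V ++ prs xs` to `V` which becomes a string link after adding the cups of
`prs xs`, some strand coming from `V` leads to a leg of a pair. -/
theorem exists_conn {V xs : List (Pt α)} {e : Word α} (hV : ∀ l, occ l V ≤ 1)
    (hxs : xs ≠ []) (he : Run e (V ++ prs xs) V)
    (hnc : NoClosed (sh V.length (cups xs) ++ e) V V) :
    ∃ (e1 : Word (α × ℕ)) (A1 C1 L1 L2 Y1 : List (Pt (α × ℕ))) (a1 b1 : Pt (α × ℕ)),
      relabel Prod.fst e1 = e ∧ relabelPts Prod.fst (A1 ++ a1 :: C1) = V ∧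
      relabelPts Prod.fst (L1 ++ b1 :: L2) = prs xs ∧ relabelPts Prod.fst Y1 = V ∧
      Run e1 (A1 ++ a1 :: C1 ++ (L1 ++ b1 :: L2)) Y1 ∧ a1.1 = b1.1 ∧
      ∀ l, occ l (A1 ++ a1 :: C1 ++ (L1 ++ b1 :: L2)) + occ l Y1 ≤ 2 := by
  classical
  obtain ⟨e1, X1, Y1, h1, h2, h3, h4, h5⟩ := fine_exists he
  obtain ⟨V1, P1, rfl, hV1, hP1⟩ := relabelPts_eq_append h2
  by_cases hex : ∃ a ∈ V1, ∃ b ∈ P1, a.1 = b.1
  · obtain ⟨a, ha, b, hb, hab⟩ := hex
    obtain ⟨A1, C1, rfl⟩ := List.append_of_mem ha
    obtain ⟨L1, L2, rfl⟩ := List.append_of_mem hb
    exact ⟨e1, A1, C1, L1, L2, Y1, a, b, h1, hV1, hP1, h3, h4, hab, h5⟩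
  · exfalso
    push Not at hex
    -- colour the components meeting `V`
    let f : α × ℕ → α × Bool := fun l => (l.1, decide (0 < occ l V1))
    have hfst : (Prod.fst : α × Bool → α) ∘ f = Prod.fst := rfl
    have hr := h4.relabel f
    have fV : relabelPts f V1 = relabelPts (fun a => (a, true)) V := by
      rw [← hV1, relabelPts_relabelPts]
      apply List.map_congr_left
      intro a ha
      have : 0 < occ a.1 V1 := by
        by_contra h
        have h0 : occ a.1 V1 = 0 := by omega
        exact (occ_eq_zero.1 h0) a ha rfl
      simp [f, this]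
    have fP : relabelPts f P1 = relabelPts (fun a => (a, false)) (prs xs) := by
      rw [← hP1, relabelPts_relabelPts]
      apply List.map_congr_left
      intro b hb
      have : occ b.1 V1 = 0 := by
        rw [occ_eq_zero]
        intro a ha h
        exact hex a ha b hb h
      simp [f, this]
    have fY : relabelPts f Y1 = relabelPts (fun a => (a, true)) V := by
      rw [← h3, relabelPts_relabelPts]
      apply List.map_congr_left
      intro b hb
      by_contra hne
      have hb0 : occ b.1 V1 = 0 := by
        by_contra h
        have : 0 < occ b.1 V1 := by omega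
        exact hne (by simp [f, this])
      -- signed count of the points with label `b.1.1` which are not in `V1`
      have hs := h4.scount (fun l => l.1 = b.1.1 ∧ occ l V1 = 0)
      have s1 : scount (fun l : α × ℕ => l.1 = b.1.1 ∧ occ l V1 = 0) V1 = 0 := by
        have : ∀ W : List (Pt (α × ℕ)), (∀ a ∈ W, a ∈ V1) →
            scount (fun l : α × ℕ => l.1 = b.1.1 ∧ occ l V1 = 0) W = 0 := by
          intro W
          induction W with
          | nil => intro _; rfl
          | cons a W ih =>
            intro hW
            rw [scount_cons, ih (fun c hc => hW c (List.mem_cons_of_mem _ hc))]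
            have ha : occ a.1 V1 ≠ 0 := by
              intro h
              exact (occ_eq_zero.1 h) a (hW a List.mem_cons_self) rfl
            simp [scount, ha]
        exact this V1 (fun a h => h)
      have s2 : scount (fun l : α × ℕ => l.1 = b.1.1 ∧ occ l V1 = 0) P1 = 0 := by
        have : ∀ W : List (Pt (α × ℕ)), (∀ a ∈ W, a ∈ P1) →
            scount (fun l : α × ℕ => l.1 = b.1.1 ∧ occ l V1 = 0) W =
              scount (fun l : α => l = b.1.1) (relabelPts Prod.fst W) := by
          intro W
          induction W with
          | nil => intro _; rfl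
          | cons a W ih =>
            intro hW
            rw [scount_cons, ih (fun c hc => hW c (List.mem_cons_of_mem _ hc)),
              relabelPts_cons, scount_cons _ (a.1.1, a.2)]
            have ha : occ a.1 V1 = 0 := by
              rw [occ_eq_zero]
              intro c hc h
              exact hex c hc a (hW a List.mem_cons_self) h
            simp [scount, ha]
        rw [this P1 (fun a h => h), hP1, scount_prs]
      rw [scount_append, s1, s2] at hs
      -- the top
      obtain ⟨B1, B2, rfl⟩ := List.append_of_mem hb
      have ho := hV b.1.1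
      rw [← h3, relabelPts_append, relabelPts_cons, occ_append, occ_cons] at ho
      simp only [if_true] at ho
      have z : ∀ W : List (Pt (α × ℕ)), occ b.1.1 (relabelPts Prod.fst W) = 0 →
          scount (fun l : α × ℕ => l.1 = b.1.1 ∧ occ l V1 = 0) W = 0 := by
        intro W
        induction W with
        | nil => intro _; rfl
        | cons a W ih =>
          intro hW
          rw [relabelPts_cons, occ_cons] at hW
          have ha : a.1.1 ≠ b.1.1 := by
            intro h; simp [h] at hW
          rw [scount_cons, ih (by omega)]
          simp [scount, ha]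
      have e1' : B1 ++ b :: B2 = B1 ++ ([b] ++ B2) := rfl
      rw [e1', scount_append, scount_append, z B1 (by omega), z B2 (by omega)] at hs
      cases hb2 : b.2 <;> simp [scount, hb0, hb2] at hs
    rw [relabelPts_append, fV, fP, fY] at hr
    have hc : Run (relabel (fun a => (a, false)) (sh V.length (cups xs)))
        (relabelPts (fun a => (a, true)) V)
        (relabelPts (fun a => (a, true)) V ++ relabelPts (fun a => (a, false)) (prs xs)) := by
      have := ((run_cups xs).relabel (fun a : α => (a, false))).shiftL
        (relabelPts (fun a => (a, true)) V)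
      simpa using this
    have hfin := hnc (relabel (fun a => (a, false)) (sh V.length (cups xs)) ++ relabel f e1)
      (by rw [relabel_append, relabel_relabel, relabel_relabel, hfst, h1]
          congr 1
          have : (Prod.fst : α × Bool → α) ∘ (fun a => (a, false)) = id := rfl
          rw [this, relabel_id])
      (hc.append hr)
    cases xs with
    | nil => exact hxs rfl
    | cons x xs =>
      simp [cups_cons, Gen.relabel] at hfin

end MP5b16f0
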