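import Pool.Agent.Lib.MP_5b16f0_gt.Slide

/-!
# Inverses of slides, nested cups and caps
-/

namespace MP5b16f0

universe u v

variable {α : Type u} {β : Type v}

theorem slR_inv (s : Bool) (b : Pt α) (X : List (Pt α)) :
    Iso (b :: X) (b :: X) (slR s X.length ++ blkR (!s) X.length 1) [] := by
  induction X with
  | nil => exact Iso.adapt (Iso.refl []) (by first | rfl | (simp; done) | (simp; omega) | (simp; ring_nf; done) | (simp; constructor <;> (first | rfl | omega | (ring_nf; done))) | (ring_nf; done)) (by first | rfl | (simp; done) | (simp; omega) | (simp; ring_nf; done) | (simp; constructor <;> (first | rfl | omega | (ring_nf; done))) | (ring_nf; done)) (by first | rfl | (simp; done) | (simp; omega) | (simp; ring_nf; done) | (simp; constructor <;> (first | rfl | omega | (ring_nf; done))) | (ring_nf; done)) (by first | rfl | (simp; done) | (simp; omega) | (simp; ring_nf; done) | (simp; constructor <;> (first | rfl | omega | (ring_nf; done))) | (ring_nf; done))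
  | cons x X ih =>
    have e1 := (ih.shiftL [x]).congr (u := [(0, Gen.crs s)]) (v := [(0, Gen.crs !s)])
      (X' := b :: x :: X) (Y' := b :: x :: X) (by exact Run.cast (run_crs s b x X) (by first | rfl | (simp; done) | (simp; omega) | (simp; ring_nf; done) | (simp; constructor <;> (first | rfl | omega | (ring_nf; done))) | (ring_nf; done)) (by first | rfl | (simp; done) | (simp; omega) | (simp; ring_nf; done) | (simp; constructor <;> (first | rfl | omega | (ring_nf; done))) | (ring_nf; done)) (by first | rfl | (simp; done) | (simp; omega) | (simp; ring_nf; done) | (simp; constructor <;> (first | rfl | omega | (ring_nf; done))) | (ring_nf; done)))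
      (by exact Run.cast (run_crs (!s) x b X) (by first | rfl | (simp; done) | (simp; omega) | (simp; ring_nf; done) | (simp; constructor <;> (first | rfl | omega | (ring_nf; done))) | (ring_nf; done)) (by first | rfl | (simp; done) | (simp; omega) | (simp; ring_nf; done) | (simp; constructor <;> (first | rfl | omega | (ring_nf; done))) | (ring_nf; done)) (by first | rfl | (simp; done) | (simp; omega) | (simp; ring_nf; done) | (simp; constructor <;> (first | rfl | omega | (ring_nf; done))) | (ring_nf; done)))
    have e2 : Iso (b :: x :: X) (b :: x :: X) [(0, Gen.crs s), (0, Gen.crs !s)] [] := by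
      exact Iso.adapt ((r2_iso b x s).right X) (by first | rfl | (simp; done) | (simp; omega) | (simp; ring_nf; done) | (simp; constructor <;> (first | rfl | omega | (ring_nf; done))) | (ring_nf; done)) (by first | rfl | (simp; done) | (simp; omega) | (simp; ring_nf; done) | (simp; constructor <;> (first | rfl | omega | (ring_nf; done))) | (ring_nf; done)) (by first | rfl | (simp; done) | (simp; omega) | (simp; ring_nf; done) | (simp; constructor <;> (first | rfl | omega | (ring_nf; done))) | (ring_nf; done)) (by first | rfl | (simp; done) | (simp; omega) | (simp; ring_nf; done) | (simp; constructor <;> (first | rfl | omega | (ring_nf; done))) | (ring_nf; done))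
    refine Iso.trans ?_ (e1.trans (Iso.trans ?_ e2))
    · exact Iso.of_eq (by simp [slR_succ, blkR_succ])
    · exact Iso.of_eq (by simp)

theorem blkR_inv (s : Bool) (B X : List (Pt α)) :
    Iso (B ++ X) (B ++ X) (blkR s B.length X.length ++ blkR (!s) X.length B.length) [] := by
  induction B with
  | nil => exact Iso.adapt (Iso.refl []) (by first | rfl | (simp; done) | (simp; omega) | (simp; ring_nf; done) | (simp; constructor <;> (first | rfl | omega | (ring_nf; done))) | (ring_nf; done)) (by first | rfl | (simp; done) | (simp; omega) | (simp; ring_nf; done) | (simp; constructor <;> (first | rfl | omega | (ring_nf; done))) | (ring_nf; done)) (by first | rfl | (simp; done) | (simp; omega) | (simp; ring_nf; done) | (simp; constructor <;> (first | rfl | omega | (ring_nf; done))) | (ring_nf; done)) (by first | rfl | (simp; done) | (simp; omega) | (simp; ring_nf; done) | (simp; constructor <;> (first | rfl | omega | (ring_nf; done))) | (ring_nf; done))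
  | cons b B ih =>
    have e0 := (blkR_add' (!s) X [b] B).appL (u := blkR s (b :: B).length X.length)
      (X' := b :: B ++ X) (by exact Run.cast (run_blkR s (b :: B) X) (by first | rfl | (simp; done) | (simp; omega) | (simp; ring_nf; done) | (simp; constructor <;> (first | rfl | omega | (ring_nf; done))) | (ring_nf; done)) (by first | rfl | (simp; done) | (simp; omega) | (simp; ring_nf; done) | (simp; constructor <;> (first | rfl | omega | (ring_nf; done))) | (ring_nf; done)) (by first | rfl | (simp; done) | (simp; omega) | (simp; ring_nf; done) | (simp; constructor <;> (first | rfl | omega | (ring_nf; done))) | (ring_nf; done)))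
    have e1 := ((slR_inv s b X).right B).congr (u := sh 1 (blkR s B.length X.length))
      (v := sh 1 (blkR (!s) X.length B.length)) (X' := b :: B ++ X) (Y' := b :: B ++ X)
      (by exact Run.cast ((run_blkR s B X).shiftL [b]) (by first | rfl | (simp; done) | (simp; omega) | (simp; ring_nf; done) | (simp; constructor <;> (first | rfl | omega | (ring_nf; done))) | (ring_nf; done)) (by first | rfl | (simp; done) | (simp; omega) | (simp; ring_nf; done) | (simp; constructor <;> (first | rfl | omega | (ring_nf; done))) | (ring_nf; done)) (by first | rfl | (simp; done) | (simp; omega) | (simp; ring_nf; done) | (simp; constructor <;> (first | rfl | omega | (ring_nf; done))) | (ring_nf; done))) (by exact Run.cast ((run_blkR (!s) X B).shiftL [b]) (by first | rfl | (simp; done) | (simp; omega) | (simp; ring_nf; done) | (simp; constructor <;> (first | rfl | omega | (ring_nf; done))) | (ring_nf; done)) (by first | rfl | (simp; done) | (simp; omega) | (simp; ring_nf; done) | (simp; constructor <;> (first | rfl | omega | (ring_nf; done))) | (ring_nf; done)) (by first | rfl | (simp; done) | (simp; omega) | (simp; ring_nf; done) | (simp; constructor <;> (first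 | rfl | omega | (ring_nf; done))) | (ring_nf; done)))
    have e2 : Iso (b :: B ++ X) (b :: B ++ X) (sh 1 (blkR s B.length X.length ++
        blkR (!s) X.length B.length)) [] := by exact Iso.adapt (ih.shiftL [b]) (by first | rfl | (simp; done) | (simp; omega) | (simp; ring_nf; done) | (simp; constructor <;> (first | rfl | omega | (ring_nf; done))) | (ring_nf; done)) (by first | rfl | (simp; done) | (simp; omega) | (simp; ring_nf; done) | (simp; constructor <;> (first | rfl | omega | (ring_nf; done))) | (ring_nf; done)) (by first | rfl | (simp; done) | (simp; omega) | (simp; ring_nf; done) | (simp; constructor <;> (first | rfl | omega | (ring_nf; done))) | (ring_nf; done)) (by first | rfl | (simp; done) | (simp; omega) | (simp; ring_nf; done) | (simp; constructor <;> (first | rfl | omega | (ring_nf; done))) | (ring_nf; done))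
    have e0' : Iso (b :: B ++ X) (b :: B ++ X)
        (blkR s (b :: B).length X.length ++ blkR (!s) X.length (b :: B).length)
        (blkR s (b :: B).length X.length ++
          (blkR (!s) X.length [b].length ++ sh [b].length (blkR (!s) X.length B.length))) := by
      exact Iso.adapt e0 (by first | rfl | (simp; done) | (simp; omega) | (simp; ring_nf; done) | (simp; constructor <;> (first | rfl | omega | (ring_nf; done))) | (ring_nf; done)) (by first | rfl | (simp; done) | (simp; omega) | (simp; ring_nf; done) | (simp; constructor <;> (first | rfl | omega | (ring_nf; done))) | (ring_nf; done)) (by first | rfl | (simp; done) | (simp; omega) | (simp; ring_nf; done) | (simp; constructor <;> (first | rfl | omega | (ring_nf; done))) | (ring_nf; done)) (by first | rfl | (simp; done) | (simp; omega) | (simp; ring_nf; done) | (simp; constructor <;> (first | rfl | omega | (ring_nf; done))) | (ring_nf; done))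
    refine Iso.trans e0' (Iso.trans (Iso.of_eq ?_) (e1.trans (Iso.trans (Iso.of_eq ?_) e2)))
    · simp [blkR_succ]
    · simp

theorem blkR_inv' (s : Bool) (B X : List (Pt α)) :
    Iso (B ++ X) (B ++ X) (blkR (!s) B.length X.length ++ blkR s X.length B.length) [] := by
  simpa using blkR_inv (!s) B X

/-- The dual of a level. -/
def opL (X : List (Pt α)) : List (Pt α) := (X.map op).reverse

@[simp] theorem opL_nil : opL ([] : List (Pt α)) = [] := rfl
@[simp] theorem opL_cons (x : Pt α) (X : List (Pt α)) : opL (x :: X) = opL X ++ [op x] := by
  simp [opL]
@[simp] theorem opL_append (X Y : List (Pt α)) : opL (X ++ Y) = opL Y ++ opL X := by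
  simp [opL]
@[simp] theorem opL_opL (X : List (Pt α)) : opL (opL X) = X := by
  induction X with
  | nil => rfl
  | cons x X ih => simp [ih]
@[simp] theorem length_opL (X : List (Pt α)) : (opL X).length = X.length := by simp [opL]

/-- Nested cups, from `[]` to `X ++ opL X`. -/
def cupN : List (Pt α) → Word α
  | [] => []
  | x :: X => (0, Gen.cup x) :: sh 1 (cupN X)

/-- Nested caps, from `X ++ opL X` to `[]`. -/
def capN : List (Pt α) → Word α
  | [] => []
  | x :: X => sh 1 (capN X) ++ [(0, Gen.cap x)]

@[simp] theorem cupN_nil : cupN ([] : List (Pt α)) = [] := rfl
@[simp] theorem capN_nil : capN ([] : List (Pt α)) = [] := rfl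
theorem cupN_cons (x : Pt α) (X : List (Pt α)) :
    cupN (x :: X) = (0, Gen.cup x) :: sh 1 (cupN X) := rfl
theorem capN_cons (x : Pt α) (X : List (Pt α)) :
    capN (x :: X) = sh 1 (capN X) ++ [(0, Gen.cap x)] := rfl

theorem cupN_append (X Y : List (Pt α)) : cupN (X ++ Y) = cupN X ++ sh X.length (cupN Y) := by
  induction X with
  | nil => simp
  | cons x X ih => simp [cupN_cons, ih]

theorem capN_append (X Y : List (Pt α)) : capN (X ++ Y) = sh X.length (capN Y) ++ capN X := by
  induction X with
  | nil => simp
  | cons x X ih => simp [capN_cons, ih]

theorem run_cup (a : Pt α) (A D : List (Pt α)) :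
    Run [(A.length, Gen.cup a)] (A ++ D) (A ++ (a :: op a :: D)) := by
  exact Run.cast (Run.single (Gen.Acts.cup a) A D) (by first | rfl | (simp; done) | (simp; omega) | (simp; ring_nf; done) | (simp; constructor <;> (first | rfl | omega | (ring_nf; done))) | (ring_nf; done)) (by first | rfl | (simp; done) | (simp; omega) | (simp; ring_nf; done) | (simp; constructor <;> (first | rfl | omega | (ring_nf; done))) | (ring_nf; done)) (by first | rfl | (simp; done) | (simp; omega) | (simp; ring_nf; done) | (simp; constructor <;> (first | rfl | omega | (ring_nf; done))) | (ring_nf; done))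

theorem run_cap (a : Pt α) (A D : List (Pt α)) :
    Run [(A.length, Gen.cap a)] (A ++ (a :: op a :: D)) (A ++ D) := by
  exact Run.cast (Run.single (Gen.Acts.cap a) A D) (by first | rfl | (simp; done) | (simp; omega) | (simp; ring_nf; done) | (simp; constructor <;> (first | rfl | omega | (ring_nf; done))) | (ring_nf; done)) (by first | rfl | (simp; done) | (simp; omega) | (simp; ring_nf; done) | (simp; constructor <;> (first | rfl | omega | (ring_nf; done))) | (ring_nf; done)) (by first | rfl | (simp; done) | (simp; omega) | (simp; ring_nf; done) | (simp; constructor <;> (first | rfl | omega | (ring_nf; done))) | (ring_nf; done))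

theorem run_cupN (X : List (Pt α)) : Run (cupN X) [] (X ++ opL X) := by
  induction X with
  | nil => exact Run.cast (Run.nil _) (by first | rfl | (simp; done) | (simp; omega) | (simp; ring_nf; done) | (simp; constructor <;> (first | rfl | omega | (ring_nf; done))) | (ring_nf; done)) (by first | rfl | (simp; done) | (simp; omega) | (simp; ring_nf; done) | (simp; constructor <;> (first | rfl | omega | (ring_nf; done))) | (ring_nf; done)) (by first | rfl | (simp; done) | (simp; omega) | (simp; ring_nf; done) | (simp; constructor <;> (first | rfl | omega | (ring_nf; done))) | (ring_nf; done))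
  | cons x X ih => exact Run.cast ((run_cup x [] []).append (ih.shift [x] [op x])) (by first | rfl | (simp; done) | (simp; omega) | (simp; ring_nf; done) | (simp; constructor <;> (first | rfl | omega | (ring_nf; done))) | (ring_nf; done)) (by first | rfl | (simp; done) | (simp; omega) | (simp; ring_nf; done) | (simp; constructor <;> (first | rfl | omega | (ring_nf; done))) | (ring_nf; done)) (by first | rfl | (simp; done) | (simp; omega) | (simp; ring_nf; done) | (simp; constructor <;> (first | rfl | omega | (ring_nf; done))) | (ring_nf; done))

theorem run_capN (X : List (Pt α)) : Run (capN X) (X ++ opL X) [] := by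
  induction X with
  | nil => exact Run.cast (Run.nil _) (by first | rfl | (simp; done) | (simp; omega) | (simp; ring_nf; done) | (simp; constructor <;> (first | rfl | omega | (ring_nf; done))) | (ring_nf; done)) (by first | rfl | (simp; done) | (simp; omega) | (simp; ring_nf; done) | (simp; constructor <;> (first | rfl | omega | (ring_nf; done))) | (ring_nf; done)) (by first | rfl | (simp; done) | (simp; omega) | (simp; ring_nf; done) | (simp; constructor <;> (first | rfl | omega | (ring_nf; done))) | (ring_nf; done))
  | cons x X ih =>
    have h : Run (sh 1 (capN X)) (x :: (X ++ opL X ++ [op x])) [x, op x] := by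
      exact Run.cast (ih.shift [x] [op x]) (by first | rfl | (simp; done) | (simp; omega) | (simp; ring_nf; done) | (simp; constructor <;> (first | rfl | omega | (ring_nf; done))) | (ring_nf; done)) (by first | rfl | (simp; done) | (simp; omega) | (simp; ring_nf; done) | (simp; constructor <;> (first | rfl | omega | (ring_nf; done))) | (ring_nf; done)) (by first | rfl | (simp; done) | (simp; omega) | (simp; ring_nf; done) | (simp; constructor <;> (first | rfl | omega | (ring_nf; done))) | (ring_nf; done))
    exact Run.cast (h.append (run_cap x [] [])) (by first | rfl | (simp; done) | (simp; omega) | (simp; ring_nf; done) | (simp; constructor <;> (first | rfl | omega | (ring_nf; done))) | (ring_nf; done)) (by first | rfl | (simp; done) | (simp; omega) | (simp; ring_nf; done) | (simp; constructor <;> (first | rfl | omega | (ring_nf; done))) | (ring_nf; done)) (by first | rfl | (simp; done) | (simp; omega) | (simp; ring_nf; done) | (simp; constructor <;> (first | rfl | omega | (ring_nf; done))) | (ring_nf; done))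

theorem zigN (X : List (Pt α)) : Iso X X (sh X.length (cupN (opL X)) ++ capN X) [] := by
  induction X with
  | nil => exact Iso.adapt (Iso.refl []) (by first | rfl | (simp; done) | (simp; omega) | (simp; ring_nf; done) | (simp; constructor <;> (first | rfl | omega | (ring_nf; done))) | (ring_nf; done)) (by first | rfl | (simp; done) | (simp; omega) | (simp; ring_nf; done) | (simp; constructor <;> (first | rfl | omega | (ring_nf; done))) | (ring_nf; done)) (by first | rfl | (simp; done) | (simp; omega) | (simp; ring_nf; done) | (simp; constructor <;> (first | rfl | omega | (ring_nf; done))) | (ring_nf; done)) (by first | rfl | (simp; done) | (simp; omega) | (simp; ring_nf; done) | (simp; constructor <;> (first | rfl | omega | (ring_nf; done))) | (ring_nf; done))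
  | cons x X ih =>
    have h1 : Run (sh (X.length + 1) (cupN (opL X))) (x :: X) (x :: X ++ (opL X ++ X)) := by
      exact Run.cast ((run_cupN (opL X)).shiftL (x :: X)) (by first | rfl | (simp; done) | (simp; omega) | (simp; ring_nf; done) | (simp; constructor <;> (first | rfl | omega | (ring_nf; done))) | (ring_nf; done)) (by first | rfl | (simp; done) | (simp; omega) | (simp; ring_nf; done) | (simp; constructor <;> (first | rfl | omega | (ring_nf; done))) | (ring_nf; done)) (by first | rfl | (simp; done) | (simp; omega) | (simp; ring_nf; done) | (simp; constructor <;> (first | rfl | omega | (ring_nf; done))) | (ring_nf; done))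
    have e1 := (interchange ((run_capN X).shiftL [x]) (run_cup (op x) [] X)).symm.congr
      (u := sh (X.length + 1) (cupN (opL X))) (v := [(0, Gen.cap x)]) (X' := x :: X)
      (Y' := x :: X) (by exact Run.cast h1 (by first | rfl | (simp; done) | (simp; omega) | (simp; ring_nf; done) | (simp; constructor <;> (first | rfl | omega | (ring_nf; done))) | (ring_nf; done)) (by first | rfl | (simp; done) | (simp; omega) | (simp; ring_nf; done) | (simp; constructor <;> (first | rfl | omega | (ring_nf; done))) | (ring_nf; done)) (by first | rfl | (simp; done) | (simp; omega) | (simp; ring_nf; done) | (simp; constructor <;> (first | rfl | omega | (ring_nf; done))) | (ring_nf; done))) (by exact Run.cast (run_cap x [] (x :: X)) (by first | rfl | (simp; done) | (simp; omega) | (simp; ring_nf; done) | (simp; constructor <;> (first | rfl | omega | (ring_nf; done))) | (ring_nf; done)) (by first | rfl | (simp; done) | (simp; omega) | (simp; ring_nf; done) | (simp; constructor <;> (first | rfl | omega | (ring_nf; done))) | (ring_nf; done)) (by first | rfl | (simp; done) | (simp; omega) | (simp; ring_nf; done) | (simp; constructor <;> (first | rfl | omega | (ring_nf;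 done))) | (ring_nf; done)))
    have e2 : Iso (x :: X) (x :: X) (sh 1 (sh X.length (cupN (opL X)) ++ capN X) ++
        [(1, Gen.cup (op x)), (0, Gen.cap x)]) [(1, Gen.cup (op x)), (0, Gen.cap x)] := by
      have := (ih.shiftL [x]).appR (v := [(1, Gen.cup (op x)), (0, Gen.cap x)])
        (Y' := x :: X) (by
          exact Run.cast ((run_cup (op x) [x] X).append
            (run1 (Gen.Acts.cap x) [] (x :: X) (by simp) rfl rfl)) (by first | rfl | (simp; done) | (simp; omega) | (simp; ring_nf; done) | (simp; constructor <;> (first | rfl | omega | (ring_nf; done))) | (ring_nf; done)) (by first | rfl | (simp; done) | (simp; omega) | (simp; ring_nf; done) | (simp; constructor <;> (first | rfl | omega | (ring_nf; done))) | (ring_nf; done)) (by first | rfl | (simp; done) | (simp; omega) | (simp; ring_nf; done) | (simp; constructor <;> (first | rfl | omega | (ring_nf; done))) | (ring_nf; done)))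
      exact Iso.adapt this (by first | rfl | (simp; done) | (simp; omega) | (simp; ring_nf; done) | (simp; constructor <;> (first | rfl | omega | (ring_nf; done))) | (ring_nf; done)) (by first | rfl | (simp; done) | (simp; omega) | (simp; ring_nf; done) | (simp; constructor <;> (first | rfl | omega | (ring_nf; done))) | (ring_nf; done)) (by first | rfl | (simp; done) | (simp; omega) | (simp; ring_nf; done) | (simp; constructor <;> (first | rfl | omega | (ring_nf; done))) | (ring_nf; done)) (by first | rfl | (simp; done) | (simp; omega) | (simp; ring_nf; done) | (simp; constructor <;> (first | rfl | omega | (ring_nf; done))) | (ring_nf; done))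
    have e3 : Iso (x :: X) (x :: X) [(1, Gen.cup (op x)), (0, Gen.cap x)] [] := by
      exact Iso.adapt ((Move.zig x).iso.right X) (by first | rfl | (simp; done) | (simp; omega) | (simp; ring_nf; done) | (simp; constructor <;> (first | rfl | omega | (ring_nf; done))) | (ring_nf; done)) (by first | rfl | (simp; done) | (simp; omega) | (simp; ring_nf; done) | (simp; constructor <;> (first | rfl | omega | (ring_nf; done))) | (ring_nf; done)) (by first | rfl | (simp; done) | (simp; omega) | (simp; ring_nf; done) | (simp; constructor <;> (first | rfl | omega | (ring_nf; done))) | (ring_nf; done)) (by first | rfl | (simp; done) | (simp; omega) | (simp; ring_nf; done) | (simp; constructor <;> (first | rfl | omega | (ring_nf; done))) | (ring_nf; done))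
    refine Iso.trans ?_ (e1.trans (Iso.trans ?_ (e2.trans e3)))
    · exact Iso.of_eq (by (first | rfl | (simp [cupN_append, cupN_cons, capN_cons]; done) | (simp [cupN_append, cupN_cons, capN_cons]; omega) | (simp [cupN_append, cupN_cons, capN_cons]; ring_nf; done) | (simp [cupN_append, cupN_cons, capN_cons]; constructor <;> (first | rfl | omega | (ring_nf; done))) | (ring_nf; done)))
    · exact Iso.of_eq (by (first | rfl | (simp; done) | (simp; omega) | (simp; ring_nf; done) | (simp; constructor <;> (first | rfl | omega | (ring_nf; done))) | (ring_nf; done)))

theorem zagN (X : List (Pt α)) : Iso X X (cupN X ++ sh X.length (capN (opL X))) [] := by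
  induction X with
  | nil => exact Iso.adapt (Iso.refl []) (by first | rfl | (simp; done) | (simp; omega) | (simp; ring_nf; done) | (simp; constructor <;> (first | rfl | omega | (ring_nf; done))) | (ring_nf; done)) (by first | rfl | (simp; done) | (simp; omega) | (simp; ring_nf; done) | (simp; constructor <;> (first | rfl | omega | (ring_nf; done))) | (ring_nf; done)) (by first | rfl | (simp; done) | (simp; omega) | (simp; ring_nf; done) | (simp; constructor <;> (first | rfl | omega | (ring_nf; done))) | (ring_nf; done)) (by first | rfl | (simp; done) | (simp; omega) | (simp; ring_nf; done) | (simp; constructor <;> (first | rfl | omega | (ring_nf; done))) | (ring_nf; done))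
  | cons x X ih =>
    -- cup x; sh 1 cupN X; sh |X|+1 (sh |opL X| cap (op x) ++ capN (opL X))
    have h1 : Run (sh (X.length + 1) (capN (opL X))) (x :: X ++ (opL X ++ X)) (x :: X) := by
      exact Run.cast ((run_capN (opL X)).shiftL (x :: X)) (by first | rfl | (simp; done) | (simp; omega) | (simp; ring_nf; done) | (simp; constructor <;> (first | rfl | omega | (ring_nf; done))) | (ring_nf; done)) (by first | rfl | (simp; done) | (simp; omega) | (simp; ring_nf; done) | (simp; constructor <;> (first | rfl | omega | (ring_nf; done))) | (ring_nf; done)) (by first | rfl | (simp; done) | (simp; omega) | (simp; ring_nf; done) | (simp; constructor <;> (first | rfl | omega | (ring_nf; done))) | (ring_nf; done))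
    have e1 := (interchange ((run_cupN X).shiftL [x]) (run_cap (op x) [] X)).congr
      (u := [(0, Gen.cup x)]) (v := sh (X.length + 1) (capN (opL X))) (X' := x :: X)
      (Y' := x :: X) (by exact Run.cast (run_cup x [] (x :: X)) (by first | rfl | (simp; done) | (simp; omega) | (simp; ring_nf; done) | (simp; constructor <;> (first | rfl | omega | (ring_nf; done))) | (ring_nf; done)) (by first | rfl | (simp; done) | (simp; omega) | (simp; ring_nf; done) | (simp; constructor <;> (first | rfl | omega | (ring_nf; done))) | (ring_nf; done)) (by first | rfl | (simp; done) | (simp; omega) | (simp; ring_nf; done) | (simp; constructor <;> (first | rfl | omega | (ring_nf; done))) | (ring_nf; done))) (by exact Run.cast h1 (by first | rfl | (simp; done) | (simp; omega) | (simp; ring_nf; done) | (simp; constructor <;> (first | rfl | omega | (ring_nf; done))) | (ring_nf; done)) (by first | rfl | (simp; done) | (simp; omega) | (simp; ring_nf; done) | (simp; constructor <;> (first | rfl | omega | (ring_nf; done))) | (ring_nf; done)) (by first | rfl | (simp; done) | (simp; omega) | (simp; ring_nf; done) | (simp; constructor <;> (first | rfl | omega | (ring_nf; done)))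 | (ring_nf; done)))
    have e2 : Iso (x :: X) (x :: X) ([(0, Gen.cup x), (1, Gen.cap (op x))] ++
        sh 1 (cupN X ++ sh X.length (capN (opL X)))) [(0, Gen.cup x), (1, Gen.cap (op x))] := by
      have := (ih.shiftL [x]).appL (u := [(0, Gen.cup x), (1, Gen.cap (op x))])
        (X' := x :: X) (by
          exact Run.cast ((run_cup x [] (x :: X)).append
            (run1 (Gen.Acts.cap (op x)) [x] X (by simp) rfl rfl)) (by first | rfl | (simp; done) | (simp; omega) | (simp; ring_nf; done) | (simp; constructor <;> (first | rfl | omega | (ring_nf; done))) | (ring_nf; done)) (by first | rfl | (simp; done) | (simp; omega) | (simp; ring_nf; done) | (simp; constructor <;> (first | rfl | omega | (ring_nf; done))) | (ring_nf; done)) (by first | rfl | (simp; done) | (simp; omega) | (simp; ring_nf; done) | (simp; constructor <;> (first | rfl | omega | (ring_nf; done))) | (ring_nf; done)))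
      exact Iso.adapt this (by first | rfl | (simp; done) | (simp; omega) | (simp; ring_nf; done) | (simp; constructor <;> (first | rfl | omega | (ring_nf; done))) | (ring_nf; done)) (by first | rfl | (simp; done) | (simp; omega) | (simp; ring_nf; done) | (simp; constructor <;> (first | rfl | omega | (ring_nf; done))) | (ring_nf; done)) (by first | rfl | (simp; done) | (simp; omega) | (simp; ring_nf; done) | (simp; constructor <;> (first | rfl | omega | (ring_nf; done))) | (ring_nf; done)) (by first | rfl | (simp; done) | (simp; omega) | (simp; ring_nf; done) | (simp; constructor <;> (first | rfl | omega | (ring_nf; done))) | (ring_nf; done))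
    have e3 : Iso (x :: X) (x :: X) [(0, Gen.cup x), (1, Gen.cap (op x))] [] := by
      exact Iso.adapt ((Move.zag x).iso.right X) (by first | rfl | (simp; done) | (simp; omega) | (simp; ring_nf; done) | (simp; constructor <;> (first | rfl | omega | (ring_nf; done))) | (ring_nf; done)) (by first | rfl | (simp; done) | (simp; omega) | (simp; ring_nf; done) | (simp; constructor <;> (first | rfl | omega | (ring_nf; done))) | (ring_nf; done)) (by first | rfl | (simp; done) | (simp; omega) | (simp; ring_nf; done) | (simp; constructor <;> (first | rfl | omega | (ring_nf; done))) | (ring_nf; done)) (by first | rfl | (simp; done) | (simp; omega) | (simp; ring_nf; done) | (simp; constructor <;> (first | rfl | omega | (ring_nf; done))) | (ring_nf; done))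
    refine Iso.trans ?_ (e1.trans (Iso.trans ?_ (e2.trans e3)))
    · exact Iso.of_eq (by (first | rfl | (simp [capN_append, cupN_cons, capN_cons]; done) | (simp [capN_append, cupN_cons, capN_cons]; omega) | (simp [capN_append, cupN_cons, capN_cons]; ring_nf; done) | (simp [capN_append, cupN_cons, capN_cons]; constructor <;> (first | rfl | omega | (ring_nf; done))) | (ring_nf; done)))
    · exact Iso.of_eq (by (first | rfl | (simp; done) | (simp; omega) | (simp; ring_nf; done) | (simp; constructor <;> (first | rfl | omega | (ring_nf; done))) | (ring_nf; done)))

end MP5b16f0
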