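import Pool.Agent.Lib.MP_5b16f0_gt.Std

/-!
# Finite generation
-/

namespace MP5b16f0

universe u v

variable {α : Type u} {β : Type v}

/-- A word `g` inside a level can be created on the far right. -/
theorem coupon {P Q : List (Pt α)} {g : Word α} (hg : Run g P Q) (C : List (Pt α)) :
    Iso (P ++ C) (Q ++ C)
      (sh (P ++ C).length (bend P g) ++
        (sh P.length (blkR true C.length (opL P ++ Q).length) ++ capN P)) g := by
  have h1 := run_bend hg
  have e1 := ((natB2 true C h1).symm.shiftL P).appR (v := capN P) (Y' := Q ++ C) (by
    have := (run_capN P).right (Q ++ C)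
    simpa using this)
  have e2 := (unbend hg).right C
  refine Iso.trans (Iso.of_eq ?_) ((e1.cast (by simp) rfl).trans (Iso.trans (Iso.of_eq ?_) e2))
  · simp
    congr 1
    omega
  · simp

theorem run_coupon_moves (P Q C : List (Pt α)) :
    Run (sh P.length (blkR true C.length (opL P ++ Q).length) ++ capN P)
      (P ++ (C ++ (opL P ++ Q))) (Q ++ C) := by
  have h1 := (run_blkR true C (opL P ++ Q)).shiftL P
  have h2 := (run_capN P).right (Q ++ C)
  refine h1.append ?_
  simpa using h2

/-- the standard singular word with one double point -/
def coup (x : Pt α × Pt α) : SWord α := toS (cupN (opL [x.1, x.2])) ++ [(2, none)]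

/-- the top level of `coup x` -/
def coupPts (x : Pt α × Pt α) : List (Pt α) := opL [x.1, x.2] ++ [x.2, x.1]

/-- coupons next to each other -/
def coups : List (Pt α × Pt α) → SWord α
  | [] => []
  | x :: L => coup x ++ shS 4 (coups L)

/-- the top level of `coups L` -/
def lv : List (Pt α × Pt α) → List (Pt α)
  | [] => []
  | x :: L => coupPts x ++ lv L

@[simp] theorem shS_append (k : ℕ) (D E : SWord α) : shS k (D ++ E) = shS k D ++ shS k E := by
  simp [shS]

theorem shS_shS (k l : ℕ) (D : SWord α) : shS k (shS l D) = shS (l + k) D := by
  simp [shS, Function.comp_def, Nat.add_assoc]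

@[simp] theorem shS_zero (D : SWord α) : shS 0 D = D := by
  simp [shS]

theorem length_lv (L : List (Pt α × Pt α)) : (lv L).length = 4 * L.length := by
  induction L with
  | nil => rfl
  | cons x L ih => simp [lv, coupPts, ih]; omega

theorem lv_append (L M : List (Pt α × Pt α)) : lv (L ++ M) = lv L ++ lv M := by
  induction L with
  | nil => rfl
  | cons x L ih => simp [lv, ih]

theorem coups_append (L M : List (Pt α × Pt α)) :
    coups (L ++ M) = coups L ++ shS (lv L).length (coups M) := by
  induction L with
  | nil => simp [coups, lv]
  | cons x L ih =>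
    simp only [List.cons_append, coups, ih, shS_append, shS_shS, List.append_assoc, length_lv,
      List.length_cons]
    congr 3

theorem dbl_coups (L : List (Pt α × Pt α)) : (coups L).dbl = L.length := by
  induction L with
  | nil => rfl
  | cons x L ih => simp [coups, coup, dbl_append, dbl_shS, ih, SWord.dbl, Nat.add_comm]

theorem pos_coup (x : Pt α × Pt α) : (coup x).pos = bend [x.1, x.2] [(0, Gen.crs true)] := by
  simp [coup, pos_append, SWord.pos, bend]

theorem res_coup (x : Pt α × Pt α) : res (coup x) = cl (bend [x.1, x.2] [(0, Gen.crs true)]) -
    cl (bend [x.1, x.2] [(0, Gen.crs false)]) := by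
  simp only [coup, res_append, res_toS, res, bend, cl_append, mul_one]
  rw [mul_sub]
  rfl

theorem run_coups (L : List (Pt α × Pt α)) : Run (coups L).pos [] (lv L) := by
  induction L with
  | nil => exact Run.nil _
  | cons x L ih =>
    rw [coups, pos_append, pos_shS, pos_coup]
    have h1 := run_bend (X := [x.1, x.2]) (run_crs true x.1 x.2 [])
    have h2 := ih.shiftL (coupPts x)
    exact h1.append (by simpa [coupPts, lv] using h2)

/-- **Pulling the double points to the bottom.** -/
theorem pull {D : SWord α} : ∀ {W : List (Pt α)}, Run D.pos [] W →
    ∃ (L : List (Pt α × Pt α)) (e : Word α), L.length = D.dbl ∧ Run e (lv L) W ∧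
      Iso [] W D.pos ((coups L).pos ++ e) ∧ res D - res (coups L) * cl e ∈ K [] W := by
  induction D using List.reverseRecOn with
  | nil =>
    intro W h
    cases h
    exact ⟨[], [], rfl, Run.nil _, Iso.refl _, by simp [coups]⟩
  | append_singleton D x ih =>
    intro W h
    obtain ⟨p, g⟩ := x
    rw [pos_append] at h
    obtain ⟨X, h1, h2⟩ := h.append_inv
    obtain ⟨L, e, q1, q2, q3, q4⟩ := ih h1
    cases g with
    | some g =>
      have h2' : Run [(p, g)] X W := h2
      refine ⟨L, e ++ [(p, g)], ?_, q2.append h2', ?_, ?_⟩
      · rw [q1, dbl_append]; rfl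
      · rw [pos_append]
        refine (q3.appR h2).trans (Iso.of_eq ?_)
        simp [SWord.pos]
      · have := K_mulR q4 h2'
        rw [sub_mul, mul_assoc, ← cl_append] at this
        rw [res_append]
        have e2 : res [(p, some g)] = cl [(p, g)] := by simp [res]
        rw [e2]
        exact this
    | none =>
      have h2' : Run [(p, Gen.crs true)] X W := h2
      cases h2' with
      | @cons A B C D' _ _ _ hg hw =>
        cases hw
        cases hg with
        | crs _ a b =>
          -- the moves
          set M : Word α := sh A.length (sh 2 (blkR true D'.length 4) ++ capN [a, b]) with hM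
          have rM : Run M (A ++ ([a, b] ++ D') ++ coupPts (a, b)) (A ++ ([b, a] ++ D')) := by
            have := (run_coupon_moves [a, b] [b, a] D').shiftL A
            simpa [coupPts, hM] using this
          have rc : ∀ s, Run [(0, Gen.crs s)] [a, b] [b, a] := fun s => run_crs s a b []
          have rb : ∀ s, Run (bend [a, b] [(0, Gen.crs s)]) [] (coupPts (a, b)) :=
            fun s => run_bend (rc s)
          -- the key isotopy
          have key : ∀ s, Iso (lv L) (A ++ ([b, a] ++ D')) (e ++ [(A.length, Gen.crs s)])
              (sh (lv L).length (bend [a, b] [(0, Gen.crs s)]) ++ (e ++ M)) := by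
            intro s
            have c1 := ((coupon (rc s) D').shiftL A).symm.appL q2
            have c2 := (interchange q2 (rb s)).appR (v := M) (Y' := A ++ ([b, a] ++ D'))
              (by simpa using rM)
            refine Iso.trans (Iso.of_eq ?_) (c1.trans (Iso.trans (Iso.of_eq ?_)
              ((c2.cast (by simp) rfl).trans (Iso.of_eq ?_))))
            · simp
            · simp [hM]
              congr 1
              omega
            · simp
          have re : Run (e ++ M) (lv (L ++ [(a, b)])) (A ++ ([b, a] ++ D')) := by
            rw [lv_append]
            have := (q2.right (coupPts (a, b))).append (by simpa using rM)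
            simpa [lv] using this
          refine ⟨L ++ [(a, b)], e ++ M, ?_, re, ?_, ?_⟩
          · simp [q1, dbl_append, SWord.dbl]
          · rw [pos_append]
            refine (q3.appR h2).trans ?_
            have := (key true).appL (run_coups L)
            refine Iso.trans (Iso.of_eq ?_) (this.trans (Iso.of_eq ?_))
            · simp [SWord.pos]
            · rw [coups_append, pos_append]
              simp [coups, shS, pos_shS]
              have := pos_shS (lv L).length (coup (a, b))
              rw [pos_coup] at this
              rw [← this]
              rfl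
          · -- the difference
            have k1 : res D * (cl [(A.length, Gen.crs true)] - cl [(A.length, Gen.crs false)]) -
                (res (coups L) * cl e) *
                  (cl [(A.length, Gen.crs true)] - cl [(A.length, Gen.crs false)]) ∈
                K [] (A ++ ([b, a] ++ D')) := by
              rw [← sub_mul, mul_sub]
              refine sub_mem ?_ ?_
              · exact K_mulR q4 (by simpa using (rc true).shift A D')
              · exact K_mulR q4 (by simpa using (rc false).shift A D')
            have k2 : ∀ s, res (coups L) * (cl e * cl [(A.length, Gen.crs s)] -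
                cl (sh (lv L).length (bend [a, b] [(0, Gen.crs s)])) * cl (e ++ M)) ∈
                K [] (A ++ ([b, a] ++ D')) := by
              intro s
              rw [← cl_append, ← cl_append]
              refine res_mul_K (iso_mem_K ?_ (key s)) (run_coups L)
              exact q2.append (by simpa using (rc s).shift A D')
            have k3 := sub_mem (k2 true) (k2 false)
            have e1 : res (D ++ [(A.length, none)]) = res D *
                (cl [(A.length, Gen.crs true)] - cl [(A.length, Gen.crs false)]) := by
              rw [res_append]; simp [res]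
            have e2 : res (coups (L ++ [(a, b)])) = res (coups L) *
                (cl (sh (lv L).length (bend [a, b] [(0, Gen.crs true)])) -
                  cl (sh (lv L).length (bend [a, b] [(0, Gen.crs false)]))) := by
              rw [coups_append, res_append]
              simp only [coups, shS_append]
              rw [res_append, ← shA_res, ← shA_res, res_coup, map_sub, shA_cl, shA_cl]
              simp [shS]
            rw [e1, e2]
            have := add_mem k1 k3
            convert this using 1
            noncomm_ring

/-- combinations of singular words without closed components with `N` double points -/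
noncomputable def PN (N : ℕ) (W : List (Pt α)) : AddSubgroup (Alg α) :=
  AddSubgroup.closure {a | ∃ D : SWord α, Run D.pos [] W ∧ NoClosed D.pos [] W ∧ D.dbl = N ∧
    a = res D}

theorem e1_change {L : List (Pt α × Pt α)} {W : List (Pt α)} {e e' : Word α}
    (h : E1 (lv L) W e e') (he : Run e (lv L) W) (hnc : NoClosed ((coups L).pos ++ e) [] W) :
    res (coups L) * (cl e - cl e') ∈ PN (L.length + 1) W ⊔ K [] W := by
  have key : ∀ {e e' : Word α}, E1 (lv L) W e e' → Run e (lv L) W →
      (NoClosed ((coups L).pos ++ e) [] W ↔ NoClosed ((coups L).pos ++ e') [] W) := by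
    intro e e' h he
    exact (h.appL (run_coups L)).noClosed
  induction h with
  | rel e e' h =>
    cases h with
    | iso h =>
      exact (le_sup_right : _ ≤ PN (L.length + 1) W ⊔ K [] W)
        (res_mul_K (iso_mem_K he h) (run_coups L))
    | @cc u v p s t h =>
      by_cases hst : s = t
      · subst hst; simp
      · have hpos : Run (u ++ (p, Gen.crs true) :: v) (lv L) W := Run.crs_change h
        have hnc' : NoClosed ((coups L).pos ++ (u ++ (p, Gen.crs true) :: v)) [] W :=
          ((E1.cc true h).appL (run_coups L)).noClosed.1 hnc
        have hmem : res (coups L) * (cl (u ++ (p, Gen.crs true) :: v) -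
            cl (u ++ (p, Gen.crs false) :: v)) ∈ PN (L.length + 1) W := by
          refine AddSubgroup.subset_closure ⟨coups L ++ (toS u ++ (p, none) :: toS v), ?_, ?_,
            ?_, ?_⟩
          · rw [pos_append, pos_append, pos_toS]
            have := (run_coups L).append hpos
            simpa [SWord.pos] using this
          · rw [pos_append, pos_append, pos_toS]
            simpa [SWord.pos] using hnc'
          · simp [dbl_append, dbl_coups, SWord.dbl]
          · rw [res_append, res_append, res_toS, res, res_toS, cl_append, cl_append, cl_cons,
              cl_cons (p, Gen.crs false)]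
            noncomm_ring
        refine (le_sup_left : _ ≤ PN (L.length + 1) W ⊔ K [] W) ?_
        cases s <;> cases t
        · exact absurd rfl hst
        · have := neg_mem hmem
          convert this using 1
          noncomm_ring
        · exact hmem
        · exact absurd rfl hst
  | refl e => simp
  | symm e e' h ih =>
    have hr := (E1.run_iff h).2 he
    have := neg_mem (ih hr ((key h hr).2 hnc))
    convert this using 1
    noncomm_ring
  | trans e e' e'' h1 h2 ih1 ih2 =>
    have hr := (E1.run_iff h1).1 he
    have := add_mem (ih1 he hnc) (ih2 hr ((key h1 he).1 hnc))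
    convert this using 1
    noncomm_ring

theorem PN_step [Finite α] (N : ℕ) (W : List (Pt α)) :
    ∃ S : Set (Alg α), S.Finite ∧ PN N W ≤ AddSubgroup.closure S ⊔ (PN (N + 1) W ⊔ K [] W) := by
  classical
  choose S hS1 hS2 hS3 using fun L : List (Pt α × Pt α) => finite_e1 (lv L) W
  refine ⟨⋃ L ∈ {L : List (Pt α × Pt α) | L.length = N}, (fun e => res (coups L) * cl e) '' S L,
    ?_, ?_⟩
  · refine Set.Finite.biUnion ?_ ?_
    · exact List.finite_length_eq _ N
    · intro L _
      exact (hS1 L).image _
  · refine (AddSubgroup.closure_le _).2 ?_
    rintro _ ⟨D, h1, h2, h3, rfl⟩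
    obtain ⟨L, e, q1, q2, q3, q4⟩ := pull h1
    have hnc : NoClosed ((coups L).pos ++ e) [] W := q3.noClosed.1 h2
    obtain ⟨s, hs, hse⟩ := hS3 L e q2 (hnc.right (run_coups L))
    have k1 := e1_change hse q2 hnc
    rw [q1, h3] at k1
    have e1 : res D = res (coups L) * cl s + (res (coups L) * (cl e - cl s) +
        (res D - res (coups L) * cl e)) := by noncomm_ring
    rw [SetLike.mem_coe, e1]
    refine add_mem ((le_sup_left : AddSubgroup.closure _ ≤ _) (AddSubgroup.subset_closure ?_))
      ((le_sup_right : (PN (N + 1) W ⊔ K [] W) ≤ _) (add_mem k1
        ((le_sup_right : K [] W ≤ PN (N + 1) W ⊔ K [] W) q4)))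
    simp only [Set.mem_iUnion]
    exact ⟨L, by simp [q1, h3], s, hs, rfl⟩

theorem PN_fg [Finite α] (n : ℕ) (W : List (Pt α)) :
    ∃ S : Set (Alg α), S.Finite ∧ PN 0 W ≤ AddSubgroup.closure S ⊔ (PN n W ⊔ K [] W) := by
  induction n with
  | zero => exact ⟨∅, Set.finite_empty, by simp⟩
  | succ n ih =>
    obtain ⟨S, h1, h2⟩ := ih
    obtain ⟨T, h3, h4⟩ := PN_step n W
    refine ⟨S ∪ T, h1.union h3, h2.trans ?_⟩
    rw [AddSubgroup.closure_union]
    refine sup_le ?_ (sup_le (h4.trans ?_) ?_)
    · exact le_sup_left.trans le_sup_left
    · refine sup_le (le_sup_right.trans le_sup_left) le_sup_right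
    · exact le_sup_right.trans le_sup_right

theorem PN_le_J (n : ℕ) (W : List (Pt α)) : PN n W ⊔ K [] W ≤ J n [] W := by
  refine sup_le ((AddSubgroup.closure_le _).2 ?_) (K_le_J _ _ _)
  rintro _ ⟨D, h1, _, h3, rfl⟩
  exact res_mem_J h1 h3

/-- **Finite generation** of the words without closed components modulo `J n`. -/
theorem nc_fg [Finite α] (n : ℕ) (W : List (Pt α)) :
    ∃ S : Set (Alg α), S.Finite ∧ ∀ w : Word α, Run w [] W → NoClosed w [] W →
      cl w ∈ AddSubgroup.closure S ⊔ J n [] W := by
  obtain ⟨S, h1, h2⟩ := PN_fg n W
  refine ⟨S, h1, fun w h3 h4 => ?_⟩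
  have := h2 (AddSubgroup.subset_closure ⟨toS w, by simpa using h3, by simpa using h4,
    by simp, rfl⟩)
  rw [res_toS] at this
  exact (sup_le_sup_left (PN_le_J n W) _) this

end MP5b16f0
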