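import Mathlib

/-!
# Orbit separability for unipotent actions on finitely generated abelian groups
-/

set_option autoImplicit false

namespace Pool.Agent.Lib.MP_5b16f0_gt

/-- For a subgroup `B` of a finitely generated abelian group, the `p`-power torsion modulo `B` is
bounded. -/
theorem exists_stable_pow {L : Type*} [AddCommGroup L] [Module.Finite ℤ L] (B : AddSubgroup L)
    (p : ℕ) : ∃ c : ℕ, ∀ (t : ℕ) (a : L), p ^ t • a ∈ B → p ^ c • a ∈ B := by
  have hmono : Monotone fun j : ℕ =>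
      AddSubgroup.toIntSubmodule (B.comap (nsmulAddMonoidHom (α := L) (p ^ j))) := by
    refine monotone_nat_of_le_succ fun j => ?_
    intro a ha
    have ha' : p ^ j • a ∈ B := ha
    change p ^ (j + 1) • a ∈ B
    rw [pow_succ', mul_smul]
    exact B.nsmul_mem ha' p
  obtain ⟨c, hc⟩ := monotone_stabilizes_iff_noetherian.2
    (inferInstance : IsNoetherian ℤ L) ⟨_, hmono⟩
  refine ⟨c, fun t a ha => ?_⟩
  rcases le_total t c with htc | htc
  · have := B.nsmul_mem ha (p ^ (c - t))
    rwa [← mul_smul, ← pow_add, Nat.sub_add_cancel htc] at this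
  · have h1 := hc t htc
    have h2 : a ∈ AddSubgroup.toIntSubmodule (B.comap (nsmulAddMonoidHom (α := L) (p ^ t))) := ha
    have h3 : a ∈ AddSubgroup.toIntSubmodule (B.comap (nsmulAddMonoidHom (α := L) (p ^ c))) := by
      have h4 : (AddSubgroup.toIntSubmodule (B.comap (nsmulAddMonoidHom (α := L) (p ^ c)))) =
        AddSubgroup.toIntSubmodule (B.comap (nsmulAddMonoidHom (α := L) (p ^ t))) := h1
      rw [h4]
      exact h2
    exact h3

/-- Krull intersection over all primes: an element of a finitely generated abelian group that is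
divisible by all prime powers modulo a subgroup `B` lies in `B`. -/
theorem mem_of_forall_prime_pow {L : Type*} [AddCommGroup L] [Module.Finite ℤ L]
    (B : AddSubgroup L) (w : L)
    (h : ∀ p : ℕ, p.Prime → ∀ t : ℕ, ∃ b ∈ B, ∃ z : L, w = b + p ^ t • z) : w ∈ B := by
  by_contra hw
  -- the subgroup generated by `B` and `w`
  set C : AddSubgroup L := B ⊔ AddSubgroup.zmultiples w with hC
  have hkey : ∀ p : ℕ, p.Prime → ∃ k : ℤ, w - (p * k : ℤ) • w ∈ B := by
    intro p hp
    obtain ⟨c, hc⟩ := exists_stable_pow C p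
    obtain ⟨b, hb, z, hz⟩ := h p hp (c + 1)
    have hzC : p ^ (c + 1) • z ∈ C := by
      have : p ^ (c + 1) • z = w - b := by rw [hz]; abel
      rw [this]
      exact C.sub_mem (AddSubgroup.mem_sup_right (AddSubgroup.mem_zmultiples w))
        (AddSubgroup.mem_sup_left hb)
    have hzc := hc _ _ hzC
    rw [hC, AddSubgroup.mem_sup] at hzc
    obtain ⟨b', hb', w', hw', hbw⟩ := hzc
    obtain ⟨k, rfl⟩ := AddSubgroup.mem_zmultiples_iff.1 hw'
    refine ⟨k, ?_⟩
    have : w - (p * k : ℤ) • w = b + p • b' := by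
      have h1 : p ^ (c + 1) • z = p • (b' + k • w) := by
        rw [hbw, ← mul_smul, ← pow_succ']
      have h2 : w = b + p • (b' + k • w) := by rw [← h1]; exact hz
      have h3 : p • (k • w) = (p * k : ℤ) • w := by
        rw [mul_smul, natCast_zsmul]
      calc w - (p * k : ℤ) • w = (b + p • (b' + k • w)) - (p * k : ℤ) • w := by rw [← h2]
        _ = b + p • b' := by rw [smul_add, h3]; abel
    rw [this]
    exact B.add_mem hb (B.nsmul_mem hb' p)
  -- the ideal of integers `m` with `m • w ∈ B`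
  let J : Ideal ℤ := (AddSubgroup.toIntSubmodule B).colon {w}
  have hJmem : ∀ m : ℤ, m ∈ J ↔ m • w ∈ B := by
    intro m
    rw [Submodule.mem_colon_singleton]
    rfl
  have hJ : J ≠ ⊤ := by
    intro hJt
    have : (1 : ℤ) ∈ J := by rw [hJt]; trivial
    rw [hJmem, one_smul] at this
    exact hw this
  obtain ⟨M, hM, hJM⟩ := Ideal.exists_le_maximal J hJ
  obtain ⟨q, hq⟩ : ∃ q : ℕ, q.Prime ∧ (q : ℤ) ∈ M := by
    by_cases hbot : M = ⊥
    · -- `⊥` is not maximal in `ℤ`
      exfalso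
      have h2 : (⊥ : Ideal ℤ) < Ideal.span {(2 : ℤ)} := by
        rw [bot_lt_iff_ne_bot, Ne, Ideal.span_singleton_eq_bot]
        norm_num
      have h3 := hM.1.2 _ (hbot ▸ h2)
      rw [Ideal.span_singleton_eq_top] at h3
      exact absurd h3 (by decide)
    · have hMp : M.IsPrime := hM.isPrime
      obtain ⟨g, hg⟩ := (IsPrincipalIdealRing.principal M).principal
      have hg0 : g ≠ 0 := by
        rintro rfl
        apply hbot
        rw [hg]
        simp
      have hgp : Prime g := by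
        rw [← Ideal.span_singleton_prime hg0]
        have : Ideal.span {g} = M := hg.symm
        rw [this]
        exact hMp
      refine ⟨g.natAbs, Int.prime_iff_natAbs_prime.1 hgp, ?_⟩
      have hgM : g ∈ M := by
        rw [hg]
        exact Submodule.mem_span_singleton_self g
      rcases Int.natAbs_eq g with h' | h'
      · rw [← h']
        exact hgM
      · have : ((g.natAbs : ℕ) : ℤ) = -g := by omega
        rw [this]
        exact M.neg_mem hgM
  obtain ⟨hqp, hqM⟩ := hq
  obtain ⟨k, hk⟩ := hkey q hqp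
  have h1 : (1 - q * k : ℤ) ∈ J := by
    rw [hJmem, sub_smul, one_smul]
    exact hk
  have h2 : (1 : ℤ) ∈ M := by
    have h3 := M.add_mem (hJM h1) (M.mul_mem_right k hqM)
    have h4 : (1 - q * k : ℤ) + q * k = 1 := by ring
    rwa [h4] at h3
  exact hM.ne_top ((Ideal.eq_top_iff_one M).2 h2)

section Action

variable {L : Type*} [AddCommGroup L] {G : Type*} [Group G] [DistribMulAction G L]

/-- The multiples of `m` in `L`. -/
def mulSub (L : Type*) [AddCommGroup L] (m : ℕ) : AddSubgroup L := (nsmulAddMonoidHom (α := L) m).range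

theorem mem_mulSub {m : ℕ} {w : L} : w ∈ mulSub L m ↔ ∃ z : L, m • z = w := Iff.rfl

theorem smul_mem_mulSub {m : ℕ} {w : L} (g : G) (hw : w ∈ mulSub L m) : g • w ∈ mulSub L m := by
  obtain ⟨z, rfl⟩ := hw
  exact ⟨g • z, (smul_comm g m z).symm⟩

theorem mulSub_le {m m' : ℕ} (h : m ∣ m') : mulSub L m' ≤ mulSub L m := by
  rintro w ⟨z, rfl⟩
  obtain ⟨k, rfl⟩ := h
  exact ⟨k • z, by simp [mul_smul]⟩

variable (n : ℕ) (F : ℕ → AddSubgroup L) (hF0 : F 0 = ⊤) (hFn : F n = ⊥)
  (hF : ∀ k, F (k + 1) ≤ F k)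
  (hact : ∀ (g : G) (k : ℕ), ∀ x ∈ F k, g • x - x ∈ F (k + 1))

include hF hact in
theorem smul_mem_F (g : G) (k : ℕ) {x : L} (hx : x ∈ F k) : g • x ∈ F k := by
  have h := (F k).add_mem (hF k (hact g k x hx)) hx
  rwa [sub_add_cancel] at h

/-- `p`-power torsion of unipotent elements modulo `p ^ t`. -/
theorem pow_smul_sub_mem (hF0 : F 0 = ⊤) (hF : ∀ k, F (k + 1) ≤ F k)
    (hact : ∀ (g : G) (k : ℕ), ∀ x ∈ F k, g • x - x ∈ F (k + 1)) (m : ℕ) (k : ℕ) (g : G)
    (u : L) : g ^ (m ^ k) • u - u ∈ F k ⊔ mulSub L m := by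
  induction k generalizing g u with
  | zero => rw [hF0]; simp
  | succ k ih =>
    -- `q = g ^ (m ^ k)`
    set q := g ^ (m ^ k) with hq
    have hqu : q • u - u ∈ F k ⊔ mulSub L m := ih g u
    have hpow : ∀ j : ℕ, q ^ j • u - u - j • (q • u - u) ∈ F (k + 1) ⊔ mulSub L m := by
      intro j
      induction j with
      | zero => simp
      | succ j ihj =>
        -- `q ^ j` acts trivially on `(F k + m L) / (F (k+1) + m L)`
        have h1 : q ^ j • (q • u - u) - (q • u - u) ∈ F (k + 1) ⊔ mulSub L m := by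
          obtain ⟨a, ha, b, hb, hab⟩ := AddSubgroup.mem_sup.1 hqu
          rw [← hab, smul_add]
          have : q ^ j • a + q ^ j • b - (a + b) = (q ^ j • a - a) + (q ^ j • b - b) := by abel
          rw [this]
          exact AddSubgroup.add_mem _ (AddSubgroup.mem_sup_left (hact _ k a ha))
            (AddSubgroup.mem_sup_right ((mulSub L m).sub_mem (smul_mem_mulSub _ hb) hb))
        have h2 : q ^ (j + 1) • u - u - (j + 1) • (q • u - u)
            = (q ^ j • u - u - j • (q • u - u)) + (q ^ j • (q • u - u) - (q • u - u)) := by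
          rw [pow_succ, mul_smul, smul_sub (q ^ j), succ_nsmul]
          generalize j • (q • u - u) = e
          abel
        rw [h2]
        exact AddSubgroup.add_mem _ ihj h1
    have h3 := hpow m
    have h4 : g ^ m ^ (k + 1) = q ^ m := by rw [hq, ← pow_mul, pow_succ]
    rw [h4]
    have h5 : q ^ m • u - u = (q ^ m • u - u - m • (q • u - u)) + m • (q • u - u) := by abel
    rw [h5]
    exact AddSubgroup.add_mem _ h3 (AddSubgroup.mem_sup_right ⟨_, rfl⟩)

/-- The elements moving `x` by an element of `F k`. -/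
def stabF (F : ℕ → AddSubgroup L) (hF : ∀ k, F (k + 1) ≤ F k)
    (hact : ∀ (g : G) (k : ℕ), ∀ x ∈ F k, g • x - x ∈ F (k + 1)) (x : L) (k : ℕ) :
    Subgroup G where
  carrier := {g | g • x - x ∈ F k}
  one_mem' := by simp
  mul_mem' := by
    intro a b ha hb
    have h1 : (a * b) • x - x = a • (b • x - x) + (a • x - x) := by
      rw [mul_smul, smul_sub]; abel
    change (a * b) • x - x ∈ F k
    rw [h1]
    exact (F k).add_mem (smul_mem_F F hF hact a k hb) ha
  inv_mem' := by
    intro a ha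
    have h1 : a⁻¹ • x - x = -(a⁻¹ • (a • x - x)) := by
      rw [smul_sub, inv_smul_smul]; abel
    change a⁻¹ • x - x ∈ F k
    rw [h1]
    exact (F k).neg_mem (smul_mem_F F hF hact a⁻¹ k ha)

theorem mem_stabF {F : ℕ → AddSubgroup L} {hF : ∀ k, F (k + 1) ≤ F k}
    {hact : ∀ (g : G) (k : ℕ), ∀ x ∈ F k, g • x - x ∈ F (k + 1)} {x : L} {k : ℕ} {g : G} :
    g ∈ stabF F hF hact x k ↔ g • x - x ∈ F k := Iff.rfl

/-- The subgroup `{g • x - x : g ∈ G_k(x)} + F (k + 1)`. -/
def imF (F : ℕ → AddSubgroup L) (hF : ∀ k, F (k + 1) ≤ F k)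
    (hact : ∀ (g : G) (k : ℕ), ∀ x ∈ F k, g • x - x ∈ F (k + 1)) (x : L) (k : ℕ) :
    AddSubgroup L where
  carrier := {w | ∃ g ∈ stabF F hF hact x k, w - (g • x - x) ∈ F (k + 1)}
  zero_mem' := ⟨1, Subgroup.one_mem _, by simp⟩
  add_mem' := by
    rintro a b ⟨g, hg, ha⟩ ⟨g', hg', hb⟩
    refine ⟨g * g', Subgroup.mul_mem _ hg hg', ?_⟩
    have h1 : a + b - ((g * g') • x - x) = (a - (g • x - x)) + (b - (g' • x - x))
        - (g • (g' • x - x) - (g' • x - x)) := by
      rw [mul_smul, smul_sub]; abel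
    rw [h1]
    exact (F (k + 1)).sub_mem ((F (k + 1)).add_mem ha hb) (hact g k _ hg')
  neg_mem' := by
    rintro a ⟨g, hg, ha⟩
    refine ⟨g⁻¹, Subgroup.inv_mem _ hg, ?_⟩
    have h1 : -a - (g⁻¹ • x - x) = -(a - (g • x - x)) + (g⁻¹ • (g • x - x) - (g • x - x)) := by
      rw [smul_sub, inv_smul_smul]; abel
    rw [h1]
    exact (F (k + 1)).add_mem ((F (k + 1)).neg_mem ha) (hact g⁻¹ k _ hg)

theorem F_le_imF {F : ℕ → AddSubgroup L} {hF : ∀ k, F (k + 1) ≤ F k}
    {hact : ∀ (g : G) (k : ℕ), ∀ x ∈ F k, g • x - x ∈ F (k + 1)} {x : L} {k : ℕ} :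
    F (k + 1) ≤ imF F hF hact x k := by
  intro w hw
  exact ⟨1, Subgroup.one_mem _, by simpa using hw⟩

theorem pow_smul_sub_nsmul_mem {F : ℕ → AddSubgroup L} (hF : ∀ k, F (k + 1) ≤ F k)
    (hact : ∀ (g : G) (k : ℕ), ∀ x ∈ F k, g • x - x ∈ F (k + 1)) {x : L} {k : ℕ} {g : G}
    (hg : g • x - x ∈ F k) (j : ℕ) : g ^ j • x - x - j • (g • x - x) ∈ F (k + 1) := by
  induction j with
  | zero => simp
  | succ j ih =>
    have h2 : g ^ (j + 1) • x - x - (j + 1) • (g • x - x)
        = (g ^ j • x - x - j • (g • x - x)) + (g ^ j • (g • x - x) - (g • x - x)) := by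
      rw [pow_succ, mul_smul, smul_sub (g ^ j), succ_nsmul]
      generalize j • (g • x - x) = e
      abel
    rw [h2]
    exact (F (k + 1)).add_mem ih (hact _ k _ hg)

/-- Approximate elements of `G_k(x)` can be corrected to elements of `G_k(x)`. -/
theorem correction [Module.Finite ℤ L] (hF0 : F 0 = ⊤) (hFn : F n = ⊥)
    (hF : ∀ k, F (k + 1) ≤ F k)
    (hact : ∀ (g : G) (k : ℕ), ∀ x ∈ F k, g • x - x ∈ F (k + 1)) (x : L) (p : ℕ) (k : ℕ) :
    ∀ t : ℕ, ∃ s : ℕ, t ≤ s ∧ ∀ g : G, g • x - x ∈ F k ⊔ mulSub L (p ^ s) →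
      ∃ g' : G, g' • x - x ∈ F k ∧ ∀ u : L, g • u - g' • u ∈ mulSub L (p ^ t) := by
  induction k with
  | zero =>
    intro t
    refine ⟨t, le_rfl, fun g _ => ⟨g, by rw [hF0]; trivial, fun u => ?_⟩⟩
    rw [sub_self]
    exact AddSubgroup.zero_mem _
  | succ k ih =>
    intro t
    obtain ⟨c, hc⟩ := exists_stable_pow (imF F hF hact x k) p
    -- exponent making `h ^ (p ^ r)` trivial modulo `p ^ t`
    set r := t * n with hr
    set t' := r + c + t with ht'
    obtain ⟨s, hts, hs⟩ := ih t'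
    refine ⟨s, by omega, fun g hg => ?_⟩
    obtain ⟨g', hg', hgg'⟩ := hs g (by
      refine (sup_le_sup (hF k) le_rfl) ?_
      exact hg)
    -- `g' x - x` is in `F (k+1) + p ^ t' L`
    have h1 : g' • x - x ∈ F (k + 1) ⊔ mulSub L (p ^ t') := by
      have h2 : g' • x - x = (g • x - x) - (g • x - g' • x) := by abel
      rw [h2]
      refine AddSubgroup.sub_mem _ ?_ (AddSubgroup.mem_sup_right (hgg' x))
      exact (sup_le_sup (le_refl _) (mulSub_le (pow_dvd_pow p hts))) hg
    obtain ⟨a, ha, b, ⟨z, rfl⟩, hab⟩ := AddSubgroup.mem_sup.1 h1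
    change a + p ^ t' • z = g' • x - x at hab
    -- `p ^ t' z` is in the image
    have h3 : p ^ t' • z ∈ imF F hF hact x k := by
      refine ⟨g', hg', ?_⟩
      have : p ^ t' • z - (g' • x - x) = -a := by rw [← hab]; abel
      rw [this]
      exact (F (k + 1)).neg_mem ha
    obtain ⟨h, hh, hh'⟩ := hc _ _ h3
    rw [mem_stabF] at hh
    -- the corrected element
    set e := p ^ (r + t) with he
    refine ⟨g' * (h ^ e)⁻¹, ?_, ?_⟩
    · -- `g' x - x ≡ e (h x - x) ≡ h ^ e x - x`
      have h4 : g' • x - x - e • (h • x - x) ∈ F (k + 1) := by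
        have h5 : g' • x - x - e • (h • x - x) = a + e • (p ^ c • z - (h • x - x)) := by
          have h51 : e • (p ^ c • z) = p ^ t' • z := by
            rw [← mul_smul, he, ← pow_add, show r + t + c = t' by omega]
          rw [← hab, smul_sub e (p ^ c • z), h51]
          generalize e • (h • x - x) = w
          abel
        rw [h5]
        exact (F (k + 1)).add_mem ha ((F (k + 1)).nsmul_mem hh' _)
      have h6 := pow_smul_sub_nsmul_mem hF hact hh e
      -- put `y = (h ^ e)⁻¹ x`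
      have h7 : g' • x - h ^ e • x ∈ F (k + 1) := by
        have : g' • x - h ^ e • x = (g' • x - x - e • (h • x - x))
            - (h ^ e • x - x - e • (h • x - x)) := by abel
        rw [this]
        exact (F (k + 1)).sub_mem h4 h6
      have h8 : (g' * (h ^ e)⁻¹) • x - x = -((g' * (h ^ e)⁻¹) • (h ^ e • x - x) - (h ^ e • x - x))
          + (g' • x - h ^ e • x) := by
        rw [smul_sub, mul_smul g' (h ^ e)⁻¹ (h ^ e • x), inv_smul_smul]; abel
      rw [h8]
      refine (F (k + 1)).add_mem ((F (k + 1)).neg_mem (hact _ k _ ?_)) h7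
      exact (stabF F hF hact x k).pow_mem hh e
    · intro u
      have h9 : ∀ v : L, h ^ e • v - v ∈ mulSub L (p ^ t) := by
        intro v
        have h10 := pow_smul_sub_mem F hF0 hF hact (p ^ t) n (h ^ (p ^ t)) v
        rw [hFn, bot_sup_eq, ← pow_mul h, ← pow_mul p, ← pow_add] at h10
        rwa [he, hr, show t * n + t = t + t * n by ring]
      have h11 : g • u - (g' * (h ^ e)⁻¹) • u = (g • u - g' • u)
          + g' • (h ^ e • ((h ^ e)⁻¹ • u) - (h ^ e)⁻¹ • u) := by
        rw [smul_inv_smul, mul_smul, smul_sub]; abel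
      rw [h11]
      refine AddSubgroup.add_mem _ ?_ (smul_mem_mulSub g' (h9 _))
      exact mulSub_le (pow_dvd_pow p (by omega)) (hgg' u)

end Action

/-- **Orbit separability**: if a group acts unipotently on a finitely generated abelian group and
`y` lies in the orbit of `x` modulo every prime power, then `y` lies in the orbit of `x`. -/
theorem orbit_separable {L : Type*} [AddCommGroup L] [Module.Finite ℤ L] {G : Type*} [Group G]
    [DistribMulAction G L] (n : ℕ) (F : ℕ → AddSubgroup L) (hF0 : F 0 = ⊤) (hFn : F n = ⊥)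
    (hF : ∀ k, F (k + 1) ≤ F k)
    (hact : ∀ (g : G) (k : ℕ), ∀ x ∈ F k, g • x - x ∈ F (k + 1)) (x y : L)
    (h : ∀ p : ℕ, p.Prime → ∀ s : ℕ, ∃ g : G, ∃ z : L, y = g • x + (p ^ s) • z) :
    ∃ g : G, y = g • x := by
  suffices hk : ∀ k : ℕ, ∃ g : G, y - g • x ∈ F k by
    obtain ⟨g, hg⟩ := hk n
    rw [hFn, AddSubgroup.mem_bot, sub_eq_zero] at hg
    exact ⟨g, hg⟩
  intro k
  induction k with
  | zero => exact ⟨1, by rw [hF0]; trivial⟩
  | succ k ih =>
    obtain ⟨g₀, hg₀⟩ := ih
    set x' := g₀ • x with hx'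
    have h' : ∀ p : ℕ, p.Prime → ∀ s : ℕ, ∃ g : G, ∃ z : L, y = g • x' + (p ^ s) • z := by
      intro p hp s
      obtain ⟨g, z, hgz⟩ := h p hp s
      refine ⟨g * g₀⁻¹, z, ?_⟩
      rw [hx', mul_smul, inv_smul_smul]
      exact hgz
    have hw : y - x' ∈ imF F hF hact x' k := by
      refine mem_of_forall_prime_pow _ _ fun p hp t => ?_
      obtain ⟨s, hts, hs⟩ := correction n F hF0 hFn hF hact x' p k t
      obtain ⟨g, z, hgz⟩ := h' p hp s
      obtain ⟨g', hg', hgg'⟩ := hs g (by
        have h1 : g • x' - x' = (y - x') + (-(p ^ s • z)) := by rw [hgz]; abel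
        rw [h1]
        exact AddSubgroup.add_mem _ (AddSubgroup.mem_sup_left hg₀)
          (AddSubgroup.mem_sup_right ((mulSub L (p ^ s)).neg_mem ⟨z, rfl⟩)))
      have h2 : y - x' - (g' • x' - x') ∈ mulSub L (p ^ t) := by
        have h3 : y - x' - (g' • x' - x') = (g • x' - g' • x') + p ^ s • z := by
          rw [hgz]; abel
        rw [h3]
        exact AddSubgroup.add_mem _ (hgg' x') (mulSub_le (pow_dvd_pow p hts) ⟨z, rfl⟩)
      obtain ⟨v, hv⟩ := h2
      refine ⟨g' • x' - x', ⟨g', hg', by simp⟩, v, ?_⟩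
      have hv' : p ^ t • v = y - x' - (g' • x' - x') := hv
      rw [hv']
      abel
    obtain ⟨g, hg, hgw⟩ := hw
    refine ⟨g * g₀, ?_⟩
    have : y - (g * g₀) • x = y - x' - (g • x' - x') := by
      rw [mul_smul]; abel
    rw [this]
    exact hgw

end Pool.Agent.Lib.MP_5b16f0_gt
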