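import Pool.Agent.Lib.MP_5b16f0_gt.Resol
import Pool.Agent.Lib.MP_5b16f0_gt.OrbitSep
import Pool.Agent.Lib.MP_5b16f0_gt.CompPoly

/-!
# Finite type invariants separate the orbits
-/

namespace MP5b16f0

universe u v

/-- the top level of a word with all fingers emitted -/
abbrev WW (m : ℕ) : List (Pt (Fin m)) := gh (full m)

/-- words from `[]` to `WW m` modulo `J (n + 1)` -/
abbrev QA (m n : ℕ) := Alg (Fin m) ⧸ J (n + 1) [] (WW m)

/-- the class modulo `J (n + 1)` -/
noncomputable abbrev mk (m n : ℕ) : Alg (Fin m) →+ QA m n :=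
  QuotientAddGroup.mk' (J (n + 1) [] (WW m))

theorem mk_eq {m n : ℕ} {a b : Alg (Fin m)} :
    mk m n a = mk m n b ↔ b - a ∈ J (n + 1) [] (WW m) := by
  show (QuotientAddGroup.mk a : QA m n) = QuotientAddGroup.mk b ↔ _
  rw [QuotientAddGroup.eq, neg_add_eq_sub]

/-- the subgroup generated by the words without closed components -/
noncomputable def LL (m n : ℕ) : AddSubgroup (QA m n) :=
  AddSubgroup.closure {x | ∃ T : Word (Fin m), Run T [] (WW m) ∧ NoClosed T [] (WW m) ∧
    x = mk m n (cl T)}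

theorem LL_finite (m n : ℕ) : Module.Finite ℤ (LL m n) := by
  obtain ⟨S, h1, h2⟩ := nc_fg (n + 1) (WW m)
  have hS : AddSubgroup.closure S ≤
      (Submodule.span ℤ (mk m n '' S)).toAddSubgroup.comap (mk m n) := by
    refine (AddSubgroup.closure_le _).2 ?_
    intro x hx
    exact Submodule.subset_span ⟨x, hx, rfl⟩
  have hle : AddSubgroup.toIntSubmodule (LL m n) ≤ Submodule.span ℤ (mk m n '' S) := by
    intro x hx
    have hx' : x ∈ LL m n := hx
    have hle' : LL m n ≤ (Submodule.span ℤ (mk m n '' S)).toAddSubgroup := by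
      refine (AddSubgroup.closure_le _).2 ?_
      rintro _ ⟨T, h3, h4, rfl⟩
      have := h2 T h3 h4
      obtain ⟨a, ha, b, hb, hab⟩ := AddSubgroup.mem_sup.1 this
      have hmk : mk m n (cl T) = mk m n a := by
        rw [mk_eq, ← hab]
        rw [← neg_mem_iff]
        simpa using hb
      rw [hmk]
      exact hS ha
    exact hle' hx'
  have hN : IsNoetherian ℤ (Submodule.span ℤ (mk m n '' S)) :=
    isNoetherian_span_of_finite ℤ (h1.image _)
  have hN' : IsNoetherian ℤ (AddSubgroup.toIntSubmodule (LL m n)) := isNoetherian_of_le hle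
  have hfg : (AddSubgroup.toIntSubmodule (LL m n)).FG :=
    (Module.Finite.iff_fg).1 inferInstance
  rw [Submodule.fg_iff_addSubgroup_fg, AddSubgroup.toIntSubmodule_toAddSubgroup,
    ← AddGroup.fg_iff_addSubgroup_fg] at hfg
  exact Module.Finite.iff_addGroup_fg.2 hfg

theorem mem_J0 {m n : ℕ} {a : Alg (Fin m)} (h : mk m n a ∈ LL m n) : a ∈ J 0 [] (WW m) := by
  have hle : LL m n ≤ (J 0 [] (WW m)).map (mk m n) := by
    refine (AddSubgroup.closure_le _).2 ?_
    rintro _ ⟨T, h3, _, rfl⟩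
    exact ⟨cl T, cl_mem_J h3, rfl⟩
  obtain ⟨b, hb, hab⟩ := hle h
  have := mk_eq.1 hab
  have h2 := add_mem (J_antitone (Nat.zero_le _) _ _ this) hb
  simpa using h2

theorem J_mul' {M N : ℕ} {m : ℕ} {a : Alg (Fin m)} {κ : Word (Fin m)}
    (ha : a ∈ J M [] (WW m)) (hb : cl κ - 1 ∈ J N (WW m) (WW m)) :
    a * cl κ - a ∈ J (M + N) [] (WW m) := by
  have := J_mul ha hb
  rwa [mul_sub, mul_one] at this

/-- elements given by words -/
noncomputable def el {m n : ℕ} {T : Word (Fin m)} (h1 : Run T [] (WW m))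
    (h2 : NoClosed T [] (WW m)) : LL m n :=
  ⟨mk m n (cl T), AddSubgroup.subset_closure ⟨T, h1, h2, rfl⟩⟩

/-- right multiplication by `κ` on the quotient -/
noncomputable def Rm {m n : ℕ} {κ : Word (Fin m)} (h : Run κ (WW m) (WW m)) :
    QA m n →+ QA m n :=
  QuotientAddGroup.map _ _ (AddMonoidHom.mulRight (cl κ)) (fun _ ha => J_mulR ha h)

theorem Rm_mk {m n : ℕ} {κ : Word (Fin m)} (h : Run κ (WW m) (WW m)) (a : Alg (Fin m)) :
    Rm h (mk m n a) = mk m n (a * cl κ) := rfl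

theorem Rm_mem {m n : ℕ} {κ : Word (Fin m)} (h : Kap (full m) n κ) {x : QA m n}
    (hx : x ∈ LL m n) : Rm h.run x ∈ LL m n := by
  have hle : LL m n ≤ (LL m n).comap (Rm h.run) := by
    refine (AddSubgroup.closure_le _).2 ?_
    rintro _ ⟨T, h3, h4, rfl⟩
    show Rm h.run (mk m n (cl T)) ∈ LL m n
    rw [Rm_mk, ← cl_append]
    refine AddSubgroup.subset_closure ⟨_, h3.append h.run, ?_, rfl⟩
    have e := (h.e1 (full_nodup m)).appL h3
    rw [List.append_nil] at e
    exact e.noClosed.2 h4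
  exact hle hx

/-- right multiplication by `κ` -/
noncomputable def Rl {m n : ℕ} {κ : Word (Fin m)} (h : Kap (full m) n κ) :
    LL m n →+ LL m n :=
  ((Rm h.run).comp (LL m n).subtype).codRestrict (LL m n) (fun x => Rm_mem h x.2)

theorem Rl_coe {m n : ℕ} {κ : Word (Fin m)} (h : Kap (full m) n κ) (x : LL m n) :
    ((Rl h x : LL m n) : QA m n) = Rm h.run (x : QA m n) := rfl

theorem Rm_Rm {m n : ℕ} {κ κ' : Word (Fin m)} (h : Run κ (WW m) (WW m))
    (h' : Run κ' (WW m) (WW m)) (hJ : cl κ * cl κ' - 1 ∈ J (n + 1) (WW m) (WW m)) {x : QA m n}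
    (hx : x ∈ LL m n) : Rm h' (Rm h x) = x := by
  obtain ⟨a, rfl⟩ := QuotientAddGroup.mk'_surjective _ x
  have ha := mem_J0 hx
  show Rm h' (Rm h (mk m n a)) = mk m n a
  rw [Rm_mk, Rm_mk, mk_eq]
  have := J_mul ha hJ
  rw [Nat.zero_add] at this
  rw [← neg_mem_iff]
  convert this using 1
  noncomm_ring

/-- The group of the automorphisms of `LL m n` given by the stabiliser of the caps. -/
noncomputable def GG (m n : ℕ) : Subgroup (AddMonoid.End (LL m n))ˣ where
  carrier := {g | ∃ (κ : Word (Fin m)) (h : Kap (full m) n κ), ∀ x : LL m n, g • x = Rl h x}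
  mul_mem' := by
    rintro g g' ⟨κ, h, hg⟩ ⟨κ', h', hg'⟩
    refine ⟨κ' ++ κ, h'.mul (full_nodup m) h, fun x => ?_⟩
    rw [mul_smul, hg', hg]
    apply Subtype.ext
    obtain ⟨x, hx⟩ := x
    obtain ⟨a, rfl⟩ := QuotientAddGroup.mk'_surjective _ x
    show Rm h.run (Rm h'.run (mk m n a)) = Rm (h'.mul (full_nodup m) h).run (mk m n a)
    rw [Rm_mk, Rm_mk, Rm_mk, cl_append, mul_assoc]
  one_mem' := by
    refine ⟨[], Kap.one, fun x => ?_⟩
    rw [one_smul]
    apply Subtype.ext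
    obtain ⟨x, hx⟩ := x
    obtain ⟨a, rfl⟩ := QuotientAddGroup.mk'_surjective _ x
    show mk m n a = Rm (Kap.one (L := full m) (n := n)).run (mk m n a)
    rw [Rm_mk, cl_nil, mul_one]
  inv_mem' := by
    rintro g ⟨κ, h, hg⟩
    obtain ⟨y, h1, h2, h3⟩ := h.inv (full_nodup m)
    refine ⟨y, h1, fun x => ?_⟩
    rw [inv_smul_eq_iff, hg]
    apply Subtype.ext
    rw [Rl_coe, Rl_coe]
    exact (Rm_Rm _ _ h2 x.2).symm

theorem exists_g {m n : ℕ} {κ : Word (Fin m)} (h : Kap (full m) n κ) :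
    ∃ g : GG m n, ∀ x : LL m n, g • x = Rl h x := by
  obtain ⟨y, h1, h2, h3⟩ := h.inv (full_nodup m)
  let u : (AddMonoid.End (LL m n))ˣ := ⟨Rl h, Rl h1, by
    ext x
    show ((Rl h (Rl h1 x) : LL m n) : QA m n) = x
    rw [Rl_coe, Rl_coe]
    exact Rm_Rm _ _ h2 x.2, by
    ext x
    show ((Rl h1 (Rl h x) : LL m n) : QA m n) = x
    rw [Rl_coe, Rl_coe]
    exact Rm_Rm _ _ h3 x.2⟩
  exact ⟨⟨u, κ, h, fun x => rfl⟩, fun x => rfl⟩

theorem exists_kap {m n : ℕ} (g : GG m n) : ∃ (κ : Word (Fin m)) (h : Kap (full m) n κ),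
    ∀ x : LL m n, g • x = Rl h x := g.2

theorem rel_iff {m n : ℕ} {T T' : Word (Fin m)} (h1 : Run T [] (WW m))
    (h2 : NoClosed T [] (WW m)) (h1' : Run T' [] (WW m)) (h2' : NoClosed T' [] (WW m)) :
    Rel (full m) n T T' ↔ ∃ g : GG m n, (el h1' h2' : LL m n) = g • el h1 h2 := by
  constructor
  · rintro ⟨κ, hκ, hJ⟩
    obtain ⟨g, hg⟩ := exists_g hκ
    refine ⟨g, ?_⟩
    rw [hg]
    apply Subtype.ext
    show mk m n (cl T') = Rm hκ.run (mk m n (cl T))
    rw [Rm_mk, mk_eq, ← neg_mem_iff, neg_sub]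
    exact hJ
  · rintro ⟨g, hg⟩
    obtain ⟨κ, hκ, hgκ⟩ := exists_kap g
    refine ⟨κ, hκ, ?_⟩
    rw [hgκ] at hg
    have := congrArg Subtype.val hg
    change mk m n (cl T') = Rm hκ.run (mk m n (cl T)) at this
    rw [Rm_mk, mk_eq, ← neg_mem_iff, neg_sub] at this
    exact this

/-- the filtration of `LL` -/
noncomputable def FF (m n k : ℕ) : AddSubgroup (LL m n) :=
  ((J k [] (WW m)).map (mk m n)).comap (LL m n).subtype

theorem mem_FF {m n k : ℕ} {x : LL m n} (hx : x ∈ FF m n k) :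
    ∃ a ∈ J k [] (WW m), mk m n a = (x : QA m n) := hx

theorem FF_zero (m n : ℕ) : FF m n 0 = ⊤ := by
  rw [eq_top_iff]
  rintro ⟨x, hx⟩ _
  obtain ⟨a, rfl⟩ := QuotientAddGroup.mk'_surjective _ x
  exact ⟨a, mem_J0 hx, rfl⟩

theorem FF_last (m n : ℕ) : FF m n (n + 1) = ⊥ := by
  rw [eq_bot_iff]
  intro x hx
  obtain ⟨a, ha, hax⟩ := mem_FF hx
  rw [AddSubgroup.mem_bot]
  apply Subtype.ext
  rw [← hax]
  show mk m n a = 0
  rw [← map_zero (mk m n), mk_eq, ← neg_mem_iff]
  simpa using ha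

theorem FF_succ (m n k : ℕ) : FF m n (k + 1) ≤ FF m n k := by
  intro x hx
  obtain ⟨a, ha, hax⟩ := mem_FF hx
  exact ⟨a, J_succ_le _ _ _ ha, hax⟩

theorem FF_act {m n : ℕ} (g : GG m n) (k : ℕ) (x : LL m n) (hx : x ∈ FF m n k) :
    g • x - x ∈ FF m n (k + 1) := by
  obtain ⟨κ, hκ, hg⟩ := exists_kap g
  obtain ⟨a, ha, hax⟩ := mem_FF hx
  refine ⟨a * cl κ - a, J_mul' ha (hκ.mem_one (full_nodup m)), ?_⟩
  rw [hg]
  show mk m n _ = ((Rl hκ x : LL m n) : QA m n) - (x : QA m n)
  rw [Rl_coe, ← hax, Rm_mk, map_sub]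

/-! ### The separating invariant -/

section Sep

variable {m n : ℕ} (p s : ℕ)

/-- multiples of `p ^ s` -/
noncomputable def PS (m n : ℕ) : AddSubgroup (LL m n) :=
  (nsmulAddMonoidHom (α := LL m n) (p ^ s)).range

/-- the quotient by the multiples of `p ^ s` -/
abbrev QQ (m n : ℕ) := LL m n ⧸ PS p s m n

theorem QQ_smul (q : QQ p s m n) : p ^ s • q = 0 := by
  obtain ⟨x, rfl⟩ := QuotientAddGroup.mk'_surjective _ q
  rw [← map_nsmul]
  exact (QuotientAddGroup.eq_zero_iff _).2 ⟨x, rfl⟩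

theorem QQ_finite [hp : Fact p.Prime] : Finite (QQ p s m n) := by
  have := LL_finite m n
  have hfin : Module.Finite ℤ (QQ p s m n) :=
    Module.Finite.of_surjective (QuotientAddGroup.mk' (PS p s m n)).toIntLinearMap
      (fun q => QuotientAddGroup.mk'_surjective _ q)
  refine Module.finite_of_fg_torsion _ ?_
  intro q
  refine ⟨⟨(p ^ s : ℕ), ?_⟩, ?_⟩
  · exact mem_nonZeroDivisors_of_ne_zero (by exact_mod_cast pow_ne_zero _ hp.out.ne_zero)
  · show ((p ^ s : ℕ) : ℤ) • q = 0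
    rw [natCast_zsmul]
    exact QQ_smul p s q

/-- the class modulo `p ^ s` -/
noncomputable abbrev mq (m n : ℕ) : LL m n →+ QQ p s m n := QuotientAddGroup.mk' (PS p s m n)

theorem mq_eq {x y : LL m n} : mq p s m n x = mq p s m n y ↔ ∃ z : LL m n, y = x + p ^ s • z := by
  show (QuotientAddGroup.mk x : QQ p s m n) = QuotientAddGroup.mk y ↔ _
  rw [QuotientAddGroup.eq]
  constructor
  · rintro ⟨z, hz⟩
    refine ⟨z, ?_⟩
    have : p ^ s • z = -x + y := hz
    rw [this]; abel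
  · rintro ⟨z, rfl⟩
    exact ⟨z, by show p ^ s • z = _; abel⟩

open Classical in
/-- the indicator function of an orbit modulo `p ^ s` -/
noncomputable def ff (x0 : LL m n) (q : QQ p s m n) : ZMod p :=
  if ∃ g : GG m n, q = mq p s m n (g • x0) then 1 else 0

theorem ff_smul (x0 : LL m n) (g : GG m n) (x : LL m n) :
    ff p s x0 (mq p s m n (g • x)) = ff p s x0 (mq p s m n x) := by
  have key : ∀ (g : GG m n) (x : LL m n), (∃ g' : GG m n, mq p s m n x = mq p s m n (g' • x0)) →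
      ∃ g' : GG m n, mq p s m n (g • x) = mq p s m n (g' • x0) := by
    rintro g x ⟨g', h⟩
    obtain ⟨z, hz⟩ := (mq_eq p s).1 h
    refine ⟨g * g', (mq_eq p s).2 ⟨g • z, ?_⟩⟩
    rw [mul_smul, hz, smul_add, smul_comm g (p ^ s) z]
  have : (∃ g' : GG m n, mq p s m n (g • x) = mq p s m n (g' • x0)) ↔
      (∃ g' : GG m n, mq p s m n x = mq p s m n (g' • x0)) := by
    constructor
    · intro h
      have := key g⁻¹ (g • x) h
      rwa [inv_smul_smul] at this
    · exact key g x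
  by_cases hx : ∃ g' : GG m n, mq p s m n x = mq p s m n (g' • x0)
  · rw [ff, ff, if_pos (this.2 hx), if_pos hx]
  · rw [ff, ff, if_neg (fun h => hx (this.1 h)), if_neg hx]

open Classical in
/-- the invariant of links -/
noncomputable def vv (x0 : LL m n) (w : Word (Fin m)) : ZMod p :=
  if h : LinkWord m w then
    ff p s x0 (mq p s m n (el h.em.choose_spec.run_link (h.em.choose_spec.nc h))) else 0

theorem vv_eq (x0 : LL m n) {w T : Word (Fin m)} (hw : LinkWord m w)
    (hT : Em [] [] [] (full m) w T) :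
    vv p s x0 w = ff p s x0 (mq p s m n (el hT.run_link (hT.nc hw))) := by
  rw [vv, dif_pos hw]
  obtain ⟨g, hg⟩ := (rel_iff (n := n) hw.em.choose_spec.run_link (hw.em.choose_spec.nc hw)
    hT.run_link (hT.nc hw)).1 (rel_same_link n hw hw.em.choose_spec hT)
  rw [hg, ff_smul]

theorem vv_inv (x0 : LL m n) : LinkInv m (vv p s x0) := by
  intro w w' hw hw' hi
  obtain ⟨T, hT⟩ := hw.em
  obtain ⟨T', hT'⟩ := hw'.em
  rw [vv_eq p s x0 hw hT, vv_eq p s x0 hw' hT']
  obtain ⟨g, hg⟩ := (rel_iff (n := n) hT.run_link (hT.nc hw) hT'.run_link (hT'.nc hw')).1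
    (rel_iso n hi hw hT hT')
  rw [hg, ff_smul]

theorem vv_type [hp : Fact p.Prime] (x0 : LL m n) : ∃ N, LinkType m N (vv p s x0) := by
  have := QQ_finite (m := m) (n := n) p s
  obtain ⟨N, hN⟩ := Pool.Agent.Lib.MP_5b16f0_gt.comp_poly p s (QQ_smul p s) n (ff p s x0)
  refine ⟨N, vv_inv p s x0, ?_⟩
  intro D hD hd
  have hw : ∀ c, LinkWord m (rs D c) := linkWord_rs hD
  obtain ⟨T, hT⟩ := hD.em
  obtain ⟨E, hE1, hE2, hE3⟩ := sing_em hT D rfl
  have key := hN (Finset.range D.dbl)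
    (fun S => mq p s m n (el (hE3 (fun k => decide (k ∉ S))).run_link
      ((hE3 (fun k => decide (k ∉ S))).nc (hw _)))) ?_ (by rw [Finset.card_range]; omega)
  · rw [alt_sum]
    rw [← key]
    refine Finset.sum_congr rfl (fun S _ => ?_)
    rw [List.nil_append]
    have := vv_eq p s x0 (hw (fun k => decide (k ∉ S))) (hE3 (fun k => decide (k ∉ S)))
    show (-1 : ℤ) ^ S.card • vv p s x0 (rs D (fun k => decide (k ∉ S))) = _
    rw [this, zsmul_eq_mul]
    push_cast
    rfl
  · intro T' hT' hn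
    have hsub : T' ⊆ Finset.range E.dbl := by rw [hE1]; exact hT'
    have h1 := sum_res E T' hsub
    have h2 : res (pr E T') ∈ J (n + 1) [] (WW m) := by
      refine J_antitone (M := n + 1) (N := T'.card) (by omega) _ _
        (res_mem_J ?_ (dbl_pr E T' hsub))
      rw [pos_pr, hE2]
      exact hT.run_link
    have h3 : ∑ S ∈ T'.powerset, (-1 : ℤ) ^ S.card • (el (hE3 (fun k => decide (k ∉ S))).run_link
      ((hE3 (fun k => decide (k ∉ S))).nc (hw _)) : LL m n) = 0 := by
      apply Subtype.ext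
      rw [AddSubgroup.val_finsetSum]
      have h4 : ∀ S : Finset ℕ, (((-1 : ℤ) ^ S.card •
          (el (hE3 (fun k => decide (k ∉ S))).run_link
          ((hE3 (fun k => decide (k ∉ S))).nc (hw _)) : LL m n) : LL m n) : QA m n) =
          mk m n ((-1 : ℤ) ^ S.card • cl (rsS E S)) := by
        intro S
        rw [map_zsmul]
        rfl
      simp only [h4]
      rw [← map_sum, h1]
      show mk m n (res (pr E T')) = 0
      rw [← map_zero (mk m n), mk_eq, ← neg_mem_iff]
      simpa using h2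
    have := congrArg (mq p s m n) h3
    rw [map_sum, map_zero] at this
    simp only [map_zsmul] at this
    exact this

end Sep

/-- **Main theorem**: if all finite type invariants of links agree on `L` and `L'`, then `L` and
`L'` are not separated by type `n` invariants of string links, for all `n`. -/
theorem main {m : ℕ} {L L' : Word (Fin m)} (hL : LinkWord m L) (hL' : LinkWord m L')
    (h : ∀ (N : ℕ) (A : Type) [AddCommGroup A] (v : Word (Fin m) → A),
      LinkType m N v → v L = v L') (n : ℕ) : Approx m n L L' := by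
  obtain ⟨T, hT⟩ := hL.em
  obtain ⟨T', hT'⟩ := hL'.em
  have hfin := LL_finite m n
  have key : ∃ g : GG m n, (el hT'.run_link (hT'.nc hL') : LL m n) =
      g • (el hT.run_link (hT.nc hL)) := by
    refine Pool.Agent.Lib.MP_5b16f0_gt.orbit_separable (n + 1) (FF m n) (FF_zero m n)
      (FF_last m n) (FF_succ m n) (fun g k x hx => FF_act g k x hx) _ _ ?_
    intro p hp s
    have : Fact p.Prime := ⟨hp⟩
    by_contra hne
    push Not at hne
    obtain ⟨N, hN⟩ := vv_type p s (el hT.run_link (hT.nc hL) : LL m n)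
    have hv := h N (ZMod p) _ hN
    rw [vv_eq p s _ hL hT, vv_eq p s _ hL' hT'] at hv
    have h1 : ff p s (el hT.run_link (hT.nc hL) : LL m n)
        (mq p s m n (el hT.run_link (hT.nc hL))) = 1 := by
      rw [ff, if_pos]
      exact ⟨1, by rw [one_smul]⟩
    have h2 : ff p s (el hT.run_link (hT.nc hL) : LL m n)
        (mq p s m n (el hT'.run_link (hT'.nc hL'))) = 0 := by
      rw [ff, if_neg]
      rintro ⟨g, hg⟩
      obtain ⟨z, hz⟩ := (mq_eq p s).1 hg.symm
      exact hne g z hz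
    rw [h1, h2] at hv
    exact one_ne_zero hv
  have hrel := (rel_iff (n := n) hT.run_link (hT.nc hL) hT'.run_link (hT'.nc hL')).2 key
  have c1 := hT.close_link
  have c2 := hT'.close_link
  have a1 := Approx.of_iso (n := n) hL c1.symm
  have a2 := approx_of_rel hT.run_link hT'.run_link (hL.iso c1.symm) (hL'.iso c2.symm) hrel
  have a3 := Approx.of_iso (n := n) (hL'.iso c2.symm) c2
  exact a1.trans (a2.trans a3)

end MP5b16f0
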