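import Pool.Agent.Lib.MP_5b16f0_gt.Dual

/-!
# Fingers

A *finger* is a pair of neighbouring points `[op x, x]` at the right end of a level.  The word
`att x q k` lets the finger pass over the `k` strands to its left and attaches it to the strand
through the point `q` (which has the same label as `x`).  We show that modulo crossing changes
of fingers with single strands, the strand may be attached at any point of a component.
-/

namespace MP5b16f0

universe u v

variable {α : Type u} {β : Type v}

/-- attach the finger `[op x, x]` to the strand through the point `q` on its left -/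
def attG (x q : Pt α) : Word α :=
  if q.2 = x.2 then [(0, Gen.cap x)] else slR false 2 ++ [(1, Gen.cap x)]

/-- let the finger `[op x, x]` pass over `k` strands and attach it to the strand through `q` -/
def att (x q : Pt α) (k : ℕ) : Word α := sh 1 (blkR false k 2) ++ attG x q

theorem eq_or_op {x q : Pt α} (h : q.1 = x.1) : (q.2 = x.2 ∧ q = x) ∨ (q.2 ≠ x.2 ∧ q = op x) := by
  obtain ⟨a, i⟩ := x
  obtain ⟨b, j⟩ := q
  simp only at h
  subst h
  cases i <;> cases j <;> simp [op]

theorem run_attG {x q : Pt α} (h : q.1 = x.1) : Run (attG x q) [q, op x, x] [q] := by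
  rcases eq_or_op h with ⟨h1, rfl⟩ | ⟨h1, rfl⟩
  · rw [attG, if_pos rfl]
    exact run1 (Gen.Acts.cap q) [] [q] rfl rfl rfl
  · rw [attG, if_neg h1]
    exact Run.cast ((run_slR false (op x) [op x, x]).append
      (run1 (Gen.Acts.cap x) [op x] [] rfl rfl rfl)) (by first | rfl | (simp; done) | (simp; omega) | (simp; ring_nf; done) | (simp; constructor <;> (first | rfl | omega | (ring_nf; done))) | (ring_nf; done)) (by first | rfl | (simp; done) | (simp; omega) | (simp; ring_nf; done) | (simp; constructor <;> (first | rfl | omega | (ring_nf; done))) | (ring_nf; done)) (by first | rfl | (simp; done) | (simp; omega) | (simp; ring_nf; done) | (simp; constructor <;> (first | rfl | omega | (ring_nf; done))) | (ring_nf; done))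

theorem run_att {x q : Pt α} (h : q.1 = x.1) (C : List (Pt α)) :
    Run (att x q C.length) (q :: (C ++ [op x, x])) (q :: C) := by
  have h1 : Run (sh 1 (blkR false C.length 2)) (q :: (C ++ [op x, x])) (q :: op x :: x :: C) := by
    exact Run.cast ((run_blkR false C [op x, x]).shiftL [q]) (by first | rfl | (simp; done) | (simp; omega) | (simp; ring_nf; done) | (simp; constructor <;> (first | rfl | omega | (ring_nf; done))) | (ring_nf; done)) (by first | rfl | (simp; done) | (simp; omega) | (simp; ring_nf; done) | (simp; constructor <;> (first | rfl | omega | (ring_nf; done))) | (ring_nf; done)) (by first | rfl | (simp; done) | (simp; omega) | (simp; ring_nf; done) | (simp; constructor <;> (first | rfl | omega | (ring_nf; done))) | (ring_nf; done))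
  exact h1.append (by exact Run.cast ((run_attG h).right C) (by first | rfl | (simp; done) | (simp; omega) | (simp; ring_nf; done) | (simp; constructor <;> (first | rfl | omega | (ring_nf; done))) | (ring_nf; done)) (by first | rfl | (simp; done) | (simp; omega) | (simp; ring_nf; done) | (simp; constructor <;> (first | rfl | omega | (ring_nf; done))) | (ring_nf; done)) (by first | rfl | (simp; done) | (simp; omega) | (simp; ring_nf; done) | (simp; constructor <;> (first | rfl | omega | (ring_nf; done))) | (ring_nf; done)))

theorem att_zero (x q : Pt α) : att x q 0 = attG x q := by simp [att]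

theorem att_succ (x q : Pt α) (k : ℕ) :
    att x q (k + 1) = sh 2 (blkR false k 2) ++ (sh 1 (slR false 2) ++ attG x q) := by
  simp [att, blkR_succ]

/-- One step of the equivalence relation `JEq`. -/
inductive JStep (x : Pt α) (Z Z' : List (Pt α)) : Word α → Word α → Prop
  | iso {w w' : Word α} (h : Iso (Z ++ [op x, x]) Z' w w') : JStep x Z Z' w w'
  | exch {Z1 : List (Pt α)} {r : Pt α} {u v : Word α} (hu : Run u Z (Z1 ++ [r]))
      (hv : Run v (Z1 ++ [op x, x, r]) Z') :
      JStep x Z Z' (u ++ (sh Z1.length (slR false 2) ++ v)) (u ++ (sh Z1.length (slR true 2) ++ v))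

/-- Equivalence of words from `Z ++ [op x, x]` to `Z'`: isotopy and crossing changes between
single strands and the finger `[op x, x]`. -/
def JEq (x : Pt α) (Z Z' : List (Pt α)) : Word α → Word α → Prop :=
  Relation.EqvGen (JStep x Z Z')

theorem Iso.jeq {x : Pt α} {Z Z' : List (Pt α)} {w w' : Word α}
    (h : Iso (Z ++ [op x, x]) Z' w w') : JEq x Z Z' w w' :=
  Relation.EqvGen.rel _ _ (JStep.iso h)

theorem JEq.refl {x : Pt α} {Z Z' : List (Pt α)} (w : Word α) : JEq x Z Z' w w :=
  Relation.EqvGen.refl w

theorem JEq.of_eq {x : Pt α} {Z Z' : List (Pt α)} {w w' : Word α} (h : w = w') :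
    JEq x Z Z' w w' := by subst h; exact JEq.refl w

theorem JEq.symm {x : Pt α} {Z Z' : List (Pt α)} {w w' : Word α}
    (h : JEq x Z Z' w w') : JEq x Z Z' w' w := Relation.EqvGen.symm _ _ h

theorem JEq.trans {x : Pt α} {Z Z' : List (Pt α)} {w w' w'' : Word α}
    (h : JEq x Z Z' w w') (h' : JEq x Z Z' w' w'') : JEq x Z Z' w w'' :=
  Relation.EqvGen.trans _ _ _ h h'

theorem JEq.adapt {x : Pt α} {X Y X' Y' : List (Pt α)} {w w' u u' : Word α} (h : JEq x X Y w w')
    (hX : X = X') (hY : Y = Y') (hw : w = u) (hw' : w' = u') : JEq x X' Y' u u' := by
  subst hX hY hw hw'; exact h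


theorem JEq.appR {x : Pt α} {Z Z' Z'' : List (Pt α)} {w w' v : Word α}
    (h : JEq x Z Z' w w') (hv : Run v Z' Z'') : JEq x Z Z'' (w ++ v) (w' ++ v) := by
  induction h with
  | rel _ _ h =>
    cases h with
    | iso h => exact (h.appR hv).jeq
    | exch hu hv' =>
      have := JStep.exch hu (hv'.append hv)
      exact Relation.EqvGen.rel _ _ (by simpa using this)
  | refl _ => exact JEq.refl _
  | symm _ _ _ ih => exact ih.symm
  | trans _ _ _ _ _ ih1 ih2 => exact ih1.trans ih2

theorem JEq.appL {x : Pt α} {Z Z' Z0 : List (Pt α)} {w w' u : Word α} (hu : Run u Z0 Z)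
    (h : JEq x Z Z' w w') : JEq x Z0 Z' (u ++ w) (u ++ w') := by
  induction h with
  | rel _ _ h =>
    cases h with
    | iso h => exact (h.appL (hu.right _)).jeq
    | exch hu' hv' =>
      have := JStep.exch (hu.append hu') hv'
      exact Relation.EqvGen.rel _ _ (by simpa using this)
  | refl _ => exact JEq.refl _
  | symm _ _ _ ih => exact ih.symm
  | trans _ _ _ _ _ ih1 ih2 => exact ih1.trans ih2

theorem JEq.shiftL {x : Pt α} {Z Z' : List (Pt α)} {w w' : Word α}
    (h : JEq x Z Z' w w') (A : List (Pt α)) :
    JEq x (A ++ Z) (A ++ Z') (sh A.length w) (sh A.length w') := by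
  induction h with
  | rel _ _ h =>
    cases h with
    | iso h => exact (Iso.cast (h.shiftL A) (by simp) rfl).jeq
    | @exch Z1 r u v hu' hv' =>
      have h1 : Run (sh A.length u) (A ++ Z) ((A ++ Z1) ++ [r]) := by
        exact Run.cast (hu'.shiftL A) (by first | rfl | (simp; done) | (simp; omega) | (simp; ring_nf; done) | (simp; constructor <;> (first | rfl | omega | (ring_nf; done))) | (ring_nf; done)) (by first | rfl | (simp; done) | (simp; omega) | (simp; ring_nf; done) | (simp; constructor <;> (first | rfl | omega | (ring_nf; done))) | (ring_nf; done)) (by first | rfl | (simp; done) | (simp; omega) | (simp; ring_nf; done) | (simp; constructor <;> (first | rfl | omega | (ring_nf; done))) | (ring_nf; done))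
      have h2 : Run (sh A.length v) ((A ++ Z1) ++ [op x, x, r]) (A ++ Z') := by
        exact Run.cast (hv'.shiftL A) (by first | rfl | (simp; done) | (simp; omega) | (simp; ring_nf; done) | (simp; constructor <;> (first | rfl | omega | (ring_nf; done))) | (ring_nf; done)) (by first | rfl | (simp; done) | (simp; omega) | (simp; ring_nf; done) | (simp; constructor <;> (first | rfl | omega | (ring_nf; done))) | (ring_nf; done)) (by first | rfl | (simp; done) | (simp; omega) | (simp; ring_nf; done) | (simp; constructor <;> (first | rfl | omega | (ring_nf; done))) | (ring_nf; done))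
      have := JStep.exch h1 h2
      exact Relation.EqvGen.rel _ _ (by simpa [Nat.add_comm] using this)
  | refl _ => exact JEq.refl _
  | symm _ _ _ ih => exact ih.symm
  | trans _ _ _ _ _ ih1 ih2 => exact ih1.trans ih2

/-- The finger may pass over or under a strand, even after having passed over other strands. -/
theorem jeq_exch (x r : Pt α) (C : List (Pt α)) :
    JEq x (r :: C) (op x :: x :: r :: C) (sh 1 (blkR false C.length 2) ++ slR false 2)
      (sh 1 (blkR false C.length 2) ++ slR true 2) := by
  -- move `r` over `C` to the right
  have hw : Run (slR true C.length) (r :: C) (C ++ [r]) := run_slR true r C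
  have hw' : Run (blkR false C.length 1) (C ++ [r]) (r :: C) := by
    exact Run.cast (run_blkR false C [r]) (by first | rfl | (simp; done) | (simp; omega) | (simp; ring_nf; done) | (simp; constructor <;> (first | rfl | omega | (ring_nf; done))) | (ring_nf; done)) (by first | rfl | (simp; done) | (simp; omega) | (simp; ring_nf; done) | (simp; constructor <;> (first | rfl | omega | (ring_nf; done))) | (ring_nf; done)) (by first | rfl | (simp; done) | (simp; omega) | (simp; ring_nf; done) | (simp; constructor <;> (first | rfl | omega | (ring_nf; done))) | (ring_nf; done))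
  have hinv : Iso (r :: C) (r :: C) (slR true C.length ++ blkR false C.length 1) [] := by
    simpa using slR_inv true r C
  have rb : Run (blkR false (C.length + 1) 2) ((r :: C) ++ [op x, x]) (op x :: x :: r :: C) := by
    exact Run.cast (run_blkR false (r :: C) [op x, x]) (by first | rfl | (simp; done) | (simp; omega) | (simp; ring_nf; done) | (simp; constructor <;> (first | rfl | omega | (ring_nf; done))) | (ring_nf; done)) (by first | rfl | (simp; done) | (simp; omega) | (simp; ring_nf; done) | (simp; constructor <;> (first | rfl | omega | (ring_nf; done))) | (ring_nf; done)) (by first | rfl | (simp; done) | (simp; omega) | (simp; ring_nf; done) | (simp; constructor <;> (first | rfl | omega | (ring_nf; done))) | (ring_nf; done))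
  -- LHS ~ LHS ++ sh 2 (slR ++ blkR) ~ slR ++ blk ++ sh 2 blkR
  have a1 : Iso ((r :: C) ++ [op x, x]) (op x :: x :: r :: C) (blkR false (C.length + 1) 2)
      (blkR false (C.length + 1) 2 ++ sh 2 (slR true C.length ++ blkR false C.length 1)) := by
    have := ((hinv.shiftL [op x, x]).appL (u := blkR false (C.length + 1) 2)
      (X' := (r :: C) ++ [op x, x]) (by exact Run.cast rb (by first | rfl | (simp; done) | (simp; omega) | (simp; ring_nf; done) | (simp; constructor <;> (first | rfl | omega | (ring_nf; done))) | (ring_nf; done)) (by first | rfl | (simp; done) | (simp; omega) | (simp; ring_nf; done) | (simp; constructor <;> (first | rfl | omega | (ring_nf; done))) | (ring_nf; done)) (by first | rfl | (simp; done) | (simp; omega) | (simp; ring_nf; done) | (simp; constructor <;> (first | rfl | omega | (ring_nf; done))) | (ring_nf; done)))).symm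
    exact Iso.adapt this (by first | rfl | (simp; done) | (simp; omega) | (simp; ring_nf; done) | (simp; constructor <;> (first | rfl | omega | (ring_nf; done))) | (ring_nf; done)) (by first | rfl | (simp; done) | (simp; omega) | (simp; ring_nf; done) | (simp; constructor <;> (first | rfl | omega | (ring_nf; done))) | (ring_nf; done)) (by first | rfl | (simp; done) | (simp; omega) | (simp; ring_nf; done) | (simp; constructor <;> (first | rfl | omega | (ring_nf; done))) | (ring_nf; done)) (by first | rfl | (simp; done) | (simp; omega) | (simp; ring_nf; done) | (simp; constructor <;> (first | rfl | omega | (ring_nf; done))) | (ring_nf; done))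
  have a2 : Iso ((r :: C) ++ [op x, x]) (op x :: x :: r :: C)
      ((blkR false (C.length + 1) 2 ++ sh 2 (slR true C.length)) ++ sh 2 (blkR false C.length 1))
      ((slR true C.length ++ blkR false (C.length + 1) 2) ++ sh 2 (blkR false C.length 1)) := by
    have := (natB1 false [op x, x] hw).symm.appR (v := sh 2 (blkR false C.length 1))
      (Y' := op x :: x :: r :: C) (by exact Run.cast (hw'.shiftL [op x, x]) (by first | rfl | (simp; done) | (simp; omega) | (simp; ring_nf; done) | (simp; constructor <;> (first | rfl | omega | (ring_nf; done))) | (ring_nf; done)) (by first | rfl | (simp; done) | (simp; omega) | (simp; ring_nf; done) | (simp; constructor <;> (first | rfl | omega | (ring_nf; done))) | (ring_nf; done)) (by first | rfl | (simp; done) | (simp; omega) | (simp; ring_nf; done) | (simp; constructor <;> (first | rfl | omega | (ring_nf; done))) | (ring_nf; done)))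
    exact Iso.adapt this (by first | rfl | (simp; done) | (simp; omega) | (simp; ring_nf; done) | (simp; constructor <;> (first | rfl | omega | (ring_nf; done))) | (ring_nf; done)) (by first | rfl | (simp; done) | (simp; omega) | (simp; ring_nf; done) | (simp; constructor <;> (first | rfl | omega | (ring_nf; done))) | (ring_nf; done)) (by first | rfl | (simp; done) | (simp; omega) | (simp; ring_nf; done) | (simp; constructor <;> (first | rfl | omega | (ring_nf; done))) | (ring_nf; done)) (by first | rfl | (simp; done) | (simp; omega) | (simp; ring_nf; done) | (simp; constructor <;> (first | rfl | omega | (ring_nf; done))) | (ring_nf; done))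
  -- now exchange
  have a3 : JEq x (r :: C) (op x :: x :: r :: C)
      (slR true C.length ++ (sh C.length (slR false 2) ++
        (blkR false C.length 2 ++ sh 2 (blkR false C.length 1))))
      (slR true C.length ++ (sh C.length (slR true 2) ++
        (blkR false C.length 2 ++ sh 2 (blkR false C.length 1)))) := by
    refine Relation.EqvGen.rel _ _ (JStep.exch hw ?_)
    refine Run.append (Y := op x :: x :: (C ++ [r])) ?_ (by exact Run.cast (hw'.shiftL [op x, x]) (by first | rfl | (simp; done) | (simp; omega) | (simp; ring_nf; done) | (simp; constructor <;> (first | rfl | omega | (ring_nf; done))) | (ring_nf; done)) (by first | rfl | (simp; done) | (simp; omega) | (simp; ring_nf; done) | (simp; constructor <;> (first | rfl | omega | (ring_nf; done))) | (ring_nf; done)) (by first | rfl | (simp; done) | (simp; omega) | (simp; ring_nf; done) | (simp; constructor <;> (first | rfl | omega | (ring_nf; done))) | (ring_nf; done)))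
    exact Run.cast ((run_blkR false C [op x, x]).right [r]) (by first | rfl | (simp; done) | (simp; omega) | (simp; ring_nf; done) | (simp; constructor <;> (first | rfl | omega | (ring_nf; done))) | (ring_nf; done)) (by first | rfl | (simp; done) | (simp; omega) | (simp; ring_nf; done) | (simp; constructor <;> (first | rfl | omega | (ring_nf; done))) | (ring_nf; done)) (by first | rfl | (simp; done) | (simp; omega) | (simp; ring_nf; done) | (simp; constructor <;> (first | rfl | omega | (ring_nf; done))) | (ring_nf; done))
  -- naturality of the strand `r` passing over everything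
  have a4 : Iso ((r :: C) ++ [op x, x]) (op x :: x :: r :: C)
      ((slR true (C ++ [op x, x]).length ++ blkR false C.length 2) ++
        sh 2 (blkR false C.length 1))
      ((sh 1 (blkR false C.length 2) ++ slR true ([op x, x] ++ C).length) ++
        sh 2 (blkR false C.length 1)) := by
    have := (natR true r (run_blkR false C [op x, x])).appR (v := sh 2 (blkR false C.length 1))
      (Y' := op x :: x :: r :: C) (by exact Run.cast (hw'.shiftL [op x, x]) (by first | rfl | (simp; done) | (simp; omega) | (simp; ring_nf; done) | (simp; constructor <;> (first | rfl | omega | (ring_nf; done))) | (ring_nf; done)) (by first | rfl | (simp; done) | (simp; omega) | (simp; ring_nf; done) | (simp; constructor <;> (first | rfl | omega | (ring_nf; done))) | (ring_nf; done)) (by first | rfl | (simp; done) | (simp; omega) | (simp; ring_nf; done) | (simp; constructor <;> (first | rfl | omega | (ring_nf; done))) | (ring_nf; done)))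
    exact Iso.adapt this (by first | rfl | (simp; done) | (simp; omega) | (simp; ring_nf; done) | (simp; constructor <;> (first | rfl | omega | (ring_nf; done))) | (ring_nf; done)) (by first | rfl | (simp; done) | (simp; omega) | (simp; ring_nf; done) | (simp; constructor <;> (first | rfl | omega | (ring_nf; done))) | (ring_nf; done)) (by first | rfl | (simp; done) | (simp; omega) | (simp; ring_nf; done) | (simp; constructor <;> (first | rfl | omega | (ring_nf; done))) | (ring_nf; done)) (by first | rfl | (simp; done) | (simp; omega) | (simp; ring_nf; done) | (simp; constructor <;> (first | rfl | omega | (ring_nf; done))) | (ring_nf; done))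
  have a5 : Iso ((r :: C) ++ [op x, x]) (op x :: x :: r :: C)
      ((sh 1 (blkR false C.length 2) ++ slR true 2) ++
        sh 2 (slR true C.length ++ blkR false C.length 1))
      ((sh 1 (blkR false C.length 2) ++ slR true 2) ++ []) := by
    have r1 : Run (sh 1 (blkR false C.length 2)) ((r :: C) ++ [op x, x])
        (r :: op x :: x :: C) := by
      exact Run.cast ((run_blkR false C [op x, x]).shiftL [r]) (by first | rfl | (simp; done) | (simp; omega) | (simp; ring_nf; done) | (simp; constructor <;> (first | rfl | omega | (ring_nf; done))) | (ring_nf; done)) (by first | rfl | (simp; done) | (simp; omega) | (simp; ring_nf; done) | (simp; constructor <;> (first | rfl | omega | (ring_nf; done))) | (ring_nf; done)) (by first | rfl | (simp; done) | (simp; omega) | (simp; ring_nf; done) | (simp; constructor <;> (first | rfl | omega | (ring_nf; done))) | (ring_nf; done))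
    have r2 : Run (slR true 2) (r :: op x :: x :: C) (op x :: x :: r :: C) := by
      exact Run.cast ((run_slR true r [op x, x]).right C) (by first | rfl | (simp; done) | (simp; omega) | (simp; ring_nf; done) | (simp; constructor <;> (first | rfl | omega | (ring_nf; done))) | (ring_nf; done)) (by first | rfl | (simp; done) | (simp; omega) | (simp; ring_nf; done) | (simp; constructor <;> (first | rfl | omega | (ring_nf; done))) | (ring_nf; done)) (by first | rfl | (simp; done) | (simp; omega) | (simp; ring_nf; done) | (simp; constructor <;> (first | rfl | omega | (ring_nf; done))) | (ring_nf; done))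
    have := (hinv.shiftL [op x, x]).appL (r1.append r2)
    exact Iso.adapt this (by first | rfl | (simp; done) | (simp; omega) | (simp; ring_nf; done) | (simp; constructor <;> (first | rfl | omega | (ring_nf; done))) | (ring_nf; done)) (by first | rfl | (simp; done) | (simp; omega) | (simp; ring_nf; done) | (simp; constructor <;> (first | rfl | omega | (ring_nf; done))) | (ring_nf; done)) (by first | rfl | (simp; done) | (simp; omega) | (simp; ring_nf; done) | (simp; constructor <;> (first | rfl | omega | (ring_nf; done))) | (ring_nf; done)) (by first | rfl | (simp; done) | (simp; omega) | (simp; ring_nf; done) | (simp; constructor <;> (first | rfl | omega | (ring_nf; done))) | (ring_nf; done))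
  refine JEq.trans (JEq.of_eq (by simp [blkR_succ])) (a1.jeq.trans (JEq.trans (JEq.of_eq (by simp))
    (a2.jeq.trans (JEq.trans (Iso.jeq ?_) (a3.trans (JEq.trans (JEq.of_eq ?_)
      (a4.jeq.trans (JEq.trans (JEq.of_eq ?_) (a5.jeq.trans (JEq.of_eq (by simp)))))))))))
  · -- blkR false (|C|+1) 2 on (C ++ [r]) ++ J
    have e : (blkR false (C.length + 1) 2 : Word α) = sh C.length (slR false 2) ++
        blkR false C.length 2 := by rw [blkR_add, blkR_one]
    rw [e]
    exact Iso.of_eq (by simp)
  · rw [List.length_append, slR_add]
    simp
  · rw [List.length_append, slR_add]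
    simp

/-! ### Moving the root of a finger -/

/-- the finger passes over a tangle on its left -/
theorem att_comm {x q : Pt α} (h : q.1 = x.1) {w : Word α} {C C' : List (Pt α)}
    (hw : Run w C C') :
    Iso (q :: (C ++ [op x, x])) (q :: C') (sh 1 w ++ att x q C'.length)
      (att x q C.length ++ sh 1 w) := by
  have e1 := ((natB1 false [op x, x] hw).shiftL [q]).appR (v := attG x q) (Y' := q :: C')
    (by exact Run.cast ((run_attG h).right C') (by first | rfl | (simp; done) | (simp; omega) | (simp; ring_nf; done) | (simp; constructor <;> (first | rfl | omega | (ring_nf; done))) | (ring_nf; done)) (by first | rfl | (simp; done) | (simp; omega) | (simp; ring_nf; done) | (simp; constructor <;> (first | rfl | omega | (ring_nf; done))) | (ring_nf; done)) (by first | rfl | (simp; done) | (simp; omega) | (simp; ring_nf; done) | (simp; constructor <;> (first | rfl | omega | (ring_nf; done))) | (ring_nf; done)))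
  have e2 := (interchange (run_attG h) hw).symm.appL (u := sh 1 (blkR false C.length 2))
    (X' := q :: (C ++ [op x, x])) (by exact Run.cast ((run_blkR false C [op x, x]).shiftL [q]) (by first | rfl | (simp; done) | (simp; omega) | (simp; ring_nf; done) | (simp; constructor <;> (first | rfl | omega | (ring_nf; done))) | (ring_nf; done)) (by first | rfl | (simp; done) | (simp; omega) | (simp; ring_nf; done) | (simp; constructor <;> (first | rfl | omega | (ring_nf; done))) | (ring_nf; done)) (by first | rfl | (simp; done) | (simp; omega) | (simp; ring_nf; done) | (simp; constructor <;> (first | rfl | omega | (ring_nf; done))) | (ring_nf; done)))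
  refine Iso.trans (Iso.of_eq ?_) ((e1.cast rfl rfl).trans (Iso.trans (Iso.of_eq ?_)
    ((e2.cast rfl rfl).trans (Iso.of_eq ?_))))
  all_goals simp [att]

/-- moving the root through a crossing, from left to right -/
theorem jeq_crs1 {x q : Pt α} (h : q.1 = x.1) (r : Pt α) (C : List (Pt α)) (s : Bool) :
    JEq x (q :: r :: C) (r :: q :: C) ([(0, Gen.crs s)] ++ sh 1 (att x q C.length))
      (att x q (C.length + 1) ++ [(0, Gen.crs s)]) := by
  -- RHS with the appropriate crossing
  have hr : Run (sh 2 (blkR false C.length 2)) ((q :: r :: C) ++ [op x, x])
      (q :: r :: op x :: x :: C) := by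
    exact Run.cast ((run_blkR false C [op x, x]).shiftL [q, r]) (by first | rfl | (simp; done) | (simp; omega) | (simp; ring_nf; done) | (simp; constructor <;> (first | rfl | omega | (ring_nf; done))) | (ring_nf; done)) (by first | rfl | (simp; done) | (simp; omega) | (simp; ring_nf; done) | (simp; constructor <;> (first | rfl | omega | (ring_nf; done))) | (ring_nf; done)) (by first | rfl | (simp; done) | (simp; omega) | (simp; ring_nf; done) | (simp; constructor <;> (first | rfl | omega | (ring_nf; done))) | (ring_nf; done))
  have a1 : JEq x (q :: r :: C) (r :: q :: C)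
      (sh 1 (sh 1 (blkR false C.length 2) ++ slR false 2) ++ (attG x q ++ [(0, Gen.crs s)]))
      (sh 1 (sh 1 (blkR false C.length 2) ++ slR (!s) 2) ++ (attG x q ++ [(0, Gen.crs s)])) := by
    have hv : Run (attG x q ++ [(0, Gen.crs s)]) (q :: op x :: x :: r :: C) (r :: q :: C) := by
      refine Run.append (Y := q :: r :: C) ?_ (run_crs s q r C)
      exact Run.cast ((run_attG h).right (r :: C)) (by first | rfl | (simp; done) | (simp; omega) | (simp; ring_nf; done) | (simp; constructor <;> (first | rfl | omega | (ring_nf; done))) | (ring_nf; done)) (by first | rfl | (simp; done) | (simp; omega) | (simp; ring_nf; done) | (simp; constructor <;> (first | rfl | omega | (ring_nf; done))) | (ring_nf; done)) (by first | rfl | (simp; done) | (simp; omega) | (simp; ring_nf; done) | (simp; constructor <;> (first | rfl | omega | (ring_nf; done))) | (ring_nf; done))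
    have := ((jeq_exch x r C).shiftL [q]).appR hv
    cases s with
    | false => exact JEq.adapt this (by first | rfl | (simp; done) | (simp; omega) | (simp; ring_nf; done) | (simp; constructor <;> (first | rfl | omega | (ring_nf; done))) | (ring_nf; done)) (by first | rfl | (simp; done) | (simp; omega) | (simp; ring_nf; done) | (simp; constructor <;> (first | rfl | omega | (ring_nf; done))) | (ring_nf; done)) (by first | rfl | (simp; done) | (simp; omega) | (simp; ring_nf; done) | (simp; constructor <;> (first | rfl | omega | (ring_nf; done))) | (ring_nf; done)) (by first | rfl | (simp; done) | (simp; omega) | (simp; ring_nf; done) | (simp; constructor <;> (first | rfl | omega | (ring_nf; done))) | (ring_nf; done))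
    | true => exact JEq.refl _
  -- isotopy
  have a2 : Iso ((q :: r :: C) ++ [op x, x]) (r :: q :: C)
      (sh 2 (blkR false C.length 2) ++ (sh 1 (slR (!s) 2) ++ (attG x q ++ [(0, Gen.crs s)])))
      (sh 2 (blkR false C.length 2) ++ (sh 1 (slR (!s) 2) ++
        (blkR s [q, op x, x].length 1 ++ sh 1 (attG x q)))) := by
    have := ((natL s r (run_attG h)).right C).appL (u := sh 2 (blkR false C.length 2) ++
      sh 1 (slR (!s) 2)) (X' := (q :: r :: C) ++ [op x, x]) (by
        refine hr.append ?_
        exact Run.cast (((run_slR (!s) r [op x, x]).shiftL [q]).right C) (by first | rfl | (simp; done) | (simp; omega) | (simp; ring_nf; done) | (simp; constructor <;> (first | rfl | omega | (ring_nf; done))) | (ring_nf; done)) (by first | rfl | (simp; done) | (simp; omega) | (simp; ring_nf; done) | (simp; constructor <;> (first | rfl | omega | (ring_nf; done))) | (ring_nf; done)) (by first | rfl | (simp; done) | (simp; omega) | (simp; ring_nf; done) | (simp; constructor <;> (first | rfl | omega | (ring_nf; done))) | (ring_nf; done)))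
    refine Iso.trans (Iso.of_eq ?_) ((this.cast rfl rfl).trans (Iso.of_eq ?_))
    · simp [blkR_one, slR_succ]
    · simp
  have a3 : Iso ((q :: r :: C) ++ [op x, x]) (r :: q :: C)
      (sh 2 (blkR false C.length 2) ++ (sh 1 (slR (!s) 2 ++ blkR s 2 1) ++
        ([(0, Gen.crs s)] ++ sh 1 (attG x q))))
      (sh 2 (blkR false C.length 2) ++ (sh 1 [] ++ ([(0, Gen.crs s)] ++ sh 1 (attG x q)))) := by
    have h1 : Iso [r, op x, x] [r, op x, x] (slR (!s) 2 ++ blkR s 2 1) [] := by
      simpa using slR_inv (!s) r [op x, x]
    have hv : Run ([(0, Gen.crs s)] ++ sh 1 (attG x q)) (q :: r :: op x :: x :: C)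
        (r :: q :: C) := by
      refine Run.append (run_crs s q r (op x :: x :: C)) ?_
      exact Run.cast ((run_attG h).shift [r] C) (by first | rfl | (simp; done) | (simp; omega) | (simp; ring_nf; done) | (simp; constructor <;> (first | rfl | omega | (ring_nf; done))) | (ring_nf; done)) (by first | rfl | (simp; done) | (simp; omega) | (simp; ring_nf; done) | (simp; constructor <;> (first | rfl | omega | (ring_nf; done))) | (ring_nf; done)) (by first | rfl | (simp; done) | (simp; omega) | (simp; ring_nf; done) | (simp; constructor <;> (first | rfl | omega | (ring_nf; done))) | (ring_nf; done))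
    exact ((h1.shift [q] C).congr hr hv)
  have a4 : Iso ((q :: r :: C) ++ [op x, x]) (r :: q :: C)
      (sh 2 (blkR false C.length 2) ++ ([(0, Gen.crs s)] ++ sh 1 (attG x q)))
      ([(0, Gen.crs s)] ++ (sh 2 (blkR false C.length 2) ++ sh 1 (attG x q))) := by
    have := (interchange (run_crs s q r []) (run_blkR false C [op x, x])).symm.appR
      (v := sh 1 (attG x q)) (Y' := r :: q :: C) (by exact Run.cast ((run_attG h).shift [r] C) (by first | rfl | (simp; done) | (simp; omega) | (simp; ring_nf; done) | (simp; constructor <;> (first | rfl | omega | (ring_nf; done))) | (ring_nf; done)) (by first | rfl | (simp; done) | (simp; omega) | (simp; ring_nf; done) | (simp; constructor <;> (first | rfl | omega | (ring_nf; done))) | (ring_nf; done)) (by first | rfl | (simp; done) | (simp; omega) | (simp; ring_nf; done) | (simp; constructor <;> (first | rfl | omega | (ring_nf; done))) | (ring_nf; done)))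
    exact Iso.adapt this (by first | rfl | (simp; done) | (simp; omega) | (simp; ring_nf; done) | (simp; constructor <;> (first | rfl | omega | (ring_nf; done))) | (ring_nf; done)) (by first | rfl | (simp; done) | (simp; omega) | (simp; ring_nf; done) | (simp; constructor <;> (first | rfl | omega | (ring_nf; done))) | (ring_nf; done)) (by first | rfl | (simp; done) | (simp; omega) | (simp; ring_nf; done) | (simp; constructor <;> (first | rfl | omega | (ring_nf; done))) | (ring_nf; done)) (by first | rfl | (simp; done) | (simp; omega) | (simp; ring_nf; done) | (simp; constructor <;> (first | rfl | omega | (ring_nf; done))) | (ring_nf; done))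
  refine JEq.trans (JEq.of_eq ?_) ((a4.symm.jeq).trans (JEq.trans (JEq.of_eq ?_)
    (a3.symm.jeq.trans (JEq.trans (JEq.of_eq ?_) (a2.symm.jeq.trans
      (JEq.trans (JEq.of_eq ?_) (a1.symm.trans (JEq.of_eq ?_))))))))
  · simp [att]
  · simp
  · simp [blkR_succ, slR_succ]
  · simp
  · simp [att_succ]

/-- moving the root through a crossing, from right to left -/
theorem jeq_crs2 {x q : Pt α} (h : q.1 = x.1) (r : Pt α) (C : List (Pt α)) (s : Bool) :
    JEq x (r :: q :: C) (q :: r :: C) ([(0, Gen.crs s)] ++ att x q (C.length + 1))
      (sh 1 (att x q C.length) ++ [(0, Gen.crs s)]) := by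
  have hv : Run (attG x q) (q :: op x :: x :: r :: C) (q :: r :: C) := by
    exact Run.cast ((run_attG h).right (r :: C)) (by first | rfl | (simp; done) | (simp; omega) | (simp; ring_nf; done) | (simp; constructor <;> (first | rfl | omega | (ring_nf; done))) | (ring_nf; done)) (by first | rfl | (simp; done) | (simp; omega) | (simp; ring_nf; done) | (simp; constructor <;> (first | rfl | omega | (ring_nf; done))) | (ring_nf; done)) (by first | rfl | (simp; done) | (simp; omega) | (simp; ring_nf; done) | (simp; constructor <;> (first | rfl | omega | (ring_nf; done))) | (ring_nf; done))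
  have a1 : JEq x (r :: q :: C) (q :: r :: C)
      ([(0, Gen.crs s)] ++ (sh 1 (sh 1 (blkR false C.length 2) ++ slR false 2) ++ attG x q))
      ([(0, Gen.crs s)] ++ (sh 1 (sh 1 (blkR false C.length 2) ++ slR s 2) ++ attG x q)) := by
    have := (((jeq_exch x r C).shiftL [q]).appR hv).appL (run_crs s r q C)
    cases s with
    | false => exact JEq.refl _
    | true => exact JEq.adapt this (by first | rfl | (simp; done) | (simp; omega) | (simp; ring_nf; done) | (simp; constructor <;> (first | rfl | omega | (ring_nf; done))) | (ring_nf; done)) (by first | rfl | (simp; done) | (simp; omega) | (simp; ring_nf; done) | (simp; constructor <;> (first | rfl | omega | (ring_nf; done))) | (ring_nf; done)) (by first | rfl | (simp; done) | (simp; omega) | (simp; ring_nf; done) | (simp; constructor <;> (first | rfl | omega | (ring_nf; done))) | (ring_nf; done)) (by first | rfl | (simp; done) | (simp; omega) | (simp; ring_nf; done) | (simp; constructor <;> (first | rfl | omega | (ring_nf; done))) | (ring_nf; done))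
  have a2 : Iso ((r :: q :: C) ++ [op x, x]) (q :: r :: C)
      (([(0, Gen.crs s)] ++ sh 2 (blkR false C.length 2)) ++ (sh 1 (slR s 2) ++ attG x q))
      ((sh 2 (blkR false C.length 2) ++ [(0, Gen.crs s)]) ++ (sh 1 (slR s 2) ++ attG x q)) := by
    have := (interchange (run_crs s r q []) (run_blkR false C [op x, x])).appR
      (v := sh 1 (slR s 2) ++ attG x q) (Y' := q :: r :: C) (by
        refine Run.append (Y := q :: op x :: x :: r :: C) ?_ hv
        exact Run.cast (((run_slR s r [op x, x]).shiftL [q]).right C) (by first | rfl | (simp; done) | (simp; omega) | (simp; ring_nf; done) | (simp; constructor <;> (first | rfl | omega | (ring_nf; done))) | (ring_nf; done)) (by first | rfl | (simp; done) | (simp; omega) | (simp; ring_nf; done) | (simp; constructor <;> (first | rfl | omega | (ring_nf; done))) | (ring_nf; done)) (by first | rfl | (simp; done) | (simp; omega) | (simp; ring_nf; done) | (simp; constructor <;> (first | rfl | omega | (ring_nf; done))) | (ring_nf; done)))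
    exact Iso.adapt this (by first | rfl | (simp; done) | (simp; omega) | (simp; ring_nf; done) | (simp; constructor <;> (first | rfl | omega | (ring_nf; done))) | (ring_nf; done)) (by first | rfl | (simp; done) | (simp; omega) | (simp; ring_nf; done) | (simp; constructor <;> (first | rfl | omega | (ring_nf; done))) | (ring_nf; done)) (by first | rfl | (simp; done) | (simp; omega) | (simp; ring_nf; done) | (simp; constructor <;> (first | rfl | omega | (ring_nf; done))) | (ring_nf; done)) (by first | rfl | (simp; done) | (simp; omega) | (simp; ring_nf; done) | (simp; constructor <;> (first | rfl | omega | (ring_nf; done))) | (ring_nf; done))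
  have a3 : Iso ((r :: q :: C) ++ [op x, x]) (q :: r :: C)
      (sh 2 (blkR false C.length 2) ++ (slR s [q, op x, x].length ++ attG x q))
      (sh 2 (blkR false C.length 2) ++ (sh 1 (attG x q) ++ slR s [q].length)) := by
    have := ((natR s r (run_attG h)).right C).appL (u := sh 2 (blkR false C.length 2))
      (X' := (r :: q :: C) ++ [op x, x]) (by
        exact Run.cast ((run_blkR false C [op x, x]).shiftL [r, q]) (by first | rfl | (simp; done) | (simp; omega) | (simp; ring_nf; done) | (simp; constructor <;> (first | rfl | omega | (ring_nf; done))) | (ring_nf; done)) (by first | rfl | (simp; done) | (simp; omega) | (simp; ring_nf; done) | (simp; constructor <;> (first | rfl | omega | (ring_nf; done))) | (ring_nf; done)) (by first | rfl | (simp; done) | (simp; omega) | (simp; ring_nf; done) | (simp; constructor <;> (first | rfl | omega | (ring_nf; done))) | (ring_nf; done)))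
    exact Iso.adapt this (by first | rfl | (simp; done) | (simp; omega) | (simp; ring_nf; done) | (simp; constructor <;> (first | rfl | omega | (ring_nf; done))) | (ring_nf; done)) (by first | rfl | (simp; done) | (simp; omega) | (simp; ring_nf; done) | (simp; constructor <;> (first | rfl | omega | (ring_nf; done))) | (ring_nf; done)) (by first | rfl | (simp; done) | (simp; omega) | (simp; ring_nf; done) | (simp; constructor <;> (first | rfl | omega | (ring_nf; done))) | (ring_nf; done)) (by first | rfl | (simp; done) | (simp; omega) | (simp; ring_nf; done) | (simp; constructor <;> (first | rfl | omega | (ring_nf; done))) | (ring_nf; done))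
  refine JEq.trans (JEq.of_eq ?_) (a1.trans (JEq.trans (JEq.of_eq ?_) (a2.jeq.trans
    (JEq.trans (JEq.of_eq ?_) (a3.jeq.trans (JEq.of_eq ?_))))))
  · simp [att_succ]
  · simp
  · simp [slR_succ]
  · simp [att, slR_succ]

theorem cup_local1 {x y : Pt α} (h : y = op x) (h' : x = op y) (s : Bool) :
    Iso [y, x] [x, y]
      [(0, Gen.cup x), (1, Gen.crs s), (2, Gen.crs s), (0, Gen.cap x)] [(0, Gen.crs s)] := by
  refine (Move.comm (acts_cap h) (Gen.Acts.crs s y x) []).iso.symm.head [] []
    [(0, Gen.cup x), (1, Gen.crs s)] [] rfl (by (repeat' (first | exact Run.nil _ | refine run_cons' _ _ (Gen.Acts.crs _ _ _) rfl rfl ?_ | refine run_cons' _ _ (acts_cup (by first | assumption | rfl)) rfl rfl ?_ | refine run_cons' _ _ (acts_cap (by first | assumption | rfl)) rfl rfl ?_))) (by (repeat' (first | exact Run.nil _ | refine run_cons' _ _ (Gen.Acts.crs _ _ _) rfl rfl ?_ | refine run_cons' _ _ (acts_cup (by first | assumption | rfl)) rfl rfl ?_ | refine run_cons' _ _ (acts_cap (by first | assumption | rfl)) rfl rfl ?_))) ?_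
  refine (mv_slideCup h y s).head [] [x] [] [(0, Gen.cap x), (0, Gen.crs s)] rfl
    (by (repeat' (first | exact Run.nil _ | refine run_cons' _ _ (Gen.Acts.crs _ _ _) rfl rfl ?_ | refine run_cons' _ _ (acts_cup (by first | assumption | rfl)) rfl rfl ?_ | refine run_cons' _ _ (acts_cap (by first | assumption | rfl)) rfl rfl ?_))) (by (repeat' (first | exact Run.nil _ | refine run_cons' _ _ (Gen.Acts.crs _ _ _) rfl rfl ?_ | refine run_cons' _ _ (acts_cup (by first | assumption | rfl)) rfl rfl ?_ | refine run_cons' _ _ (acts_cap (by first | assumption | rfl)) rfl rfl ?_))) ?_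
  refine (mv_r1cap h' (!s)).head [] [y, x] [(1, Gen.cup x)] [(0, Gen.crs s)] rfl
    (by (repeat' (first | exact Run.nil _ | refine run_cons' _ _ (Gen.Acts.crs _ _ _) rfl rfl ?_ | refine run_cons' _ _ (acts_cup (by first | assumption | rfl)) rfl rfl ?_ | refine run_cons' _ _ (acts_cap (by first | assumption | rfl)) rfl rfl ?_))) (by (repeat' (first | exact Run.nil _ | refine run_cons' _ _ (Gen.Acts.crs _ _ _) rfl rfl ?_ | refine run_cons' _ _ (acts_cup (by first | assumption | rfl)) rfl rfl ?_ | refine run_cons' _ _ (acts_cap (by first | assumption | rfl)) rfl rfl ?_))) ?_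
  refine (mv_zig h').head [] [x] [] [(0, Gen.crs s)] rfl (by (repeat' (first | exact Run.nil _ | refine run_cons' _ _ (Gen.Acts.crs _ _ _) rfl rfl ?_ | refine run_cons' _ _ (acts_cup (by first | assumption | rfl)) rfl rfl ?_ | refine run_cons' _ _ (acts_cap (by first | assumption | rfl)) rfl rfl ?_))) (by (repeat' (first | exact Run.nil _ | refine run_cons' _ _ (Gen.Acts.crs _ _ _) rfl rfl ?_ | refine run_cons' _ _ (acts_cup (by first | assumption | rfl)) rfl rfl ?_ | refine run_cons' _ _ (acts_cap (by first | assumption | rfl)) rfl rfl ?_))) ?_
  exact Iso.refl _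

theorem cup_local2 {x y : Pt α} (h : y = op x) (h' : x = op y) (s : Bool) :
    Iso [y, x] [x, y]
      [(0, Gen.cup x), (1, Gen.crs s), (2, Gen.crs s), (2, Gen.cap x)] [(0, Gen.crs !s)] := by
  refine (mv_r1cap h' s).head [x, y] [] [(0, Gen.cup x), (1, Gen.crs s)] [] rfl
    (by (repeat' (first | exact Run.nil _ | refine run_cons' _ _ (Gen.Acts.crs _ _ _) rfl rfl ?_ | refine run_cons' _ _ (acts_cup (by first | assumption | rfl)) rfl rfl ?_ | refine run_cons' _ _ (acts_cap (by first | assumption | rfl)) rfl rfl ?_))) (by (repeat' (first | exact Run.nil _ | refine run_cons' _ _ (Gen.Acts.crs _ _ _) rfl rfl ?_ | refine run_cons' _ _ (acts_cup (by first | assumption | rfl)) rfl rfl ?_ | refine run_cons' _ _ (acts_cap (by first | assumption | rfl)) rfl rfl ?_))) ?_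
  refine (mv_slideCup h y s).head [] [x] [] [(2, Gen.cap y)] rfl
    (by (repeat' (first | exact Run.nil _ | refine run_cons' _ _ (Gen.Acts.crs _ _ _) rfl rfl ?_ | refine run_cons' _ _ (acts_cup (by first | assumption | rfl)) rfl rfl ?_ | refine run_cons' _ _ (acts_cap (by first | assumption | rfl)) rfl rfl ?_))) (by (repeat' (first | exact Run.nil _ | refine run_cons' _ _ (Gen.Acts.crs _ _ _) rfl rfl ?_ | refine run_cons' _ _ (acts_cup (by first | assumption | rfl)) rfl rfl ?_ | refine run_cons' _ _ (acts_cap (by first | assumption | rfl)) rfl rfl ?_))) ?_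
  refine (Move.comm (Gen.Acts.crs (!s) y x) (acts_cap h') []).iso.head [] []
    [(1, Gen.cup x)] [] rfl (by (repeat' (first | exact Run.nil _ | refine run_cons' _ _ (Gen.Acts.crs _ _ _) rfl rfl ?_ | refine run_cons' _ _ (acts_cup (by first | assumption | rfl)) rfl rfl ?_ | refine run_cons' _ _ (acts_cap (by first | assumption | rfl)) rfl rfl ?_))) (by (repeat' (first | exact Run.nil _ | refine run_cons' _ _ (Gen.Acts.crs _ _ _) rfl rfl ?_ | refine run_cons' _ _ (acts_cup (by first | assumption | rfl)) rfl rfl ?_ | refine run_cons' _ _ (acts_cap (by first | assumption | rfl)) rfl rfl ?_))) ?_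
  refine (mv_zag h).head [y] [] [] [(0, Gen.crs !s)] rfl (by (repeat' (first | exact Run.nil _ | refine run_cons' _ _ (Gen.Acts.crs _ _ _) rfl rfl ?_ | refine run_cons' _ _ (acts_cup (by first | assumption | rfl)) rfl rfl ?_ | refine run_cons' _ _ (acts_cap (by first | assumption | rfl)) rfl rfl ?_))) (by (repeat' (first | exact Run.nil _ | refine run_cons' _ _ (Gen.Acts.crs _ _ _) rfl rfl ?_ | refine run_cons' _ _ (acts_cup (by first | assumption | rfl)) rfl rfl ?_ | refine run_cons' _ _ (acts_cap (by first | assumption | rfl)) rfl rfl ?_))) ?_
  exact Iso.refl _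

theorem cap_local {x y : Pt α} (h : y = op x) (h' : x = op y) :
    Iso [y, x, y, x] []
      [(1, Gen.crs false), (2, Gen.crs false), (0, Gen.crs true), (1, Gen.crs true),
        (1, Gen.cap x), (0, Gen.cap y)] [(1, Gen.cap x), (0, Gen.cap y)] := by
  refine (mv_r1cap h' true).head [y] [x] [(1, Gen.crs false), (2, Gen.crs false),
    (0, Gen.crs true)] [(0, Gen.cap y)] rfl (by (repeat' (first | exact Run.nil _ | refine run_cons' _ _ (Gen.Acts.crs _ _ _) rfl rfl ?_ | refine run_cons' _ _ (acts_cup (by first | assumption | rfl)) rfl rfl ?_ | refine run_cons' _ _ (acts_cap (by first | assumption | rfl)) rfl rfl ?_))) (by (repeat' (first | exact Run.nil _ | refine run_cons' _ _ (Gen.Acts.crs _ _ _) rfl rfl ?_ | refine run_cons' _ _ (acts_cup (by first | assumption | rfl)) rfl rfl ?_ | refine run_cons' _ _ (acts_cap (by first | assumption | rfl)) rfl rfl ?_))) ?_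
  refine (mv_slideCap h' y false).symm.head [] [x] [(1, Gen.crs false), (2, Gen.crs false)]
    [(0, Gen.cap y)] rfl (by (repeat' (first | exact Run.nil _ | refine run_cons' _ _ (Gen.Acts.crs _ _ _) rfl rfl ?_ | refine run_cons' _ _ (acts_cup (by first | assumption | rfl)) rfl rfl ?_ | refine run_cons' _ _ (acts_cap (by first | assumption | rfl)) rfl rfl ?_))) (by (repeat' (first | exact Run.nil _ | refine run_cons' _ _ (Gen.Acts.crs _ _ _) rfl rfl ?_ | refine run_cons' _ _ (acts_cup (by first | assumption | rfl)) rfl rfl ?_ | refine run_cons' _ _ (acts_cap (by first | assumption | rfl)) rfl rfl ?_))) ?_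
  refine (Move.r3 x y x false).iso.head [y] [] [] [(0, Gen.cap y), (0, Gen.cap y)] rfl
    (by (repeat' (first | exact Run.nil _ | refine run_cons' _ _ (Gen.Acts.crs _ _ _) rfl rfl ?_ | refine run_cons' _ _ (acts_cup (by first | assumption | rfl)) rfl rfl ?_ | refine run_cons' _ _ (acts_cap (by first | assumption | rfl)) rfl rfl ?_))) (by (repeat' (first | exact Run.nil _ | refine run_cons' _ _ (Gen.Acts.crs _ _ _) rfl rfl ?_ | refine run_cons' _ _ (acts_cup (by first | assumption | rfl)) rfl rfl ?_ | refine run_cons' _ _ (acts_cap (by first | assumption | rfl)) rfl rfl ?_))) ?_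
  refine (Move.comm (acts_cap h') (acts_cap h') []).iso.head [] []
    [(2, Gen.crs false), (1, Gen.crs false), (2, Gen.crs false)] [] rfl (by (repeat' (first | exact Run.nil _ | refine run_cons' _ _ (Gen.Acts.crs _ _ _) rfl rfl ?_ | refine run_cons' _ _ (acts_cup (by first | assumption | rfl)) rfl rfl ?_ | refine run_cons' _ _ (acts_cap (by first | assumption | rfl)) rfl rfl ?_))) (by (repeat' (first | exact Run.nil _ | refine run_cons' _ _ (Gen.Acts.crs _ _ _) rfl rfl ?_ | refine run_cons' _ _ (acts_cup (by first | assumption | rfl)) rfl rfl ?_ | refine run_cons' _ _ (acts_cap (by first | assumption | rfl)) rfl rfl ?_))) ?_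
  refine (mv_r1cap h false).head [y, x] [] [(2, Gen.crs false), (1, Gen.crs false)]
    [(0, Gen.cap y)] rfl (by (repeat' (first | exact Run.nil _ | refine run_cons' _ _ (Gen.Acts.crs _ _ _) rfl rfl ?_ | refine run_cons' _ _ (acts_cup (by first | assumption | rfl)) rfl rfl ?_ | refine run_cons' _ _ (acts_cap (by first | assumption | rfl)) rfl rfl ?_))) (by (repeat' (first | exact Run.nil _ | refine run_cons' _ _ (Gen.Acts.crs _ _ _) rfl rfl ?_ | refine run_cons' _ _ (acts_cup (by first | assumption | rfl)) rfl rfl ?_ | refine run_cons' _ _ (acts_cap (by first | assumption | rfl)) rfl rfl ?_))) ?_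
  refine (mv_slideCap h x true).symm.head [y] [] [(2, Gen.crs false)]
    [(0, Gen.cap y)] rfl (by (repeat' (first | exact Run.nil _ | refine run_cons' _ _ (Gen.Acts.crs _ _ _) rfl rfl ?_ | refine run_cons' _ _ (acts_cup (by first | assumption | rfl)) rfl rfl ?_ | refine run_cons' _ _ (acts_cap (by first | assumption | rfl)) rfl rfl ?_))) (by (repeat' (first | exact Run.nil _ | refine run_cons' _ _ (Gen.Acts.crs _ _ _) rfl rfl ?_ | refine run_cons' _ _ (acts_cup (by first | assumption | rfl)) rfl rfl ?_ | refine run_cons' _ _ (acts_cap (by first | assumption | rfl)) rfl rfl ?_))) ?_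
  refine (r2_iso y x false).head [y, x] [] []
    [(1, Gen.cap x), (0, Gen.cap y)] rfl (by (repeat' (first | exact Run.nil _ | refine run_cons' _ _ (Gen.Acts.crs _ _ _) rfl rfl ?_ | refine run_cons' _ _ (acts_cup (by first | assumption | rfl)) rfl rfl ?_ | refine run_cons' _ _ (acts_cap (by first | assumption | rfl)) rfl rfl ?_))) (by (repeat' (first | exact Run.nil _ | refine run_cons' _ _ (Gen.Acts.crs _ _ _) rfl rfl ?_ | refine run_cons' _ _ (acts_cup (by first | assumption | rfl)) rfl rfl ?_ | refine run_cons' _ _ (acts_cap (by first | assumption | rfl)) rfl rfl ?_))) ?_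
  exact Iso.refl _

theorem op_ne (a : Pt α) : (op a).2 ≠ a.2 := by
  obtain ⟨l, o⟩ := a; cases o <;> simp [op]

theorem ne_op (a : Pt α) : a.2 ≠ (op a).2 := (op_ne a).symm

/-- moving the root from one end of a minimum to the other -/
theorem jeq_cup {x a : Pt α} (h : a.1 = x.1) (C : List (Pt α)) :
    JEq x C (a :: op a :: C) ([(0, Gen.cup a)] ++ att x a (C.length + 1))
      ([(0, Gen.cup a)] ++ sh 1 (att x (op a) C.length)) := by
  have hcup : Run [(0, Gen.cup a)] C (a :: op a :: C) := run_cup a [] C
  have hr : Run (blkR false C.length 2) (C ++ [op x, x]) (op x :: x :: C) := by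
    exact Run.cast (run_blkR false C [op x, x]) (by first | rfl | (simp; done) | (simp; omega) | (simp; ring_nf; done) | (simp; constructor <;> (first | rfl | omega | (ring_nf; done))) | (ring_nf; done)) (by first | rfl | (simp; done) | (simp; omega) | (simp; ring_nf; done) | (simp; constructor <;> (first | rfl | omega | (ring_nf; done))) | (ring_nf; done)) (by first | rfl | (simp; done) | (simp; omega) | (simp; ring_nf; done) | (simp; constructor <;> (first | rfl | omega | (ring_nf; done))) | (ring_nf; done))
  rcases eq_or_op h with ⟨h1, rfl⟩ | ⟨h1, rfl⟩
  · -- `a = x`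
    have e1 : JEq a C (a :: op a :: C)
        ([(0, Gen.cup a)] ++ (sh 1 (sh 1 (blkR false C.length 2) ++ slR false 2) ++
          [(0, Gen.cap a)]))
        ([(0, Gen.cup a)] ++ (sh 1 (sh 1 (blkR false C.length 2) ++ slR true 2) ++
          [(0, Gen.cap a)])) := by
      have := (((jeq_exch a (op a) C).shiftL [a]).appR (v := [(0, Gen.cap a)])
        (Z'' := a :: op a :: C) (by exact Run.cast (run_cap a [] (a :: op a :: C)) (by first | rfl | (simp; done) | (simp; omega) | (simp; ring_nf; done) | (simp; constructor <;> (first | rfl | omega | (ring_nf; done))) | (ring_nf; done)) (by first | rfl | (simp; done) | (simp; omega) | (simp; ring_nf; done) | (simp; constructor <;> (first | rfl | omega | (ring_nf; done))) | (ring_nf; done)) (by first | rfl | (simp; done) | (simp; omega) | (simp; ring_nf; done) | (simp; constructor <;> (first | rfl | omega | (ring_nf; done))) | (ring_nf; done)))).appL hcup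
      exact JEq.adapt this (by first | rfl | (simp; done) | (simp; omega) | (simp; ring_nf; done) | (simp; constructor <;> (first | rfl | omega | (ring_nf; done))) | (ring_nf; done)) (by first | rfl | (simp; done) | (simp; omega) | (simp; ring_nf; done) | (simp; constructor <;> (first | rfl | omega | (ring_nf; done))) | (ring_nf; done)) (by first | rfl | (simp; done) | (simp; omega) | (simp; ring_nf; done) | (simp; constructor <;> (first | rfl | omega | (ring_nf; done))) | (ring_nf; done)) (by first | rfl | (simp; done) | (simp; omega) | (simp; ring_nf; done) | (simp; constructor <;> (first | rfl | omega | (ring_nf; done))) | (ring_nf; done))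
    have e2 : Iso (C ++ [op a, a]) (a :: op a :: C)
        ((sh 0 [(0, Gen.cup a)] ++ sh 2 (blkR false C.length 2)) ++
          [(1, Gen.crs true), (2, Gen.crs true), (0, Gen.cap a)])
        ((blkR false C.length 2 ++ sh 0 [(0, Gen.cup a)]) ++
          [(1, Gen.crs true), (2, Gen.crs true), (0, Gen.cap a)]) := by
      have := (interchange (run_cup a [] []) hr).appR
        (v := [(1, Gen.crs true), (2, Gen.crs true), (0, Gen.cap a)])
        (Y' := a :: op a :: C) (by
          show Run _ (a :: op a :: op a :: a :: C) _
          (repeat' (first | exact Run.nil _ | refine run_cons' _ _ (Gen.Acts.crs _ _ _) rfl rfl ?_ | refine run_cons' _ _ (acts_cup (by first | assumption | rfl)) rfl rfl ?_ | refine run_cons' _ _ (acts_cap (by first | assumption | rfl)) rfl rfl ?_)))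
      exact Iso.adapt this (by first | rfl | (simp; done) | (simp; omega) | (simp; ring_nf; done) | (simp; constructor <;> (first | rfl | omega | (ring_nf; done))) | (ring_nf; done)) (by first | rfl | (simp; done) | (simp; omega) | (simp; ring_nf; done) | (simp; constructor <;> (first | rfl | omega | (ring_nf; done))) | (ring_nf; done)) (by first | rfl | (simp; done) | (simp; omega) | (simp; ring_nf; done) | (simp; constructor <;> (first | rfl | omega | (ring_nf; done))) | (ring_nf; done)) (by first | rfl | (simp; done) | (simp; omega) | (simp; ring_nf; done) | (simp; constructor <;> (first | rfl | omega | (ring_nf; done))) | (ring_nf; done))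
    have e3 : Iso (C ++ [op a, a]) (a :: op a :: C)
        (blkR false C.length 2 ++ [(0, Gen.cup a), (1, Gen.crs true), (2, Gen.crs true),
          (0, Gen.cap a)])
        (blkR false C.length 2 ++ [(0, Gen.crs true)]) := by
      have := ((cup_local1 (x := a) (y := op a) rfl (by simp) true).right C).appL
        (u := blkR false C.length 2) (X' := C ++ [op a, a]) (by exact Run.cast hr (by first | rfl | (simp; done) | (simp; omega) | (simp; ring_nf; done) | (simp; constructor <;> (first | rfl | omega | (ring_nf; done))) | (ring_nf; done)) (by first | rfl | (simp; done) | (simp; omega) | (simp; ring_nf; done) | (simp; constructor <;> (first | rfl | omega | (ring_nf; done))) | (ring_nf; done)) (by first | rfl | (simp; done) | (simp; omega) | (simp; ring_nf; done) | (simp; constructor <;> (first | rfl | omega | (ring_nf; done))) | (ring_nf; done)))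
      exact Iso.adapt this (by first | rfl | (simp; done) | (simp; omega) | (simp; ring_nf; done) | (simp; constructor <;> (first | rfl | omega | (ring_nf; done))) | (ring_nf; done)) (by first | rfl | (simp; done) | (simp; omega) | (simp; ring_nf; done) | (simp; constructor <;> (first | rfl | omega | (ring_nf; done))) | (ring_nf; done)) (by first | rfl | (simp; done) | (simp; omega) | (simp; ring_nf; done) | (simp; constructor <;> (first | rfl | omega | (ring_nf; done))) | (ring_nf; done)) (by first | rfl | (simp; done) | (simp; omega) | (simp; ring_nf; done) | (simp; constructor <;> (first | rfl | omega | (ring_nf; done))) | (ring_nf; done))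
    have e4 : Iso (C ++ [op a, a]) (a :: op a :: C)
        (blkR false C.length 2 ++ [(0, Gen.cup a), (1, Gen.crs false), (2, Gen.crs false),
          (2, Gen.cap a)])
        (blkR false C.length 2 ++ [(0, Gen.crs true)]) := by
      have := ((cup_local2 (x := a) (y := op a) rfl (by simp) false).right C).appL
        (u := blkR false C.length 2) (X' := C ++ [op a, a]) (by exact Run.cast hr (by first | rfl | (simp; done) | (simp; omega) | (simp; ring_nf; done) | (simp; constructor <;> (first | rfl | omega | (ring_nf; done))) | (ring_nf; done)) (by first | rfl | (simp; done) | (simp; omega) | (simp; ring_nf; done) | (simp; constructor <;> (first | rfl | omega | (ring_nf; done))) | (ring_nf; done)) (by first | rfl | (simp; done) | (simp; omega) | (simp; ring_nf; done) | (simp; constructor <;> (first | rfl | omega | (ring_nf; done))) | (ring_nf; done)))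
      exact Iso.adapt this (by first | rfl | (simp; done) | (simp; omega) | (simp; ring_nf; done) | (simp; constructor <;> (first | rfl | omega | (ring_nf; done))) | (ring_nf; done)) (by first | rfl | (simp; done) | (simp; omega) | (simp; ring_nf; done) | (simp; constructor <;> (first | rfl | omega | (ring_nf; done))) | (ring_nf; done)) (by first | rfl | (simp; done) | (simp; omega) | (simp; ring_nf; done) | (simp; constructor <;> (first | rfl | omega | (ring_nf; done))) | (ring_nf; done)) (by first | rfl | (simp; done) | (simp; omega) | (simp; ring_nf; done) | (simp; constructor <;> (first | rfl | omega | (ring_nf; done))) | (ring_nf; done))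
    have e5 : Iso (C ++ [op a, a]) (a :: op a :: C)
        ((sh 0 [(0, Gen.cup a)] ++ sh 2 (blkR false C.length 2)) ++
          [(1, Gen.crs false), (2, Gen.crs false), (2, Gen.cap a)])
        ((blkR false C.length 2 ++ sh 0 [(0, Gen.cup a)]) ++
          [(1, Gen.crs false), (2, Gen.crs false), (2, Gen.cap a)]) := by
      have := (interchange (run_cup a [] []) hr).appR
        (v := [(1, Gen.crs false), (2, Gen.crs false), (2, Gen.cap a)])
        (Y' := a :: op a :: C) (by
          show Run _ (a :: op a :: op a :: a :: C) _
          have h' : a = op (op a) := by simp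
          (repeat' (first | exact Run.nil _ | refine run_cons' _ _ (Gen.Acts.crs _ _ _) rfl rfl ?_ | refine run_cons' _ _ (acts_cup (by first | assumption | rfl)) rfl rfl ?_ | refine run_cons' _ _ (acts_cap (by first | assumption | rfl)) rfl rfl ?_)))
      exact Iso.adapt this (by first | rfl | (simp; done) | (simp; omega) | (simp; ring_nf; done) | (simp; constructor <;> (first | rfl | omega | (ring_nf; done))) | (ring_nf; done)) (by first | rfl | (simp; done) | (simp; omega) | (simp; ring_nf; done) | (simp; constructor <;> (first | rfl | omega | (ring_nf; done))) | (ring_nf; done)) (by first | rfl | (simp; done) | (simp; omega) | (simp; ring_nf; done) | (simp; constructor <;> (first | rfl | omega | (ring_nf; done))) | (ring_nf; done)) (by first | rfl | (simp; done) | (simp; omega) | (simp; ring_nf; done) | (simp; constructor <;> (first | rfl | omega | (ring_nf; done))) | (ring_nf; done))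
    refine JEq.trans (JEq.of_eq ?_) (e1.trans (JEq.trans (JEq.of_eq ?_) (e2.jeq.trans
      (JEq.trans (JEq.of_eq ?_) (e3.jeq.trans (e4.symm.jeq.trans (JEq.trans (JEq.of_eq ?_)
      (e5.symm.jeq.trans (JEq.of_eq ?_)))))))))
    · simp [att_succ, attG]
    · simp [slR_succ]
    · simp
    · simp
    · simp [att, attG, op_ne, slR_succ]
  · -- `a = op x`
    rw [op_op]
    have e1 : Iso (C ++ [op x, x]) (op x :: x :: C)
        ((sh 0 [(0, Gen.cup (op x))] ++ sh 2 (blkR false C.length 2)) ++
          (blkR false 2 2 ++ [(1, Gen.cap x)]))
        ((blkR false C.length 2 ++ sh 0 [(0, Gen.cup (op x))]) ++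
          (blkR false 2 2 ++ [(1, Gen.cap x)])) := by
      have h1 : Run (blkR false 2 2 ++ [(1, Gen.cap x)]) (op x :: x :: op x :: x :: C)
          (op x :: x :: C) := by
        refine Run.append (Y := op x :: x :: op x :: x :: C) ?_ ?_
        · exact Run.cast ((run_blkR false [op x, x] [op x, x]).right C) (by first | rfl | (simp; done) | (simp; omega) | (simp; ring_nf; done) | (simp; constructor <;> (first | rfl | omega | (ring_nf; done))) | (ring_nf; done)) (by first | rfl | (simp; done) | (simp; omega) | (simp; ring_nf; done) | (simp; constructor <;> (first | rfl | omega | (ring_nf; done))) | (ring_nf; done)) (by first | rfl | (simp; done) | (simp; omega) | (simp; ring_nf; done) | (simp; constructor <;> (first | rfl | omega | (ring_nf; done))) | (ring_nf; done))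
        · exact Run.cast (run_cap x [op x] (x :: C)) (by first | rfl | (simp; done) | (simp; omega) | (simp; ring_nf; done) | (simp; constructor <;> (first | rfl | omega | (ring_nf; done))) | (ring_nf; done)) (by first | rfl | (simp; done) | (simp; omega) | (simp; ring_nf; done) | (simp; constructor <;> (first | rfl | omega | (ring_nf; done))) | (ring_nf; done)) (by first | rfl | (simp; done) | (simp; omega) | (simp; ring_nf; done) | (simp; constructor <;> (first | rfl | omega | (ring_nf; done))) | (ring_nf; done))
      have := (interchange (run_cup (op x) [] []) hr).appR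
        (v := blkR false 2 2 ++ [(1, Gen.cap x)]) (Y' := op x :: x :: C) (by exact Run.cast h1 (by first | rfl | (simp; done) | (simp; omega) | (simp; ring_nf; done) | (simp; constructor <;> (first | rfl | omega | (ring_nf; done))) | (ring_nf; done)) (by first | rfl | (simp; done) | (simp; omega) | (simp; ring_nf; done) | (simp; constructor <;> (first | rfl | omega | (ring_nf; done))) | (ring_nf; done)) (by first | rfl | (simp; done) | (simp; omega) | (simp; ring_nf; done) | (simp; constructor <;> (first | rfl | omega | (ring_nf; done))) | (ring_nf; done)))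
      exact Iso.adapt this (by first | rfl | (simp; done) | (simp; omega) | (simp; ring_nf; done) | (simp; constructor <;> (first | rfl | omega | (ring_nf; done))) | (ring_nf; done)) (by first | rfl | (simp; done) | (simp; omega) | (simp; ring_nf; done) | (simp; constructor <;> (first | rfl | omega | (ring_nf; done))) | (ring_nf; done)) (by first | rfl | (simp; done) | (simp; omega) | (simp; ring_nf; done) | (simp; constructor <;> (first | rfl | omega | (ring_nf; done))) | (ring_nf; done)) (by first | rfl | (simp; done) | (simp; omega) | (simp; ring_nf; done) | (simp; constructor <;> (first | rfl | omega | (ring_nf; done))) | (ring_nf; done))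
    have e2 : Iso (C ++ [op x, x]) (op x :: x :: C)
        (blkR false C.length 2 ++ (([(0, Gen.cup (op x))] ++ blkR false [op x, x].length 2) ++
          [(1, Gen.cap x)]))
        (blkR false C.length 2 ++ ((blkR false 0 2 ++ sh 2 [(0, Gen.cup (op x))]) ++
          [(1, Gen.cap x)])) := by
      have h0 : Run [(0, Gen.cup (op x))] [] [op x, x] := by exact Run.cast (run_cup (op x) [] []) (by first | rfl | (simp; done) | (simp; omega) | (simp; ring_nf; done) | (simp; constructor <;> (first | rfl | omega | (ring_nf; done))) | (ring_nf; done)) (by first | rfl | (simp; done) | (simp; omega) | (simp; ring_nf; done) | (simp; constructor <;> (first | rfl | omega | (ring_nf; done))) | (ring_nf; done)) (by first | rfl | (simp; done) | (simp; omega) | (simp; ring_nf; done) | (simp; constructor <;> (first | rfl | omega | (ring_nf; done))) | (ring_nf; done))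
      have := ((natB1 false [op x, x] h0).right C).congr
        (u := blkR false C.length 2) (v := [(1, Gen.cap x)]) (X' := C ++ [op x, x])
        (Y' := op x :: x :: C) (by exact Run.cast hr (by first | rfl | (simp; done) | (simp; omega) | (simp; ring_nf; done) | (simp; constructor <;> (first | rfl | omega | (ring_nf; done))) | (ring_nf; done)) (by first | rfl | (simp; done) | (simp; omega) | (simp; ring_nf; done) | (simp; constructor <;> (first | rfl | omega | (ring_nf; done))) | (ring_nf; done)) (by first | rfl | (simp; done) | (simp; omega) | (simp; ring_nf; done) | (simp; constructor <;> (first | rfl | omega | (ring_nf; done))) | (ring_nf; done)))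
        (by exact Run.cast (run_cap x [op x] (x :: C)) (by first | rfl | (simp; done) | (simp; omega) | (simp; ring_nf; done) | (simp; constructor <;> (first | rfl | omega | (ring_nf; done))) | (ring_nf; done)) (by first | rfl | (simp; done) | (simp; omega) | (simp; ring_nf; done) | (simp; constructor <;> (first | rfl | omega | (ring_nf; done))) | (ring_nf; done)) (by first | rfl | (simp; done) | (simp; omega) | (simp; ring_nf; done) | (simp; constructor <;> (first | rfl | omega | (ring_nf; done))) | (ring_nf; done)))
      exact Iso.adapt this (by first | rfl | (simp; done) | (simp; omega) | (simp; ring_nf; done) | (simp; constructor <;> (first | rfl | omega | (ring_nf; done))) | (ring_nf; done)) (by first | rfl | (simp; done) | (simp; omega) | (simp; ring_nf; done) | (simp; constructor <;> (first | rfl | omega | (ring_nf; done))) | (ring_nf; done)) (by first | rfl | (simp; done) | (simp; omega) | (simp; ring_nf; done) | (simp; constructor <;> (first | rfl | omega | (ring_nf; done))) | (ring_nf; done)) (by first | rfl | (simp; done) | (simp; omega) | (simp; ring_nf; done) | (simp; constructor <;> (first | rfl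 | omega | (ring_nf; done))) | (ring_nf; done))
    have e3 : Iso (C ++ [op x, x]) (op x :: x :: C)
        (blkR false C.length 2 ++ [(2, Gen.cup (op x)), (1, Gen.cap x)])
        (blkR false C.length 2) := by
      have := ((mv_zig (a := x) (b := op x) rfl).shift [op x] C).appL
        (u := blkR false C.length 2) (X' := C ++ [op x, x]) (by exact Run.cast hr (by first | rfl | (simp; done) | (simp; omega) | (simp; ring_nf; done) | (simp; constructor <;> (first | rfl | omega | (ring_nf; done))) | (ring_nf; done)) (by first | rfl | (simp; done) | (simp; omega) | (simp; ring_nf; done) | (simp; constructor <;> (first | rfl | omega | (ring_nf; done))) | (ring_nf; done)) (by first | rfl | (simp; done) | (simp; omega) | (simp; ring_nf; done) | (simp; constructor <;> (first | rfl | omega | (ring_nf; done))) | (ring_nf; done)))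
      exact Iso.adapt this (by first | rfl | (simp; done) | (simp; omega) | (simp; ring_nf; done) | (simp; constructor <;> (first | rfl | omega | (ring_nf; done))) | (ring_nf; done)) (by first | rfl | (simp; done) | (simp; omega) | (simp; ring_nf; done) | (simp; constructor <;> (first | rfl | omega | (ring_nf; done))) | (ring_nf; done)) (by first | rfl | (simp; done) | (simp; omega) | (simp; ring_nf; done) | (simp; constructor <;> (first | rfl | omega | (ring_nf; done))) | (ring_nf; done)) (by first | rfl | (simp; done) | (simp; omega) | (simp; ring_nf; done) | (simp; constructor <;> (first | rfl | omega | (ring_nf; done))) | (ring_nf; done))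
    have e4 : Iso (C ++ [op x, x]) (op x :: x :: C)
        ((sh 0 [(0, Gen.cup (op x))] ++ sh 2 (blkR false C.length 2)) ++ [(1, Gen.cap x)])
        ((blkR false C.length 2 ++ sh 0 [(0, Gen.cup (op x))]) ++ [(1, Gen.cap x)]) := by
      have := (interchange (run_cup (op x) [] []) hr).appR
        (v := [(1, Gen.cap x)]) (Y' := op x :: x :: C)
        (by exact Run.cast (run_cap x [op x] (x :: C)) (by first | rfl | (simp; done) | (simp; omega) | (simp; ring_nf; done) | (simp; constructor <;> (first | rfl | omega | (ring_nf; done))) | (ring_nf; done)) (by first | rfl | (simp; done) | (simp; omega) | (simp; ring_nf; done) | (simp; constructor <;> (first | rfl | omega | (ring_nf; done))) | (ring_nf; done)) (by first | rfl | (simp; done) | (simp; omega) | (simp; ring_nf; done) | (simp; constructor <;> (first | rfl | omega | (ring_nf; done))) | (ring_nf; done)))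
      exact Iso.adapt this (by first | rfl | (simp; done) | (simp; omega) | (simp; ring_nf; done) | (simp; constructor <;> (first | rfl | omega | (ring_nf; done))) | (ring_nf; done)) (by first | rfl | (simp; done) | (simp; omega) | (simp; ring_nf; done) | (simp; constructor <;> (first | rfl | omega | (ring_nf; done))) | (ring_nf; done)) (by first | rfl | (simp; done) | (simp; omega) | (simp; ring_nf; done) | (simp; constructor <;> (first | rfl | omega | (ring_nf; done))) | (ring_nf; done)) (by first | rfl | (simp; done) | (simp; omega) | (simp; ring_nf; done) | (simp; constructor <;> (first | rfl | omega | (ring_nf; done))) | (ring_nf; done))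
    have e5 : Iso (C ++ [op x, x]) (op x :: x :: C)
        (blkR false C.length 2 ++ [(0, Gen.cup (op x)), (1, Gen.cap x)])
        (blkR false C.length 2) := by
      have := ((mv_zag (a := op x) (b := x) (by simp)).shift [] (x :: C)).appL
        (u := blkR false C.length 2) (X' := C ++ [op x, x]) (by exact Run.cast hr (by first | rfl | (simp; done) | (simp; omega) | (simp; ring_nf; done) | (simp; constructor <;> (first | rfl | omega | (ring_nf; done))) | (ring_nf; done)) (by first | rfl | (simp; done) | (simp; omega) | (simp; ring_nf; done) | (simp; constructor <;> (first | rfl | omega | (ring_nf; done))) | (ring_nf; done)) (by first | rfl | (simp; done) | (simp; omega) | (simp; ring_nf; done) | (simp; constructor <;> (first | rfl | omega | (ring_nf; done))) | (ring_nf; done)))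
      exact Iso.adapt this (by first | rfl | (simp; done) | (simp; omega) | (simp; ring_nf; done) | (simp; constructor <;> (first | rfl | omega | (ring_nf; done))) | (ring_nf; done)) (by first | rfl | (simp; done) | (simp; omega) | (simp; ring_nf; done) | (simp; constructor <;> (first | rfl | omega | (ring_nf; done))) | (ring_nf; done)) (by first | rfl | (simp; done) | (simp; omega) | (simp; ring_nf; done) | (simp; constructor <;> (first | rfl | omega | (ring_nf; done))) | (ring_nf; done)) (by first | rfl | (simp; done) | (simp; omega) | (simp; ring_nf; done) | (simp; constructor <;> (first | rfl | omega | (ring_nf; done))) | (ring_nf; done))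
    refine JEq.trans (JEq.of_eq ?_) (e1.jeq.trans (JEq.trans (JEq.of_eq ?_) (e2.jeq.trans
      (JEq.trans (JEq.of_eq ?_) (e3.jeq.trans (e5.symm.jeq.trans (JEq.trans (JEq.of_eq ?_)
      (e4.symm.jeq.trans (JEq.of_eq ?_)))))))))
    · simp [att_succ, attG, op_ne, blkR_succ]
    · simp
    · simp
    · simp
    · simp [att, attG]

/-- moving the root from one end of a maximum to the other -/
theorem jeq_cap {x a : Pt α} (h : a.1 = x.1) (C : List (Pt α)) :
    JEq x (a :: op a :: C) C (att x a (C.length + 1) ++ [(0, Gen.cap a)])
      (sh 1 (att x (op a) C.length) ++ [(0, Gen.cap a)]) := by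
  have hr : Run (sh 2 (blkR false C.length 2)) (a :: op a :: C ++ [op x, x])
      (a :: op a :: op x :: x :: C) := by
    exact Run.cast ((run_blkR false C [op x, x]).shiftL [a, op a]) (by first | rfl | (simp; done) | (simp; omega) | (simp; ring_nf; done) | (simp; constructor <;> (first | rfl | omega | (ring_nf; done))) | (ring_nf; done)) (by first | rfl | (simp; done) | (simp; omega) | (simp; ring_nf; done) | (simp; constructor <;> (first | rfl | omega | (ring_nf; done))) | (ring_nf; done)) (by first | rfl | (simp; done) | (simp; omega) | (simp; ring_nf; done) | (simp; constructor <;> (first | rfl | omega | (ring_nf; done))) | (ring_nf; done))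
  rcases eq_or_op h with ⟨h1, rfl⟩ | ⟨h1, rfl⟩
  · -- `a = x`
    have e1 : Iso (a :: op a :: C ++ [op a, a]) C
        (sh 2 (blkR false C.length 2) ++ (sh 1 (slR false 2) ++
          [(0, Gen.cap a), (0, Gen.cap a)]))
        (sh 2 (blkR false C.length 2) ++ (sh 1 (slR false 2) ++
          [(2, Gen.cap a), (0, Gen.cap a)])) := by
      have h1 : Run (sh 1 (slR false 2)) (a :: op a :: op a :: a :: C)
          (a :: op a :: a :: op a :: C) := by
        exact Run.cast (((run_slR false (op a) [op a, a]).shift [a] C)) (by first | rfl | (simp; done) | (simp; omega) | (simp; ring_nf; done) | (simp; constructor <;> (first | rfl | omega | (ring_nf; done))) | (ring_nf; done)) (by first | rfl | (simp; done) | (simp; omega) | (simp; ring_nf; done) | (simp; constructor <;> (first | rfl | omega | (ring_nf; done))) | (ring_nf; done)) (by first | rfl | (simp; done) | (simp; omega) | (simp; ring_nf; done) | (simp; constructor <;> (first | rfl | omega | (ring_nf; done))) | (ring_nf; done))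
      have := ((Move.comm (Gen.Acts.cap a) (Gen.Acts.cap a) []).iso.right C).appL
        (u := sh 2 (blkR false C.length 2) ++ sh 1 (slR false 2))
        (X' := a :: op a :: C ++ [op a, a]) (hr.append h1)
      exact Iso.adapt this (by first | rfl | (simp; done) | (simp; omega) | (simp; ring_nf; done) | (simp; constructor <;> (first | rfl | omega | (ring_nf; done))) | (ring_nf; done)) (by first | rfl | (simp; done) | (simp; omega) | (simp; ring_nf; done) | (simp; constructor <;> (first | rfl | omega | (ring_nf; done))) | (ring_nf; done)) (by first | rfl | (simp; done) | (simp; omega) | (simp; ring_nf; done) | (simp; constructor <;> (first | rfl | omega | (ring_nf; done))) | (ring_nf; done)) (by first | rfl | (simp; done) | (simp; omega) | (simp; ring_nf; done) | (simp; constructor <;> (first | rfl | omega | (ring_nf; done))) | (ring_nf; done))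
    refine JEq.trans (JEq.of_eq ?_) (e1.jeq.trans (JEq.of_eq ?_))
    · simp [att_succ, attG]
    · simp [att, attG, op_ne]
  · -- `a = op x`
    rw [op_op] at hr ⊢
    have hcc : Run [(1, Gen.cap x), (0, Gen.cap (op x))] (op x :: x :: op x :: x :: C) C := by
      refine Run.append (u := [(1, Gen.cap x)]) (Y := op x :: x :: C) ?_ ?_
      · exact Run.cast (run_cap x [op x] (x :: C)) (by first | rfl | (simp; done) | (simp; omega) | (simp; ring_nf; done) | (simp; constructor <;> (first | rfl | omega | (ring_nf; done))) | (ring_nf; done)) (by first | rfl | (simp; done) | (simp; omega) | (simp; ring_nf; done) | (simp; constructor <;> (first | rfl | omega | (ring_nf; done))) | (ring_nf; done)) (by first | rfl | (simp; done) | (simp; omega) | (simp; ring_nf; done) | (simp; constructor <;> (first | rfl | omega | (ring_nf; done))) | (ring_nf; done))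
      · exact Run.cast (run_cap (op x) [] C) (by first | rfl | (simp; done) | (simp; omega) | (simp; ring_nf; done) | (simp; constructor <;> (first | rfl | omega | (ring_nf; done))) | (ring_nf; done)) (by first | rfl | (simp; done) | (simp; omega) | (simp; ring_nf; done) | (simp; constructor <;> (first | rfl | omega | (ring_nf; done))) | (ring_nf; done)) (by first | rfl | (simp; done) | (simp; omega) | (simp; ring_nf; done) | (simp; constructor <;> (first | rfl | omega | (ring_nf; done))) | (ring_nf; done))
    have e1 : JEq x (op x :: x :: C) C
        ((sh 1 (blkR false (C.length + 1) 2) ++ slR false 2) ++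
          [(1, Gen.cap x), (0, Gen.cap (op x))])
        ((sh 1 (blkR false (C.length + 1) 2) ++ slR true 2) ++
          [(1, Gen.cap x), (0, Gen.cap (op x))]) := by
      have := (jeq_exch x (op x) (x :: C)).appR (Z'' := C) hcc
      exact JEq.adapt this (by first | rfl | (simp; done) | (simp; omega) | (simp; ring_nf; done) | (simp; constructor <;> (first | rfl | omega | (ring_nf; done))) | (ring_nf; done)) (by first | rfl | (simp; done) | (simp; omega) | (simp; ring_nf; done) | (simp; constructor <;> (first | rfl | omega | (ring_nf; done))) | (ring_nf; done)) (by first | rfl | (simp; done) | (simp; omega) | (simp; ring_nf; done) | (simp; constructor <;> (first | rfl | omega | (ring_nf; done))) | (ring_nf; done)) (by first | rfl | (simp; done) | (simp; omega) | (simp; ring_nf; done) | (simp; constructor <;> (first | rfl | omega | (ring_nf; done))) | (ring_nf; done))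
    have e2 : Iso (op x :: x :: C ++ [op x, x]) C
        (sh 2 (blkR false C.length 2) ++ [(1, Gen.crs false), (2, Gen.crs false),
          (0, Gen.crs true), (1, Gen.crs true), (1, Gen.cap x), (0, Gen.cap (op x))])
        (sh 2 (blkR false C.length 2) ++ [(1, Gen.cap x), (0, Gen.cap (op x))]) := by
      have := ((cap_local (x := x) (y := op x) rfl (by simp)).right C).appL
        (u := sh 2 (blkR false C.length 2)) (X' := op x :: x :: C ++ [op x, x]) hr
      exact Iso.adapt this (by first | rfl | (simp; done) | (simp; omega) | (simp; ring_nf; done) | (simp; constructor <;> (first | rfl | omega | (ring_nf; done))) | (ring_nf; done)) (by first | rfl | (simp; done) | (simp; omega) | (simp; ring_nf; done) | (simp; constructor <;> (first | rfl | omega | (ring_nf; done))) | (ring_nf; done)) (by first | rfl | (simp; done) | (simp; omega) | (simp; ring_nf; done) | (simp; constructor <;> (first | rfl | omega | (ring_nf; done))) | (ring_nf; done)) (by first | rfl | (simp; done) | (simp; omega) | (simp; ring_nf; done) | (simp; constructor <;> (first | rfl | omega | (ring_nf; done))) | (ring_nf; done))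
    refine JEq.trans (JEq.of_eq ?_) (e1.trans (JEq.trans (JEq.of_eq ?_) (e2.jeq.trans
      (JEq.of_eq ?_))))
    · simp [att_succ, attG, op_ne, blkR_succ]
    · simp [blkR_succ, slR_succ]
    · simp [att, attG]

end MP5b16f0
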