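import Pool.Agent.Lib.MP_5b16f0_gt.Absorb

/-!
# Functionals on the free abelian group of words
-/

namespace MP5b16f0

universe u v

variable {α : Type u} {β : Type v}

/-- linear extension of a function on words -/
noncomputable def ext {A : Type v} [AddCommGroup A] (f : Word α → A) : Alg α →+ A :=
  (Finsupp.liftAddHom (M := ℤ) (N := A) (fun m : FreeMonoid (ℕ × Gen α) =>
    (zmultiplesHom A (f (FreeMonoid.toList m)) : ℤ →+ A))).comp
      (MonoidAlgebra.coeffAddEquiv (R := ℤ) (M := FreeMonoid (ℕ × Gen α))).toAddMonoidHom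

@[simp] theorem ext_cl {A : Type v} [AddCommGroup A] (f : Word α → A) (w : Word α) :
    ext f (cl w) = f w := by
  show Finsupp.liftAddHom (M := ℤ) (N := A) _ (Finsupp.single (FreeMonoid.ofList w) (1 : ℤ)) = _
  rw [Finsupp.liftAddHom_apply_single]
  simp

theorem ext_res {A : Type v} [AddCommGroup A] (f : Word α → A) (D : SWord α) :
    ∀ u : Word α, ext f (cl u * res D) = alt f u D := by
  induction D with
  | nil => intro u; simp [alt]
  | cons x D ih =>
    intro u
    obtain ⟨p, g⟩ := x
    cases g with
    | some g =>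
      rw [res, ← mul_assoc, ← cl_append, ih]
      rfl
    | none =>
      rw [res, ← mul_assoc, mul_sub, sub_mul, map_sub, ← cl_append, ← cl_append, ih, ih]
      rfl

theorem ext_K {A : Type v} [AddCommGroup A] {f : Word α → A} {X Y : List (Pt α)}
    (hf : ∀ w w' : Word α, Run w X Y → Iso X Y w w' → f w = f w') {a : Alg α}
    (ha : a ∈ K X Y) : ext f a = 0 := by
  induction ha using AddSubgroup.closure_induction with
  | mem x hx =>
    obtain ⟨w, w', h1, h2, rfl⟩ := hx
    rw [map_sub, ext_cl, ext_cl, hf w w' h1 h2, sub_self]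
  | zero => simp
  | add x y _ _ hx hy => rw [map_add, hx, hy, add_zero]
  | neg x _ hx => rw [map_neg, hx, neg_zero]

theorem ext_J {A : Type v} [AddCommGroup A] {f : Word α → A} {N : ℕ} {X Y : List (Pt α)}
    (hf : ∀ w w' : Word α, Run w X Y → Iso X Y w w' → f w = f w')
    (hD : ∀ D : SWord α, Run D.pos X Y → D.dbl = N → alt f [] D = 0) {a : Alg α}
    (ha : a ∈ J N X Y) : ext f a = 0 := by
  refine J_induction (P := fun a => ext f a = 0) ?_ ?_ ?_ ?_ ?_ ha
  · intro D h1 h2
    have := ext_res f D []
    rw [cl_nil, one_mul] at this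
    rw [this, hD D h1 h2]
  · intro a ha; exact ext_K hf ha
  · simp
  · intro a b h1 h2; rw [map_add, h1, h2, add_zero]
  · intro a h; rw [map_neg, h, neg_zero]

theorem alt_toS {A : Type v} [AddCommGroup A] (f : Word α → A) (v : Word α) :
    ∀ u : Word α, alt f u (toS v) = f (u ++ v) := by
  induction v with
  | nil => intro u; simp [alt]
  | cons x v ih =>
    intro u
    rw [toS_cons, alt, ih]
    simp

theorem eq_toS {D : SWord α} (h : D.dbl = 0) : D = toS D.pos := by
  induction D with
  | nil => rfl
  | cons x D ih =>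
    obtain ⟨p, g⟩ := x
    cases g with
    | some g =>
      rw [SWord.pos, toS_cons, ← ih (by simpa [SWord.dbl] using h)]
    | none => simp [SWord.dbl] at h

theorem alt_cc {A : Type v} [AddCommGroup A] {f : Word α → A} {X Y : List (Pt α)}
    (hf : ∀ (u v : Word α) (p : ℕ), Run (u ++ (p, Gen.crs true) :: v) X Y →
      f (u ++ (p, Gen.crs true) :: v) = f (u ++ (p, Gen.crs false) :: v)) (D : SWord α) :
    ∀ u : Word α, Run (u ++ D.pos) X Y → 0 < D.dbl → alt f u D = 0 := by
  induction D with
  | nil => intro u _ h; simp [SWord.dbl] at h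
  | cons x D ih =>
    intro u hu hd
    obtain ⟨p, g⟩ := x
    cases g with
    | some g =>
      rw [alt]
      exact ih _ (by simpa [SWord.pos] using hu) (by simpa [SWord.dbl] using hd)
    | none =>
      rw [alt]
      rw [SWord.pos] at hu
      have hu' := Run.crs_change (t := false) hu
      rcases Nat.eq_zero_or_pos (SWord.dbl D) with h0 | h0
      · rw [eq_toS h0, alt_toS, alt_toS]
        have := hf u (SWord.pos D) p hu
        simp [this]
      · rw [ih (u ++ [(p, Gen.crs true)]) (by simpa using hu) h0,
          ih (u ++ [(p, Gen.crs false)]) (by simpa using hu') h0, sub_self]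

/-- words which agree modulo `J 1` are related by isotopies and crossing changes -/
theorem E1.of_mem_J {X Y : List (Pt α)} {w w' : Word α}
    (h : cl w - cl w' ∈ J 1 X Y) : E1 X Y w w' := by
  classical
  have key := ext_J (A := ℤ) (f := fun v => if E1 X Y v w' then 1 else 0) (X := X) (Y := Y)
    (N := 1) ?_ ?_ h
  · rw [map_sub, ext_cl, ext_cl] at key
    by_contra hn
    simp [hn, E1.refl] at key
  · intro v v' _ hi
    have : E1 X Y v w' ↔ E1 X Y v' w' := ⟨fun h => hi.symm.e1.trans h, fun h => hi.e1.trans h⟩
    simp only [this]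
  · intro D hD hd
    refine alt_cc (X := X) (Y := Y) ?_ D [] hD (by omega)
    intro u v p hr
    have hi := E1.cc (X := X) (Y := Y) false hr
    have : E1 X Y (u ++ (p, Gen.crs true) :: v) w' ↔ E1 X Y (u ++ (p, Gen.crs false) :: v) w' :=
      ⟨fun h => hi.symm.trans h, fun h => hi.trans h⟩
    simp only [this]

theorem InvW.e1 {N : ℕ} {Z : List (Pt α)} {w wi : Word α} (h : InvW N Z w wi) (hN : 1 ≤ N) :
    E1 Z Z w [] := E1.of_mem_J (by simpa using J_antitone hN _ _ h.mem)

theorem GStep.e1 {N : ℕ} {X Y : List (Pt α)} {w w' : Word α} (h : GStep N X Y w w')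
    (hN : 1 ≤ N) : E1 X Y w w' := by
  cases h with
  | iso h => exact h.e1
  | ins hu hv hw =>
    have := ((hw.e1 hN).congr hu hv).symm
    simpa using this

theorem Cong.e1 {N : ℕ} {X Y : List (Pt α)} {w w' : Word α} (h : Cong N X Y w w')
    (hN : 1 ≤ N) : E1 X Y w w' := by
  induction h with
  | rel _ _ h => exact h.e1 hN
  | refl _ => exact E1.refl _
  | symm _ _ _ ih => exact ih.symm
  | trans _ _ _ _ _ ih1 ih2 => exact ih1.trans ih2

theorem Cong.noClosed {N : ℕ} {X Y : List (Pt α)} {w w' : Word α} (h : Cong N X Y w w')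
    (hN : 1 ≤ N) : NoClosed w X Y ↔ NoClosed w' X Y := (h.e1 hN).noClosed

/-! ### Closed components of parts -/

/-- the colour `true` -/
def tt (α : Type u) : α → α × Bool := fun a => (a, true)

@[simp] theorem relabel_fst_tt (w : Word α) :
    relabel (Prod.fst ∘ fun a : α => (a, true)) w = w := relabel_id w

theorem NoClosed.left {u v : Word α} {X Y Z : List (Pt α)} (h : NoClosed (u ++ v) X Z)
    (hv : Run v Y Z) : NoClosed u X Y := by
  intro u' h1 h2
  have := h (u' ++ relabel (fun a => (a, true)) v) (by simp [h1])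
    (h2.append (hv.relabel _))
  rw [relabel_append] at this
  exact List.append_cancel_right this

theorem NoClosed.right {u v : Word α} {X Y Z : List (Pt α)} (h : NoClosed (u ++ v) X Z)
    (hu : Run u X Y) : NoClosed v Y Z := by
  intro v' h1 h2
  have := h (relabel (fun a => (a, true)) u ++ v') (by simp [h1])
    ((hu.relabel _).append h2)
  rw [relabel_append] at this
  exact List.append_cancel_left this

theorem sh_inj {k : ℕ} {w w' : Word α} (h : sh k w = sh k w') : w = w' := by
  induction w generalizing w' with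
  | nil =>
    cases w' with
    | nil => rfl
    | cons y w' => simp [sh] at h
  | cons x w ih =>
    cases w' with
    | nil => simp [sh] at h
    | cons y w' =>
      obtain ⟨p, g⟩ := x
      obtain ⟨q, g'⟩ := y
      simp only [sh_cons, List.cons.injEq, Prod.mk.injEq] at h
      obtain ⟨⟨h1, h2⟩, h3⟩ := h
      rw [ih h3, h2, Nat.add_right_cancel h1]

theorem NoClosed.unshift {A C X Y : List (Pt α)} {w : Word α}
    (h : NoClosed (sh A.length w) (A ++ (X ++ C)) (A ++ (Y ++ C))) : NoClosed w X Y := by
  intro w' h1 h2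
  have := h (sh A.length w') (by simp [h1]) (by
    have := h2.shift (relabelPts (fun a => (a, true)) A) (relabelPts (fun a => (a, true)) C)
    simpa using this)
  rw [relabel_sh] at this
  exact sh_inj this

end MP5b16f0
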