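import Pool.Agent.Lib.MP_5b16f0_gt.Functional

/-!
# The group property of string links modulo `Cong N`
-/

namespace MP5b16f0

universe u v

variable {α : Type u} {β : Type v}

/-- pairs of points versus nested pairs of points -/
theorem prs_nest (X : List (Pt α)) : ∃ σ σi : Word α, Run σ (prs X) (opL X ++ X) ∧
    Run σi (opL X ++ X) (prs X) ∧ Iso (prs X) (prs X) (σ ++ σi) [] ∧
    Iso (opL X ++ X) (opL X ++ X) (σi ++ σ) [] ∧
    Iso [] (opL X ++ X) (cups X ++ σ) (cupN (opL X)) := by
  induction X with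
  | nil => exact ⟨[], [], Run.nil _, Run.nil _, Iso.refl _, Iso.refl _, Iso.refl _⟩
  | cons x X ih =>
    obtain ⟨σ, σi, h1, h2, h3, h4, h5⟩ := ih
    have rb : Run (blkR false 2 X.length) ([op x, x] ++ (opL X ++ X))
        (opL (x :: X) ++ x :: X) := by
      exact Run.cast ((run_blkR false [op x, x] (opL X)).right X) (by first | rfl | (simp; done) | (simp; omega) | (simp; ring_nf; done) | (simp; constructor <;> (first | rfl | omega | (ring_nf; done))) | (ring_nf; done)) (by first | rfl | (simp; done) | (simp; omega) | (simp; ring_nf; done) | (simp; constructor <;> (first | rfl | omega | (ring_nf; done))) | (ring_nf; done)) (by first | rfl | (simp; done) | (simp; omega) | (simp; ring_nf; done) | (simp; constructor <;> (first | rfl | omega | (ring_nf; done))) | (ring_nf; done))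
    have rb' : Run (blkR true X.length 2) (opL (x :: X) ++ x :: X)
        ([op x, x] ++ (opL X ++ X)) := by
      exact Run.cast ((run_blkR true (opL X) [op x, x]).right X) (by first | rfl | (simp; done) | (simp; omega) | (simp; ring_nf; done) | (simp; constructor <;> (first | rfl | omega | (ring_nf; done))) | (ring_nf; done)) (by first | rfl | (simp; done) | (simp; omega) | (simp; ring_nf; done) | (simp; constructor <;> (first | rfl | omega | (ring_nf; done))) | (ring_nf; done)) (by first | rfl | (simp; done) | (simp; omega) | (simp; ring_nf; done) | (simp; constructor <;> (first | rfl | omega | (ring_nf; done))) | (ring_nf; done))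
    have ib : Iso ([op x, x] ++ (opL X ++ X)) ([op x, x] ++ (opL X ++ X))
        (blkR false 2 X.length ++ blkR true X.length 2) [] := by
      exact Iso.adapt ((blkR_inv false [op x, x] (opL X)).right X) (by first | rfl | (simp; done) | (simp; omega) | (simp; ring_nf; done) | (simp; constructor <;> (first | rfl | omega | (ring_nf; done))) | (ring_nf; done)) (by first | rfl | (simp; done) | (simp; omega) | (simp; ring_nf; done) | (simp; constructor <;> (first | rfl | omega | (ring_nf; done))) | (ring_nf; done)) (by first | rfl | (simp; done) | (simp; omega) | (simp; ring_nf; done) | (simp; constructor <;> (first | rfl | omega | (ring_nf; done))) | (ring_nf; done)) (by first | rfl | (simp; done) | (simp; omega) | (simp; ring_nf; done) | (simp; constructor <;> (first | rfl | omega | (ring_nf; done))) | (ring_nf; done))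
    have ib' : Iso (opL (x :: X) ++ x :: X) (opL (x :: X) ++ x :: X)
        (blkR true X.length 2 ++ blkR false 2 X.length) [] := by
      exact Iso.adapt ((blkR_inv true (opL X) [op x, x]).right X) (by first | rfl | (simp; done) | (simp; omega) | (simp; ring_nf; done) | (simp; constructor <;> (first | rfl | omega | (ring_nf; done))) | (ring_nf; done)) (by first | rfl | (simp; done) | (simp; omega) | (simp; ring_nf; done) | (simp; constructor <;> (first | rfl | omega | (ring_nf; done))) | (ring_nf; done)) (by first | rfl | (simp; done) | (simp; omega) | (simp; ring_nf; done) | (simp; constructor <;> (first | rfl | omega | (ring_nf; done))) | (ring_nf; done)) (by first | rfl | (simp; done) | (simp; omega) | (simp; ring_nf; done) | (simp; constructor <;> (first | rfl | omega | (ring_nf; done))) | (ring_nf; done))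
    have rs := h1.shiftL [op x, x]
    have rsi := h2.shiftL [op x, x]
    refine ⟨sh 2 σ ++ blkR false 2 X.length, blkR true X.length 2 ++ sh 2 σi, ?_, ?_, ?_, ?_, ?_⟩
    · exact Run.append rs rb
    · exact Run.append rb' rsi
    · have i1 := ib.congr rs rsi
      have i2 := h3.shiftL [op x, x]
      refine Iso.trans (Iso.of_eq ?_) (i1.trans (Iso.trans (Iso.of_eq ?_) i2))
      · simp
      · simp
    · have i1 := (h4.shiftL [op x, x]).congr rb' rb
      refine Iso.trans (Iso.of_eq ?_) (i1.trans (Iso.trans (Iso.of_eq ?_) ib'))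
      · simp
      · simp
    · have rc : Run [(0, Gen.cup (op x))] [] [op x, x] := by exact Run.cast (run_cup (op x) [] []) (by first | rfl | (simp; done) | (simp; omega) | (simp; ring_nf; done) | (simp; constructor <;> (first | rfl | omega | (ring_nf; done))) | (ring_nf; done)) (by first | rfl | (simp; done) | (simp; omega) | (simp; ring_nf; done) | (simp; constructor <;> (first | rfl | omega | (ring_nf; done))) | (ring_nf; done)) (by first | rfl | (simp; done) | (simp; omega) | (simp; ring_nf; done) | (simp; constructor <;> (first | rfl | omega | (ring_nf; done))) | (ring_nf; done))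
      have i1 := (h5.shiftL [op x, x]).congr (u := [(0, Gen.cup (op x))]) (X' := []) rc rb
      have i2 := (interchange rc (run_cupN (opL X))).appR (v := blkR false 2 X.length)
        (Y' := opL (x :: X) ++ x :: X) (by simpa using rb)
      have i3 := (natB1 false (opL X) rc).right X |>.appL (u := cupN (opL X)) (X' := [])
        (by simpa using run_cupN (opL X))
      refine Iso.trans (Iso.of_eq ?_) (i1.trans (Iso.trans (Iso.of_eq ?_) (i2.trans
        (Iso.trans (Iso.of_eq ?_) ((i3.cast rfl (by simp)).trans (Iso.of_eq ?_))))))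
      · simp [cups_cons]
      · simp
      · simp
      · rw [opL_cons, cupN_append]
        simp [cupN_cons]

/-- A word `w` of a box, inserted in a word, is written with fingers on the right. -/
theorem box_aux {V V' Z : List (Pt α)} {σ σi : Word α} (h1 : Run σ (prs Z) (opL Z ++ Z))
    (h2 : Run σi (opL Z ++ Z) (prs Z))
    (h4 : Iso (opL Z ++ Z) (opL Z ++ Z) (σi ++ σ) [])
    (h5 : Iso [] (opL Z ++ Z) (cups Z ++ σ) (cupN (opL Z)))
    {u v x : Word α} (hu : Run u V Z) (hv : Run v Z V') (hx : Run x Z Z) :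
    Iso V V' (sh V.length (cups Z ++ (σ ++ (sh Z.length x ++ σi))) ++
      (u ++ (sh Z.length σ ++ (capN Z ++ v)))) (u ++ (x ++ v)) := by
  have rx : Run (sh Z.length x) (opL Z ++ Z) (opL Z ++ Z) := by
    have := hx.shiftL (opL Z)
    simpa using this
  have rθ : Run (cups Z ++ (σ ++ (sh Z.length x ++ σi))) [] (prs Z) :=
    (run_cups Z).append (h1.append (rx.append h2))
  have rc : Run (capN Z ++ v) (Z ++ (opL Z ++ Z)) V' := by
    refine Run.append (Y := Z) ?_ hv
    have := (run_capN Z).right Z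
    simpa using this
  have i1 := (interchange hu rθ).symm.appR (v := sh Z.length σ ++ (capN Z ++ v)) (Y' := V')
    ((h1.shiftL Z).append rc)
  -- the inner part
  have k1 : Iso [] (opL Z ++ Z) ((cups Z ++ (σ ++ (sh Z.length x ++ σi))) ++ σ)
      (cupN (opL Z) ++ sh Z.length x) := by
    have j1 := h4.appL (u := cups Z ++ (σ ++ sh Z.length x)) (X' := [])
      ((run_cups Z).append (h1.append rx))
    have j2 := h5.appR rx
    refine Iso.trans (Iso.of_eq ?_) (j1.trans (Iso.trans (Iso.of_eq ?_) j2))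
    · simp
    · simp
  have k2 := (k1.shiftL Z).appR (v := capN Z) (Y' := Z) (by simpa using (run_capN Z).right Z)
  have k3 := (interchange (run_capN Z) hx).symm.appL (u := sh Z.length (cupN (opL Z)))
    (X' := Z) (by simpa using (run_cupN (opL Z)).shiftL Z)
  have k4 := (zigN Z).appR hx
  have k5 : Iso Z Z (sh Z.length ((cups Z ++ (σ ++ (sh Z.length x ++ σi))) ++ σ) ++ capN Z) x := by
    refine Iso.trans (Iso.of_eq ?_) ((k2.cast (by simp) (by simp)).trans (Iso.trans
      (Iso.of_eq ?_) ((k3.cast rfl (by simp)).trans (Iso.trans (Iso.of_eq ?_)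
      (k4.trans (Iso.of_eq ?_))))))
    · simp
    · simp
    · simp
    · simp
  have k6 := k5.congr hu hv
  refine Iso.trans (Iso.of_eq ?_) ((i1.cast (by simp) rfl).trans (Iso.trans (Iso.of_eq ?_) k6))
  · simp
  · simp

theorem box_form {N : ℕ} {V V' Z : List (Pt α)} {u v w wi : Word α} (hu : Run u V Z)
    (hv : Run v Z V') (hw : InvW N Z w wi) :
    ∃ θ e : Word α, Theta N Z θ ∧ Run e (V ++ prs Z) V' ∧
      Iso V V' (sh V.length θ ++ e) (u ++ (w ++ v)) ∧
      Iso V V' (sh V.length (cups Z) ++ e) (u ++ v) := by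
  obtain ⟨σ, σi, h1, h2, h3, h4, h5⟩ := prs_nest Z
  have re : Run (u ++ (sh Z.length σ ++ (capN Z ++ v))) (V ++ prs Z) V' := by
    refine (hu.right (prs Z)).append ((h1.shiftL Z).append (Run.append (Y := Z) ?_ hv))
    have := (run_capN Z).right Z
    simpa using this
  refine ⟨cups Z ++ (σ ++ (sh Z.length w ++ σi)), u ++ (sh Z.length σ ++ (capN Z ++ v)),
    ⟨σ ++ (sh Z.length w ++ σi), σ ++ (sh Z.length wi ++ σi), ?_, Iso.refl _⟩, re,
    box_aux h1 h2 h4 h5 hu hv hw.run, ?_⟩
  · have := (hw.shift (opL Z) []).cast (Z' := opL Z ++ Z) (by simp) rfl rfl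
    rw [length_opL] at this
    exact this.conj h1 h2 h3 h4
  · have i1 := box_aux h1 h2 h4 h5 hu hv (Run.nil Z)
    have i2 := ((h3.appL (run_cups Z)).shiftL V).appR (v := u ++ (sh Z.length σ ++
      (capN Z ++ v))) re
    refine Iso.trans (i2.symm.cast (by simp) rfl |> fun h => Iso.trans (Iso.of_eq ?_) h)
      (Iso.trans (Iso.of_eq ?_) (i1.trans (Iso.of_eq ?_)))
    · simp
    · simp
    · simp

/-- elements of the form: a box followed by an absorbing word -/
def Uel (N : ℕ) (V : List (Pt α)) (Φ : Word α) : Prop :=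
  ∃ (zs : List (Pt α)) (θ A : Word α), Theta N zs θ ∧ Run A (V ++ prs zs) V ∧
    Iso V V (sh V.length (cups zs) ++ A) [] ∧ Φ = sh V.length θ ++ A ∧ NoClosed Φ V V

theorem Uel.run {N : ℕ} {V : List (Pt α)} {Φ : Word α} (h : Uel N V Φ) : Run Φ V V := by
  obtain ⟨zs, θ, A, h1, h2, h3, rfl, h5⟩ := h
  refine Run.append ?_ h2
  have := h1.run.shiftL V
  simpa using this

theorem Uel.nc {N : ℕ} {V : List (Pt α)} {Φ : Word α} (h : Uel N V Φ) : NoClosed Φ V V := by
  obtain ⟨zs, θ, A, h1, h2, h3, rfl, h5⟩ := h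
  exact h5

theorem noClosed_nil (V : List (Pt α)) : NoClosed ([] : Word α) V V := by
  intro w' h1 _
  exact relabel_eq_nil h1

theorem Uel.left_inv {N : ℕ} {V : List (Pt α)} (hV : ∀ l, occ l V ≤ 1) {Φ : Word α}
    (h : Uel N V Φ) : ∃ Ψ : Word α, Uel N V Ψ ∧ Cong (N + 1) V V (Ψ ++ Φ) [] := by
  obtain ⟨zs, θ, A, ⟨w, wi, hw, hθ⟩, h2, h3, rfl, h5⟩ := h
  have re : Run (sh V.length w ++ A) (V ++ prs zs) V := (hw.run.shiftL V).append h2
  have rcz : Run (sh V.length (cups zs)) V (V ++ prs zs) := by
    have := (run_cups zs).shiftL V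
    simpa using this
  have iθ : Iso V V (sh V.length θ ++ A) (sh V.length (cups zs) ++ (sh V.length w ++ A)) := by
    have := ((hθ.shiftL V).cast (X' := V) (by simp) rfl).appR h2
    refine this.trans (Iso.of_eq ?_)
    simp
  obtain ⟨zs', π, πi, A', q1, q2, q3, q4⟩ := absorb_all hV zs.length zs [] [] (sh V.length w ++ A)
    rfl (by simpa using Run.nil V) re (iθ.noClosed.1 h5)
  have hθ' : Theta N ([] ++ zs) (cups zs ++ wi) := ⟨wi, w, hw.symm, Iso.refl _⟩
  have hc := q4 N _ hθ'
  -- left hand side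
  have hl : Iso V V (sh V.length (cups zs ++ wi) ++ ([] ++ (sh V.length w ++ A))) [] := by
    have i1 := (hw.inv'.shiftL V).congr rcz h2
    refine Iso.trans (Iso.of_eq ?_) (i1.trans (Iso.trans (Iso.of_eq ?_) h3))
    · simp
    · simp
  have hc' : Cong (N + 1) V V ((sh V.length ((cups zs ++ wi) ++ π) ++ A') ++
      (sh V.length θ ++ A)) [] := by
    have rΨ : Run (sh V.length ((cups zs ++ wi) ++ π) ++ A') V V := by
      refine Run.append (Y := V ++ prs zs') ?_ q2
      have := (hθ'.perm q1).run.shiftL V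
      simpa using this
    refine Cong.trans ?_ (hc.symm.trans hl.cong)
    refine Cong.trans (iθ.appL rΨ).cong (Cong.of_eq ?_)
    simp
  refine ⟨_, ⟨zs', (cups zs ++ wi) ++ π, A', hθ'.perm q1, q2, q3 (Iso.of_eq (by simp)), rfl, ?_⟩,
    hc'⟩
  exact ((hc'.noClosed (by omega)).2 (noClosed_nil V)).left
    (h2 |> fun h2 => by
      refine Run.append (Y := V ++ prs zs) ?_ h2
      have := ((Iso.run_iff hθ).2 ((run_cups zs).append hw.run)).shiftL V
      simpa using this)

theorem Uel.inv {N : ℕ} {V : List (Pt α)} (hV : ∀ l, occ l V ≤ 1) {Φ : Word α}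
    (h : Uel N V Φ) : ∃ Ψ : Word α, Uel N V Ψ ∧ Cong (N + 1) V V (Ψ ++ Φ) [] ∧
      Cong (N + 1) V V (Φ ++ Ψ) [] := by
  obtain ⟨Ψ, h1, h2⟩ := h.left_inv hV
  obtain ⟨Χ, h3, h4⟩ := h1.left_inv hV
  refine ⟨Ψ, h1, h2, ?_⟩
  -- Χ ≡ Χ Ψ Φ ≡ Φ
  have k1 : Cong (N + 1) V V Χ Φ := by
    have e1 := (h2.appL h3.run).symm
    have e2 := h4.appR h.run
    refine Cong.trans (Cong.of_eq ?_) (e1.trans (Cong.trans (Cong.of_eq ?_)
      (e2.trans (Cong.of_eq ?_))))
    · simp
    · simp
    · simp
  exact ((k1.symm.appR h1.run)).trans h4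

/-- The relation used in the induction -/
theorem gstep_U {N : ℕ} (hN : 1 ≤ N) {V : List (Pt α)} (hV : ∀ l, occ l V ≤ 1) {x y : Word α}
    (h : Cong N V V x y) (hx : Run x V V) (hnc : NoClosed x V V) :
    ∃ Φ Ψ : Word α, Run Φ V V ∧ Run Ψ V V ∧ NoClosed Φ V V ∧ NoClosed Ψ V V ∧
      Cong (N + 1) V V (Ψ ++ Φ) [] ∧
      Cong (N + 1) V V (Φ ++ Ψ) [] ∧ Cong (N + 1) V V x (Φ ++ y) := by
  induction h with
  | rel x y h =>
    cases h with
    | iso h =>
      exact ⟨[], [], Run.nil _, Run.nil _, noClosed_nil V, noClosed_nil V, Cong.refl _,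
        Cong.refl _, by simpa using h.cong⟩
    | @ins u v w wi Z hu hv hw =>
      obtain ⟨θ, e, h1, h2, h3, h4⟩ := box_form hu hv hw
      obtain ⟨zs, π, πi, A', q1, q2, q3, q4⟩ := absorb_all hV Z.length Z [] [] e rfl
        (by simpa using Run.nil V) h2 (h4.noClosed.2 hnc)
      have hc := q4 N θ h1
      have rΦ : Run (sh V.length (θ ++ π) ++ A') V V := by
        refine Run.append (Y := V ++ prs zs) ?_ q2
        have := (Theta.perm (ys := [] ++ Z) q1 h1).run.shiftL V
        simpa using this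
      have hc2 : Cong (N + 1) V V (u ++ (w ++ v)) ((sh V.length (θ ++ π) ++ A') ++ (u ++ v)) := by
        refine h3.symm.cong.trans (Cong.trans (Cong.of_eq ?_) (hc.trans (Cong.trans
          (Cong.of_eq ?_) (h4.appL rΦ).cong)))
        · simp
        · simp
      have hnc2 : NoClosed (u ++ (w ++ v)) V V :=
        ((Cong.ins hu hv hw).noClosed hN).1 hnc
      have hU : Uel N V (sh V.length (θ ++ π) ++ A') := by
        refine ⟨zs, θ ++ π, A', Theta.perm (ys := [] ++ Z) q1 h1, q2, q3 (Iso.of_eq (by simp)),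
          rfl, ?_⟩
        exact ((hc2.noClosed (by omega)).1 hnc2).left hx
      obtain ⟨Ψ, h5, h6, h7⟩ := hU.inv hV
      refine ⟨Ψ, _, h5.run, hU.run, h5.nc, hU.nc, h7, h6, ?_⟩
      -- u v ≡ Ψ Φ u v ≡ Ψ u w v
      have e1 := (h6.appR hx).symm
      have e2 := (hc2.symm.appL h5.run)
      refine Cong.trans (Cong.of_eq ?_) (e1.trans (Cong.trans (Cong.of_eq ?_) e2))
      · simp
      · simp
  | refl x =>
    exact ⟨[], [], Run.nil _, Run.nil _, noClosed_nil V, noClosed_nil V, Cong.refl _,
      Cong.refl _, Cong.of_eq (by simp)⟩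
  | symm x y h ih =>
    have h' : Cong N V V x y := h
    obtain ⟨Φ, Ψ, h1, h2, h3, h4, h5, h6, h7⟩ := ih (h'.run_iff.2 hx) ((h'.noClosed hN).2 hnc)
    refine ⟨Ψ, Φ, h2, h1, h4, h3, h6, h5, ?_⟩
    have e1 := (h5.appR hx).symm
    have e2 := (h7.symm.appL h2)
    refine Cong.trans (Cong.of_eq ?_) (e1.trans (Cong.trans (Cong.of_eq ?_) e2))
    · simp
    · simp
  | trans x y z hxy hyz ih1 ih2 =>
    have h' : Cong N V V x y := hxy
    obtain ⟨Φ, Ψ, h1, h2, h3, h4, h5, h6, h7⟩ := ih1 hx hnc
    have hy := h'.run hx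
    obtain ⟨Φ', Ψ', h1', h2', h3', h4', h5', h6', h7'⟩ := ih2 hy ((h'.noClosed hN).1 hnc)
    have hz : Run z V V := Cong.run (show Cong N V V y z from hyz) hy
    have hc1 : Cong (N + 1) V V ((Ψ' ++ Ψ) ++ (Φ ++ Φ')) [] := by
      have e1 := h5.congr h2' h1'
      refine Cong.trans (Cong.of_eq ?_) (e1.trans (Cong.trans (Cong.of_eq ?_) h5'))
      · simp
      · simp
    have hc2 : Cong (N + 1) V V ((Φ ++ Φ') ++ (Ψ' ++ Ψ)) [] := by
      have e1 := h6'.congr h1 h2
      refine Cong.trans (Cong.of_eq ?_) (e1.trans (Cong.trans (Cong.of_eq ?_) h6))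
      · simp
      · simp
    refine ⟨Φ ++ Φ', Ψ' ++ Ψ, h1.append h1', h2'.append h2, ?_, ?_, hc1, hc2, ?_⟩
    · exact ((hc2.noClosed (by omega)).2 (noClosed_nil V)).left (h2'.append h2)
    · exact ((hc1.noClosed (by omega)).2 (noClosed_nil V)).left (h1.append h1')
    · refine h7.trans ((h7'.appL h1).trans (Cong.of_eq ?_))
      simp

/-- **Group property**: string links have left inverses modulo `Cong N`. -/
theorem left_inverse {V : List (Pt α)} (hV : ∀ l, occ l V ≤ 1)
    (hbase : ∀ x : Word α, Run x V V → NoClosed x V V → Cong 1 V V x []) (n : ℕ) :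
    ∀ x : Word α, Run x V V → NoClosed x V V →
      ∃ y : Word α, Run y V V ∧ NoClosed y V V ∧ Cong (n + 1) V V (y ++ x) [] := by
  induction n with
  | zero =>
    intro x hx hnc
    exact ⟨[], Run.nil _, noClosed_nil V, by simpa using hbase x hx hnc⟩
  | succ n ih =>
    intro x hx hnc
    obtain ⟨y, h1, h2, h3⟩ := ih x hx hnc
    have hyx := (h3.noClosed (by omega)).2 (noClosed_nil V)
    obtain ⟨Φ, Ψ, k1, k2, k3, k4, k5, k6, k7⟩ := gstep_U (by omega) hV h3 (h1.append hx) hyx
    have hc : Cong (n + 1 + 1) V V ((Ψ ++ y) ++ x) [] := by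
      refine Cong.trans (Cong.of_eq ?_) ((k7.appL k2).trans (Cong.trans (Cong.of_eq ?_) k5))
      · simp
      · simp
    exact ⟨Ψ ++ y, k2.append h1, ((hc.noClosed (by omega)).2 (noClosed_nil V)).left hx, hc⟩

/-- **Group property**: string links have inverses modulo `Cong N`. -/
theorem two_sided_inverse {V : List (Pt α)} (hV : ∀ l, occ l V ≤ 1)
    (hbase : ∀ x : Word α, Run x V V → NoClosed x V V → Cong 1 V V x []) (n : ℕ)
    {x : Word α} (hx : Run x V V) (hnc : NoClosed x V V) :
      ∃ y : Word α, Run y V V ∧ NoClosed y V V ∧ Cong (n + 1) V V (y ++ x) [] ∧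
        Cong (n + 1) V V (x ++ y) [] := by
  obtain ⟨y, h1, h2, h3⟩ := left_inverse hV hbase n x hx hnc
  obtain ⟨z, h4, h5, h6⟩ := left_inverse hV hbase n y h1 h2
  refine ⟨y, h1, h2, h3, ?_⟩
  have k1 : Cong (n + 1) V V z x := by
    have e1 := (h3.appL h4).symm
    have e2 := h6.appR hx
    refine Cong.trans (Cong.of_eq ?_) (e1.trans (Cong.trans (Cong.of_eq ?_)
      (e2.trans (Cong.of_eq ?_))))
    · simp
    · simp
    · simp
  exact (k1.symm.appR h1).trans h6

end MP5b16f0
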