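import Pool.Agent.Lib.MP_5b16f0_gt.Mark

/-!
# The action of string links and independence of the marks
-/

namespace MP5b16f0

universe u v

variable {α : Type u} {β : Type v}

/-! ### Labels -/

theorem exists_label {γ : Type v} [Inhabited γ] {Z : List (Pt α)} (hZ : Z.Nodup) :
    ∀ {X' : List (Pt (α × γ))}, relabelPts Prod.fst X' = Z →
      ∃ k : Pt α → γ, X' = Z.map (fun a => ((a.1, k a), a.2)) := by
  classical
  induction Z with
  | nil =>
    intro X' h
    exact ⟨fun _ => default, by rw [relabelPts_eq_nil h]; rfl⟩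
  | cons a Z ih =>
    intro X' h
    obtain ⟨b, B, rfl, h1, h2⟩ := relabelPts_eq_cons h
    rw [List.nodup_cons] at hZ
    obtain ⟨k, hk⟩ := ih hZ.2 h2
    refine ⟨fun c => if c = a then b.1.2 else k c, ?_⟩
    rw [List.map_cons]
    congr 1
    · subst h1
      simp
    · rw [hk]
      apply List.map_congr_left
      intro c hc
      have : c ≠ a := fun h => hZ.1 (h ▸ hc)
      simp [this]

/-- the labelling of the points by label and orientation -/
def hat (X : List (Pt α)) : List (Pt (α × Bool)) := X.map (fun a => ((a.1, a.2), a.2))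

@[simp] theorem relabelPts_fst_hat (X : List (Pt α)) : relabelPts Prod.fst (hat X) = X := by
  simp [relabelPts, hat, Function.comp_def]

theorem mem_gh {L : List α} {a : Pt α} : a ∈ gh L ↔ a.1 ∈ L := by
  induction L with
  | nil => simp
  | cons i L ih =>
    obtain ⟨j, o⟩ := a
    cases o <;> simp [ih]

theorem nodup_gh {L : List α} (h : L.Nodup) : (gh L).Nodup := by
  induction L with
  | nil => simp
  | cons i L ih =>
    rw [List.nodup_cons] at h
    rw [gh_cons, List.nodup_cons, List.nodup_cons]
    refine ⟨?_, ?_, ih h.2⟩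
    · simp [mem_gh, h.1]
    · simp [mem_gh, h.1]

theorem occ_hat {X : List (Pt α)} (hX : X.Nodup) (l : α × Bool) : occ l (hat X) ≤ 1 := by
  classical
  have : occ l (hat X) = X.count (l.1, l.2) := by
    unfold occ hat
    rw [List.countP_map, List.count]
    apply List.countP_congr
    intro a _
    obtain ⟨i, b⟩ := l
    obtain ⟨j, o⟩ := a
    simp
  rw [this]
  exact List.nodup_iff_count_le_one.1 hX _

theorem scount_zero {P : α → Prop} {X : List (Pt α)} (h : ∀ a ∈ X, ¬ P a.1) :
    scount P X = 0 := by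
  induction X with
  | nil => rfl
  | cons a X ih =>
    have h1 := h a (by simp)
    simp [scount, h1, ih (fun b hb => h b (by simp [hb]))]

theorem exists_cup_mem {L : List α} {i : α} (h : i ∈ L) :
    ∃ p, (p, Gen.cup (i, false)) ∈ cupsH L := by
  induction L with
  | nil => simp at h
  | cons j L ih =>
    rw [List.mem_cons] at h
    rcases h with rfl | h
    · exact ⟨0, by simp [cupsH_cons]⟩
    · obtain ⟨p, hp⟩ := ih h
      refine ⟨p + 2, ?_⟩
      rw [cupsH_cons, List.mem_cons]
      right
      simp only [sh, List.mem_map]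
      exact ⟨_, hp, rfl⟩

/-- colours of a coloured word -/
theorem eq_tt_of {w'' : Word ((α × β) × Bool)} :
    relabel (fun x : (α × β) × Bool => (x.1.1, x.2)) w'' =
      relabel (fun a => (a, true)) (relabel Prod.fst (relabel Prod.fst w'')) →
    w'' = relabel (fun a => (a, true)) (relabel Prod.fst w'') := by
  induction w'' with
  | nil => intro _; rfl
  | cons x w ih =>
    obtain ⟨p, g⟩ := x
    intro h
    simp only [relabel_cons, List.cons.injEq, Prod.mk.injEq, true_and] at h ⊢
    refine ⟨?_, ih h.2⟩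
    cases g with
    | cup a =>
      simp only [Gen.relabel, Gen.cup.injEq, Prod.mk.injEq, and_true, true_and] at h ⊢
      obtain ⟨⟨⟨a1, a2⟩, a3⟩, a4⟩ := a
      simp at h ⊢
      exact h.1
    | cap a =>
      simp only [Gen.relabel, Gen.cap.injEq, Prod.mk.injEq, and_true, true_and] at h ⊢
      obtain ⟨⟨⟨a1, a2⟩, a3⟩, a4⟩ := a
      simp at h ⊢
      exact h.1
    | crs s => rfl

/-- **The double cut is a string link**: the words obtained by cutting every component twice have a
labelling by label and orientation. -/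
theorem exists_hat {L : List α} (hL : L.Nodup) {S : Word α} (hS : Run S (gh L) (gh L))
    (hnc : NoClosed (cupsH L ++ S) [] (gh L)) :
    ∃ S' : Word (α × Bool), relabel Prod.fst S' = S ∧ Run S' (hat (gh L)) (hat (gh L)) ∧
      NoClosed S' (hat (gh L)) (hat (gh L)) := by
  classical
  obtain ⟨w', X', Y', h1, h2, h3, h4, h5⟩ := fine_exists hS
  obtain ⟨kX, hkX⟩ := exists_label (nodup_gh hL) h2
  obtain ⟨kY, hkY⟩ := exists_label (nodup_gh hL) h3
  have hfst : (Prod.fst : α × Bool → α) ∘ (fun a => (a, true)) = id := rfl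
  -- Claim 1
  have c1 : ∀ i ∈ L, kX (i, false) ≠ kX (i, true) := by
    intro i hi heq
    obtain ⟨L1, L2, rfl⟩ := List.append_of_mem hi
    have hocc : 2 ≤ occ (i, kX (i, true)) X' := by
      rw [hkX, gh_append, gh_cons, List.map_append, List.map_cons, List.map_cons, occ_append,
        occ_cons, occ_cons]
      simp [heq]
      omega
    have hY0 : occ (i, kX (i, true)) Y' = 0 := by
      have := h5 (i, kX (i, true))
      omega
    rw [occ_eq_zero] at hY0
    set k0 := kX (i, true) with hk0
    let F : α × ℕ → α × Bool := fun l => (l.1, !decide (l = (i, k0)))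
    let G : α → α × Bool := fun j => (j, !decide (j = i))
    have e1 : relabelPts F Y' = relabelPts (fun a => (a, true)) (gh (L1 ++ i :: L2)) := by
      rw [← h3, relabelPts_relabelPts]
      unfold relabelPts
      apply List.map_congr_left
      intro b hb
      simp [F, hY0 b hb]
    have e2 : relabelPts F X' = relabelPts G (gh (L1 ++ i :: L2)) := by
      rw [hkX]
      unfold relabelPts
      rw [List.map_map]
      apply List.map_congr_left
      rintro ⟨j, o⟩ hb
      simp only [Function.comp, F, G, Prod.mk.injEq, and_true, true_and]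
      by_cases hj : j = i
      · subst hj
        cases o
        · simp [heq]
        · simp [hk0]
      · simp [hj]
    have rF := h4.relabel F
    rw [e1, e2] at rF
    have rG := (run_cupsH (L1 ++ i :: L2)).relabel G
    have key := hnc (relabel G (cupsH (L1 ++ i :: L2)) ++ relabel F w') (by
      rw [relabel_append, relabel_relabel, relabel_relabel]
      have : (Prod.fst : α × Bool → α) ∘ G = id := rfl
      have h' : (Prod.fst : α × Bool → α) ∘ F = Prod.fst := rfl
      rw [this, h', relabel_id, h1]) (rG.append rF)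
    rw [relabel_append] at key
    obtain ⟨k1, _⟩ := List.append_inj key (by simp [relabel])
    obtain ⟨p, hp⟩ := exists_cup_mem hi
    unfold relabel at k1
    rw [List.map_inj_left] at k1
    have := k1 _ hp
    simp [Gen.relabel, G] at this
  -- Claim 2
  have c2 : ∀ i ∈ L, kX (i, false) = kY (i, false) ∧ kX (i, true) = kY (i, true) := by
    intro i hi
    have hc := c1 i hi
    obtain ⟨L1, L2, rfl⟩ := List.append_of_mem hi
    have hi1 : i ∉ L1 ∧ i ∉ L2 := by
      rw [List.nodup_append] at hL
      obtain ⟨_, hL2, hL3⟩ := hL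
      rw [List.nodup_cons] at hL2
      refine ⟨fun h => ?_, hL2.1⟩
      exact absurd rfl (hL3 i h i (by simp))
    have hz : ∀ (k : Pt α → ℕ) (k0 : ℕ) (M : List α), i ∉ M →
        scount (fun l => l = (i, k0)) ((gh M).map (fun a => ((a.1, k a), a.2))) = 0 := by
      intro k k0 M hM
      apply scount_zero
      intro a ha
      rw [List.mem_map] at ha
      obtain ⟨b, hb, rfl⟩ := ha
      rw [mem_gh] at hb
      simp only [Prod.mk.injEq, not_and]
      intro h
      exact absurd (h ▸ hb) hM
    have hs : ∀ (k : Pt α → ℕ) (k0 : ℕ), scount (fun l => l = (i, k0))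
        ((gh (L1 ++ i :: L2)).map (fun a => ((a.1, k a), a.2))) =
          (if k (i, false) = k0 then -1 else 0) + (if k (i, true) = k0 then 1 else 0) := by
      intro k k0
      rw [gh_append, gh_cons, List.map_append, scount_append, hz _ _ _ hi1.1, List.map_cons,
        List.map_cons, scount_cons, scount_cons _ _ (List.map _ (gh L2)), hz _ _ _ hi1.2]
      simp [scount]
    constructor
    · have := h4.scount (fun l => l = (i, kX (i, false)))
      rw [hkX, hkY, hs, hs] at this
      simp only [if_true, Ne.symm hc, if_false] at this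
      by_contra hne
      have q2 : kY (i, false) ≠ kX (i, false) := fun h => hne h.symm
      simp only [q2, if_false] at this
      split_ifs at this <;> omega
    · have := h4.scount (fun l => l = (i, kX (i, true)))
      rw [hkX, hkY, hs, hs] at this
      simp only [if_true, hc, if_false] at this
      by_contra hne
      have q2 : kY (i, true) ≠ kX (i, true) := fun h => hne h.symm
      simp only [q2, if_false] at this
      split_ifs at this <;> omega
  let F : α × ℕ → α × Bool := fun l => (l.1, decide (l.2 = kX (l.1, true)))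
  have e1 : relabelPts F X' = hat (gh L) := by
    rw [hkX]
    unfold relabelPts hat
    rw [List.map_map]
    apply List.map_congr_left
    rintro ⟨j, o⟩ hb
    rw [mem_gh] at hb
    cases o
    · simp [F, c1 j hb]
    · simp [F]
  have e2 : relabelPts F Y' = hat (gh L) := by
    rw [hkY]
    unfold relabelPts hat
    rw [List.map_map]
    apply List.map_congr_left
    rintro ⟨j, o⟩ hb
    rw [mem_gh] at hb
    cases o
    · simp [F, c1 j hb, ← (c2 j hb).1]
    · simp [F, ← (c2 j hb).2]
  have rF := h4.relabel F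
  rw [e1, e2] at rF
  have hfF : relabel Prod.fst (relabel F w') = S := by
    rw [relabel_relabel]
    have h' : (Prod.fst : α × Bool → α) ∘ F = Prod.fst := rfl
    rw [h', h1]
  refine ⟨relabel F w', hfF, rF, ?_⟩
  -- no closed components
  have hncS : NoClosed S (gh L) (gh L) := hnc.right (run_cupsH L)
  intro w'' k1 k2
  have hg := hncS (relabel (fun x : (α × Bool) × Bool => (x.1.1, x.2)) w'') (by
    rw [relabel_relabel]
    have h' : (Prod.fst : α × Bool → α) ∘ (fun x : (α × Bool) × Bool => (x.1.1, x.2)) =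
      Prod.fst ∘ Prod.fst := rfl
    rw [h', ← relabel_relabel, k1, hfF]) (by
    have := k2.relabel (fun x : (α × Bool) × Bool => (x.1.1, x.2))
    rw [relabelPts_relabelPts] at this
    have h' : (fun x : (α × Bool) × Bool => (x.1.1, x.2)) ∘ (fun a => (a, true)) =
      (fun a => (a, true)) ∘ (Prod.fst : α × Bool → α) := rfl
    rw [h', ← relabelPts_relabelPts, relabelPts_fst_hat] at this
    exact this)
  rw [← k1]
  refine eq_tt_of ?_
  rw [hg, k1, hfF]

/-! ### Relabelling the filtration -/

/-- relabelling of formal combinations -/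
noncomputable def relA (f : α → β) : Alg α →+* Alg β :=
  MonoidAlgebra.mapDomainRingHom ℤ
    (FreeMonoid.map (fun x : ℕ × Gen α => (x.1, x.2.relabel f)))

@[simp] theorem relA_cl (f : α → β) (w : Word α) : relA f (cl w) = cl (relabel f w) := by
  show MonoidAlgebra.mapDomain _ (MonoidAlgebra.single _ 1) = MonoidAlgebra.single _ 1
  rw [MonoidAlgebra.mapDomain_single]
  rfl

/-- relabelling of singular words -/
def relS (f : α → β) (D : SWord α) : SWord β := D.map (fun x => (x.1, x.2.map (Gen.relabel f)))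

theorem relA_res (f : α → β) (D : SWord α) : relA f (res D) = res (relS f D) := by
  induction D with
  | nil => simp [relS]
  | cons x D ih =>
    obtain ⟨p, g⟩ := x
    cases g with
    | some g =>
      rw [res, map_mul, ih, relA_cl]
      rfl
    | none =>
      rw [res, map_mul, ih, map_sub, relA_cl, relA_cl]
      rfl

theorem pos_relS (f : α → β) (D : SWord α) : (relS f D).pos = relabel f D.pos := by
  induction D with
  | nil => rfl
  | cons x D ih =>
    obtain ⟨p, g⟩ := x
    cases g with
    | some g => show (p, g.relabel f) :: (relS f D).pos = _; rw [ih]; rfl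
    | none => show (p, Gen.crs true) :: (relS f D).pos = _; rw [ih]; rfl

theorem dbl_relS (f : α → β) (D : SWord α) : (relS f D).dbl = D.dbl := by
  induction D with
  | nil => rfl
  | cons x D ih =>
    obtain ⟨p, g⟩ := x
    cases g with
    | some g => exact ih
    | none => show (relS f D).dbl + 1 = _; rw [ih]; rfl

theorem K_relabel (f : α → β) {X Y : List (Pt α)} {a : Alg α} (ha : a ∈ K X Y) :
    relA f a ∈ K (relabelPts f X) (relabelPts f Y) := by
  induction ha using AddSubgroup.closure_induction with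
  | mem x hx =>
    obtain ⟨w, w', h1, h2, rfl⟩ := hx
    rw [map_sub, relA_cl, relA_cl]
    exact iso_mem_K (h1.relabel f) (h2.relabel f)
  | zero => simp
  | add x y _ _ hx hy => rw [map_add]; exact add_mem hx hy
  | neg x _ hx => rw [map_neg]; exact neg_mem hx

theorem J_relabel (f : α → β) {N : ℕ} {X Y : List (Pt α)} {a : Alg α} (ha : a ∈ J N X Y) :
    relA f a ∈ J N (relabelPts f X) (relabelPts f Y) := by
  refine J_induction (P := fun a => relA f a ∈ J N (relabelPts f X) (relabelPts f Y))
    ?_ ?_ ?_ ?_ ?_ ha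
  · intro D h1 h2
    rw [relA_res]
    exact res_mem_J (by rw [pos_relS]; exact h1.relabel f) (by rw [dbl_relS, h2])
  · intro a ha; exact K_le_J _ _ _ (K_relabel f ha)
  · simp
  · intro a b h1 h2; rw [map_add]; exact add_mem h1 h2
  · intro a h; rw [map_neg]; exact neg_mem h

/-! ### The stabiliser of the caps -/

/-- double cuts which preserve the caps -/
def Kap (L : List α) (n : ℕ) (κ : Word α) : Prop :=
  (∃ κ' : Word (α × Bool), relabel Prod.fst κ' = κ ∧ Run κ' (hat (gh L)) (hat (gh L)) ∧
    NoClosed κ' (hat (gh L)) (hat (gh L))) ∧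
  cl κ * cl (capsH L) - cl (capsH L) ∈ J (n + 1) (gh L) []

theorem Kap.run {L : List α} {n : ℕ} {κ : Word α} (h : Kap L n κ) : Run κ (gh L) (gh L) := by
  obtain ⟨⟨κ', rfl, h2, _⟩, _⟩ := h
  have := h2.relabel Prod.fst
  rwa [relabelPts_fst_hat] at this

theorem hat_e1 {L : List α} (hL : L.Nodup) {κ' : Word (α × Bool)}
    (h : Run κ' (hat (gh L)) (hat (gh L))) (hnc : NoClosed κ' (hat (gh L)) (hat (gh L))) :
    E1 (hat (gh L)) (hat (gh L)) κ' [] := base_e1 (occ_hat (nodup_gh hL)) h hnc

theorem Kap.mem_one {L : List α} (hL : L.Nodup) {n : ℕ} {κ : Word α} (h : Kap L n κ) :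
    cl κ - 1 ∈ J 1 (gh L) (gh L) := by
  obtain ⟨⟨κ', rfl, h2, h3⟩, _⟩ := h
  have := J_relabel Prod.fst ((hat_e1 hL h2 h3).mem_J h2)
  rw [map_sub, relA_cl, relA_cl, relabelPts_fst_hat] at this
  simpa using this

theorem Kap.e1 {L : List α} (hL : L.Nodup) {n : ℕ} {κ : Word α} (h : Kap L n κ) :
    E1 (gh L) (gh L) κ [] := E1.of_mem_J (by simpa using h.mem_one hL)

theorem Kap.one {L : List α} {n : ℕ} : Kap L n [] :=
  ⟨⟨[], rfl, Run.nil _, noClosed_nil _⟩, by simp⟩

theorem Kap.mul {L : List α} (hL : L.Nodup) {n : ℕ} {κ κ₂ : Word α} (h : Kap L n κ)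
    (h' : Kap L n κ₂) : Kap L n (κ ++ κ₂) := by
  have hr := h.run
  obtain ⟨⟨κ', rfl, h2, h3⟩, h4⟩ := h
  obtain ⟨⟨κ₂', rfl, h2', h3'⟩, h4'⟩ := h'
  refine ⟨⟨κ' ++ κ₂', by simp, h2.append h2', ?_⟩, ?_⟩
  · have e : E1 (hat (gh L)) (hat (gh L)) (κ' ++ κ₂') ([] ++ []) :=
      ((hat_e1 hL h2 h3).appR h2').trans ((hat_e1 hL h2' h3').appL (Run.nil _))
    exact e.noClosed.2 (noClosed_nil _)
  · have := add_mem (J_mulL h4' hr) h4
    rw [cl_append]
    convert this using 1
    noncomm_ring

/-- inverses modulo `J (n + 1)` -/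
theorem hat_inv {L : List α} (hL : L.Nodup) (n : ℕ) {κ' : Word (α × Bool)}
    (h : Run κ' (hat (gh L)) (hat (gh L))) (hnc : NoClosed κ' (hat (gh L)) (hat (gh L))) :
    ∃ y : Word (α × Bool), Run y (hat (gh L)) (hat (gh L)) ∧
      NoClosed y (hat (gh L)) (hat (gh L)) ∧
      cl (relabel Prod.fst y) * cl (relabel Prod.fst κ') - 1 ∈ J (n + 1) (gh L) (gh L) ∧
      cl (relabel Prod.fst κ') * cl (relabel Prod.fst y) - 1 ∈ J (n + 1) (gh L) (gh L) := by
  obtain ⟨y, h1, h2, h3, h4⟩ := group_prop (occ_hat (nodup_gh hL)) n h hnc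
  refine ⟨y, h1, h2, ?_, ?_⟩
  · have := J_relabel Prod.fst (h3.mem_J (h1.append h))
    rw [map_sub, relA_cl, relA_cl, relabelPts_fst_hat, relabel_append, cl_append] at this
    simpa using this
  · have := J_relabel Prod.fst (h4.mem_J (h.append h1))
    rw [map_sub, relA_cl, relA_cl, relabelPts_fst_hat, relabel_append, cl_append] at this
    simpa using this

theorem Kap.inv {L : List α} (hL : L.Nodup) {n : ℕ} {κ : Word α} (h : Kap L n κ) :
    ∃ y, Kap L n y ∧ cl y * cl κ - 1 ∈ J (n + 1) (gh L) (gh L) ∧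
      cl κ * cl y - 1 ∈ J (n + 1) (gh L) (gh L) := by
  obtain ⟨⟨κ', rfl, h2, h3⟩, h4⟩ := h
  obtain ⟨y, h5, h6, h7, h8⟩ := hat_inv hL n h2 h3
  have ry : Run (relabel Prod.fst y) (gh L) (gh L) := by
    have := h5.relabel Prod.fst
    rwa [relabelPts_fst_hat] at this
  refine ⟨_, ⟨⟨y, rfl, h5, h6⟩, ?_⟩, h7, h8⟩
  have := sub_mem (J_mulR h7 (run_capsH L)) (J_mulL h4 ry)
  convert this using 1
  noncomm_ring

/-- two words with all fingers at the top are related by an element of the stabiliser -/
def Rel (L : List α) (n : ℕ) (T T' : Word α) : Prop :=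
  ∃ κ, Kap L n κ ∧ cl T' - cl T * cl κ ∈ J (n + 1) [] (gh L)

theorem Rel.refl {L : List α} {n : ℕ} (T : Word α) : Rel L n T T := ⟨[], Kap.one, by simp⟩

theorem Rel.symm {L : List α} (hL : L.Nodup) {n : ℕ} {T T' : Word α} (hT : Run T [] (gh L))
    (h : Rel L n T T') : Rel L n T' T := by
  obtain ⟨κ, h1, h2⟩ := h
  obtain ⟨y, h3, _, h5⟩ := h1.inv hL
  refine ⟨y, h3, ?_⟩
  have := add_mem (J_mulR h2 h3.run) (J_mulL h5 hT)
  rw [← neg_mem_iff] at this
  convert this using 1
  noncomm_ring

theorem Rel.trans {L : List α} (hL : L.Nodup) {n : ℕ} {T T' T'' : Word α}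
    (h : Rel L n T T') (h' : Rel L n T' T'') : Rel L n T T'' := by
  obtain ⟨κ, h1, h2⟩ := h
  obtain ⟨κ', h3, h4⟩ := h'
  refine ⟨κ ++ κ', h1.mul hL h3, ?_⟩
  have := add_mem h4 (J_mulR h2 h3.run)
  rw [cl_append]
  convert this using 1
  noncomm_ring

theorem Rel.of_iso {L : List α} {n : ℕ} {T T' : Word α} (hT : Run T [] (gh L))
    (h : Iso [] (gh L) T T') : Rel L n T T' := by
  refine ⟨[], Kap.one, ?_⟩
  have := iso_mem_J (N := n + 1) (h.run hT) h.symm
  simpa using this

/-- **Independence of the marks** -/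
theorem rel_same {L : List α} (hL : L.Nodup) (n : ℕ) {w T T' c : Word α}
    (hT : Em [] [] [] L w T) (hT' : Em [] [] [] L w T') (hc : Ab [] L [] w c)
    (hnc : NoClosed T [] (gh L)) (hnc' : NoClosed T' [] (gh L)) : Rel L n T T' := by
  obtain ⟨S1, m1⟩ := exists_mrg hT hc
  obtain ⟨S2, m2⟩ := exists_mrg hT' hc
  have r1 : Run S1 (gh L) (gh L) := by simpa using m1.run.1
  have r2 : Run S2 (gh L) (gh L) := by simpa using m2.run.1
  have b1 : Iso [] (gh L) (cupsH L ++ S1) T := by simpa using m1.bot
  have b2 : Iso [] (gh L) (cupsH L ++ S2) T' := by simpa using m2.bot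
  have t1 : Iso (gh L) [] (S1 ++ capsH L) c := by simpa using m1.top
  have t2 : Iso (gh L) [] (S2 ++ capsH L) c := by simpa using m2.top
  obtain ⟨S1', k1, k2, k3⟩ := exists_hat hL r1 (b1.noClosed.2 hnc)
  obtain ⟨S2', l1, l2, l3⟩ := exists_hat hL r2 (b2.noClosed.2 hnc')
  obtain ⟨y, h5, h6, h7, h8⟩ := hat_inv hL n k2 k3
  rw [k1] at h7 h8
  have ry : Run (relabel Prod.fst y) (gh L) (gh L) := by
    have := h5.relabel Prod.fst
    rwa [relabelPts_fst_hat] at this
  set Y : Word α := relabel Prod.fst y with hY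
  refine ⟨Y ++ S2, ⟨⟨y ++ S2', by simp [l1, hY], h5.append l2, ?_⟩, ?_⟩, ?_⟩
  · have e : E1 (hat (gh L)) (hat (gh L)) (y ++ S2') ([] ++ []) :=
      ((hat_e1 hL h5 h6).appR l2).trans ((hat_e1 hL l2 l3).appL (Run.nil _))
    exact e.noClosed.2 (noClosed_nil _)
  · -- Y S2 caps ≡ Y c ≡ Y S1 caps ≡ caps
    have e1 := iso_mem_J (N := n + 1) (r2.append (run_capsH L)) (t2.trans t1.symm)
    have e2 := J_mulL e1 ry
    have e3 := J_mulR h7 (run_capsH L)
    have := add_mem e2 e3
    rw [cl_append, cl_append] at this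
    rw [cl_append]
    convert this using 1
    noncomm_ring
  · -- T Y S2 ≡ cups S1 Y S2 ≡ cups S2 ≡ T'
    have hrT : Run T [] (gh L) := b1.run ((run_cupsH L).append r1)
    have hrT' : Run T' [] (gh L) := b2.run ((run_cupsH L).append r2)
    have e1 := J_mulR (J_mulR (iso_mem_J (N := n + 1) ((run_cupsH L).append r1) b1) ry) r2
    have e2 := J_mulR (J_mulL h8 (run_cupsH L)) r2
    have e3 := iso_mem_J (N := n + 1) ((run_cupsH L).append r2) b2
    have := sub_mem (sub_mem e1 e2) e3
    rw [cl_append, cl_append] at this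
    rw [cl_append]
    convert this using 1
    noncomm_ring

/-! ### Links -/

/-- the labels of the components -/
abbrev full (m : ℕ) : List (Fin m) := List.finRange m

theorem full_nodup (m : ℕ) : (full m).Nodup := List.nodup_finRange m

theorem exists_cap_mem {L : List α} {i : α} (h : i ∈ L) :
    ∃ p, (p, Gen.cap (i, false)) ∈ capsH L := by
  induction L with
  | nil => simp at h
  | cons j L ih =>
    rw [List.mem_cons] at h
    rcases h with rfl | h
    · exact ⟨0, by simp [capsH_cons]⟩
    · obtain ⟨p, hp⟩ := ih h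
      exact ⟨p, by simp [capsH_cons, hp]⟩

theorem nc_of_link {m : ℕ} {T : Word (Fin m)}
    (h : LinkWord m (T ++ capsH (full m))) : NoClosed T [] (gh (full m)) := by
  intro T' h1 h2
  have rc := (run_capsH (full m)).relabel (fun a => (a, true))
  obtain ⟨f, hf⟩ := h.2.2 (T' ++ relabel (fun a => (a, true)) (capsH (full m)))
    (by simp [h1]) (h2.append rc)
  rw [relabel_append] at hf
  obtain ⟨k1, k2⟩ := List.append_inj hf (by rw [← h1]; simp [relabel])
  have hft : ∀ i, f i = true := by
    intro i
    obtain ⟨p, hp⟩ := exists_cap_mem (List.mem_finRange i)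
    unfold relabel at k2
    rw [List.map_inj_left] at k2
    have := k2 _ hp
    simp only [Gen.relabel, Prod.mk.injEq, Gen.cap.injEq, true_and, and_true] at this
    exact this.symm
  rw [k1]
  congr 1
  funext i
  rw [hft i]

theorem LinkWord.em {m : ℕ} {w : Word (Fin m)} (hw : LinkWord m w) :
    ∃ T, Em [] [] [] (full m) w T := exists_em hw.1 _ (fun i _ => hw.2.1 i)

theorem Em.close_link {m : ℕ} {w T : Word (Fin m)} (hT : Em [] [] [] (full m) w T) :
    Iso [] [] (T ++ capsH (full m)) w := by
  have := hT.close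
  simpa using this

theorem Em.run_link {m : ℕ} {w T : Word (Fin m)} (hT : Em [] [] [] (full m) w T) :
    Run T [] (gh (full m)) := by simpa using hT.run

theorem Em.nc {m : ℕ} {w T : Word (Fin m)} (hw : LinkWord m w)
    (hT : Em [] [] [] (full m) w T) : NoClosed T [] (gh (full m)) :=
  nc_of_link (hw.iso hT.close_link.symm)

theorem rel_same_link {m : ℕ} (n : ℕ) {w T T' : Word (Fin m)} (hw : LinkWord m w)
    (hT : Em [] [] [] (full m) w T) (hT' : Em [] [] [] (full m) w T') :
    Rel (full m) n T T' := by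
  obtain ⟨c, hc⟩ := exists_ab hw.1 (full m) (fun i _ => hw.2.1 i)
  exact rel_same (full_nodup m) n hT hT' hc (hT.nc hw) (hT'.nc hw)

/-- **Isotopy invariance of the orbit** -/
theorem rel_iso {m : ℕ} (n : ℕ) {w w' : Word (Fin m)} (h : Iso [] [] w w') :
    LinkWord m w → ∀ {T T' : Word (Fin m)}, Em [] [] [] (full m) w T →
      Em [] [] [] (full m) w' T' → Rel (full m) n T T' := by
  induction h with
  | rel w w' h =>
    intro hw T T' hT hT'
    obtain ⟨T1, T2, h1, h2, h3⟩ := step_em h (full m) (fun i _ => hw.2.1 i)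
    have hw' : LinkWord m w' := hw.iso (Relation.EqvGen.rel _ _ h)
    exact (rel_same_link n hw hT h1).trans (full_nodup m)
      ((Rel.of_iso h1.run_link (by simpa using h3)).trans (full_nodup m)
        (rel_same_link n hw' h2 hT'))
  | refl w => intro hw T T' hT hT'; exact rel_same_link n hw hT hT'
  | symm w w' h ih =>
    intro hw T T' hT hT'
    exact (ih (hw.iso (Iso.symm h)) hT' hT).symm (full_nodup m) hT'.run_link
  | trans w w' w'' h1 h2 ih1 ih2 =>
    intro hw T T' hT hT'
    have hw' : LinkWord m w' := hw.iso h1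
    obtain ⟨T1, hT1⟩ := hw'.em
    exact (ih1 hw hT hT1).trans (full_nodup m) (ih2 hw' hT1 hT')

/-- **The orbit determines the class of the link** -/
theorem approx_of_rel {m n : ℕ} {T T' : Word (Fin m)} (hT : Run T [] (gh (full m)))
    (hT' : Run T' [] (gh (full m))) (hl : LinkWord m (T ++ capsH (full m)))
    (hl' : LinkWord m (T' ++ capsH (full m))) (h : Rel (full m) n T T') :
    Approx m n (T ++ capsH (full m)) (T' ++ capsH (full m)) := by
  obtain ⟨κ, h1, h2⟩ := h
  have hW : ∀ i : Fin m, (i, false) ∈ gh (full m) := fun i => by simp [mem_gh]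
  have rc := run_capsH (full m)
  have rk := h1.run
  have e : E1 [] [] (T ++ (κ ++ capsH (full m))) (T ++ ([] ++ capsH (full m))) :=
    (h1.e1 (full_nodup m)).congr hT rc
  have hl2 : LinkWord m (T ++ (κ ++ capsH (full m))) := hl.e1 (by simpa using e.symm)
  have a1 : Approx m n (T ++ capsH (full m)) (T ++ (κ ++ capsH (full m))) := by
    refine approx_of_J hW hT hT rc (rk.append rc) hl hl2 (Or.inr ⟨rfl, ?_⟩)
    rw [cl_append, ← neg_mem_iff, neg_sub]
    exact h1.2
  have a2 : Approx m n ((T ++ κ) ++ capsH (full m)) (T' ++ capsH (full m)) := by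
    refine approx_of_J hW (hT.append rk) hT' rc rc (by simpa using hl2) hl' (Or.inl ⟨?_, rfl⟩)
    rw [cl_append, ← neg_mem_iff, neg_sub]
    exact h2
  rw [List.append_assoc] at a2
  exact a1.trans a2

end MP5b16f0
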