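import Pool.Agent.Lib.MP_5b16f0_gt.FinGen

/-!
# Invariance of `LinkWord` under isotopies and crossing changes
-/

namespace MP5b16f0

universe u v

variable {α : Type u} {β : Type v}

/-- transport of a labelling along a step -/
theorem label_step {f : β → α} {X A C X0 Y0 : List (Pt α)} {u r s v : Word α}
    (hu : Run u X (A ++ (X0 ++ C))) (hs : Run s X0 Y0) (hr : Run r X0 Y0)
    (hL : LiftTo f X0 s r) (hR : Rigid f X0 s) {w' : Word β} {X' Y' : List (Pt β)}
    (hw' : relabel f w' = u ++ (sh A.length s ++ v)) (hX' : relabelPts f X' = X)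
    (hrun : Run w' X' Y') :
    ∃ w'' : Word β, relabel f w'' = u ++ (sh A.length r ++ v) ∧ Run w'' X' Y' ∧
      ∀ F : α → β, f ∘ F = id → X' = relabelPts F X →
        w'' = relabel F (u ++ (sh A.length r ++ v)) →
        w' = relabel F (u ++ (sh A.length s ++ v)) := by
  obtain ⟨u', s', r', v', A', C', X0', Y0', rfl, h1, h2, h3, h4, h5, h6, h7, h8, h9, h10, h11,
    h12⟩ := lift_step hu hs hL hw' hX' hrun
  have lA : A'.length = A.length := by rw [← h5]; simp
  refine ⟨u' ++ (sh A.length r' ++ v'), by simp [h1, h3, h4], ?_, ?_⟩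
  · refine h9.append (Run.append ?_ h12)
    have := h11.shift A' C'
    rwa [lA] at this
  · intro F hid hXF key
    rw [relabel_append, relabel_append] at key
    have lu : u'.length = (relabel F u).length := by
      rw [← h1]; simp [relabel]
    obtain ⟨k1, k2⟩ := List.append_inj key lu
    have lr : (sh A.length r').length = (relabel F (sh A.length r)).length := by
      rw [← h4]; simp [relabel, sh]
    obtain ⟨k3, k4⟩ := List.append_inj k2 lr
    have hu2 := hu.relabel F
    rw [k1, hXF] at h9
    have hZ := h9.det hu2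
    rw [relabelPts_append, relabelPts_append] at hZ
    obtain ⟨e1, e2⟩ := List.append_inj hZ (by rw [lA]; simp)
    obtain ⟨e3, e4⟩ := List.append_inj e2 (by rw [← h6]; simp)
    have hr' : r' = relabel F r := sh_inj (k := A.length) (by simpa using k3)
    have hY0 : Y0' = relabelPts F Y0 := by
      have := hr.relabel F
      rw [hr', e3] at h11
      exact h11.det this
    have hs' : s' = relabel F s := by
      refine hR s' _ X0' Y0' h2 (by rw [relabel_relabel, hid, relabel_id]) h6 h10 ?_
      rw [e3, hY0]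
      exact hs.relabel _
    rw [k1, k4, hs']
    simp

/-- all labellings (with colours) of a word without boundary are given by colouring labels -/
def LabCol (w : Word α) : Prop :=
  ∀ w' : Word (α × Bool), relabel Prod.fst w' = w → Run w' [] [] →
    ∃ f : α → Bool, w' = relabel (fun i => (i, f i)) w

theorem fst_comp_col (f : α → Bool) :
    (Prod.fst : α × Bool → α) ∘ (fun i => (i, f i)) = id := rfl

theorem Step.labCol {w w' : Word α} (h : Step [] [] w w') (hw : LabCol w) : LabCol w' := by
  cases h with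
  | @mk A C X0 Y0 u r s v hu hm hv =>
    intro w1 h1 h2
    obtain ⟨w2, k1, k2, k3⟩ := label_step hu hm.run_right hm.run_left (hm.liftTo Prod.fst).2
      (hm.rigid Prod.fst).2 h1 rfl h2
    obtain ⟨f, hf⟩ := hw w2 k1 k2
    exact ⟨f, k3 _ (fst_comp_col f) rfl hf⟩

theorem Step.labCol' {w w' : Word α} (h : Step [] [] w w') (hw : LabCol w') : LabCol w := by
  cases h with
  | @mk A C X0 Y0 u r s v hu hm hv =>
    intro w1 h1 h2
    obtain ⟨w2, k1, k2, k3⟩ := label_step hu hm.run_left hm.run_right (hm.liftTo Prod.fst).1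
      (hm.rigid Prod.fst).1 h1 rfl h2
    obtain ⟨f, hf⟩ := hw w2 k1 k2
    exact ⟨f, k3 _ (fst_comp_col f) rfl hf⟩

theorem Iso.labCol {w w' : Word α} (h : Iso [] [] w w') : LabCol w ↔ LabCol w' := by
  induction h with
  | rel _ _ h => exact ⟨h.labCol, h.labCol'⟩
  | refl _ => rfl
  | symm _ _ _ ih => exact ih.symm
  | trans _ _ _ _ _ ih1 ih2 => exact ih1.trans ih2

theorem labCol_cc {u v : Word α} {p : ℕ} {s t : Bool}
    (h : LabCol (u ++ (p, Gen.crs s) :: v)) : LabCol (u ++ (p, Gen.crs t) :: v) := by
  intro w' h1 h2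
  obtain ⟨u', w1, rfl, h3, h4⟩ := relabel_eq_append h1
  obtain ⟨g, v', rfl, h5, h6⟩ := relabel_eq_cons h4
  simp only at h5
  obtain rfl := gen_crs_of_relabel h5
  obtain ⟨f, hf⟩ := h (u' ++ (p, Gen.crs s) :: v') (by simp [h3, h6, Gen.relabel])
    (Run.crs_change h2)
  refine ⟨f, ?_⟩
  rw [relabel_append, relabel_cons] at hf ⊢
  obtain ⟨k1, k2⟩ := List.append_inj hf (by rw [← h3]; simp [relabel])
  rw [k1]
  simp only [Gen.relabel, List.cons.injEq, true_and] at k2
  rw [k2]
  simp [Gen.relabel]

theorem E1.labCol {w w' : Word α} (h : E1 [] [] w w') : LabCol w ↔ LabCol w' := by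
  induction h with
  | rel _ _ h =>
    cases h with
    | iso h => exact h.labCol
    | cc h => exact ⟨labCol_cc, labCol_cc⟩
  | refl _ => rfl
  | symm _ _ _ ih => exact ih.symm
  | trans _ _ _ _ _ ih1 ih2 => exact ih1.trans ih2

/-- the label `i` occurs in the word `w` -/
def OccW (i : α) (w : Word α) : Prop := ∃ (p : ℕ) (o : Bool), (p, Gen.cup (i, o)) ∈ w

theorem OccW.left {i : α} {u v : Word α} (h : OccW i u) : OccW i (u ++ v) := by
  obtain ⟨p, o, h⟩ := h
  exact ⟨p, o, by simp [h]⟩

theorem OccW.right {i : α} {u v : Word α} (h : OccW i v) : OccW i (u ++ v) := by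
  obtain ⟨p, o, h⟩ := h
  exact ⟨p, o, by simp [h]⟩

theorem occW_append {i : α} {u v : Word α} : OccW i (u ++ v) ↔ OccW i u ∨ OccW i v := by
  constructor
  · rintro ⟨p, o, h⟩
    rw [List.mem_append] at h
    rcases h with h | h
    · exact Or.inl ⟨p, o, h⟩
    · exact Or.inr ⟨p, o, h⟩
  · rintro (h | h)
    · exact h.left
    · exact h.right

theorem occW_sh {i : α} {k : ℕ} {w : Word α} : OccW i (sh k w) ↔ OccW i w := by
  constructor
  · rintro ⟨p, o, h⟩
    simp only [sh, List.mem_map] at h
    obtain ⟨⟨q, g⟩, h1, h2⟩ := h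
    simp only [Prod.mk.injEq] at h2
    obtain ⟨_, rfl⟩ := h2
    exact ⟨q, o, h1⟩
  · rintro ⟨p, o, h⟩
    refine ⟨p + k, o, ?_⟩
    simp only [sh, List.mem_map]
    exact ⟨(p, _), h, rfl⟩

theorem Run.occW {u : Word α} {X Y : List (Pt α)} (h : Run u X Y) :
    ∀ a ∈ Y, (∃ b ∈ X, b.1 = a.1) ∨ OccW a.1 u := by
  induction h with
  | nil X => intro a ha; exact Or.inl ⟨a, ha, rfl⟩
  | @cons A B C D Y g w hg _ ih =>
    intro a ha
    rcases ih a ha with ⟨b, hb, hba⟩ | h
    · simp only [List.mem_append] at hb
      rcases hb with hb | hb | hb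
      · exact Or.inl ⟨b, by simp [hb], hba⟩
      · cases hg with
        | cup c =>
          right
          refine ⟨A.length, c.2, ?_⟩
          have : b.1 = c.1 := by
            simp only [List.mem_cons, List.not_mem_nil, or_false] at hb
            rcases hb with rfl | rfl <;> rfl
          rw [← hba, this]
          simp
        | cap c => simp at hb
        | crs s c d =>
          left
          refine ⟨b, ?_, hba⟩
          simp only [List.mem_cons, List.not_mem_nil, or_false] at hb
          rcases hb with rfl | rfl <;> simp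
      · exact Or.inl ⟨b, by simp [hb], hba⟩
    · obtain ⟨p, o, h⟩ := h
      exact Or.inr ⟨p, o, by simp [h]⟩

theorem Move.occW {X Y : List (Pt α)} {r s : Word α} (h : Move X Y r s) {i : α} :
    (OccW i r → OccW i s ∨ ∃ a ∈ X, a.1 = i) ∧ (OccW i s → OccW i r ∨ ∃ a ∈ X, a.1 = i) := by
  cases h with
  | @comm g h B C B' C' hg hh M =>
    constructor
    · rintro ⟨p, o, h⟩
      left
      simp only [List.mem_cons, Prod.mk.injEq, List.not_mem_nil, or_false] at h
      rcases h with ⟨_, rfl⟩ | ⟨_, rfl⟩
      · exact ⟨0, o, by simp⟩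
      · exact ⟨B.length + M.length, o, by simp⟩
    · rintro ⟨p, o, h⟩
      left
      simp only [List.mem_cons, Prod.mk.injEq, List.not_mem_nil, or_false] at h
      rcases h with ⟨_, rfl⟩ | ⟨_, rfl⟩
      · exact ⟨C.length + M.length, o, by simp⟩
      · exact ⟨0, o, by simp⟩
  | zig a =>
    constructor
    · rintro ⟨p, o, h⟩
      right
      simp only [List.mem_cons, Prod.mk.injEq, List.not_mem_nil, or_false, Gen.cup.injEq,
        reduceCtorEq, and_false] at h
      exact ⟨a, by simp, by simpa [op] using (congrArg Prod.fst h.2).symm⟩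
    · rintro ⟨p, o, h⟩
      simp at h
  | zag a =>
    constructor
    · rintro ⟨p, o, h⟩
      right
      simp only [List.mem_cons, Prod.mk.injEq, List.not_mem_nil, or_false, Gen.cup.injEq,
        reduceCtorEq, and_false] at h
      exact ⟨a, by simp, by simpa using (congrArg Prod.fst h.2).symm⟩
    · rintro ⟨p, o, h⟩
      simp at h
  | r1cup a s =>
    constructor
    · rintro ⟨p, o, h⟩
      left
      simp only [List.mem_cons, Prod.mk.injEq, List.not_mem_nil, or_false, Gen.cup.injEq,
        reduceCtorEq, and_false] at h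
      obtain ⟨_, rfl⟩ := h
      exact ⟨0, !o, by simp [op]⟩
    · rintro ⟨p, o, h⟩
      left
      simp only [List.mem_cons, Prod.mk.injEq, List.not_mem_nil, or_false, Gen.cup.injEq,
        reduceCtorEq, and_false] at h
      have h1 : i = a.1 := congrArg Prod.fst h.2
      exact ⟨0, a.2, by simp [h1]⟩
  | r1cap a s =>
    constructor
    · rintro ⟨p, o, h⟩; simp at h
    · rintro ⟨p, o, h⟩; simp at h
  | r2 a b s =>
    constructor
    · rintro ⟨p, o, h⟩; simp at h
    · rintro ⟨p, o, h⟩; simp at h
  | r3 a b c s =>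
    constructor
    · rintro ⟨p, o, h⟩; simp at h
    · rintro ⟨p, o, h⟩; simp at h
  | slideCup a b s =>
    constructor
    · rintro ⟨p, o, h⟩
      left
      simp only [List.mem_cons, Prod.mk.injEq, List.not_mem_nil, or_false, Gen.cup.injEq,
        reduceCtorEq, and_false] at h
      exact ⟨1, o, by simp [h.2]⟩
    · rintro ⟨p, o, h⟩
      left
      simp only [List.mem_cons, Prod.mk.injEq, List.not_mem_nil, or_false, Gen.cup.injEq,
        reduceCtorEq, and_false] at h
      exact ⟨0, o, by simp [h.2]⟩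
  | slideCap a b s =>
    constructor
    · rintro ⟨p, o, h⟩; simp at h
    · rintro ⟨p, o, h⟩; simp at h

theorem Step.occW {i : α} {Y : List (Pt α)} {w w' : Word α} (h : Step [] Y w w') :
    OccW i w ↔ OccW i w' := by
  cases h with
  | @mk A C X0 Y0 u r s v hu hm hv =>
    have hlev : ∀ a ∈ X0, a.1 = i → OccW i u := by
      intro a ha hai
      rcases hu.occW a (by simp [ha]) with ⟨b, hb, _⟩ | h
      · simp at hb
      · rwa [hai] at h
    simp only [occW_append, occW_sh]
    constructor
    · rintro (h | h | h)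
      · exact Or.inl h
      · rcases hm.occW.1 h with h | ⟨a, ha, hai⟩
        · exact Or.inr (Or.inl h)
        · exact Or.inl (hlev a ha hai)
      · exact Or.inr (Or.inr h)
    · rintro (h | h | h)
      · exact Or.inl h
      · rcases hm.occW.2 h with h | ⟨a, ha, hai⟩
        · exact Or.inr (Or.inl h)
        · exact Or.inl (hlev a ha hai)
      · exact Or.inr (Or.inr h)

theorem E1.occW {i : α} {Y : List (Pt α)} {w w' : Word α} (h : E1 [] Y w w') :
    OccW i w ↔ OccW i w' := by
  induction h with
  | rel _ _ h =>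
    cases h with
    | iso h =>
      induction h with
      | rel _ _ h => exact h.occW
      | refl _ => rfl
      | symm _ _ _ ih => exact ih.symm
      | trans _ _ _ _ _ ih1 ih2 => exact ih1.trans ih2
    | cc h =>
      constructor
      · rintro ⟨p, o, h⟩; exact ⟨p, o, by simpa using h⟩
      · rintro ⟨p, o, h⟩; exact ⟨p, o, by simpa using h⟩
  | refl _ => rfl
  | symm _ _ _ ih => exact ih.symm
  | trans _ _ _ _ _ ih1 ih2 => exact ih1.trans ih2

theorem LinkWord.e1 {m : ℕ} {w w' : Word (Fin m)} (hw : LinkWord m w) (h : E1 [] [] w w') :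
    LinkWord m w' :=
  ⟨h.run hw.1, fun i => h.occW.1 (hw.2.1 i), h.labCol.1 hw.2.2⟩

theorem LinkWord.iso {m : ℕ} {w w' : Word (Fin m)} (hw : LinkWord m w) (h : Iso [] [] w w') :
    LinkWord m w' := hw.e1 h.e1

end MP5b16f0
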