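import Pool.Agent.Lib.MP_5b16f0_gt.Splice

/-!
# Pulling marked points to the top or to the bottom
-/

namespace MP5b16f0

universe u v

variable {α : Type u} {β : Type v}

/-! ### Attaching and emitting fingers -/

/-- a finger which is attached to a strand and capped off by a cup retracts -/
theorem cup_att {x q : Pt α} (hq : q.1 = x.1) (C : List (Pt α)) :
    Iso (q :: C) (q :: C) ((C.length + 1, Gen.cup (op x)) :: att x q C.length) [] := by
  have rc : Run [(0, Gen.cup (op x))] [] [op x, x] := by exact Run.cast (run_cup (op x) [] []) (by first | rfl | (simp; done) | (simp; omega) | (simp; ring_nf; done) | (simp; constructor <;> (first | rfl | omega | (ring_nf; done))) | (ring_nf; done)) (by first | rfl | (simp; done) | (simp; omega) | (simp; ring_nf; done) | (simp; constructor <;> (first | rfl | omega | (ring_nf; done))) | (ring_nf; done)) (by first | rfl | (simp; done) | (simp; omega) | (simp; ring_nf; done) | (simp; constructor <;> (first | rfl | omega | (ring_nf; done))) | (ring_nf; done))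
  have n2 := ((natB2 false C rc).shiftL [q]).appR (v := attG x q) (Y' := q :: C)
    (by exact Run.cast ((run_attG hq).right C) (by first | rfl | (simp; done) | (simp; omega) | (simp; ring_nf; done) | (simp; constructor <;> (first | rfl | omega | (ring_nf; done))) | (ring_nf; done)) (by first | rfl | (simp; done) | (simp; omega) | (simp; ring_nf; done) | (simp; constructor <;> (first | rfl | omega | (ring_nf; done))) | (ring_nf; done)) (by first | rfl | (simp; done) | (simp; omega) | (simp; ring_nf; done) | (simp; constructor <;> (first | rfl | omega | (ring_nf; done))) | (ring_nf; done)))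
  have n3 : Iso [q] [q] ((1, Gen.cup (op x)) :: attG x q) [] := by
    rcases eq_or_op hq with ⟨g1, g2⟩ | ⟨g1, g2⟩
    · subst g2
      have := (Move.zig q).iso
      simpa [attG] using this
    · subst g2
      have m1 := (natR false (op x) rc).appR (v := [(1, Gen.cap x)]) (Y' := [op x])
        (run1 (Gen.Acts.cap x) [op x] [] rfl rfl rfl |> fun h => by
          have h2 : Run [(1, Gen.cap x)] [op x, x, op x] [op x] := h
          simpa using h2)
      have m2 := (mv_zag (a := op x) (b := x) (by simp))
      refine Iso.trans (Iso.of_eq ?_) (m1.symm.trans (Iso.trans (Iso.of_eq ?_) m2))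
      · simp [attG, op_ne]
      · simp
  have n3' := n3.right C
  refine Iso.trans (Iso.of_eq ?_) ((n2.symm.cast (by simp) rfl).trans
    (Iso.trans (Iso.of_eq ?_) (n3'.cast (by simp) (by simp))))
  · simp [att, Nat.add_comm]
  · simp

/-- the strand `q` emits the finger `[op x, x]` -/
def detG (x q : Pt α) : Word α :=
  if q.2 = x.2 then [(0, Gen.cup x)] else (1, Gen.cup x) :: blkR true 2 1

/-- the strand `q` emits a finger which passes over `k` strands to the right -/
def det (x q : Pt α) (k : ℕ) : Word α := detG x q ++ sh 1 (blkR true 2 k)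

theorem run_detG {x q : Pt α} (h : q.1 = x.1) : Run (detG x q) [q] [q, op x, x] := by
  rcases eq_or_op h with ⟨g1, g2⟩ | ⟨g1, g2⟩
  · subst g2
    have := run_cup q [] [q]
    simpa [detG] using this
  · subst g2
    have h1 := run_cup x [op x] []
    have h2 := run_blkR true [op x, x] [op x]
    simp at h1 h2
    have := h1.append h2
    simpa [detG, op_ne] using this

theorem run_det {x q : Pt α} (h : q.1 = x.1) (C : List (Pt α)) :
    Run (det x q C.length) (q :: C) (q :: (C ++ [op x, x])) := by
  have h1 := (run_detG h).right C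
  have h2 := (run_blkR true [op x, x] C).shiftL [q]
  simp at h1 h2
  exact h1.append h2

/-- an emitted finger which is capped off retracts -/
theorem det_cap {x q : Pt α} (h : q.1 = x.1) (C : List (Pt α)) :
    Iso (q :: C) (q :: C) (det x q C.length ++ [(C.length + 1, Gen.cap (op x))]) [] := by
  have rc : Run [(0, Gen.cap (op x))] [op x, x] [] := by
    have := run_cap (op x) [] []
    simpa using this
  have e1 := ((natB1 true C rc).symm.shiftL [q]).appL (u := detG x q) (X' := q :: C) (by
    have := (run_detG h).right C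
    simpa using this)
  have e2 : Iso [q] [q] (detG x q ++ [(1, Gen.cap (op x))]) [] := by
    rcases eq_or_op h with ⟨g1, g2⟩ | ⟨g1, g2⟩
    · subst g2
      have := (Move.zag q).iso
      simpa [detG] using this
    · subst g2
      have m1 := (natB1 true [op x] rc).symm.appL (u := [(1, Gen.cup x)]) (X' := [op x]) (by
        have := run_cup x [op x] []
        simpa using this)
      have m2 := (mv_zig (a := op x) (b := x) (by simp))
      refine Iso.trans (Iso.of_eq ?_) ((m1.cast rfl (by simp)).trans (Iso.trans (Iso.of_eq ?_)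
        m2))
      · simp [detG, op_ne]
      · simp
  refine Iso.trans (Iso.of_eq ?_) ((e1.cast rfl (by simp)).trans (Iso.trans (Iso.of_eq ?_)
    ((e2.right C).cast (by simp) (by simp))))
  · simp [det]
  · simp

theorem det_comm {x q : Pt α} (h : q.1 = x.1) {w : Word α} {C C' : List (Pt α)}
    (hw : Run w C C') :
    Iso (q :: C) (q :: (C' ++ [op x, x])) (det x q C.length ++ sh 1 w)
      (sh 1 w ++ det x q C'.length) := by
  have e1 := ((natB2 true [op x, x] hw).shiftL [q]).appL (u := detG x q) (X' := q :: C) (by
    have := (run_detG h).right C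
    simpa using this)
  have e2 := (interchange (run_detG h) hw).appR (v := sh 1 (blkR true 2 C'.length))
    (Y' := q :: (C' ++ [op x, x])) (by
      have := (run_blkR true [op x, x] C').shiftL [q]
      simpa using this)
  refine Iso.trans (Iso.of_eq ?_) ((e1.cast rfl (by simp)).trans (Iso.trans (Iso.of_eq ?_)
    ((e2.cast (by simp) rfl).trans (Iso.of_eq ?_))))
  · simp [det]
  · simp
  · simp [det]

/-! ### Ghosts -/

/-- the fingers with labels `H` -/
def gh (H : List α) : List (Pt α) := prs (H.map (fun i => (i, true)))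

/-- the cups creating the fingers with labels `H` -/
def cupsH (H : List α) : Word α := cups (H.map (fun i => (i, true)))

/-- the caps closing the fingers with labels `H` -/
def capsH : List α → Word α
  | [] => []
  | i :: H => (0, Gen.cap (i, false)) :: capsH H

@[simp] theorem gh_nil : gh ([] : List α) = [] := rfl
@[simp] theorem gh_cons (i : α) (H : List α) : gh (i :: H) = (i, false) :: (i, true) :: gh H := rfl
@[simp] theorem gh_append (H K : List α) : gh (H ++ K) = gh H ++ gh K := by simp [gh]
@[simp] theorem length_gh (H : List α) : (gh H).length = 2 * H.length := by simp [gh]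
@[simp] theorem cupsH_nil : cupsH ([] : List α) = [] := rfl
theorem cupsH_cons (i : α) (H : List α) :
    cupsH (i :: H) = (0, Gen.cup (i, false)) :: sh 2 (cupsH H) := rfl
theorem cupsH_append (H K : List α) :
    cupsH (H ++ K) = cupsH H ++ sh (gh H).length (cupsH K) := by
  simp [cupsH, gh, cups_append]
theorem run_cupsH (H : List α) : Run (cupsH H) [] (gh H) := run_cups _
@[simp] theorem capsH_nil : capsH ([] : List α) = [] := rfl
theorem capsH_cons (i : α) (H : List α) :
    capsH (i :: H) = (0, Gen.cap (i, false)) :: capsH H := rfl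
theorem capsH_append (H K : List α) : capsH (H ++ K) = capsH H ++ capsH K := by
  induction H with
  | nil => rfl
  | cons i H ih => simp [capsH_cons, ih]
theorem run_capsH (H : List α) : Run (capsH H) (gh H) [] := by
  induction H with
  | nil => exact Run.nil _
  | cons i H ih =>
    have := run_cap (i, false) [] (gh H)
    exact this.append ih

theorem op_tt (i : α) : op ((i, true) : Pt α) = (i, false) := rfl
theorem op_ff (i : α) : op ((i, false) : Pt α) = (i, true) := rfl

/-- creating the fingers `G1 ++ i :: G2` is the same as creating first `G1 ++ G2` -/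
theorem cupsH_insert (G1 : List α) (i : α) (G2 : List α) :
    Iso [] (gh (G1 ++ i :: G2)) (cupsH (G1 ++ i :: G2))
      (cupsH (G1 ++ G2) ++ [((gh G1).length, Gen.cup (i, false))]) := by
  have rc : Run [(0, Gen.cup (i, false))] [] [(i, false), (i, true)] := by
    have := run_cup ((i, false) : Pt α) [] []
    simpa [op_ff] using this
  have e1 := ((interchange rc (run_cupsH G2)).shiftL (gh G1)).appL (u := cupsH G1) (X' := [])
    (by simpa using run_cupsH G1)
  refine Iso.trans (Iso.of_eq ?_) ((e1.cast rfl (by simp)).trans (Iso.of_eq ?_))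
  · simp [cupsH_append, cupsH_cons]
  · simp [cupsH_append]

/-- closing the fingers `H1 ++ i :: H2` is the same as closing `i` first -/
theorem capsH_insert (H1 : List α) (i : α) (H2 : List α) :
    Iso (gh (H1 ++ i :: H2)) [] (capsH (H1 ++ i :: H2))
      ((((gh H1).length, Gen.cap (i, false))) :: capsH (H1 ++ H2)) := by
  have rc : Run [(0, Gen.cap (i, false))] [(i, false), (i, true)] [] := by
    have := run_cap ((i, false) : Pt α) [] []
    simpa [op_ff] using this
  have e1 := ((interchange (run_capsH H1) rc).right (gh H2)).appR (v := capsH H2) (Y' := [])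
    (by simpa using run_capsH H2)
  refine Iso.trans (Iso.of_eq ?_) ((e1.cast (by simp) rfl).trans (Iso.of_eq ?_))
  · simp [capsH_append, capsH_cons]
  · simp [capsH_append]

/-! ### Words with marks -/

/-- `Em X H Y H' w T` : the word `T` is obtained from the word `w` from `X` to `Y` by emitting
fingers which are brought to the right of the level; the fingers present at the bottom are `H`,
the fingers present at the top are `H'`. -/
inductive Em : List (Pt α) → List α → List (Pt α) → List α → Word α → Word α → Prop
  | nil (X : List (Pt α)) (H : List α) : Em X H X H [] []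
  | gen {A B C D Y : List (Pt α)} {H H' : List α} {g : Gen α} {w T : Word α} (hg : g.Acts B C)
      (h : Em (A ++ (C ++ D)) H Y H' w T) :
      Em (A ++ (B ++ D)) H Y H' ((A.length, g) :: w) ((A.length, g) :: T)
  | emit {A D Y : List (Pt α)} {q : Pt α} {i : α} {H1 H2 H' : List α} {w T : Word α}
      (hq : q.1 = i) (h : Em (A ++ q :: D) (H1 ++ i :: H2) Y H' w T) :
      Em (A ++ q :: D) (H1 ++ H2) Y H' w
        (sh A.length (det (i, true) q (D ++ gh H1).length) ++ T)

/-- `Ab X G Y w C` : the word `C` is obtained from the word `w` from `X` to `Y` by absorbing the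
fingers `G`, which are at the right of the level. -/
inductive Ab : List (Pt α) → List α → List (Pt α) → Word α → Word α → Prop
  | nil (X : List (Pt α)) : Ab X [] X [] []
  | gen {A B C D Y : List (Pt α)} {G : List α} {g : Gen α} {w c : Word α} (hg : g.Acts B C)
      (h : Ab (A ++ (C ++ D)) G Y w c) :
      Ab (A ++ (B ++ D)) G Y ((A.length, g) :: w) ((A.length, g) :: c)
  | absb {A D Y : List (Pt α)} {q : Pt α} {i : α} {G1 G2 : List α} {w c : Word α}
      (hq : q.1 = i) (h : Ab (A ++ q :: D) (G1 ++ G2) Y w c) :
      Ab (A ++ q :: D) (G1 ++ i :: G2) Y w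
        (sh A.length (att (i, true) q (D ++ gh G1).length) ++ c)

/-- fingers are absorbed and emitted -/
inductive Mrg : List (Pt α) → List α → List α → List (Pt α) → List α → Word α → Word α →
    Word α → Prop
  | nil (X : List (Pt α)) (H : List α) : Mrg X [] H X H [] [] []
  | gen {A B C D Y : List (Pt α)} {G H H' : List α} {g : Gen α} {S T c : Word α}
      (hg : g.Acts B C) (h : Mrg (A ++ (C ++ D)) G H Y H' S T c) :
      Mrg (A ++ (B ++ D)) G H Y H' ((A.length, g) :: S) ((A.length, g) :: T) ((A.length, g) :: c)
  | emit {A D Y : List (Pt α)} {q : Pt α} {i : α} {G H1 H2 H' : List α} {S T c : Word α}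
      (hq : q.1 = i) (h : Mrg (A ++ q :: D) G (H1 ++ i :: H2) Y H' S T c) :
      Mrg (A ++ q :: D) G (H1 ++ H2) Y H'
        (sh A.length (det (i, true) q (D ++ (gh G ++ gh H1)).length) ++ S)
        (sh A.length (det (i, true) q (D ++ gh H1).length) ++ T) c
  | absb {A D Y : List (Pt α)} {q : Pt α} {i : α} {G1 G2 H H' : List α} {S T c : Word α}
      (hq : q.1 = i) (h : Mrg (A ++ q :: D) (G1 ++ G2) H Y H' S T c) :
      Mrg (A ++ q :: D) (G1 ++ i :: G2) H Y H'
        (sh A.length (att (i, true) q (D ++ gh G1).length) ++ S) T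
        (sh A.length (att (i, true) q (D ++ gh G1).length) ++ c)

theorem Em.run {X Y : List (Pt α)} {H H' : List α} {w T : Word α} (h : Em X H Y H' w T) :
    Run T (X ++ gh H) (Y ++ gh H') := by
  induction h with
  | nil X H => exact Run.nil _
  | @gen A B C D Y H H' g w T hg _ ih =>
    have := Run.cons (A := A) (D := D ++ gh H) hg (by simpa using ih)
    simpa using this
  | @emit A D Y q i H1 H2 H' w T hq _ ih =>
    have h1 := ((run_det (x := (i, true)) hq (D ++ gh H1)).shift A (gh H2))
    exact Run.append (by simpa [op_tt] using h1) (by simpa using ih)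

theorem Em.run_und {X Y : List (Pt α)} {H H' : List α} {w T : Word α} (h : Em X H Y H' w T) :
    Run w X Y := by
  induction h with
  | nil X H => exact Run.nil _
  | gen hg _ ih => exact Run.cons hg ih
  | emit _ _ ih => exact ih

theorem Ab.run {X Y : List (Pt α)} {G : List α} {w c : Word α} (h : Ab X G Y w c) :
    Run c (X ++ gh G) Y := by
  induction h with
  | nil X => simpa using Run.nil X
  | @gen A B C D Y G g w c hg _ ih =>
    have := Run.cons (A := A) (D := D ++ gh G) hg (by simpa using ih)
    simpa using this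
  | @absb A D Y q i G1 G2 w c hq _ ih =>
    have h1 := ((run_att (x := (i, true)) hq (D ++ gh G1)).shift A (gh G2))
    exact Run.append (by simpa [op_tt] using h1) (by simpa using ih)

theorem Mrg.run {X Y : List (Pt α)} {G H H' : List α} {S T c : Word α}
    (h : Mrg X G H Y H' S T c) : Run S (X ++ (gh G ++ gh H)) (Y ++ gh H') ∧
      Run T (X ++ gh H) (Y ++ gh H') ∧ Run c (X ++ gh G) Y := by
  induction h with
  | nil X H => exact ⟨by simpa using Run.nil (X ++ gh H), Run.nil _, by simpa using Run.nil X⟩
  | @gen A B C D Y G H H' g S T c hg _ ih =>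
    refine ⟨?_, ?_, ?_⟩
    · have := Run.cons (A := A) (D := D ++ (gh G ++ gh H)) hg (by simpa using ih.1)
      simpa using this
    · have := Run.cons (A := A) (D := D ++ gh H) hg (by simpa using ih.2.1)
      simpa using this
    · have := Run.cons (A := A) (D := D ++ gh G) hg (by simpa using ih.2.2)
      simpa using this
  | @emit A D Y q i G H1 H2 H' S T c hq _ ih =>
    refine ⟨?_, ?_, ?_⟩
    · have h1 := ((run_det (x := (i, true)) hq (D ++ (gh G ++ gh H1))).shift A (gh H2))
      exact Run.append (by simpa [op_tt] using h1) (by simpa using ih.1)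
    · have h1 := ((run_det (x := (i, true)) hq (D ++ gh H1)).shift A (gh H2))
      exact Run.append (by simpa [op_tt] using h1) (by simpa using ih.2.1)
    · exact ih.2.2
  | @absb A D Y q i G1 G2 H H' S T c hq _ ih =>
    refine ⟨?_, ?_, ?_⟩
    · have h1 := ((run_att (x := (i, true)) hq (D ++ gh G1)).shift A (gh G2 ++ gh H))
      exact Run.append (by simpa [op_tt] using h1) (by simpa using ih.1)
    · exact ih.2.1
    · have h1 := ((run_att (x := (i, true)) hq (D ++ gh G1)).shift A (gh G2))
      exact Run.append (by simpa [op_tt] using h1) (by simpa using ih.2.2)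

/-- closing the fingers at the bottom -/
theorem Mrg.bot {X Y : List (Pt α)} {G H H' : List α} {S T c : Word α}
    (h : Mrg X G H Y H' S T c) :
    Iso (X ++ gh H) (Y ++ gh H') (sh X.length (cupsH G) ++ S) T := by
  induction h with
  | nil X H => exact Iso.refl _
  | @gen A B C D Y G H H' g S T c hg h ih =>
    have rg := Run.single hg A D
    have rgT : Run [(A.length, g)] (A ++ (B ++ D) ++ gh H) (A ++ (C ++ D) ++ gh H) :=
      rg.right (gh H)
    have e1 := ((interchange rg (run_cupsH G)).symm.right (gh H)).appR (v := S)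
      (Y' := Y ++ gh H') (by simpa using h.run.1)
    have e2 := ih.appL rgT
    refine Iso.trans (Iso.of_eq ?_) ((e1.cast (by simp) rfl).trans (Iso.trans (Iso.of_eq ?_)
      (e2.trans (Iso.of_eq ?_))))
    · simp
    · simp
    · simp
  | @emit A D Y q i G H1 H2 H' S T c hq h ih =>
    have rc := (run_cupsH G).shift D (gh H1)
    have e1 := ((det_comm (x := (i, true)) hq rc).symm.shift A (gh H2)).appR (v := S)
      (Y' := Y ++ gh H') (by
        have := h.run.1
        simpa [op_tt] using this)
    have e2 := ih.appL (u := sh A.length (det (i, true) q (D ++ gh H1).length))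
      (X' := A ++ q :: D ++ gh (H1 ++ H2)) (by
        have := ((run_det (x := (i, true)) hq (D ++ gh H1)).shift A (gh H2))
        simpa [op_tt] using this)
    refine Iso.trans (Iso.of_eq ?_) ((e1.cast (by simp) rfl).trans (Iso.trans (Iso.of_eq ?_)
      (e2.trans (Iso.of_eq ?_))))
    · simp
      congr 1
      omega
    · simp
      congr 1
      omega
    · simp
  | @absb A D Y q i G1 G2 H H' S T c hq h ih =>
    have e1 := ((cupsH_insert G1 i G2).shift (A ++ q :: D) (gh H)).appR
      (v := sh A.length (att (i, true) q (D ++ gh G1).length) ++ S) (Y' := Y ++ gh H') (by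
        have h1 := ((run_att (x := (i, true)) hq (D ++ gh G1)).shift A (gh G2 ++ gh H))
        exact Run.append (by simpa [op_tt] using h1) (by simpa using h.run.1))
    have e2 := ((cup_att (x := (i, true)) hq (D ++ gh G1)).shift A (gh G2 ++ gh H)).congr
      (u := sh (A ++ q :: D).length (cupsH (G1 ++ G2))) (v := S)
      (X' := A ++ q :: D ++ gh H) (Y' := Y ++ gh H') (by
        have := (run_cupsH (G1 ++ G2)).shift (A ++ q :: D) (gh H)
        simpa using this) (by simpa using h.run.1)
    refine Iso.trans (Iso.of_eq ?_) ((e1.cast (by simp) rfl).trans (Iso.trans (Iso.of_eq ?_)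
      ((e2.cast rfl rfl).trans (Iso.trans (Iso.of_eq ?_) ih))))
    · simp
    · simp [op_tt]
      omega
    · simp

/-- closing the fingers at the top -/
theorem Mrg.top {X Y : List (Pt α)} {G H H' : List α} {S T c : Word α}
    (h : Mrg X G H Y H' S T c) :
    Iso (X ++ (gh G ++ gh H)) Y (S ++ sh Y.length (capsH H'))
      (sh (X ++ gh G).length (capsH H) ++ c) := by
  induction h with
  | nil X H => exact Iso.of_eq (by simp)
  | @gen A B C D Y G H H' g S T c hg h ih =>
    have rg := Run.single hg A (D ++ gh G)
    have e1 := ih.appL (u := [(A.length, g)]) (X' := A ++ (B ++ D) ++ (gh G ++ gh H)) (by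
      have := rg.right (gh H)
      simpa using this)
    have e2 := (interchange rg (run_capsH H)).appR (v := c) (Y' := Y) (by
      simpa using h.run.2.2)
    refine Iso.trans (Iso.of_eq ?_) (e1.trans (Iso.trans (Iso.of_eq ?_)
      ((e2.cast (by simp) rfl).trans (Iso.of_eq ?_))))
    · simp
    · simp
    · simp
  | @emit A D Y q i G H1 H2 H' S T c hq h ih =>
    have rd : Run (sh A.length (det (i, true) q (D ++ (gh G ++ gh H1)).length))
        (A ++ q :: D ++ (gh G ++ gh (H1 ++ H2))) (A ++ q :: D ++ (gh G ++ gh (H1 ++ i :: H2))) := by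
      have := ((run_det (x := (i, true)) hq (D ++ (gh G ++ gh H1))).shift A (gh H2))
      simpa [op_tt] using this
    have e1 := ih.appL rd
    have e2 := (((capsH_insert H1 i H2).shiftL (A ++ q :: D ++ gh G)).congr
      (u := sh A.length (det (i, true) q (D ++ (gh G ++ gh H1)).length)) (v := c)
      (X' := A ++ q :: D ++ (gh G ++ gh (H1 ++ H2))) (Y' := Y) (by simpa using rd)
      (by simpa using h.run.2.2))
    have e3 := ((det_cap (x := (i, true)) hq (D ++ (gh G ++ gh H1))).shift A (gh H2)).appR
      (v := sh (A ++ q :: D ++ gh G).length (capsH (H1 ++ H2)) ++ c) (Y' := Y) (by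
        have h1 := (run_capsH (H1 ++ H2)).shiftL (A ++ q :: D ++ gh G)
        have := h1.append (by simpa using h.run.2.2)
        simpa using this)
    refine Iso.trans (Iso.of_eq ?_) (e1.trans (Iso.trans (Iso.of_eq ?_) (e2.trans (Iso.trans
      (Iso.of_eq ?_) ((e3.cast (by simp) rfl).trans (Iso.of_eq ?_))))))
    · simp
    · simp
    · simp [op_tt]
      omega
    · simp
  | @absb A D Y q i G1 G2 H H' S T c hq h ih =>
    have ra := ((run_att (x := (i, true)) hq (D ++ gh G1)).shift A (gh G2))
    have e1 := ih.appL (u := sh A.length (att (i, true) q (D ++ gh G1).length))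
      (X' := A ++ q :: D ++ (gh (G1 ++ i :: G2) ++ gh H)) (by
        have := ra.right (gh H)
        simpa [op_tt] using this)
    have e2 := (interchange ra (run_capsH H)).appR (v := c) (Y' := Y) (by
      simpa using h.run.2.2)
    refine Iso.trans (Iso.of_eq ?_) (e1.trans (Iso.trans (Iso.of_eq ?_)
      ((e2.cast (by simp [op_tt]) rfl).trans (Iso.of_eq ?_))))
    · simp
    · simp
    · simp

/-- emitting and absorbing can be done simultaneously -/
theorem exists_mrg {X Y : List (Pt α)} {H H' : List α} {w T : Word α} (hT : Em X H Y H' w T) :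
    ∀ {G : List α} {c : Word α}, Ab X G Y w c → ∃ S, Mrg X G H Y H' S T c := by
  induction hT with
  | nil X H =>
    intro G c hc
    generalize hw : ([] : Word α) = w0 at hc
    have key : ∀ {X Y : List (Pt α)} {G : List α} {w c : Word α}, Ab X G Y w c → w = [] →
        ∃ S, X = Y ∧ Mrg X G H Y H S [] c := by
      intro X Y G w c hc
      induction hc with
      | nil X => intro _; exact ⟨[], rfl, Mrg.nil X H⟩
      | gen hg h _ => intro h; simp at h
      | absb hq h ih =>
        intro hw
        obtain ⟨S, hXY, hS⟩ := ih hw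
        exact ⟨_, hXY, Mrg.absb hq hS⟩
    obtain ⟨S, _, hS⟩ := key hc hw.symm
    subst hw
    exact ⟨S, hS⟩
  | @gen A B C D Y H H' g w T hg h ih =>
    have key : ∀ {X : List (Pt α)} {G : List α} {w' c : Word α}, Ab X G Y w' c →
        w' = (A.length, g) :: w → X = A ++ (B ++ D) →
        ∃ S, Mrg X G H Y H' S ((A.length, g) :: T) c := by
      intro X G w' c hc
      induction hc with
      | nil X => intro h; simp at h
      | @gen A' B' C' D' Y' G' g' w' c' hg' h' _ =>
        intro h1 h2
        simp only [List.cons.injEq, Prod.mk.injEq] at h1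
        obtain ⟨⟨h3, rfl⟩, rfl⟩ := h1
        obtain ⟨rfl, h4⟩ := List.append_inj h2 h3
        obtain ⟨rfl, rfl⟩ := List.append_inj h4 (hg'.len hg)
        obtain rfl := hg.det hg'
        obtain ⟨S, hS⟩ := ih h'
        exact ⟨_, Mrg.gen hg hS⟩
      | @absb A' D' Y' q i G1 G2 w' c' hq h' ih' =>
        intro h1 h2
        obtain ⟨S, hS⟩ := ih' h (fun {G c} => ih (G := G) (c := c)) h1 h2
        exact ⟨_, Mrg.absb hq hS⟩
    intro G c hc
    exact key hc rfl rfl
  | emit hq h ih =>
    intro G c hc
    obtain ⟨S, hS⟩ := ih hc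
    exact ⟨_, Mrg.emit hq hS⟩

theorem Em.append {X Y Z : List (Pt α)} {H H' H'' : List α} {u v T T' : Word α}
    (h : Em X H Y H' u T) (h' : Em Y H' Z H'' v T') : Em X H Z H'' (u ++ v) (T ++ T') := by
  induction h with
  | nil X H => simpa using h'
  | gen hg _ ih => exact Em.gen hg (ih h')
  | emit hq _ ih => rw [List.append_assoc]; exact Em.emit hq (ih h')

theorem Em.of_run {X Y : List (Pt α)} {u : Word α} (h : Run u X Y) (H : List α) :
    Em X H Y H u u := by
  induction h with
  | nil X => exact Em.nil X H
  | cons hg _ ih => exact Em.gen hg ih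

theorem Ab.of_run {X Y : List (Pt α)} {u : Word α} (h : Run u X Y) : Ab X [] Y u u := by
  induction h with
  | nil X => exact Ab.nil X
  | cons hg _ ih => exact Ab.gen hg ih

/-- one more finger at the right -/
theorem Em.weak {X Y : List (Pt α)} {H H' : List α} {w T : Word α} (h : Em X H Y H' w T)
    (i : α) : Em X (H ++ [i]) Y (H' ++ [i]) w T := by
  induction h with
  | nil X H => exact Em.nil _ _
  | gen hg _ ih => exact Em.gen hg ih
  | @emit A D Y q j H1 H2 H' w T hq _ ih =>
    rw [List.append_assoc]
    exact Em.emit hq (by simpa using ih)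

/-- one more finger is emitted -/
theorem Em.insert {X Y : List (Pt α)} {H H' : List α} {w T : Word α} (h : Em X H Y H' w T)
    {i : α} (hi : (∃ a ∈ X, a.1 = i) ∨ OccW i w) : ∃ T', Em X H Y (H' ++ [i]) w T' := by
  have now : ∀ {X Y : List (Pt α)} {H H' : List α} {w T : Word α}, Em X H Y H' w T →
      (∃ a ∈ X, a.1 = i) → ∃ T', Em X H Y (H' ++ [i]) w T' := by
    intro X Y H H' w T h ha
    obtain ⟨a, ha, hai⟩ := ha
    obtain ⟨A, D, rfl⟩ := List.append_of_mem ha
    have := Em.emit (H1 := H) (H2 := []) hai (h.weak i)
    exact ⟨_, by simpa using this⟩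
  induction h with
  | nil X H =>
    rcases hi with hi | ⟨p, o, hi⟩
    · exact now (Em.nil X H) hi
    · simp at hi
  | @gen A B C D Y H H' g w T hg h ih =>
    rcases hi with hi | ⟨p, o, hi⟩
    · exact now (Em.gen hg h) hi
    · rw [List.mem_cons] at hi
      rcases hi with hi | hi
      · simp only [Prod.mk.injEq] at hi
        obtain ⟨rfl, rfl⟩ := hi
        obtain ⟨T', hT'⟩ := ih (Or.inl (by
          cases hg
          exact ⟨(i, o), by simp, rfl⟩))
        exact ⟨_, Em.gen hg hT'⟩
      · obtain ⟨T', hT'⟩ := ih (Or.inr ⟨p, o, hi⟩)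
        exact ⟨_, Em.gen hg hT'⟩
  | emit hq h ih =>
    obtain ⟨T', hT'⟩ := ih hi
    exact ⟨_, Em.emit hq hT'⟩

/-- one more finger is absorbed -/
theorem Ab.insert {X Y : List (Pt α)} {G : List α} {w c : Word α} (h : Ab X G Y w c)
    {i : α} (hi : (∃ a ∈ X, a.1 = i) ∨ OccW i w) : ∃ c', Ab X (G ++ [i]) Y w c' := by
  have now : ∀ {X Y : List (Pt α)} {G : List α} {w c : Word α}, Ab X G Y w c →
      (∃ a ∈ X, a.1 = i) → ∃ c', Ab X (G ++ [i]) Y w c' := by
    intro X Y G w c h ha
    obtain ⟨a, ha, hai⟩ := ha
    obtain ⟨A, D, rfl⟩ := List.append_of_mem ha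
    exact ⟨_, Ab.absb (G1 := G) (G2 := []) hai (by simpa using h)⟩
  induction h with
  | nil X =>
    rcases hi with hi | ⟨p, o, hi⟩
    · exact now (Ab.nil X) hi
    · simp at hi
  | @gen A B C D Y G g w c hg h ih =>
    rcases hi with hi | ⟨p, o, hi⟩
    · exact now (Ab.gen hg h) hi
    · rw [List.mem_cons] at hi
      rcases hi with hi | hi
      · simp only [Prod.mk.injEq] at hi
        obtain ⟨rfl, rfl⟩ := hi
        obtain ⟨T', hT'⟩ := ih (Or.inl (by
          cases hg
          exact ⟨(i, o), by simp, rfl⟩))
        exact ⟨_, Ab.gen hg hT'⟩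
      · obtain ⟨T', hT'⟩ := ih (Or.inr ⟨p, o, hi⟩)
        exact ⟨_, Ab.gen hg hT'⟩
  | @absb A D Y q j G1 G2 w c hq h ih =>
    obtain ⟨c', hc'⟩ := ih hi
    have := Ab.absb (G1 := G1) (G2 := G2 ++ [i]) hq (by simpa using hc')
    exact ⟨_, by simpa using this⟩

theorem exists_em {Y : List (Pt α)} {w : Word α} (hw : Run w [] Y) (L : List α) :
    (∀ i ∈ L, OccW i w) → ∃ T, Em [] [] Y L w T := by
  induction L using List.reverseRecOn with
  | nil => intro _; exact ⟨w, Em.of_run hw []⟩
  | append_singleton L i ih =>
    intro h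
    obtain ⟨T, hT⟩ := ih (fun j hj => h j (by simp [hj]))
    exact hT.insert (Or.inr (h i (by simp)))

theorem exists_ab {Y : List (Pt α)} {w : Word α} (hw : Run w [] Y) (L : List α) :
    (∀ i ∈ L, OccW i w) → ∃ c, Ab [] L Y w c := by
  induction L using List.reverseRecOn with
  | nil => intro _; exact ⟨w, Ab.of_run hw⟩
  | append_singleton L i ih =>
    intro h
    obtain ⟨T, hT⟩ := ih (fun j hj => h j (by simp [hj]))
    exact hT.insert (Or.inr (h i (by simp)))

/-- closing all emitted fingers gives back the word -/
theorem Em.close {X Y : List (Pt α)} {H' : List α} {w T : Word α} (h : Em X [] Y H' w T) :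
    Iso X Y (T ++ sh Y.length (capsH H')) w := by
  obtain ⟨S, hS⟩ := exists_mrg h (Ab.of_run h.run_und)
  have e1 := hS.bot.symm
  have e2 := hS.top
  simp only [cupsH_nil, sh_nil, List.nil_append, gh_nil, List.append_nil, capsH_nil] at e1 e2
  have := e1.appR (v := sh Y.length (capsH H')) (Y' := Y) (by
    have := (run_capsH H').shiftL Y
    simpa using this)
  exact this.trans e2

theorem Move.occW' {X Y : List (Pt α)} {r s : Word α} (h : Move X Y r s) {i : α}
    (hi : OccW i r) : (∃ a ∈ X, a.1 = i) ∨ (∃ a ∈ Y, a.1 = i) := by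
  obtain ⟨p, o, hi⟩ := hi
  cases h with
  | @comm g h B C B' C' hg hh M =>
    simp only [List.mem_cons, Prod.mk.injEq, List.not_mem_nil, or_false] at hi
    rcases hi with ⟨_, rfl⟩ | ⟨_, rfl⟩
    · cases hg; exact Or.inr ⟨(i, o), by simp, rfl⟩
    · cases hh; exact Or.inr ⟨(i, o), by simp, rfl⟩
  | zig a =>
    simp only [List.mem_cons, Prod.mk.injEq, List.not_mem_nil, or_false, Gen.cup.injEq,
      reduceCtorEq, and_false] at hi
    exact Or.inl ⟨a, by simp, by simpa [op] using (congrArg Prod.fst hi.2).symm⟩
  | zag a =>
    simp only [List.mem_cons, Prod.mk.injEq, List.not_mem_nil, or_false, Gen.cup.injEq,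
      reduceCtorEq, and_false] at hi
    exact Or.inl ⟨a, by simp, by simpa using (congrArg Prod.fst hi.2).symm⟩
  | r1cup a s =>
    simp only [List.mem_cons, Prod.mk.injEq, List.not_mem_nil, or_false, Gen.cup.injEq,
      reduceCtorEq, and_false] at hi
    exact Or.inr ⟨a, by simp, by simpa using (congrArg Prod.fst hi.2).symm⟩
  | r1cap a s => simp at hi
  | r2 a b s => simp at hi
  | r3 a b c s => simp at hi
  | slideCup a b s =>
    simp only [List.mem_cons, Prod.mk.injEq, List.not_mem_nil, or_false, Gen.cup.injEq,
      reduceCtorEq, and_false] at hi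
    exact Or.inr ⟨a, by simp, by simpa using (congrArg Prod.fst hi.2).symm⟩
  | slideCap a b s => simp at hi

/-- **Isotopy invariance**: after one step there are isotopic words with all fingers emitted. -/
theorem step_em {Y : List (Pt α)} {w w' : Word α} (h : Step [] Y w w') (L : List α) :
    (∀ i ∈ L, OccW i w) → ∃ T T', Em [] [] Y L w T ∧ Em [] [] Y L w' T' ∧
      Iso [] (Y ++ gh L) T T' := by
  cases h with
  | @mk A C X0 Y0 u r s v hu hm hv =>
    intro hL
    have hP : ∃ (H : List α) (Tu Tv : Word α), Em [] [] (A ++ (X0 ++ C)) H u Tu ∧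
        Em (A ++ (Y0 ++ C)) H Y L v Tv := by
      induction L using List.reverseRecOn with
      | nil => exact ⟨[], u, v, Em.of_run hu [], Em.of_run hv []⟩
      | append_singleton L i ih =>
        obtain ⟨H, Tu, Tv, h1, h2⟩ := ih (fun j hj => hL j (by simp [hj]))
        have hi := hL i (by simp)
        rw [occW_append, occW_append, occW_sh] at hi
        have hcase : ((∃ a ∈ ([] : List (Pt α)), a.1 = i) ∨ OccW i u) ∨
            ((∃ a ∈ A ++ (Y0 ++ C), a.1 = i) ∨ OccW i v) := by
          rcases hi with hi | hi | hi
          · exact Or.inl (Or.inr hi)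
          · rcases hm.occW' hi with ⟨a, ha, hai⟩ | ⟨a, ha, hai⟩
            · rcases hu.occW a (by simp [ha]) with ⟨b, hb, _⟩ | h
              · simp at hb
              · rw [hai] at h
                exact Or.inl (Or.inr h)
            · exact Or.inr (Or.inl ⟨a, by simp [ha], hai⟩)
          · exact Or.inr (Or.inr hi)
        rcases hcase with hc | hc
        · obtain ⟨T', hT'⟩ := h1.insert hc
          exact ⟨H ++ [i], T', Tv, hT', h2.weak i⟩
        · obtain ⟨T', hT'⟩ := h2.insert hc
          exact ⟨H, Tu, T', h1, hT'⟩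
    obtain ⟨H, Tu, Tv, h1, h2⟩ := hP
    have rr := Em.of_run (hm.run_left.shift A C) H
    have rs := Em.of_run (hm.run_right.shift A C) H
    refine ⟨Tu ++ (sh A.length r ++ Tv), Tu ++ (sh A.length s ++ Tv), h1.append (rr.append h2),
      h1.append (rs.append h2), ?_⟩
    have := (hm.iso.shift A (C ++ gh H)).congr (u := Tu) (v := Tv) (X' := [])
      (Y' := Y ++ gh L) (by simpa using h1.run) (by simpa using h2.run)
    exact this

end MP5b16f0
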