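import Pool.Agent.Lib.MP_5b16f0_gt.HL

/-!
# Resolutions of singular words
-/

namespace MP5b16f0

universe u v

variable {α : Type u} {β : Type v}

/-- the resolution of a singular word; the double points are numbered from the top, starting
with `0`, and the double point `k` is replaced by `crs (c k)` -/
def rs : SWord α → (ℕ → Bool) → Word α
  | [], _ => []
  | (p, some g) :: D, c => (p, g) :: rs D c
  | (p, none) :: D, c => (p, Gen.crs (c (SWord.dbl D))) :: rs D c

theorem rs_congr {D : SWord α} {c d : ℕ → Bool} (h : ∀ k < D.dbl, c k = d k) :
    rs D c = rs D d := by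
  induction D with
  | nil => rfl
  | cons x D ih =>
    obtain ⟨p, g⟩ := x
    cases g with
    | some g => rw [rs, rs, ih h]
    | none =>
      rw [rs, rs, ih (fun k hk => h k (Nat.lt_succ_of_lt hk)), h _ (Nat.lt_succ_self _)]

theorem rs_pos (D : SWord α) : rs D (fun _ => true) = D.pos := by
  induction D with
  | nil => rfl
  | cons x D ih =>
    obtain ⟨p, g⟩ := x
    cases g with
    | some g => rw [rs, SWord.pos, ih]
    | none => rw [rs, SWord.pos, ih]

/-- the resolution given by the set of the negatively resolved double points -/
def rsS (D : SWord α) (S : Finset ℕ) : Word α := rs D (fun k => decide (k ∉ S))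

theorem rsS_insert (D : SWord α) (S : Finset ℕ) :
    rsS D (insert D.dbl S) = rsS D S := by
  refine rs_congr (fun k hk => ?_)
  have : k ≠ D.dbl := by omega
  simp [this]

theorem alt_sum {A : Type v} [AddCommGroup A] (f : Word α → A) (D : SWord α) : ∀ u : Word α,
    alt f u D = ∑ S ∈ (Finset.range D.dbl).powerset, (-1 : ℤ) ^ S.card • f (u ++ rsS D S) := by
  induction D with
  | nil => intro u; simp [alt, SWord.dbl, rsS, rs]
  | cons x D ih =>
    intro u
    obtain ⟨p, g⟩ := x
    cases g with
    | some g =>
      rw [alt, ih]
      refine Finset.sum_congr rfl (fun S _ => ?_)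
      simp [rsS, rs]
    | none =>
      rw [alt, ih, ih]
      have hd : SWord.dbl (α := α) ((p, none) :: D) = SWord.dbl D + 1 := rfl
      rw [hd, Finset.range_add_one, Finset.sum_powerset_insert (by simp), sub_eq_add_neg,
        ← Finset.sum_neg_distrib]
      congr 1
      · refine Finset.sum_congr rfl (fun S hS => ?_)
        have : SWord.dbl D ∉ S := by
          intro h
          have := Finset.mem_powerset.1 hS h
          simp at this
        simp [rsS, rs, this]
      · refine Finset.sum_congr rfl (fun S hS => ?_)
        have : SWord.dbl D ∉ S := by
          intro h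
          have := Finset.mem_powerset.1 hS h
          simp at this
        have h2 := rsS_insert D S
        unfold rsS at h2
        rw [Finset.card_insert_of_notMem this]
        simp only [rsS, rs, Finset.mem_insert_self, not_true, decide_false, h2, pow_succ,
          mul_neg, mul_one, neg_smul]
        simp

/-- the singular word in which only the double points in `T` are kept; the others are resolved
positively -/
def pr : SWord α → Finset ℕ → SWord α
  | [], _ => []
  | (p, some g) :: D, T => (p, some g) :: pr D T
  | (p, none) :: D, T => (if SWord.dbl D ∈ T then (p, none) else (p, some (Gen.crs true))) :: pr D T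

theorem pos_pr (D : SWord α) (T : Finset ℕ) : (pr D T).pos = D.pos := by
  induction D with
  | nil => rfl
  | cons x D ih =>
    obtain ⟨p, g⟩ := x
    cases g with
    | some g => rw [pr, SWord.pos, ih, SWord.pos]
    | none =>
      rw [pr]
      split_ifs
      · rw [SWord.pos, ih, SWord.pos]
      · rw [SWord.pos, ih, SWord.pos]

theorem pr_congr {D : SWord α} {T T' : Finset ℕ} (h : ∀ k < D.dbl, k ∈ T ↔ k ∈ T') :
    pr D T = pr D T' := by
  induction D with
  | nil => rfl
  | cons x D ih =>
    obtain ⟨p, g⟩ := x
    cases g with
    | some g => rw [pr, pr, ih h]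
    | none =>
      have h1 := ih (fun k hk => h k (Nat.lt_succ_of_lt hk))
      have h2 := h _ (Nat.lt_succ_self (SWord.dbl D))
      rw [pr, pr, h1]
      simp only [h2]

theorem dbl_pr (D : SWord α) : ∀ T : Finset ℕ, T ⊆ Finset.range D.dbl → (pr D T).dbl = T.card := by
  induction D with
  | nil => intro T hT; simp [SWord.dbl] at hT; subst hT; rfl
  | cons x D ih =>
    intro T hT
    obtain ⟨p, g⟩ := x
    cases g with
    | some g => rw [pr, SWord.dbl]; exact ih T hT
    | none =>
      have hd : SWord.dbl (α := α) ((p, none) :: D) = SWord.dbl D + 1 := rfl
      rw [hd, Finset.range_add_one] at hT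
      rw [pr]
      split_ifs with h
      · rw [SWord.dbl, ← Finset.insert_erase h, Finset.card_insert_of_notMem (by simp),
          ← ih (T.erase (SWord.dbl D)) ?_]
        · congr 1
          congr 1
          refine pr_congr (fun k hk => ?_)
          have : k ≠ SWord.dbl D := by omega
          simp [this]
        · intro k hk
          have h1 := Finset.mem_of_mem_erase hk
          have h2 := Finset.ne_of_mem_erase hk
          have := hT h1
          simp only [Finset.mem_insert, h2, false_or] at this
          exact this
      · rw [SWord.dbl]
        refine ih T (fun k hk => ?_)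
        have := hT hk
        simp only [Finset.mem_insert] at this
        rcases this with rfl | h3
        · exact absurd hk h
        · exact h3

theorem sum_res (D : SWord α) : ∀ T : Finset ℕ, T ⊆ Finset.range D.dbl →
    ∑ S ∈ T.powerset, (-1 : ℤ) ^ S.card • cl (rsS D S) = res (pr D T) := by
  induction D with
  | nil =>
    intro T hT
    simp [SWord.dbl] at hT
    subst hT
    simp [rsS, rs, pr]
  | cons x D ih =>
    intro T hT
    obtain ⟨p, g⟩ := x
    cases g with
    | some g =>
      rw [pr, res, ← ih T hT, Finset.mul_sum]
      refine Finset.sum_congr rfl (fun S _ => ?_)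
      have : rsS ((p, some g) :: D) S = [(p, g)] ++ rsS D S := rfl
      rw [this, cl_append, mul_smul_comm]
    | none =>
      have hd : SWord.dbl (α := α) ((p, none) :: D) = SWord.dbl D + 1 := rfl
      rw [hd, Finset.range_add_one] at hT
      rw [pr]
      split_ifs with h
      · set T' := T.erase (SWord.dbl D) with hT'
        have hsub : T' ⊆ Finset.range (SWord.dbl D) := by
          intro k hk
          have h1 := Finset.mem_of_mem_erase hk
          have h2 := Finset.ne_of_mem_erase hk
          have := hT h1
          simp only [Finset.mem_insert, h2, false_or] at this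
          exact this
        have hpr : pr D T = pr D T' := by
          refine pr_congr (fun k hk => ?_)
          have : k ≠ SWord.dbl D := by omega
          simp [hT', this]
        rw [hpr, res, ← ih T' hsub, ← Finset.insert_erase h, ← hT',
          Finset.sum_powerset_insert (by simp [hT']), sub_mul, sub_eq_add_neg, Finset.mul_sum,
          Finset.mul_sum, ← Finset.sum_neg_distrib]
        congr 1
        · refine Finset.sum_congr rfl (fun S hS => ?_)
          have hn : SWord.dbl D ∉ S := by
            intro h
            have := hsub (Finset.mem_powerset.1 hS h)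
            simp at this
          have : rsS ((p, none) :: D) S = [(p, Gen.crs true)] ++ rsS D S := by
            simp [rsS, rs, hn]
          rw [this, cl_append, mul_smul_comm]
        · refine Finset.sum_congr rfl (fun S hS => ?_)
          have hn : SWord.dbl D ∉ S := by
            intro h
            have := hsub (Finset.mem_powerset.1 hS h)
            simp at this
          have h2 := rsS_insert D S
          have : rsS ((p, none) :: D) (insert (SWord.dbl D) S) =
              [(p, Gen.crs false)] ++ rsS D S := by
            rw [← h2]
            simp [rsS, rs]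
          rw [this, cl_append, mul_smul_comm, Finset.card_insert_of_notMem hn, pow_succ]
          simp
      · have hsub : T ⊆ Finset.range (SWord.dbl D) := by
          intro k hk
          have := hT hk
          simp only [Finset.mem_insert] at this
          rcases this with rfl | h3
          · exact absurd hk h
          · exact h3
        rw [res, ← ih T hsub, Finset.mul_sum]
        refine Finset.sum_congr rfl (fun S hS => ?_)
        have hn : SWord.dbl D ∉ S := by
          intro h
          have := hsub (Finset.mem_powerset.1 hS h)
          simp at this
        have : rsS ((p, none) :: D) S = [(p, Gen.crs true)] ++ rsS D S := by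
          simp [rsS, rs, hn]
        rw [this, cl_append, mul_smul_comm]

theorem rs_append (D E : SWord α) (c : ℕ → Bool) (h : D.dbl = 0) :
    rs (D ++ E) c = D.pos ++ rs E c := by
  induction D with
  | nil => rfl
  | cons x D ih =>
    obtain ⟨p, g⟩ := x
    cases g with
    | some g =>
      have : SWord.dbl D = 0 := by simpa [SWord.dbl] using h
      show (p, g) :: rs (D ++ E) c = _
      rw [ih this]
      rfl
    | none => simp [SWord.dbl] at h

theorem rs_toS_append (u : Word α) (E : SWord α) (c : ℕ → Bool) :
    rs (toS u ++ E) c = u ++ rs E c := by
  rw [rs_append _ _ _ (by simp)]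
  simp

/-- emitting fingers from a singular word -/
theorem sing_em {X Y : List (Pt α)} {H H' : List α} {w T : Word α} (h : Em X H Y H' w T) :
    ∀ D : SWord α, D.pos = w → ∃ E : SWord α, E.dbl = D.dbl ∧ E.pos = T ∧
      ∀ c, Em X H Y H' (rs D c) (rs E c) := by
  induction h with
  | nil X H =>
    intro D hD
    have : D = [] := by
      cases D with
      | nil => rfl
      | cons x D =>
        obtain ⟨p, g⟩ := x
        cases g <;> simp [SWord.pos] at hD
    subst this
    exact ⟨[], rfl, rfl, fun c => Em.nil X H⟩
  | @gen A B C D' Y H H' g w T hg h ih =>
    intro D hD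
    cases D with
    | nil => simp [SWord.pos] at hD
    | cons x D =>
      obtain ⟨p, g'⟩ := x
      cases g' with
      | some g' =>
        simp only [SWord.pos, List.cons.injEq, Prod.mk.injEq] at hD
        obtain ⟨⟨rfl, rfl⟩, h2⟩ := hD
        obtain ⟨E, h3, h4, h5⟩ := ih D h2
        refine ⟨(A.length, some g') :: E, ?_, ?_, ?_⟩
        · simp [SWord.dbl, h3]
        · simp [SWord.pos, h4]
        · intro c; exact Em.gen hg (h5 c)
      | none =>
        simp only [SWord.pos, List.cons.injEq, Prod.mk.injEq] at hD
        obtain ⟨⟨rfl, rfl⟩, h2⟩ := hD
        obtain ⟨E, h3, h4, h5⟩ := ih D h2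
        refine ⟨(A.length, none) :: E, ?_, ?_, ?_⟩
        · simp [SWord.dbl, h3]
        · simp [SWord.pos, h4]
        · intro c
          rw [rs, rs, h3]
          cases hg with
          | crs _ a b => exact Em.gen (Gen.Acts.crs _ a b) (h5 c)
  | @emit A D' Y q i H1 H2 H' w T hq h ih =>
    intro D hD
    obtain ⟨E, h3, h4, h5⟩ := ih D hD
    refine ⟨toS (sh A.length (det (i, true) q (D' ++ gh H1).length)) ++ E, ?_, ?_, ?_⟩
    · rw [dbl_append, dbl_toS, h3, zero_add]
    · rw [pos_append, pos_toS, h4]
    · intro c
      rw [rs_toS_append]
      exact Em.emit hq (h5 c)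

theorem linkWord_rs {m : ℕ} {D : SWord (Fin m)} (h : LinkWord m D.pos) (c : ℕ → Bool) :
    LinkWord m (rs D c) := by
  have key : ∀ (D : SWord (Fin m)) (u : Word (Fin m)), Run (u ++ D.pos) [] [] →
      E1 [] [] (u ++ D.pos) (u ++ rs D c) := by
    intro D
    induction D with
    | nil => intro u _; exact E1.refl _
    | cons x D ih =>
      intro u hu
      obtain ⟨p, g⟩ := x
      cases g with
      | some g =>
        have := ih (u ++ [(p, g)]) (by simpa [SWord.pos] using hu)
        simpa [SWord.pos, rs] using this
      | none =>
        rw [SWord.pos] at hu ⊢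
        have e1 := E1.cc (c (SWord.dbl D)) hu
        have := ih (u ++ [(p, Gen.crs (c (SWord.dbl D)))]) (by simpa using e1.run hu)
        refine e1.trans ?_
        simpa [rs] using this
  exact h.e1 (by simpa using key D [] (by simpa using h.1))

end MP5b16f0
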