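import Pool.Agent.Lib.MP_5b16f0_gt.Basic

/-!
# Strands passing over or under tangles
-/

namespace MP5b16f0

universe u v

variable {α : Type u} {β : Type v}

/-- The leftmost strand passes over (`s = true`) or under the next `k` strands. -/
def slR (s : Bool) : ℕ → Word α
  | 0 => []
  | k + 1 => (0, Gen.crs s) :: sh 1 (slR s k)

/-- The first `n` strands pass over (`s = true`) or under the next `k` strands. -/
def blkR (s : Bool) : ℕ → ℕ → Word α
  | 0, _ => []
  | n + 1, k => sh 1 (blkR s n k) ++ slR s k

@[simp] theorem slR_zero (s : Bool) : (slR s 0 : Word α) = [] := rfl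
@[simp] theorem blkR_zero (s : Bool) (k : ℕ) : (blkR s 0 k : Word α) = [] := rfl

theorem slR_succ (s : Bool) (k : ℕ) :
    (slR s (k + 1) : Word α) = (0, Gen.crs s) :: sh 1 (slR s k) := rfl

theorem blkR_succ (s : Bool) (n k : ℕ) :
    (blkR s (n + 1) k : Word α) = sh 1 (blkR s n k) ++ slR s k := rfl

theorem slR_add (s : Bool) (k l : ℕ) :
    (slR s (k + l) : Word α) = slR s k ++ sh k (slR s l) := by
  induction k with
  | zero => simp
  | succ k ih => rw [Nat.add_right_comm k 1 l, slR_succ, ih]; simp [slR_succ]

theorem slR_succ' (s : Bool) (k : ℕ) :
    (slR s (k + 1) : Word α) = slR s k ++ [(k, Gen.crs s)] := by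
  rw [slR_add]; simp [slR_succ]

theorem blkR_one (s : Bool) (k : ℕ) : (blkR s 1 k : Word α) = slR s k := by
  simp [blkR_succ]

@[simp] theorem blkR_zero' (s : Bool) (n : ℕ) : (blkR s n 0 : Word α) = [] := by
  induction n with
  | zero => rfl
  | succ n ih => simp [blkR_succ, ih]

theorem blkR_add (s : Bool) (n m k : ℕ) :
    (blkR s (n + m) k : Word α) = sh n (blkR s m k) ++ blkR s n k := by
  induction n with
  | zero => simp
  | succ n ih => rw [Nat.add_right_comm n 1 m, blkR_succ, ih]; simp [blkR_succ]

theorem run_crs (s : Bool) (a b : Pt α) (D : List (Pt α)) :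
    Run [(0, Gen.crs s)] (a :: b :: D) (b :: a :: D) := by
  exact Run.cast (Run.single (Gen.Acts.crs s a b) [] D) (by first | rfl | (simp; done) | (simp; omega) | (simp; ring_nf; done) | (simp; constructor <;> (first | rfl | omega | (ring_nf; done))) | (ring_nf; done)) (by first | rfl | (simp; done) | (simp; omega) | (simp; ring_nf; done) | (simp; constructor <;> (first | rfl | omega | (ring_nf; done))) | (ring_nf; done)) (by first | rfl | (simp; done) | (simp; omega) | (simp; ring_nf; done) | (simp; constructor <;> (first | rfl | omega | (ring_nf; done))) | (ring_nf; done))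

theorem run_slR (s : Bool) (b : Pt α) (X : List (Pt α)) :
    Run (slR s X.length) (b :: X) (X ++ [b]) := by
  induction X generalizing b with
  | nil => exact Run.cast (Run.nil _) (by first | rfl | (simp; done) | (simp; omega) | (simp; ring_nf; done) | (simp; constructor <;> (first | rfl | omega | (ring_nf; done))) | (ring_nf; done)) (by first | rfl | (simp; done) | (simp; omega) | (simp; ring_nf; done) | (simp; constructor <;> (first | rfl | omega | (ring_nf; done))) | (ring_nf; done)) (by first | rfl | (simp; done) | (simp; omega) | (simp; ring_nf; done) | (simp; constructor <;> (first | rfl | omega | (ring_nf; done))) | (ring_nf; done))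
  | cons x X ih =>
    exact Run.cast ((run_crs s b x X).append ((ih b).shiftL [x])) (by first | rfl | (simp; done) | (simp; omega) | (simp; ring_nf; done) | (simp; constructor <;> (first | rfl | omega | (ring_nf; done))) | (ring_nf; done)) (by first | rfl | (simp; done) | (simp; omega) | (simp; ring_nf; done) | (simp; constructor <;> (first | rfl | omega | (ring_nf; done))) | (ring_nf; done)) (by first | rfl | (simp; done) | (simp; omega) | (simp; ring_nf; done) | (simp; constructor <;> (first | rfl | omega | (ring_nf; done))) | (ring_nf; done))

theorem run_blkR (s : Bool) (B X : List (Pt α)) :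
    Run (blkR s B.length X.length) (B ++ X) (X ++ B) := by
  induction B with
  | nil => exact Run.cast (Run.nil _) (by first | rfl | (simp; done) | (simp; omega) | (simp; ring_nf; done) | (simp; constructor <;> (first | rfl | omega | (ring_nf; done))) | (ring_nf; done)) (by first | rfl | (simp; done) | (simp; omega) | (simp; ring_nf; done) | (simp; constructor <;> (first | rfl | omega | (ring_nf; done))) | (ring_nf; done)) (by first | rfl | (simp; done) | (simp; omega) | (simp; ring_nf; done) | (simp; constructor <;> (first | rfl | omega | (ring_nf; done))) | (ring_nf; done))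
  | cons b B ih =>
    have h1 : Run (sh 1 (blkR s B.length X.length)) (b :: (B ++ X)) (b :: (X ++ B)) := by
      exact Run.cast (ih.shiftL [b]) (by first | rfl | (simp; done) | (simp; omega) | (simp; ring_nf; done) | (simp; constructor <;> (first | rfl | omega | (ring_nf; done))) | (ring_nf; done)) (by first | rfl | (simp; done) | (simp; omega) | (simp; ring_nf; done) | (simp; constructor <;> (first | rfl | omega | (ring_nf; done))) | (ring_nf; done)) (by first | rfl | (simp; done) | (simp; omega) | (simp; ring_nf; done) | (simp; constructor <;> (first | rfl | omega | (ring_nf; done))) | (ring_nf; done))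
    have h2 : Run (slR s X.length) (b :: (X ++ B)) (X ++ b :: B) := by
      exact Run.cast ((run_slR s b X).right B) (by first | rfl | (simp; done) | (simp; omega) | (simp; ring_nf; done) | (simp; constructor <;> (first | rfl | omega | (ring_nf; done))) | (ring_nf; done)) (by first | rfl | (simp; done) | (simp; omega) | (simp; ring_nf; done) | (simp; constructor <;> (first | rfl | omega | (ring_nf; done))) | (ring_nf; done)) (by first | rfl | (simp; done) | (simp; omega) | (simp; ring_nf; done) | (simp; constructor <;> (first | rfl | omega | (ring_nf; done))) | (ring_nf; done))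
    exact h1.append h2

theorem blkR_add' (s : Bool) (B X Y : List (Pt α)) :
    Iso (B ++ (X ++ Y)) (X ++ (Y ++ B)) (blkR s B.length (X.length + Y.length))
      (blkR s B.length X.length ++ sh X.length (blkR s B.length Y.length)) := by
  induction B with
  | nil => exact Iso.adapt (Iso.refl []) (by first | rfl | (simp; done) | (simp; omega) | (simp; ring_nf; done) | (simp; constructor <;> (first | rfl | omega | (ring_nf; done))) | (ring_nf; done)) (by first | rfl | (simp; done) | (simp; omega) | (simp; ring_nf; done) | (simp; constructor <;> (first | rfl | omega | (ring_nf; done))) | (ring_nf; done)) (by first | rfl | (simp; done) | (simp; omega) | (simp; ring_nf; done) | (simp; constructor <;> (first | rfl | omega | (ring_nf; done))) | (ring_nf; done)) (by first | rfl | (simp; done) | (simp; omega) | (simp; ring_nf; done) | (simp; constructor <;> (first | rfl | omega | (ring_nf; done))) | (ring_nf; done))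
  | cons b B ih =>
    simp only [List.length_cons, blkR_succ]
    have r1 : Run (slR s (X.length + Y.length)) (b :: (X ++ (Y ++ B))) (X ++ (Y ++ (b :: B))) := by
      exact Run.cast ((run_slR s b (X ++ Y)).right B) (by first | rfl | (simp; done) | (simp; omega) | (simp; ring_nf; done) | (simp; constructor <;> (first | rfl | omega | (ring_nf; done))) | (ring_nf; done)) (by first | rfl | (simp; done) | (simp; omega) | (simp; ring_nf; done) | (simp; constructor <;> (first | rfl | omega | (ring_nf; done))) | (ring_nf; done)) (by first | rfl | (simp; done) | (simp; omega) | (simp; ring_nf; done) | (simp; constructor <;> (first | rfl | omega | (ring_nf; done))) | (ring_nf; done))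
    have r2 : Run (sh 1 (blkR s B.length X.length)) (b :: (B ++ (X ++ Y)))
        (b :: (X ++ (B ++ Y))) := by
      exact Run.cast (((run_blkR s B X).right Y).shiftL [b]) (by first | rfl | (simp; done) | (simp; omega) | (simp; ring_nf; done) | (simp; constructor <;> (first | rfl | omega | (ring_nf; done))) | (ring_nf; done)) (by first | rfl | (simp; done) | (simp; omega) | (simp; ring_nf; done) | (simp; constructor <;> (first | rfl | omega | (ring_nf; done))) | (ring_nf; done)) (by first | rfl | (simp; done) | (simp; omega) | (simp; ring_nf; done) | (simp; constructor <;> (first | rfl | omega | (ring_nf; done))) | (ring_nf; done))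
    have r3 : Run (sh X.length (slR s Y.length)) (X ++ (b :: (Y ++ B))) (X ++ (Y ++ b :: B)) := by
      exact Run.cast (((run_slR s b Y).right B).shiftL X) (by first | rfl | (simp; done) | (simp; omega) | (simp; ring_nf; done) | (simp; constructor <;> (first | rfl | omega | (ring_nf; done))) | (ring_nf; done)) (by first | rfl | (simp; done) | (simp; omega) | (simp; ring_nf; done) | (simp; constructor <;> (first | rfl | omega | (ring_nf; done))) | (ring_nf; done)) (by first | rfl | (simp; done) | (simp; omega) | (simp; ring_nf; done) | (simp; constructor <;> (first | rfl | omega | (ring_nf; done))) | (ring_nf; done))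
    have e2 : Iso (b :: (X ++ (B ++ Y))) (X ++ (b :: (Y ++ B)))
        (sh (X.length + 1) (blkR s B.length Y.length) ++ slR s X.length)
        (slR s X.length ++ sh (X.length + 1) (blkR s B.length Y.length)) := by
      exact Iso.adapt ((interchange (run_slR s b X) (run_blkR s B Y)).symm) (by first | rfl | (simp; done) | (simp; omega) | (simp; ring_nf; done) | (simp; constructor <;> (first | rfl | omega | (ring_nf; done))) | (ring_nf; done)) (by first | rfl | (simp; done) | (simp; omega) | (simp; ring_nf; done) | (simp; constructor <;> (first | rfl | omega | (ring_nf; done))) | (ring_nf; done)) (by first | rfl | (simp; done) | (simp; omega) | (simp; ring_nf; done) | (simp; constructor <;> (first | rfl | omega | (ring_nf; done))) | (ring_nf; done)) (by first | rfl | (simp; done) | (simp; omega) | (simp; ring_nf; done) | (simp; constructor <;> (first | rfl | omega | (ring_nf; done))) | (ring_nf; done))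
    refine ((ih.shiftL [b]).appR r1).trans ?_
    rw [slR_add]
    exact Iso.adapt (e2.congr r2 r3) (by first | rfl | (simp; done) | (simp; omega) | (simp; ring_nf; done) | (simp; constructor <;> (first | rfl | omega | (ring_nf; done))) | (ring_nf; done)) (by first | rfl | (simp; done) | (simp; omega) | (simp; ring_nf; done) | (simp; constructor <;> (first | rfl | omega | (ring_nf; done))) | (ring_nf; done)) (by first | rfl | (simp; done) | (simp; omega) | (simp; ring_nf; done) | (simp; constructor <;> (first | rfl | omega | (ring_nf; done))) | (ring_nf; done)) (by first | rfl | (simp; done) | (simp; omega) | (simp; ring_nf; done) | (simp; constructor <;> (first | rfl | omega | (ring_nf; done))) | (ring_nf; done))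

/-! ### A strand passing a single elementary tangle -/

theorem r2_iso (a b : Pt α) (s : Bool) :
    Iso [a, b] [a, b] [(0, Gen.crs s), (0, Gen.crs !s)] [] := (Move.r2 a b s).iso

theorem r2_iso' (a b : Pt α) (s : Bool) :
    Iso [a, b] [a, b] [(0, Gen.crs !s), (0, Gen.crs s)] [] := by
  simpa using (Move.r2 a b (!s)).iso

theorem run1 {g : Gen α} {B C : List (Pt α)} (hg : g.Acts B C) (A D : List (Pt α)) {X Y}
    {p : ℕ} (hX : A ++ (B ++ D) = X) (hY : A ++ (C ++ D) = Y) (hp : A.length = p) :
    Run [(p, g)] X Y := by
  subst hX hY hp; exact Run.single hg A D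

theorem natR_gen (s : Bool) (b : Pt α) {g : Gen α} {B C : List (Pt α)} (hg : g.Acts B C) :
    Iso (b :: B) (C ++ [b]) (slR s B.length ++ [(0, g)]) ([(1, g)] ++ slR s C.length) := by
  cases hg with
  | cup a =>
    have e1 := (Move.slideCup a b (!s)).iso.appR (v := [(1, Gen.crs s)]) (Y' := [a, op a, b])
      (run1 (Gen.Acts.crs s b (op a)) [a] [] rfl rfl rfl)
    have e2 := (r2_iso' (op a) b s).ctx [a] [] (u := [(0, Gen.cup a)]) (v := []) (X' := [b])
      (Y' := [a, op a, b]) (run1 (Gen.Acts.cup a) [] [b] rfl rfl rfl) (Run.nil _)
    refine Iso.trans ?_ (e2.symm.trans ?_)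
    · exact Iso.adapt (Iso.refl _) (by first | rfl | (simp; done) | (simp; omega) | (simp; ring_nf; done) | (simp; constructor <;> (first | rfl | omega | (ring_nf; done))) | (ring_nf; done)) (by first | rfl | (simp; done) | (simp; omega) | (simp; ring_nf; done) | (simp; constructor <;> (first | rfl | omega | (ring_nf; done))) | (ring_nf; done)) (by first | rfl | (simp; done) | (simp; omega) | (simp; ring_nf; done) | (simp; constructor <;> (first | rfl | omega | (ring_nf; done))) | (ring_nf; done)) (by first | rfl | (simp; done) | (simp; omega) | (simp; ring_nf; done) | (simp; constructor <;> (first | rfl | omega | (ring_nf; done))) | (ring_nf; done))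
    · simpa [slR_succ] using e1
  | cap a =>
    have e1 := (Move.slideCap a b s).iso.appL (u := [(0, Gen.crs s)]) (X' := [b, a, op a])
      (run1 (Gen.Acts.crs s b a) [] [op a] rfl rfl rfl)
    have e2 := (r2_iso b a s).ctx [] [op a] (u := []) (v := [(1, Gen.cap a)])
      (X' := [b, a, op a]) (Y' := [b]) (Run.nil _)
      (run1 (Gen.Acts.cap a) [b] [] rfl rfl rfl)
    refine Iso.trans ?_ (e1.trans (Iso.trans ?_ (e2.trans ?_)))
    · exact Iso.of_eq (by simp [slR_succ])
    · exact Iso.of_eq (by simp)
    · exact Iso.of_eq (by simp)
  | crs t x y =>
    by_cases hts : t = s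
    · subst hts
      simpa [slR_succ] using (Move.r3 b x y t).iso
    · have ht : t = !s := by cases t <;> cases s <;> simp_all
      subst ht
      have a1 := (r2_iso' x y s).ctx [b] [] (u := []) (v := [(0, Gen.crs s), (1, Gen.crs s)])
        (X' := [b, x, y]) (Y' := [x, y, b]) (Run.nil _)
        ((run1 (Gen.Acts.crs s b x) [] [y] rfl rfl rfl).append
          (run1 (Gen.Acts.crs s b y) [x] [] rfl rfl rfl))
      have a2 := (Move.r3 b y x s).iso.symm.congr (u := [(1, Gen.crs !s)]) (v := [(0, Gen.crs !s)])
        (X' := [b, x, y]) (Y' := [y, x, b])
        (run1 (Gen.Acts.crs (!s) x y) [b] [] rfl rfl rfl)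
        (run1 (Gen.Acts.crs (!s) x y) [] [b] rfl rfl rfl)
      have a3 := (r2_iso y x s).ctx [] [b]
        (u := [(1, Gen.crs !s), (0, Gen.crs s), (1, Gen.crs s)]) (v := [])
        (X' := [b, x, y]) (Y' := [y, x, b])
        ((run1 (Gen.Acts.crs (!s) x y) [b] [] rfl rfl rfl).append
          ((run1 (Gen.Acts.crs s b y) [] [x] rfl rfl rfl).append
          (run1 (Gen.Acts.crs s b x) [y] [] rfl rfl rfl))) (Run.nil _)
      have a1' := a1.appR (v := [(0, Gen.crs !s)]) (Y' := [y, x, b])
        (run1 (Gen.Acts.crs (!s) x y) [] [b] rfl rfl rfl)
      refine Iso.trans ?_ (a1'.symm.trans (Iso.trans ?_ (a2.trans (Iso.trans ?_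
        (a3.trans ?_)))))
      all_goals exact Iso.of_eq (by simp [slR_succ])

theorem natL_gen (s : Bool) (b : Pt α) {g : Gen α} {B C : List (Pt α)} (hg : g.Acts B C) :
    Iso (B ++ [b]) (b :: C) ([(0, g)] ++ blkR s C.length 1) (blkR s B.length 1 ++ [(1, g)]) := by
  cases hg with
  | cup a =>
    have e1 := (Move.slideCup a b s).iso.appR (v := [(0, Gen.crs s)]) (Y' := [b, a, op a])
      (run1 (Gen.Acts.crs s a b) [] [op a] rfl rfl rfl)
    have e2 := (r2_iso' b a s).ctx [] [op a] (u := [(1, Gen.cup a)]) (v := []) (X' := [b])
      (Y' := [b, a, op a]) (run1 (Gen.Acts.cup a) [b] [] rfl rfl rfl) (Run.nil _)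
    refine Iso.trans ?_ (e1.trans (Iso.trans ?_ (e2.trans ?_)))
    all_goals exact Iso.of_eq (by simp [slR_succ, blkR_succ])
  | cap a =>
    have e1 := (Move.slideCap a b (!s)).iso.appL (u := [(1, Gen.crs s)]) (X' := [a, op a, b])
      (run1 (Gen.Acts.crs s (op a) b) [a] [] rfl rfl rfl)
    have e2 := (r2_iso (op a) b s).ctx [a] [] (u := []) (v := [(0, Gen.cap a)])
      (X' := [a, op a, b]) (Y' := [b]) (Run.nil _)
      (run1 (Gen.Acts.cap a) [] [b] rfl rfl rfl)
    refine Iso.trans ?_ (e2.symm.trans (Iso.trans ?_ (e1.trans ?_)))
    all_goals exact Iso.of_eq (by simp [slR_succ, blkR_succ])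
  | crs t x y =>
    by_cases hts : t = s
    · subst hts
      simpa [slR_succ, blkR_succ] using (Move.r3 x y b t).iso
    · have ht : t = !s := by cases t <;> cases s <;> simp_all
      subst ht
      -- (0,!s)(1,s)(0,s) ~ (1,s)(0,s)(1,!s) on [x,y,b]
      have a2 := (Move.r3 y x b s).iso.symm.congr (u := [(0, Gen.crs !s)]) (v := [(1, Gen.crs !s)])
        (X' := [x, y, b]) (Y' := [b, y, x])
        (run1 (Gen.Acts.crs (!s) x y) [] [b] rfl rfl rfl)
        (run1 (Gen.Acts.crs (!s) x y) [b] [] rfl rfl rfl)
      have a3 := (r2_iso' x y s).ctx [] [b]
        (u := []) (v := [(1, Gen.crs s), (0, Gen.crs s), (1, Gen.crs !s)])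
        (X' := [x, y, b]) (Y' := [b, y, x]) (Run.nil _)
        ((run1 (Gen.Acts.crs s y b) [x] [] rfl rfl rfl).append
          ((run1 (Gen.Acts.crs s x b) [] [y] rfl rfl rfl).append
          (run1 (Gen.Acts.crs (!s) x y) [b] [] rfl rfl rfl)))
      have a4 := (r2_iso y x s).ctx [b] []
        (u := [(0, Gen.crs !s), (1, Gen.crs s), (0, Gen.crs s)]) (v := [])
        (X' := [x, y, b]) (Y' := [b, y, x])
        ((run1 (Gen.Acts.crs (!s) x y) [] [b] rfl rfl rfl).append
          ((run1 (Gen.Acts.crs s x b) [y] [] rfl rfl rfl).append
          (run1 (Gen.Acts.crs s y b) [] [x] rfl rfl rfl))) (Run.nil _)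
      refine Iso.trans ?_ (a4.symm.trans (Iso.trans ?_ (a2.trans (Iso.trans ?_
        (a3.trans ?_)))))
      all_goals exact Iso.of_eq (by simp [slR_succ, blkR_succ])

/-! ### A strand passing a tangle word -/

/-- A strand passes from the left of a tangle to its right. -/
theorem natR (s : Bool) (b : Pt α) {w : Word α} {X Y : List (Pt α)} (hw : Run w X Y) :
    Iso (b :: X) (Y ++ [b]) (slR s X.length ++ w) (sh 1 w ++ slR s Y.length) := by
  induction hw with
  | nil X => exact Iso.adapt (Iso.refl _) (by first | rfl | (simp; done) | (simp; omega) | (simp; ring_nf; done) | (simp; constructor <;> (first | rfl | omega | (ring_nf; done))) | (ring_nf; done)) (by first | rfl | (simp; done) | (simp; omega) | (simp; ring_nf; done) | (simp; constructor <;> (first | rfl | omega | (ring_nf; done))) | (ring_nf; done)) (by first | rfl | (simp; done) | (simp; omega) | (simp; ring_nf; done) | (simp; constructor <;> (first | rfl | omega | (ring_nf; done))) | (ring_nf; done)) (by first | rfl | (simp; done) | (simp; omega) | (simp; ring_nf; done) | (simp; constructor <;> (first | rfl | omega | (ring_nf; done))) | (ring_nf; done))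
  | @cons A B C D Y g w hg hw ih =>
    -- move `g` before the last part of the slide
    have r1 : Run (slR s A.length ++ sh A.length (slR s B.length)) (b :: (A ++ (B ++ D)))
        (A ++ (B ++ (b :: D))) := by
      exact Run.cast (((run_slR s b (A ++ B)).right D).cast rfl rfl (by simp [slR_add]; rfl)) (by first | rfl | (simp; done) | (simp; omega) | (simp; ring_nf; done) | (simp; constructor <;> (first | rfl | omega | (ring_nf; done))) | (ring_nf; done)) (by first | rfl | (simp; done) | (simp; omega) | (simp; ring_nf; done) | (simp; constructor <;> (first | rfl | omega | (ring_nf; done))) | (ring_nf; done)) (by first | rfl | (simp; done) | (simp; omega) | (simp; ring_nf; done) | (simp; constructor <;> (first | rfl | omega | (ring_nf; done))) | (ring_nf; done))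
    have r2 : Run w (A ++ (C ++ (D ++ [b]))) (Y ++ [b]) := by
      exact Run.cast (hw.right [b]) (by first | rfl | (simp; done) | (simp; omega) | (simp; ring_nf; done) | (simp; constructor <;> (first | rfl | omega | (ring_nf; done))) | (ring_nf; done)) (by first | rfl | (simp; done) | (simp; omega) | (simp; ring_nf; done) | (simp; constructor <;> (first | rfl | omega | (ring_nf; done))) | (ring_nf; done)) (by first | rfl | (simp; done) | (simp; omega) | (simp; ring_nf; done) | (simp; constructor <;> (first | rfl | omega | (ring_nf; done))) | (ring_nf; done))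
    have e1 := (interchange (Run.single hg A []) (run_slR s b D)).symm.congr
      (u := slR s A.length ++ sh A.length (slR s B.length)) (v := w)
      (X' := b :: (A ++ (B ++ D))) (Y' := Y ++ [b])
      (by exact Run.cast r1 (by first | rfl | (simp; done) | (simp; omega) | (simp; ring_nf; done) | (simp; constructor <;> (first | rfl | omega | (ring_nf; done))) | (ring_nf; done)) (by first | rfl | (simp; done) | (simp; omega) | (simp; ring_nf; done) | (simp; constructor <;> (first | rfl | omega | (ring_nf; done))) | (ring_nf; done)) (by first | rfl | (simp; done) | (simp; omega) | (simp; ring_nf; done) | (simp; constructor <;> (first | rfl | omega | (ring_nf; done))) | (ring_nf; done))) (by exact Run.cast r2 (by first | rfl | (simp; done) | (simp; omega) | (simp; ring_nf; done) | (simp; constructor <;> (first | rfl | omega | (ring_nf; done))) | (ring_nf; done)) (by first | rfl | (simp; done) | (simp; omega) | (simp; ring_nf; done) | (simp; constructor <;> (first | rfl | omega | (ring_nf; done))) | (ring_nf; done)) (by first | rfl | (simp; done) | (simp; omega) | (simp; ring_nf; done) | (simp; constructor <;> (first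 | rfl | omega | (ring_nf; done))) | (ring_nf; done)))
    have r3 : Run (slR s A.length) (b :: (A ++ (B ++ D))) (A ++ ((b :: B) ++ D)) := by
      exact Run.cast ((run_slR s b A).right (B ++ D)) (by first | rfl | (simp; done) | (simp; omega) | (simp; ring_nf; done) | (simp; constructor <;> (first | rfl | omega | (ring_nf; done))) | (ring_nf; done)) (by first | rfl | (simp; done) | (simp; omega) | (simp; ring_nf; done) | (simp; constructor <;> (first | rfl | omega | (ring_nf; done))) | (ring_nf; done)) (by first | rfl | (simp; done) | (simp; omega) | (simp; ring_nf; done) | (simp; constructor <;> (first | rfl | omega | (ring_nf; done))) | (ring_nf; done))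
    have r4 : Run (sh (A.length + C.length) (slR s D.length) ++ w) (A ++ ((C ++ [b]) ++ D))
        (Y ++ [b]) := by
      refine Run.append (Y := A ++ (C ++ (D ++ [b]))) ?_ r2
      exact Run.cast ((run_slR s b D).shiftL (A ++ C)) (by first | rfl | (simp; done) | (simp; omega) | (simp; ring_nf; done) | (simp; constructor <;> (first | rfl | omega | (ring_nf; done))) | (ring_nf; done)) (by first | rfl | (simp; done) | (simp; omega) | (simp; ring_nf; done) | (simp; constructor <;> (first | rfl | omega | (ring_nf; done))) | (ring_nf; done)) (by first | rfl | (simp; done) | (simp; omega) | (simp; ring_nf; done) | (simp; constructor <;> (first | rfl | omega | (ring_nf; done))) | (ring_nf; done))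
    have e2 := (natR_gen s b hg).ctx A D r3 r4
    have r5 : Run (sh A.length (slR s C.length) ++ (sh (A.length + C.length)
        (slR s D.length) ++ w)) (A ++ (b :: (C ++ D))) (Y ++ [b]) := by
      refine Run.append (Y := A ++ ((C ++ [b]) ++ D)) ?_ r4
      exact Run.cast ((run_slR s b C).shift A D) (by first | rfl | (simp; done) | (simp; omega) | (simp; ring_nf; done) | (simp; constructor <;> (first | rfl | omega | (ring_nf; done))) | (ring_nf; done)) (by first | rfl | (simp; done) | (simp; omega) | (simp; ring_nf; done) | (simp; constructor <;> (first | rfl | omega | (ring_nf; done))) | (ring_nf; done)) (by first | rfl | (simp; done) | (simp; omega) | (simp; ring_nf; done) | (simp; constructor <;> (first | rfl | omega | (ring_nf; done))) | (ring_nf; done))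
    have e3 := (interchange (run_slR s b A) (Run.single hg [] D)).congr (u := [])
      (X' := b :: (A ++ (B ++ D))) (Y' := Y ++ [b]) (Run.nil _) (by exact Run.cast r5 (by first | rfl | (simp; done) | (simp; omega) | (simp; ring_nf; done) | (simp; constructor <;> (first | rfl | omega | (ring_nf; done))) | (ring_nf; done)) (by first | rfl | (simp; done) | (simp; omega) | (simp; ring_nf; done) | (simp; constructor <;> (first | rfl | omega | (ring_nf; done))) | (ring_nf; done)) (by first | rfl | (simp; done) | (simp; omega) | (simp; ring_nf; done) | (simp; constructor <;> (first | rfl | omega | (ring_nf; done))) | (ring_nf; done)))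
    have r6 : Run [(A.length + 1, g)] (b :: (A ++ (B ++ D))) (b :: (A ++ (C ++ D))) :=
      run1 hg (b :: A) D rfl rfl rfl
    have e4 := ih.appL r6
    refine Iso.trans ?_ (e1.trans (Iso.trans ?_ (e2.trans (Iso.trans ?_ (e3.trans
      (Iso.trans ?_ (e4.trans ?_)))))))
    all_goals exact Iso.of_eq (by (first | rfl | (simp [slR_add]; done) | (simp [slR_add]; omega) | (simp [slR_add]; ring_nf; done) | (simp [slR_add]; constructor <;> (first | rfl | omega | (ring_nf; done))) | (ring_nf; done)))

/-- A strand passes from the right of a tangle to its left. -/
theorem natL (s : Bool) (b : Pt α) {w : Word α} {X Y : List (Pt α)} (hw : Run w X Y) :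
    Iso (X ++ [b]) (b :: Y) (w ++ blkR s Y.length 1) (blkR s X.length 1 ++ sh 1 w) := by
  induction hw with
  | nil X => exact Iso.adapt (Iso.refl _) (by first | rfl | (simp; done) | (simp; omega) | (simp; ring_nf; done) | (simp; constructor <;> (first | rfl | omega | (ring_nf; done))) | (ring_nf; done)) (by first | rfl | (simp; done) | (simp; omega) | (simp; ring_nf; done) | (simp; constructor <;> (first | rfl | omega | (ring_nf; done))) | (ring_nf; done)) (by first | rfl | (simp; done) | (simp; omega) | (simp; ring_nf; done) | (simp; constructor <;> (first | rfl | omega | (ring_nf; done))) | (ring_nf; done)) (by first | rfl | (simp; done) | (simp; omega) | (simp; ring_nf; done) | (simp; constructor <;> (first | rfl | omega | (ring_nf; done))) | (ring_nf; done))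
  | @cons A B C D Y g w hg hw ih =>
    -- [(|A|,g)] ++ w ++ blk ~ [(|A|,g)] ++ blk ++ sh 1 w
    have e1 : Iso (A ++ (B ++ (D ++ [b]))) (b :: Y) ([(A.length, g)] ++ (w ++ blkR s Y.length 1))
        ([(A.length, g)] ++ (blkR s (A ++ (C ++ D)).length 1 ++ sh 1 w)) :=
      (ih.cast (by simp) rfl).appL (Run.single hg A (D ++ [b]))
    have hw1 : Run (sh 1 w) (b :: (A ++ (C ++ D))) (b :: Y) := by
      exact Run.cast (hw.shiftL [b]) (by first | rfl | (simp; done) | (simp; omega) | (simp; ring_nf; done) | (simp; constructor <;> (first | rfl | omega | (ring_nf; done))) | (ring_nf; done)) (by first | rfl | (simp; done) | (simp; omega) | (simp; ring_nf; done) | (simp; constructor <;> (first | rfl | omega | (ring_nf; done))) | (ring_nf; done)) (by first | rfl | (simp; done) | (simp; omega) | (simp; ring_nf; done) | (simp; constructor <;> (first | rfl | omega | (ring_nf; done))) | (ring_nf; done))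
    -- commute `g` with the slide over `D`
    have r1 : Run (blkR s D.length 1) (D ++ [b]) (b :: D) := by
      exact Run.cast (run_blkR s D [b]) (by first | rfl | (simp; done) | (simp; omega) | (simp; ring_nf; done) | (simp; constructor <;> (first | rfl | omega | (ring_nf; done))) | (ring_nf; done)) (by first | rfl | (simp; done) | (simp; omega) | (simp; ring_nf; done) | (simp; constructor <;> (first | rfl | omega | (ring_nf; done))) | (ring_nf; done)) (by first | rfl | (simp; done) | (simp; omega) | (simp; ring_nf; done) | (simp; constructor <;> (first | rfl | omega | (ring_nf; done))) | (ring_nf; done))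
    have r2 : Run (sh A.length (blkR s C.length 1) ++ blkR s A.length 1 ++ sh 1 w)
        (A ++ (C ++ (b :: D))) (b :: Y) := by
      refine Run.append (Run.append (Y := A ++ (b :: (C ++ D))) ?_ ?_) hw1
      · exact Run.cast ((run_blkR s C [b]).shift A D) (by first | rfl | (simp; done) | (simp; omega) | (simp; ring_nf; done) | (simp; constructor <;> (first | rfl | omega | (ring_nf; done))) | (ring_nf; done)) (by first | rfl | (simp; done) | (simp; omega) | (simp; ring_nf; done) | (simp; constructor <;> (first | rfl | omega | (ring_nf; done))) | (ring_nf; done)) (by first | rfl | (simp; done) | (simp; omega) | (simp; ring_nf; done) | (simp; constructor <;> (first | rfl | omega | (ring_nf; done))) | (ring_nf; done))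
      · exact Run.cast ((run_blkR s A [b]).right (C ++ D)) (by first | rfl | (simp; done) | (simp; omega) | (simp; ring_nf; done) | (simp; constructor <;> (first | rfl | omega | (ring_nf; done))) | (ring_nf; done)) (by first | rfl | (simp; done) | (simp; omega) | (simp; ring_nf; done) | (simp; constructor <;> (first | rfl | omega | (ring_nf; done))) | (ring_nf; done)) (by first | rfl | (simp; done) | (simp; omega) | (simp; ring_nf; done) | (simp; constructor <;> (first | rfl | omega | (ring_nf; done))) | (ring_nf; done))
    have e2 := (interchange (Run.single hg A []) r1).congr (u := [])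
      (X' := A ++ (B ++ (D ++ [b]))) (Y' := b :: Y)
      (by exact Run.cast (Run.nil (A ++ (B ++ (D ++ [b])))) (by first | rfl | (simp; done) | (simp; omega) | (simp; ring_nf; done) | (simp; constructor <;> (first | rfl | omega | (ring_nf; done))) | (ring_nf; done)) (by first | rfl | (simp; done) | (simp; omega) | (simp; ring_nf; done) | (simp; constructor <;> (first | rfl | omega | (ring_nf; done))) | (ring_nf; done)) (by first | rfl | (simp; done) | (simp; omega) | (simp; ring_nf; done) | (simp; constructor <;> (first | rfl | omega | (ring_nf; done))) | (ring_nf; done))) (by exact Run.cast r2 (by first | rfl | (simp; done) | (simp; omega) | (simp; ring_nf; done) | (simp; constructor <;> (first | rfl | omega | (ring_nf; done))) | (ring_nf; done)) (by first | rfl | (simp; done) | (simp; omega) | (simp; ring_nf; done) | (simp; constructor <;> (first | rfl | omega | (ring_nf; done))) | (ring_nf; done)) (by first | rfl | (simp; done) | (simp; omega) | (simp; ring_nf; done) | (simp; constructor <;> (first | rfl | omega | (ring_nf; done))) | (ring_nf; done)))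
    have r3 : Run (sh (A.length + B.length) (blkR s D.length 1))
        (A ++ (B ++ (D ++ [b]))) (A ++ ((B ++ [b]) ++ D)) := by
      exact Run.cast (r1.shiftL (A ++ B)) (by first | rfl | (simp; done) | (simp; omega) | (simp; ring_nf; done) | (simp; constructor <;> (first | rfl | omega | (ring_nf; done))) | (ring_nf; done)) (by first | rfl | (simp; done) | (simp; omega) | (simp; ring_nf; done) | (simp; constructor <;> (first | rfl | omega | (ring_nf; done))) | (ring_nf; done)) (by first | rfl | (simp; done) | (simp; omega) | (simp; ring_nf; done) | (simp; constructor <;> (first | rfl | omega | (ring_nf; done))) | (ring_nf; done))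
    have r4 : Run (blkR s A.length 1 ++ sh 1 w) (A ++ ((b :: C) ++ D)) (b :: Y) := by
      refine Run.append (Y := (b :: (A ++ (C ++ D)))) ?_ hw1
      exact Run.cast ((run_blkR s A [b]).right (C ++ D)) (by first | rfl | (simp; done) | (simp; omega) | (simp; ring_nf; done) | (simp; constructor <;> (first | rfl | omega | (ring_nf; done))) | (ring_nf; done)) (by first | rfl | (simp; done) | (simp; omega) | (simp; ring_nf; done) | (simp; constructor <;> (first | rfl | omega | (ring_nf; done))) | (ring_nf; done)) (by first | rfl | (simp; done) | (simp; omega) | (simp; ring_nf; done) | (simp; constructor <;> (first | rfl | omega | (ring_nf; done))) | (ring_nf; done))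
    have e3 := (natL_gen s b hg).ctx A D r3 r4
    have r5 : Run (blkR s A.length 1) (A ++ [b]) (b :: A) := run_blkR s A [b]
    have r6 : Run (sh (A.length + B.length) (blkR s D.length 1) ++ sh A.length
        (blkR s B.length 1)) (A ++ (B ++ (D ++ [b]))) (A ++ (b :: (B ++ D))) := by
      refine Run.append r3 ?_
      exact Run.cast ((run_blkR s B [b]).shift A D) (by first | rfl | (simp; done) | (simp; omega) | (simp; ring_nf; done) | (simp; constructor <;> (first | rfl | omega | (ring_nf; done))) | (ring_nf; done)) (by first | rfl | (simp; done) | (simp; omega) | (simp; ring_nf; done) | (simp; constructor <;> (first | rfl | omega | (ring_nf; done))) | (ring_nf; done)) (by first | rfl | (simp; done) | (simp; omega) | (simp; ring_nf; done) | (simp; constructor <;> (first | rfl | omega | (ring_nf; done))) | (ring_nf; done))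
    have e4 := (interchange r5 (Run.single hg [] D)).symm.congr (v := sh 1 w)
      (X' := A ++ (B ++ (D ++ [b]))) (Y' := b :: Y)
      (by exact Run.cast r6 (by first | rfl | (simp; done) | (simp; omega) | (simp; ring_nf; done) | (simp; constructor <;> (first | rfl | omega | (ring_nf; done))) | (ring_nf; done)) (by first | rfl | (simp; done) | (simp; omega) | (simp; ring_nf; done) | (simp; constructor <;> (first | rfl | omega | (ring_nf; done))) | (ring_nf; done)) (by first | rfl | (simp; done) | (simp; omega) | (simp; ring_nf; done) | (simp; constructor <;> (first | rfl | omega | (ring_nf; done))) | (ring_nf; done))) (by exact Run.cast hw1 (by first | rfl | (simp; done) | (simp; omega) | (simp; ring_nf; done) | (simp; constructor <;> (first | rfl | omega | (ring_nf; done))) | (ring_nf; done)) (by first | rfl | (simp; done) | (simp; omega) | (simp; ring_nf; done) | (simp; constructor <;> (first | rfl | omega | (ring_nf; done))) | (ring_nf; done)) (by first | rfl | (simp; done) | (simp; omega) | (simp; ring_nf; done) | (simp; constructor <;> (first | rfl | omega | (ring_nf; done))) | (ring_nf; done)))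
    refine Iso.cast (X := A ++ (B ++ (D ++ [b]))) (Y := b :: Y) ?_ (by simp) rfl
    refine Iso.trans ?_ (e1.trans (Iso.trans ?_ (e2.trans (Iso.trans ?_ (e3.trans
      (Iso.trans ?_ (e4.trans ?_)))))))
    all_goals exact Iso.of_eq (by (first | rfl | (simp [blkR_add]; done) | (simp [blkR_add]; omega) | (simp [blkR_add]; ring_nf; done) | (simp [blkR_add]; constructor <;> (first | rfl | omega | (ring_nf; done))) | (ring_nf; done)))

/-- A block of strands passes from the left of a tangle to its right. -/
theorem natB2 (s : Bool) (B : List (Pt α)) {w : Word α} {X Y : List (Pt α)} (hw : Run w X Y) :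
    Iso (B ++ X) (Y ++ B) (blkR s B.length X.length ++ w)
      (sh B.length w ++ blkR s B.length Y.length) := by
  induction B with
  | nil => exact Iso.adapt (Iso.refl _) (by first | rfl | (simp; done) | (simp; omega) | (simp; ring_nf; done) | (simp; constructor <;> (first | rfl | omega | (ring_nf; done))) | (ring_nf; done)) (by first | rfl | (simp; done) | (simp; omega) | (simp; ring_nf; done) | (simp; constructor <;> (first | rfl | omega | (ring_nf; done))) | (ring_nf; done)) (by first | rfl | (simp; done) | (simp; omega) | (simp; ring_nf; done) | (simp; constructor <;> (first | rfl | omega | (ring_nf; done))) | (ring_nf; done)) (by first | rfl | (simp; done) | (simp; omega) | (simp; ring_nf; done) | (simp; constructor <;> (first | rfl | omega | (ring_nf; done))) | (ring_nf; done))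
  | cons b B ih =>
    have e1 := ((natR s b hw).right B).appL (u := sh 1 (blkR s B.length X.length))
      (X' := b :: (B ++ X)) (by exact Run.cast ((run_blkR s B X).shiftL [b]) (by first | rfl | (simp; done) | (simp; omega) | (simp; ring_nf; done) | (simp; constructor <;> (first | rfl | omega | (ring_nf; done))) | (ring_nf; done)) (by first | rfl | (simp; done) | (simp; omega) | (simp; ring_nf; done) | (simp; constructor <;> (first | rfl | omega | (ring_nf; done))) | (ring_nf; done)) (by first | rfl | (simp; done) | (simp; omega) | (simp; ring_nf; done) | (simp; constructor <;> (first | rfl | omega | (ring_nf; done))) | (ring_nf; done)))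
    have e2 := (ih.shiftL [b]).appR (v := slR s Y.length) (Y' := Y ++ (b :: B))
      (by exact Run.cast ((run_slR s b Y).right B) (by first | rfl | (simp; done) | (simp; omega) | (simp; ring_nf; done) | (simp; constructor <;> (first | rfl | omega | (ring_nf; done))) | (ring_nf; done)) (by first | rfl | (simp; done) | (simp; omega) | (simp; ring_nf; done) | (simp; constructor <;> (first | rfl | omega | (ring_nf; done))) | (ring_nf; done)) (by first | rfl | (simp; done) | (simp; omega) | (simp; ring_nf; done) | (simp; constructor <;> (first | rfl | omega | (ring_nf; done))) | (ring_nf; done)))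
    have e1' : Iso (b :: (B ++ X)) (Y ++ (b :: B))
        (sh 1 (blkR s B.length X.length) ++ (slR s X.length ++ w))
        (sh 1 (blkR s B.length X.length) ++ (sh 1 w ++ slR s Y.length)) :=
      e1.cast (by simp) (by simp)
    refine Iso.trans ?_ (e1'.trans (Iso.trans ?_ ((e2.cast rfl rfl).trans ?_)))
    all_goals exact Iso.of_eq (by (first | rfl | (simp [blkR_succ]; done) | (simp [blkR_succ]; omega) | (simp [blkR_succ]; ring_nf; done) | (simp [blkR_succ]; constructor <;> (first | rfl | omega | (ring_nf; done))) | (ring_nf; done)))

/-- A tangle passes a block of strands on its right. -/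
theorem natB1 (s : Bool) (X : List (Pt α)) {w : Word α} {B C : List (Pt α)} (hw : Run w B C) :
    Iso (B ++ X) (X ++ C) (w ++ blkR s C.length X.length)
      (blkR s B.length X.length ++ sh X.length w) := by
  induction X with
  | nil => exact Iso.adapt (Iso.refl _) (by first | rfl | (simp; done) | (simp; omega) | (simp; ring_nf; done) | (simp; constructor <;> (first | rfl | omega | (ring_nf; done))) | (ring_nf; done)) (by first | rfl | (simp; done) | (simp; omega) | (simp; ring_nf; done) | (simp; constructor <;> (first | rfl | omega | (ring_nf; done))) | (ring_nf; done)) (by first | rfl | (simp; done) | (simp; omega) | (simp; ring_nf; done) | (simp; constructor <;> (first | rfl | omega | (ring_nf; done))) | (ring_nf; done)) (by first | rfl | (simp; done) | (simp; omega) | (simp; ring_nf; done) | (simp; constructor <;> (first | rfl | omega | (ring_nf; done))) | (ring_nf; done))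
  | cons x X ih =>
    have a1 : Iso (B ++ (x :: X)) ((x :: X) ++ C) (w ++ blkR s C.length (x :: X).length)
        (w ++ (blkR s C.length 1 ++ sh 1 (blkR s C.length X.length))) := by
      have := (blkR_add' s C [x] X).appL (u := w) (X' := B ++ (x :: X)) (by
        exact Run.cast (hw.right (x :: X)) (by first | rfl | (simp; done) | (simp; omega) | (simp; ring_nf; done) | (simp; constructor <;> (first | rfl | omega | (ring_nf; done))) | (ring_nf; done)) (by first | rfl | (simp; done) | (simp; omega) | (simp; ring_nf; done) | (simp; constructor <;> (first | rfl | omega | (ring_nf; done))) | (ring_nf; done)) (by first | rfl | (simp; done) | (simp; omega) | (simp; ring_nf; done) | (simp; constructor <;> (first | rfl | omega | (ring_nf; done))) | (ring_nf; done)))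
      refine Iso.trans (Iso.of_eq ?_) (this.trans (Iso.of_eq ?_))
      all_goals (first | rfl | (simp; done) | (simp; omega) | (simp; ring_nf; done) | (simp; constructor <;> (first | rfl | omega | (ring_nf; done))) | (ring_nf; done))
    have a2 : Iso (B ++ (x :: X)) ((x :: X) ++ C)
        ((w ++ blkR s C.length 1) ++ sh 1 (blkR s C.length X.length))
        ((blkR s B.length 1 ++ sh 1 w) ++ sh 1 (blkR s C.length X.length)) := by
      have := ((natL s x hw).right X).appR (v := sh 1 (blkR s C.length X.length))
        (Y' := x :: (X ++ C)) (by exact Run.cast ((run_blkR s C X).shiftL [x]) (by first | rfl | (simp; done) | (simp; omega) | (simp; ring_nf; done) | (simp; constructor <;> (first | rfl | omega | (ring_nf; done))) | (ring_nf; done)) (by first | rfl | (simp; done) | (simp; omega) | (simp; ring_nf; done) | (simp; constructor <;> (first | rfl | omega | (ring_nf; done))) | (ring_nf; done)) (by first | rfl | (simp; done) | (simp; omega) | (simp; ring_nf; done) | (simp; constructor <;> (first | rfl | omega | (ring_nf; done))) | (ring_nf; done)))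
      exact Iso.adapt this (by first | rfl | (simp; done) | (simp; omega) | (simp; ring_nf; done) | (simp; constructor <;> (first | rfl | omega | (ring_nf; done))) | (ring_nf; done)) (by first | rfl | (simp; done) | (simp; omega) | (simp; ring_nf; done) | (simp; constructor <;> (first | rfl | omega | (ring_nf; done))) | (ring_nf; done)) (by first | rfl | (simp; done) | (simp; omega) | (simp; ring_nf; done) | (simp; constructor <;> (first | rfl | omega | (ring_nf; done))) | (ring_nf; done)) (by first | rfl | (simp; done) | (simp; omega) | (simp; ring_nf; done) | (simp; constructor <;> (first | rfl | omega | (ring_nf; done))) | (ring_nf; done))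
    have a3 : Iso (B ++ (x :: X)) ((x :: X) ++ C)
        (blkR s B.length 1 ++ (sh 1 w ++ sh 1 (blkR s C.length X.length)))
        (blkR s B.length 1 ++ (sh 1 (blkR s B.length X.length) ++ sh 1 (sh X.length w))) := by
      have := (ih.shiftL [x]).appL (u := blkR s B.length 1) (X' := B ++ (x :: X)) (by
        exact Run.cast ((run_blkR s B [x]).right X) (by first | rfl | (simp; done) | (simp; omega) | (simp; ring_nf; done) | (simp; constructor <;> (first | rfl | omega | (ring_nf; done))) | (ring_nf; done)) (by first | rfl | (simp; done) | (simp; omega) | (simp; ring_nf; done) | (simp; constructor <;> (first | rfl | omega | (ring_nf; done))) | (ring_nf; done)) (by first | rfl | (simp; done) | (simp; omega) | (simp; ring_nf; done) | (simp; constructor <;> (first | rfl | omega | (ring_nf; done))) | (ring_nf; done)))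
      exact Iso.adapt this (by first | rfl | (simp; done) | (simp; omega) | (simp; ring_nf; done) | (simp; constructor <;> (first | rfl | omega | (ring_nf; done))) | (ring_nf; done)) (by first | rfl | (simp; done) | (simp; omega) | (simp; ring_nf; done) | (simp; constructor <;> (first | rfl | omega | (ring_nf; done))) | (ring_nf; done)) (by first | rfl | (simp; done) | (simp; omega) | (simp; ring_nf; done) | (simp; constructor <;> (first | rfl | omega | (ring_nf; done))) | (ring_nf; done)) (by first | rfl | (simp; done) | (simp; omega) | (simp; ring_nf; done) | (simp; constructor <;> (first | rfl | omega | (ring_nf; done))) | (ring_nf; done))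
    have a4 : Iso (B ++ (x :: X)) ((x :: X) ++ C)
        (blkR s B.length (x :: X).length ++ sh (x :: X).length w)
        ((blkR s B.length 1 ++ sh 1 (blkR s B.length X.length)) ++ sh (x :: X).length w) := by
      have := (blkR_add' s B [x] X).appR (v := sh (x :: X).length w) (Y' := (x :: X) ++ C) (by
        exact Run.cast (hw.shiftL (x :: X)) (by first | rfl | (simp; done) | (simp; omega) | (simp; ring_nf; done) | (simp; constructor <;> (first | rfl | omega | (ring_nf; done))) | (ring_nf; done)) (by first | rfl | (simp; done) | (simp; omega) | (simp; ring_nf; done) | (simp; constructor <;> (first | rfl | omega | (ring_nf; done))) | (ring_nf; done)) (by first | rfl | (simp; done) | (simp; omega) | (simp; ring_nf; done) | (simp; constructor <;> (first | rfl | omega | (ring_nf; done))) | (ring_nf; done)))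
      refine (Iso.trans (Iso.of_eq ?_) (this.trans (Iso.of_eq ?_)))
      all_goals (first | rfl | (simp; done) | (simp; omega) | (simp; ring_nf; done) | (simp; constructor <;> (first | rfl | omega | (ring_nf; done))) | (ring_nf; done))
    refine a1.trans (Iso.trans ?_ (a2.trans (Iso.trans ?_ (a3.trans (Iso.trans ?_ a4.symm)))))
    all_goals exact Iso.of_eq (by (first | rfl | (simp; done) | (simp; omega) | (simp; ring_nf; done) | (simp; constructor <;> (first | rfl | omega | (ring_nf; done))) | (ring_nf; done)))

end MP5b16f0
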