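import Pool.Agent.Lib.MP_5b16f0_gt.LinkInv

/-!
# From links to string links
-/

namespace MP5b16f0

universe u v

variable {α : Type u} {β : Type v}

/-- fuse the strand `v`, on the right of `k` strands, with a strand `op v` on the left of them -/
def fuse (v : Pt α) (k : ℕ) : Word α :=
  sh 1 (blkR false k 1) ++ ((0, Gen.cap (op v)) :: (0, Gen.cup (op v)) :: sh 1 (slR true k))

theorem run_fuse (v : Pt α) (C : List (Pt α)) :
    Run (fuse v C.length) (op v :: (C ++ [v])) (op v :: (C ++ [v])) := by
  have h1 := (run_blkR false C [v]).shiftL [op v]
  have h2 := run_cap (op v) [] C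
  have h3 := run_cup (op v) [] C
  have h4 := (run_slR true v C).shiftL [op v]
  simp at h1 h2 h3 h4
  exact h1.append (h2.append (h3.append h4))

theorem half1 (v : Pt α) (C : List (Pt α)) :
    Iso (op v :: C) (C ++ [op v]) ((C.length + 1, Gen.cup v) ::
      (sh 1 (blkR false C.length 1) ++ [(0, Gen.cap (op v))])) (slR true C.length) := by
  have rc : Run [(0, Gen.cup v)] [] [v, op v] := by exact Run.cast (run_cup v [] []) (by first | rfl | (simp; done) | (simp; omega) | (simp; ring_nf; done) | (simp; constructor <;> (first | rfl | omega | (ring_nf; done))) | (ring_nf; done)) (by first | rfl | (simp; done) | (simp; omega) | (simp; ring_nf; done) | (simp; constructor <;> (first | rfl | omega | (ring_nf; done))) | (ring_nf; done)) (by first | rfl | (simp; done) | (simp; omega) | (simp; ring_nf; done) | (simp; constructor <;> (first | rfl | omega | (ring_nf; done))) | (ring_nf; done))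
  have rcap : Run [(0, Gen.cap (op v))] [op v, v] [] := by
    have := run_cap (op v) [] []
    simpa using this
  have rbl : Run (blkR false C.length 1) (C ++ [v]) (v :: C) := by
    have := run_blkR false C [v]
    simpa using this
  -- cup on the right and slide left = cup on the left and slide right
  have e1 : Iso C (v :: (C ++ [op v])) ((C.length, Gen.cup v) :: blkR false C.length 1)
      ((0, Gen.cup v) :: sh 1 (slR true C.length)) := by
    have k1 := (natB1 true C rc).symm.appR (v := blkR false C.length 1)
      (Y' := v :: (C ++ [op v])) (by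
        have := rbl.right [op v]
        simpa using this)
    have k2 := ((slR_inv true v C).right [op v]).appL
      (u := (0, Gen.cup v) :: sh 1 (slR true C.length)) (X' := C) (by
        have h1 := rc.right C
        have h2 := (run_slR true (op v) C).shiftL [v]
        have := h1.append (by simpa using h2)
        simpa using this)
    refine Iso.trans (Iso.of_eq ?_) ((k1.cast (by simp) rfl).trans (Iso.trans (Iso.of_eq ?_)
      ((k2.cast rfl (by simp)).trans (Iso.of_eq ?_))))
    · simp
    · simp [blkR_succ]
    · simp
  have e2 := (e1.shiftL [op v]).appR (v := [(0, Gen.cap (op v))]) (Y' := C ++ [op v])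
    (by simpa using rcap.right (C ++ [op v]))
  have e3 := (interchange rcap (run_slR true (op v) C)).symm.appL
    (u := [(1, Gen.cup v)]) (X' := op v :: C) (by
      have := run_cup v [op v] C
      simpa using this)
  have e4 := ((mv_zig (a := op v) (b := v) (by simp)).right C).appR (run_slR true (op v) C)
  refine Iso.trans (Iso.of_eq ?_) ((e2.cast (by simp) rfl).trans (Iso.trans (Iso.of_eq ?_)
    ((e3.cast rfl (by simp)).trans (Iso.trans (Iso.of_eq ?_) (e4.trans (Iso.of_eq ?_))))))
  · simp
  · simp
  · simp
  · simp

theorem half2 (v : Pt α) (C : List (Pt α)) :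
    Iso (C ++ [op v]) (op v :: C) (((0, Gen.cup (op v)) :: sh 1 (slR true C.length)) ++
      [(C.length + 1, Gen.cap v)]) (blkR false C.length 1) := by
  have rcap : Run [(0, Gen.cap v)] [v, op v] [] := by
    have := run_cap v [] []
    simpa using this
  have rbl : Run (blkR false C.length 1) (C ++ [op v]) (op v :: C) := by
    have := run_blkR false C [op v]
    simpa using this
  have rcup : Run [(0, Gen.cup (op v))] [] [op v, v] := by
    have := run_cup (op v) [] []
    simpa using this
  -- slide right and cap = slide left and cap
  have e1 : Iso (v :: (C ++ [op v])) C (slR true C.length ++ [(C.length, Gen.cap v)])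
      (sh 1 (blkR false C.length 1) ++ [(0, Gen.cap v)]) := by
    have k1 := (natB1 true C rcap).appL (u := sh 1 (blkR false C.length 1))
      (X' := v :: (C ++ [op v])) (by
        have := rbl.shiftL [v]
        simpa using this)
    have k2 := ((blkR_inv' true C [op v]).shiftL [v]).appR
      (v := slR true C.length ++ [(C.length, Gen.cap v)]) (Y' := C) (by
        have h1 := (run_slR true v C).right [op v]
        have h2 := run_cap v C []
        have := h1.append (by simpa using h2)
        simpa using this)
    refine Iso.symm (Iso.trans (Iso.of_eq ?_) ((k1.cast rfl (by simp)).trans (Iso.trans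
      (Iso.of_eq ?_) ((k2.cast (by simp) rfl).trans (Iso.of_eq ?_)))))
    · simp
    · simp [blkR_succ]
    · simp
  have e2 := (e1.shiftL [op v]).appL (u := [(0, Gen.cup (op v))]) (X' := C ++ [op v])
    (by simpa using rcup.right (C ++ [op v]))
  have e3 := (interchange rcup rbl).appR
    (v := [(1, Gen.cap v)]) (Y' := op v :: C) (by
      have := run_cap v [op v] C
      simpa using this)
  have e4 := ((mv_zag (a := op v) (b := v) (by simp)).right C).appL rbl
  refine Iso.trans (Iso.of_eq ?_) ((e2.cast rfl (by simp)).trans (Iso.trans (Iso.of_eq ?_)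
    ((e3.cast (by simp) rfl).trans (Iso.trans (Iso.of_eq ?_) (e4.trans (Iso.of_eq ?_))))))
  · simp
  · simp
  · simp
  · simp

theorem fuse_iso (v : Pt α) (C : List (Pt α)) :
    Iso (op v :: C) (op v :: C) ((C.length + 1, Gen.cup v) ::
      (fuse v C.length ++ [(C.length + 1, Gen.cap v)])) [] := by
  have r2 : Run (((0, Gen.cup (op v)) :: sh 1 (slR true C.length)) ++
      [(C.length + 1, Gen.cap v)]) (C ++ [op v]) (op v :: C) :=
    (half2 v C).run_iff.2 (by
      have := run_blkR false C [op v]
      simpa using this)
  have e1 := (half1 v C).appR r2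
  have e2 := (half2 v C).appL (u := slR true C.length) (run_slR true (op v) C)
  have e3 := slR_inv true (op v) C
  refine Iso.trans (Iso.of_eq ?_) (e1.trans (e2.trans e3))
  simp [fuse]

/-- There is a word fusing all the strands of `V` with strands of `W`. -/
theorem exists_fuse (W : List (Pt α)) (V : List (Pt α)) : (∀ v ∈ V, op v ∈ W) →
    ∃ B : Word α, Run B (W ++ V) (W ++ V) ∧
      Iso W W (sh W.length (cupN V) ++ (B ++ sh W.length (capN V))) [] := by
  induction V using List.reverseRecOn with
  | nil => intro _; exact ⟨[], Run.nil _, Iso.refl _⟩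
  | append_singleton V v ih =>
    intro h
    obtain ⟨B, h1, h2⟩ := ih (fun x hx => h x (by simp [hx]))
    obtain ⟨A, C, rfl⟩ := List.append_of_mem (h v (by simp))
    have rf : Run (sh A.length (fuse v (C ++ V).length)) ((A ++ op v :: C) ++ (V ++ [v]))
        ((A ++ op v :: C) ++ (V ++ [v])) := by
      have := (run_fuse v (C ++ V)).shiftL A
      simpa using this
    refine ⟨B ++ sh A.length (fuse v (C ++ V).length), ?_, ?_⟩
    · have := h1.right [v]
      exact (by simpa using this : Run B ((A ++ op v :: C) ++ (V ++ [v])) _).append rf
    · -- move the cup over `B`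
      have rc : Run [(0, Gen.cup v)] [] [v, op v] := by exact Run.cast (run_cup v [] []) (by first | rfl | (simp; done) | (simp; omega) | (simp; ring_nf; done) | (simp; constructor <;> (first | rfl | omega | (ring_nf; done))) | (ring_nf; done)) (by first | rfl | (simp; done) | (simp; omega) | (simp; ring_nf; done) | (simp; constructor <;> (first | rfl | omega | (ring_nf; done))) | (ring_nf; done)) (by first | rfl | (simp; done) | (simp; omega) | (simp; ring_nf; done) | (simp; constructor <;> (first | rfl | omega | (ring_nf; done))) | (ring_nf; done))
      have k1 := ((interchange h1 rc).symm.right (opL V)).congr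
        (u := sh (A ++ op v :: C).length (cupN V)) (X' := A ++ op v :: C)
        (v := sh A.length (fuse v (C ++ V).length) ++ (((A ++ op v :: C ++ V).length, Gen.cap v)
          :: sh (A ++ op v :: C).length (capN V))) (Y' := A ++ op v :: C) (by
          have := (run_cupN V).shiftL (A ++ op v :: C)
          simpa using this) (by
          refine Run.append (Y := A ++ op v :: C ++ V ++ [v, op v] ++ opL V) ?_ ?_
          · have := rf.right (op v :: opL V)
            simpa using this
          · have c1 := run_cap v (A ++ op v :: C ++ V) (opL V)
            have c2 := (run_capN V).shiftL (A ++ op v :: C)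
            have := (by simpa using c1 : Run _ (A ++ op v :: C ++ V ++ [v, op v] ++ opL V)
              ((A ++ op v :: C) ++ (V ++ opL V))).append c2
            simpa using this)
      have k2 := (((fuse_iso v (C ++ V)).shiftL A).right (opL V)).congr
        (u := sh (A ++ op v :: C).length (cupN V) ++ B) (X' := A ++ op v :: C)
        (v := sh (A ++ op v :: C).length (capN V)) (Y' := A ++ op v :: C) (by
          have c1 := (run_cupN V).shiftL (A ++ op v :: C)
          have c2 := h1.right (opL V)
          have := c1.append (by simpa using c2)
          simpa using this) (by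
          have := (run_capN V).shiftL (A ++ op v :: C)
          simpa using this)
      refine Iso.trans (Iso.of_eq ?_) ((k1).trans (Iso.trans (Iso.of_eq ?_) (k2.trans
        (Iso.trans (Iso.of_eq ?_) h2))))
      · simp [cupN_append, capN_append, cupN_cons, capN_cons]
        omega
      · simp
        omega
      · simp

/-! ### The closure -/

theorem length_cupN (X : List (Pt α)) : (cupN X).length = X.length := by
  induction X with
  | nil => rfl
  | cons x X ih => simp [cupN_cons, sh, ih]

theorem sh_cupN_getElem (X : List (Pt α)) : ∀ (k i : ℕ) (h : i < (sh k (cupN X)).length)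
    (h' : i < X.length), (sh k (cupN X))[i] = (i + k, Gen.cup X[i]) := by
  induction X with
  | nil => intro k i h h'; simp at h'
  | cons x X ih =>
    intro k i h h'
    cases i with
    | zero => simp [cupN_cons]
    | succ i =>
      simp only [cupN_cons, sh_cons, sh_sh, List.getElem_cons_succ]
      rw [ih (1 + k) i _ (by simpa using h')]
      congr 1
      omega

/-- caps in the reverse order -/
def capL : List (Pt α) → Word α
  | [] => []
  | x :: X => (0, Gen.cap x) :: sh 1 (capL X)

theorem sh_reverse (k : ℕ) (w : Word α) : sh k w.reverse = (sh k w).reverse := by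
  simp [sh]

theorem capN_eq (X : List (Pt α)) : capN X = (capL X).reverse := by
  induction X with
  | nil => rfl
  | cons x X ih => rw [capN_cons, capL, ih, sh_reverse]; simp

theorem length_capL (X : List (Pt α)) : (capL X).length = X.length := by
  induction X with
  | nil => rfl
  | cons x X ih => simp [capL, sh, ih]

theorem sh_capL_getElem (X : List (Pt α)) : ∀ (k i : ℕ) (h : i < (sh k (capL X)).length)
    (h' : i < X.length), (sh k (capL X))[i] = (i + k, Gen.cap X[i]) := by
  induction X with
  | nil => intro k i h h'; simp at h'
  | cons x X ih =>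
    intro k i h h'
    cases i with
    | zero => simp [capL]
    | succ i =>
      simp only [capL, sh_cons, sh_sh, List.getElem_cons_succ]
      rw [ih (1 + k) i _ (by simpa using h')]
      congr 1
      omega

theorem cupN_strands (m : ℕ) : cupN (strands m) =
    (List.finRange m).map (fun i => (i.1, Gen.cup (i, true))) := by
  apply List.ext_getElem
  · simp [length_cupN, strands]
  · intro i h1 h2
    have := sh_cupN_getElem (strands m) 0 i (by simpa using h1) (by simpa [length_cupN] using h1)
    simp only [sh_zero] at this
    rw [this]
    simp [strands]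

theorem capN_strands (m : ℕ) : capN (strands m) =
    (List.finRange m).reverse.map (fun i => (i.1, Gen.cap (i, true))) := by
  rw [capN_eq, List.map_reverse]
  congr 1
  apply List.ext_getElem
  · simp [length_capL, strands]
  · intro i h1 h2
    have := sh_capL_getElem (strands m) 0 i (by simpa using h1) (by simpa [length_capL] using h1)
    simp only [sh_zero] at this
    rw [this]
    simp [strands]

theorem closure_eq (m : ℕ) (w : Word (Fin m)) :
    closure m w = cupN (strands m) ++ (w ++ capN (strands m)) := by
  rw [closure, cupN_strands, capN_strands]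

theorem noClosed_of_closure {m : ℕ} {x : Word (Fin m)} (h : LinkWord m (closure m x))
    (hx : Run x (strands m) (strands m)) : NoClosed x (strands m) (strands m) := by
  intro x' h1 h2
  rw [closure_eq] at h
  obtain ⟨f, hf⟩ := h.2.2 (relabel (fun a => (a, true)) (cupN (strands m)) ++ (x' ++
    relabel (fun a => (a, true)) (capN (strands m)))) (by simp [h1]) (by
      have c1 := (run_cupN (strands m)).relabel (fun a => (a, true))
      have c2 := (run_capN (strands m)).relabel (fun a => (a, true))
      have c3 := h2.right (relabelPts (fun a => (a, true)) (opL (strands m)))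
      rw [relabelPts_append] at c1 c2
      exact c1.append (c3.append c2))
  rw [relabel_append, relabel_append] at hf
  obtain ⟨k1, k2⟩ := List.append_inj hf (by simp [relabel])
  obtain ⟨k3, k4⟩ := List.append_inj k2 (by rw [← h1]; simp [relabel])
  have hft : ∀ i, f i = true := by
    intro i
    have hmem : (i.1, Gen.cup ((i, true), true)) ∈
        relabel (fun a => (a, true)) (cupN (strands m)) := by
      rw [cupN_strands]
      simp only [relabel, List.map_map, List.mem_map, List.mem_finRange, true_and]
      exact ⟨i, rfl⟩
    rw [k1, cupN_strands] at hmem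
    simp only [relabel, List.map_map, List.mem_map, List.mem_finRange, true_and,
      Function.comp, Gen.relabel, Prod.mk.injEq, Gen.cup.injEq] at hmem
    obtain ⟨j, _, ⟨⟨h1, h2⟩, _⟩⟩ := hmem
    subst h1
    exact h2
  rw [k3]
  congr 1
  funext i
  rw [hft i]

theorem closure_splice {m : ℕ} {W : List (Pt (Fin m))} {B T E : Word (Fin m)}
    (hB : Run B (W ++ strands m) (W ++ strands m))
    (hi : Iso W W (sh W.length (cupN (strands m)) ++ (B ++ sh W.length (capN (strands m)))) [])
    (hT : Run T [] W) (hE : Run E W []) :
    Iso [] [] (closure m (T ++ (B ++ E))) (T ++ E) := by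
  rw [closure_eq]
  have k1 := (interchange hT (run_cupN (strands m))).symm.appR
    (v := B ++ (E ++ capN (strands m))) (Y' := []) (by
      have c1 := hB.right (opL (strands m))
      have c2 := hE.right (strands m ++ opL (strands m))
      have := c1.append ((by simpa using c2 : Run E _ _).append (run_capN (strands m)))
      simpa using this)
  have k2 := (interchange hE (run_capN (strands m))).appL
    (u := T ++ (sh W.length (cupN (strands m)) ++ B)) (X' := []) (by
      have c1 := (run_cupN (strands m)).shiftL W
      have c2 := hB.right (opL (strands m))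
      have := hT.append ((by simpa using c1 : Run _ W _).append c2)
      simpa using this)
  have k3 := hi.congr hT hE
  refine Iso.trans (Iso.of_eq ?_) ((k1.cast (by simp) rfl).trans (Iso.trans (Iso.of_eq ?_)
    ((k2.cast rfl (by simp)).trans (Iso.trans (Iso.of_eq ?_) (k3.trans (Iso.of_eq ?_))))))
  · simp
  · simp
  · simp
  · simp

/-! ### Finite type invariants of string links and `J` -/

theorem alt_congr {A : Type v} [AddCommGroup A] {f g : Word α → A} {P : Word α → Prop}
    (hP : ∀ (u v : Word α) (p : ℕ) (s t : Bool), P (u ++ (p, Gen.crs s) :: v) →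
      P (u ++ (p, Gen.crs t) :: v)) (hfg : ∀ w, P w → f w = g w) (D : SWord α) :
    ∀ u : Word α, P (u ++ D.pos) → alt f u D = alt g u D := by
  induction D with
  | nil => intro u h; exact hfg u (by simpa [SWord.pos] using h)
  | cons x D ih =>
    intro u h
    obtain ⟨p, g'⟩ := x
    cases g' with
    | some g' =>
      rw [alt, alt]
      exact ih _ (by simpa [SWord.pos] using h)
    | none =>
      rw [alt, alt]
      rw [SWord.pos] at h
      rw [ih (u ++ [(p, Gen.crs true)]) (by simpa using h),
        ih (u ++ [(p, Gen.crs false)]) (by simpa using hP _ _ _ _ false h)]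

theorem alt_zero {A : Type v} [AddCommGroup A] (D : SWord α) :
    ∀ u : Word α, alt (fun _ => (0 : A)) u D = 0 := by
  induction D with
  | nil => intro u; rfl
  | cons x D ih =>
    intro u
    obtain ⟨p, g'⟩ := x
    cases g' with
    | some g' => rw [alt]; exact ih _
    | none => rw [alt, ih, ih, sub_zero]

theorem StringLink.e1_iff {m : ℕ} {w w' : Word (Fin m)}
    (h : E1 (strands m) (strands m) w w') : StringLink m w ↔ StringLink m w' := by
  constructor
  · rintro ⟨h1, h2⟩; exact ⟨h.run h1, h.noClosed.1 h2⟩
  · rintro ⟨h1, h2⟩; exact ⟨h.symm.run h1, h.noClosed.2 h2⟩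

theorem stringLink_cc {m : ℕ} {u v : Word (Fin m)} {p : ℕ} {s t : Bool}
    (h : StringLink m (u ++ (p, Gen.crs s) :: v)) : StringLink m (u ++ (p, Gen.crs t) :: v) :=
  (StringLink.e1_iff (E1.cc t h.1)).1 h

/-- string links which agree modulo `J (n + 1)` are not separated by invariants of type `n` -/
theorem unsep_of_J {m n : ℕ} {σ σ' : Word (Fin m)} (h1 : StringLink m σ) (h2 : StringLink m σ')
    (h : cl σ - cl σ' ∈ J (n + 1) (strands m) (strands m)) : Unsep m n σ σ' := by
  classical
  intro A _ v hv
  have key := ext_J (f := fun w => if StringLink m w then v w else 0) (X := strands m)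
    (Y := strands m) (N := n + 1) ?_ ?_ h
  · rw [map_sub, ext_cl, ext_cl, if_pos h1, if_pos h2, sub_eq_zero] at key
    exact key
  · intro w w' hw hi
    by_cases hs : StringLink m w
    · have hs' := (StringLink.e1_iff hi.e1).1 hs
      rw [if_pos hs, if_pos hs']
      exact hv.1 w w' hs hs' hi
    · have hs' : ¬ StringLink m w' := fun h => hs ((StringLink.e1_iff hi.e1).2 h)
      rw [if_neg hs, if_neg hs']
  · intro D hD hd
    by_cases hs : StringLink m D.pos
    · rw [alt_congr (P := StringLink m) (g := v) (fun u v p s t h => stringLink_cc h)
        (fun w hw => if_pos hw) D [] hs]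
      exact hv.2 D hs hd
    · rw [alt_congr (P := fun w => ¬ StringLink m w) (g := fun _ => 0)
        (fun u v p s t h h' => h (stringLink_cc h')) (fun w hw => if_neg hw) D [] hs]
      exact alt_zero D []

theorem Approx.refl {m n : ℕ} (w : Word (Fin m)) : Approx m n w w := Relation.EqvGen.refl w

theorem Approx.symm {m n : ℕ} {w w' : Word (Fin m)} (h : Approx m n w w') : Approx m n w' w :=
  Relation.EqvGen.symm _ _ h

theorem Approx.trans {m n : ℕ} {w w' w'' : Word (Fin m)} (h : Approx m n w w')
    (h' : Approx m n w' w'') : Approx m n w w'' := Relation.EqvGen.trans _ _ _ h h'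

theorem Approx.of_iso {m n : ℕ} {w w' : Word (Fin m)} (h : LinkWord m w)
    (hi : Iso [] [] w w') : Approx m n w w' :=
  Relation.EqvGen.rel _ _ (Or.inl ⟨h, h.iso hi, hi⟩)

/-- **Cutting links**: if `T ++ E` is a link, and one of the two parts is changed by an element of
`J (n + 1)`, then the links are not separated by type `n` invariants of string links. -/
theorem approx_of_J {m n : ℕ} {W : List (Pt (Fin m))} (hW : ∀ i : Fin m, (i, false) ∈ W)
    {T T' E E' : Word (Fin m)} (hT : Run T [] W) (hT' : Run T' [] W) (hE : Run E W [])
    (hE' : Run E' W []) (hl : LinkWord m (T ++ E)) (hl' : LinkWord m (T' ++ E'))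
    (hJ : (cl T - cl T' ∈ J (n + 1) [] W ∧ E = E') ∨
      (T = T' ∧ cl E - cl E' ∈ J (n + 1) W [])) : Approx m n (T ++ E) (T' ++ E') := by
  obtain ⟨B, hB, hi⟩ := exists_fuse W (strands m) (by
    intro v hv
    simp only [strands, List.mem_map, List.mem_finRange, true_and] at hv
    obtain ⟨i, rfl⟩ := hv
    exact hW i)
  have i1 := closure_splice hB hi hT hE
  have i2 := closure_splice hB hi hT' hE'
  have r1 : Run (T ++ (B ++ E)) (strands m) (strands m) :=
    (hT.right (strands m)).append (hB.append (hE.right (strands m)))
  have r2 : Run (T' ++ (B ++ E')) (strands m) (strands m) :=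
    (hT'.right (strands m)).append (hB.append (hE'.right (strands m)))
  have s1 : StringLink m (T ++ (B ++ E)) := ⟨r1, noClosed_of_closure (hl.iso i1.symm) r1⟩
  have s2 : StringLink m (T' ++ (B ++ E')) := ⟨r2, noClosed_of_closure (hl'.iso i2.symm) r2⟩
  have hJ' : cl (T ++ (B ++ E)) - cl (T' ++ (B ++ E')) ∈ J (n + 1) (strands m) (strands m) := by
    rcases hJ with ⟨h, rfl⟩ | ⟨rfl, h⟩
    · have h' := J_shift h [] (strands m)
      have h'' : shA 0 (cl T - cl T') = cl T - cl T' := by
        rw [map_sub, shA_cl, shA_cl, sh_zero, sh_zero]
      simp only [List.length_nil, List.nil_append] at h'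
      rw [h''] at h'
      have := J_mulR h' (hB.append (hE.right (strands m)))
      rw [sub_mul, ← cl_append, ← cl_append] at this
      exact this
    · have h' := J_shift h [] (strands m)
      have h'' : shA 0 (cl E - cl E') = cl E - cl E' := by
        rw [map_sub, shA_cl, shA_cl, sh_zero, sh_zero]
      simp only [List.length_nil, List.nil_append] at h'
      rw [h''] at h'
      have := J_mulL h' ((hT.right (strands m)).append hB)
      rw [mul_sub, ← cl_append, ← cl_append] at this
      simpa using this
  refine (Approx.of_iso hl i1.symm).trans (Approx.trans (Relation.EqvGen.rel _ _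
    (Or.inr ⟨_, _, s1, s2, unsep_of_J s1 s2 hJ', rfl, rfl⟩)) (Approx.of_iso (hl'.iso i2.symm) i2))

end MP5b16f0
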