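import Pool.Agent.Lib.MP_5b16f0_gt.Group

/-!
# Standard words: words without closed components up to crossing changes
-/

namespace MP5b16f0

universe u v

variable {α : Type u} {β : Type v}

/-! ### Crossing changes and `Cong 1` -/

theorem full_twist_invW (a b : Pt α) (s : Bool) :
    InvW 1 [a, b] [(0, Gen.crs s), (0, Gen.crs s)] [(0, Gen.crs !s), (0, Gen.crs !s)] := by
  have r1 : Run [(0, Gen.crs s), (0, Gen.crs s)] [a, b] [a, b] :=
    (run_crs s a b []).append (run_crs s b a [])
  have r2 : Run [(0, Gen.crs !s), (0, Gen.crs !s)] [a, b] [a, b] :=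
    (run_crs (!s) a b []).append (run_crs (!s) b a [])
  refine ⟨r1, r2, ?_, ?_, ?_⟩
  · have i1 := (r2_iso b a s).congr (run_crs s a b []) (run_crs (!s) b a [])
    refine Iso.trans (Iso.of_eq ?_) (i1.trans (Iso.trans (Iso.of_eq ?_) (r2_iso a b s)))
    · simp
    · simp
  · have i1 := (r2_iso' b a s).congr (run_crs (!s) a b []) (run_crs s b a [])
    refine Iso.trans (Iso.of_eq ?_) (i1.trans (Iso.trans (Iso.of_eq ?_) (r2_iso' a b s)))
    · simp
    · simp
  · have h : E1 [a, b] [a, b] [(0, Gen.crs s), (0, Gen.crs s)] [] := by
      have e1 := E1.cc (X := [a, b]) (Y := [a, b]) (u := [(0, Gen.crs s)]) (v := []) (!s) r1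
      exact e1.trans (r2_iso a b s).e1
    have := h.mem_J r1
    simpa using this

theorem CStep.cong {X Y : List (Pt α)} {w w' : Word α} (h : CStep X Y w w') :
    Cong 1 X Y w w' := by
  cases h with
  | iso h => exact h.cong
  | @cc u v p s t h =>
    by_cases hst : s = t
    · subst hst; exact Cong.refl _
    · obtain rfl : t = !s := by cases s <;> cases t <;> simp_all
      obtain ⟨Z, h1, h2⟩ := h.append_inv
      cases h2 with
      | @cons A B C D _ g w hg hw =>
        cases hg with
        | crs s a b =>
          have hr : Run ((A.length, Gen.crs (!s)) :: v) (A ++ ([a, b] ++ D)) Y :=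
            Run.cons (Gen.Acts.crs (!s) a b) hw
          have k := Cong.ins h1 hr ((full_twist_invW a b s).shift A D)
          have k2 := ((r2_iso b a s).shift A D).congr (u := u ++ [(A.length, Gen.crs s)]) (v := v)
            (X' := X) (Y' := Y) (h1.append (Run.single (Gen.Acts.crs s a b) A D)) hw
          refine Cong.symm (k.trans ?_)
          refine Cong.trans (Cong.of_eq ?_) (k2.cong.trans (Cong.of_eq ?_))
          · simp
          · simp

theorem E1.cong {X Y : List (Pt α)} {w w' : Word α} (h : E1 X Y w w') :
    Cong 1 X Y w w' := by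
  induction h with
  | rel _ _ h => exact h.cong
  | refl _ => exact Cong.refl _
  | symm _ _ _ ih => exact ih.symm
  | trans _ _ _ _ _ ih1 ih2 => exact ih1.trans ih2

/-! ### Standard words -/

/-- insert the strand from the new first point `a` to a new point after `k` points -/
def ins (a : Pt α) (k : ℕ) : Word α := (0, Gen.cup a) :: sh 1 (slR true k)

theorem run_ins (a : Pt α) (X Y : List (Pt α)) :
    Run (ins a X.length) (X ++ Y) (a :: (X ++ op a :: Y)) := by
  have h1 : Run [(0, Gen.cup a)] (X ++ Y) ([a] ++ (op a :: X ++ Y)) := by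
    exact Run.cast (run_cup a [] (X ++ Y)) (by first | rfl | (simp; done) | (simp; omega) | (simp; ring_nf; done) | (simp; constructor <;> (first | rfl | omega | (ring_nf; done))) | (ring_nf; done)) (by first | rfl | (simp; done) | (simp; omega) | (simp; ring_nf; done) | (simp; constructor <;> (first | rfl | omega | (ring_nf; done))) | (ring_nf; done)) (by first | rfl | (simp; done) | (simp; omega) | (simp; ring_nf; done) | (simp; constructor <;> (first | rfl | omega | (ring_nf; done))) | (ring_nf; done))
  have h2 := (run_slR true (op a) X).shift [a] Y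
  have := h1.append h2
  exact Run.cast this (by first | rfl | (simp; done) | (simp; omega) | (simp; ring_nf; done) | (simp; constructor <;> (first | rfl | omega | (ring_nf; done))) | (ring_nf; done)) (by first | rfl | (simp; done) | (simp; omega) | (simp; ring_nf; done) | (simp; constructor <;> (first | rfl | omega | (ring_nf; done))) | (ring_nf; done)) (by first | rfl | (simp; done) | (simp; omega) | (simp; ring_nf; done) | (simp; constructor <;> (first | rfl | omega | (ring_nf; done))) | (ring_nf; done))

theorem ins_nat (a : Pt α) {P Q : List (Pt α)} {w : Word α} (hw : Run w P Q) :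
    Iso P (a :: (Q ++ [op a])) (w ++ ins a Q.length) (ins a P.length ++ sh 1 w) := by
  have rc : Run [(0, Gen.cup a)] [] [a, op a] := by exact Run.cast (run_cup a [] []) (by first | rfl | (simp; done) | (simp; omega) | (simp; ring_nf; done) | (simp; constructor <;> (first | rfl | omega | (ring_nf; done))) | (ring_nf; done)) (by first | rfl | (simp; done) | (simp; omega) | (simp; ring_nf; done) | (simp; constructor <;> (first | rfl | omega | (ring_nf; done))) | (ring_nf; done)) (by first | rfl | (simp; done) | (simp; omega) | (simp; ring_nf; done) | (simp; constructor <;> (first | rfl | omega | (ring_nf; done))) | (ring_nf; done))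
  have i1 := (interchange rc hw).symm.appR (v := sh 1 (slR true Q.length))
    (Y' := a :: (Q ++ [op a])) (by
      have := (run_slR true (op a) Q).shiftL [a]
      simpa using this)
  have i2 := ((natR true (op a) hw).symm.shiftL [a]).appL (u := [(0, Gen.cup a)]) (X' := P)
    (by simpa using rc.right P)
  refine Iso.trans (Iso.of_eq ?_) ((i1.cast (by simp) rfl).trans (Iso.trans (Iso.of_eq ?_)
    ((i2.cast rfl (by simp)).trans (Iso.of_eq ?_))))
  · simp [ins]
  · simp
  · simp [ins]

theorem ins_add (a : Pt α) (k l : ℕ) :
    ins a (k + l) = ins a k ++ sh (k + 1) (slR true l) := by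
  simp [ins, slR_add]

theorem ins_succ (a : Pt α) (k : ℕ) :
    ins a (k + 1) = ins a k ++ [(k + 1, Gen.crs true)] := by
  simp [ins, slR_succ']

theorem E1.cast {X Y X' Y' : List (Pt α)} {w w' : Word α} (h : E1 X Y w w')
    (hX : X = X') (hY : Y = Y') : E1 X' Y' w w' := by subst hX hY; exact h

theorem ins_crs0 (a x : Pt α) (s : Bool) (X Y : List (Pt α)) :
    E1 (a :: (X ++ Y)) (x :: a :: (X ++ op x :: Y)) (sh 1 (ins x X.length) ++ [(0, Gen.crs s)])
      (ins x (X.length + 1)) := by
  -- commute
  have rcr : Run [(0, Gen.crs s)] [a, x] [x, a] := run_crs s a x []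
  have i1 := (interchange rcr (run_slR true (op x) X)).symm.right Y
  have i1' := i1.appL (u := [(1, Gen.cup x)]) (X' := a :: (X ++ Y)) (by
    have := run_cup x [a] (X ++ Y)
    simpa using this)
  have i2 := ((mv_slideCup (a := x) rfl a (!s)).symm.right (X ++ Y)).appR
    (v := sh 2 (slR true X.length)) (Y' := x :: a :: (X ++ op x :: Y)) (by
      have := (run_slR true (op x) X).shift [x, a] Y
      simpa using this)
  have rr : Run ([(0, Gen.cup x)] ++ (1, Gen.crs (!s)) :: sh 2 (slR true X.length))
      (a :: (X ++ Y)) (x :: a :: (X ++ op x :: Y)) := by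
    have h1 := (run_cup x [] (a :: (X ++ Y)))
    have h2 := (run_crs (!s) (op x) a (X ++ Y)).shiftL [x]
    have h3 := (run_slR true (op x) X).shift [x, a] Y
    simp at h1 h2 h3
    exact h1.append (h2.append h3)
  have i3 := E1.cc true rr
  refine E1.trans (E1.of_eq ?_) ((i1'.cast rfl (by simp)).e1.trans (E1.trans (E1.of_eq ?_)
    ((i2.cast (by simp) rfl).e1.trans (E1.trans (E1.of_eq ?_) (i3.trans (E1.of_eq ?_))))))
  · simp [ins]
  · simp
  · simp
  · simp [ins, slR_succ]

/-- two crossings at the same place cancel up to crossing changes -/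
theorem crs_crs_e1 {A C : List (Pt α)} {a b : Pt α} {s t : Bool} {u v : Word α}
    {X Y : List (Pt α)} (hu : Run u X (A ++ a :: b :: C)) (hv : Run v (A ++ a :: b :: C) Y) :
    E1 X Y (u ++ ((A.length, Gen.crs s) :: (A.length, Gen.crs t) :: v)) (u ++ v) := by
  have r1 := (run_crs s a b C).shiftL A
  have r2 := (run_crs t b a C).shiftL A
  simp at r1 r2
  have rr : Run ((u ++ [(A.length, Gen.crs s)]) ++ (A.length, Gen.crs t) :: v) X Y := by
    refine (hu.append r1).append ?_
    exact r2.append hv
  have i1 := E1.cc (!s) rr
  have i2 := ((r2_iso a b s).shift A C).congr hu hv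
  refine E1.trans (E1.of_eq ?_) (i1.trans (E1.trans (E1.of_eq ?_) (i2.e1.trans (E1.of_eq ?_))))
  · simp
  · simp
  · simp

/-- Standard words. -/
inductive Std : List (Pt α) → Word α → Prop
  | nil : Std [] []
  | cons (a : Pt α) {X Y : List (Pt α)} {w : Word α} (h : Std (X ++ Y) w) :
      Std (a :: (X ++ op a :: Y)) (w ++ ins a X.length)

theorem Std.run {Z : List (Pt α)} {w : Word α} (h : Std Z w) : Run w [] Z := by
  induction h with
  | nil => exact Run.nil _
  | cons a h ih => exact ih.append (run_ins a _ _)

theorem Std.inv {d : Pt α} {Z : List (Pt α)} {w : Word α} (h : Std (d :: Z) w) :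
    ∃ (X Y : List (Pt α)) (w0 : Word α), Z = X ++ op d :: Y ∧ w = w0 ++ ins d X.length ∧
      Std (X ++ Y) w0 := by
  generalize hZ : d :: Z = Z' at h
  cases h with
  | nil => simp at hZ
  | @cons a X Y w0 h =>
    simp only [List.cons.injEq] at hZ
    obtain ⟨rfl, rfl⟩ := hZ
    exact ⟨X, Y, w0, rfl, rfl, h⟩

theorem std_crs0 {a x : Pt α} {X' Y X0 Y0 : List (Pt α)} {w0 : Word α} (s : Bool)
    (hXY : X' ++ Y = X0 ++ op x :: Y0) (h0 : Std (X0 ++ Y0) w0) :
    ∃ w', Std (x :: a :: (X' ++ op a :: Y)) w' ∧
      E1 [] (x :: a :: (X' ++ op a :: Y))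
        (((w0 ++ ins x X0.length) ++ ins a (X'.length + 1)) ++ [(0, Gen.crs s)]) w' := by
  have hc : (∃ T, X0 = X' ++ T ∧ Y = T ++ op x :: Y0) ∨
      (∃ X1, X' = X0 ++ op x :: X1 ∧ Y0 = X1 ++ Y) := by
    rcases List.append_eq_append_iff.1 hXY with ⟨T, hT1, hT2⟩ | ⟨T, hT1, hT2⟩
    · exact Or.inl ⟨T, hT1, hT2⟩
    · rcases T with _ | ⟨t, X1⟩
      · exact Or.inl ⟨[], by simpa using hT1.symm, by simpa using hT2.symm⟩
      · simp only [List.cons_append, List.cons.injEq] at hT2
        obtain ⟨rfl, hT2⟩ := hT2
        exact Or.inr ⟨X1, hT1, hT2⟩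
  have r0 := h0.run
  rcases hc with ⟨T, rfl, rfl⟩ | ⟨X1, rfl, rfl⟩
  · have s1 : Std (a :: (X' ++ op a :: (T ++ Y0))) (w0 ++ ins a X'.length) :=
      Std.cons a (by simpa using h0)
    have s2 := Std.cons x (X := a :: (X' ++ op a :: T)) (Y := Y0) (by simpa using s1)
    refine ⟨_, by simpa using s2, ?_⟩
    -- commute the tail with `ins a`
    have e1 := ((interchange (run_ins a (x :: X') []) (run_slR true (op x) T)).symm.right
      Y0).appL (u := w0 ++ ins x X'.length) (X' := []) (by
        have := run_ins x X' (T ++ Y0)
        exact r0.append (by simpa using this))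
    have e2 := (crs_crs_e1 (A := a :: x :: X') (C := T ++ Y0) (a := op a) (b := op x)
      (s := true) (t := true)
      (u := w0 ++ (ins x X'.length ++ ins a (x :: X').length))
      (v := sh (X'.length + 3) (slR true T.length)) (X := [])
      (Y := a :: (x :: (X' ++ (op a :: (T ++ op x :: Y0))))) (by
        have h1 := run_ins x X' (T ++ Y0)
        have h2 := run_ins a (x :: X') (op x :: (T ++ Y0))
        have := r0.append ((by simpa using h1 : Run (ins x X'.length) (X' ++ T ++ Y0)
          (x :: (X' ++ op x :: (T ++ Y0)))).append (by simpa using h2))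
        simpa using this) (by
        have := (run_slR true (op x) T).shift (a :: x :: X' ++ [op a]) Y0
        simpa using this)).symm
    have e3 := ((ins_nat a (run_ins x X' [])).right (T ++ Y0)).congr (u := w0)
      (v := (X'.length + 2, Gen.crs true) :: sh (X'.length + 3) (slR true T.length))
      (X' := []) (Y' := a :: (x :: (X' ++ (op a :: (T ++ op x :: Y0)))))
      (by simpa using r0) (by
        have h1 := (run_crs true (op x) (op a) (T ++ Y0)).shiftL (a :: x :: X')
        have h2 := (run_slR true (op x) T).shift (a :: x :: X' ++ [op a]) Y0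
        simp at h1 h2
        have := h1.append h2
        simpa using this)
    have e4 := (ins_crs0 a x s (X' ++ (op a :: T)) Y0).appL
      (u := w0 ++ ins a X'.length) (X := []) (by
        have := run_ins a X' (T ++ Y0)
        simpa using r0.append (by simpa using this))
    have rlast : Run [(0, Gen.crs s)] (a :: (x :: (X' ++ (op a :: (T ++ op x :: Y0)))))
      (x :: (a :: (X' ++ (op a :: (T ++ op x :: Y0))))) := run_crs s a x _
    have e1' := (e1.cast (Y' := a :: (x :: (X' ++ (op a :: (T ++ op x :: Y0))))) rfl
      (by simp)).e1.appR rlast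
    have e2' := e2.appR rlast
    have e3' := e3.e1.appR rlast
    refine E1.trans (E1.of_eq ?_) (e1'.trans (E1.trans (E1.of_eq ?_) (e2'.trans
      (E1.trans (E1.of_eq ?_) (e3'.trans (E1.trans (E1.of_eq ?_) ((e4.cast rfl (by simp)).trans
      (E1.of_eq ?_))))))))
    · simp [ins_add]
    · simp
    · simp [ins_succ]
    · simp [ins_add, slR_succ]
      congr 1
      omega
    · simp
  · have s1 : Std (a :: ((X0 ++ X1) ++ op a :: Y)) (w0 ++ ins a (X0 ++ X1).length) :=
      Std.cons a (by simpa using h0)
    have s2 := Std.cons x (X := a :: X0) (Y := X1 ++ op a :: Y) (by simpa using s1)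
    refine ⟨_, by simpa using s2, ?_⟩
    have e1 := ((ins_nat a (run_ins x X0 X1)).right Y).appL (u := w0) (X' := [])
      (by simpa using r0)
    have e2 := (ins_crs0 a x s X0 (X1 ++ op a :: Y)).appL (u := w0 ++ ins a (X0 ++ X1).length)
      (X := []) (by
        have := run_ins a (X0 ++ X1) Y
        simpa using r0.append (by simpa using this))
    have rlast : Run [(0, Gen.crs s)] (a :: (x :: (X0 ++ op x :: (X1 ++ op a :: Y))))
      (x :: (a :: (X0 ++ op x :: (X1 ++ op a :: Y)))) := run_crs s a x _
    have e1' := (e1.cast (Y' := a :: (x :: (X0 ++ op x :: (X1 ++ op a :: Y)))) rfl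
      (by simp)).e1.appR rlast
    refine E1.trans (E1.of_eq ?_) ((e1'.cast rfl (by simp)).trans (E1.trans (E1.of_eq ?_)
      ((e2.cast rfl (by simp)).trans (E1.of_eq ?_))))
    · simp
    · simp
    · simp

theorem Std.crs {Z : List (Pt α)} {w : Word α} (h : Std Z w) :
    ∀ (A : List (Pt α)) (a b : Pt α) (C : List (Pt α)) (s : Bool), Z = A ++ a :: b :: C →
      ∃ w', Std (A ++ b :: a :: C) w' ∧
        E1 [] (A ++ b :: a :: C) (w ++ [(A.length, Gen.crs s)]) w' := by
  induction h with
  | nil => intro A a b C s h; simp at h
  | @cons a X Y w h ih =>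
    intro A c d C s hZ
    cases A with
    | nil =>
      simp only [List.nil_append, List.cons.injEq] at hZ
      obtain ⟨rfl, hZ⟩ := hZ
      cases X with
      | nil =>
        simp only [List.nil_append, List.cons.injEq] at hZ
        obtain ⟨rfl, rfl⟩ := hZ
        refine ⟨w ++ ins (op a) 0, ?_, ?_⟩
        · have := Std.cons (op a) (X := []) (Y := Y) h
          simpa using this
        · have i := ((mv_r1cup (a := a) rfl s).right Y).appL (u := w) (X' := []) h.run
          refine E1.trans (E1.of_eq ?_) ((i.cast rfl (by simp)).e1.trans (E1.of_eq ?_))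
          · simp [ins]
          · simp [ins]
      | cons x X' =>
        simp only [List.cons_append, List.cons.injEq] at hZ
        obtain ⟨rfl, rfl⟩ := hZ
        obtain ⟨X0, Y0, w0, hXY, rfl, h0⟩ := Std.inv (d := x) (Z := X' ++ Y) (by simpa using h)
        obtain ⟨w', h1, h2⟩ := std_crs0 (a := a) s hXY h0
        exact ⟨w', by simpa using h1, by simpa using h2⟩
    | cons a' A' =>
      simp only [List.cons_append, List.cons.injEq] at hZ
      obtain ⟨rfl, hZ⟩ := hZ
      -- the four positions of the crossing
      have hc : (∃ C', X = A' ++ c :: d :: C' ∧ C = C' ++ op a :: Y) ∨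
          (X = A' ++ [c] ∧ d = op a ∧ C = Y) ∨ (A' = X ∧ c = op a ∧ Y = d :: C) ∨
          (∃ A'', A' = X ++ op a :: A'' ∧ Y = A'' ++ c :: d :: C) := by
        rcases List.append_eq_append_iff.1 hZ with ⟨T, hT1, hT2⟩ | ⟨T, hT1, hT2⟩
        · rcases T with _ | ⟨t, T⟩
          · simp only [List.nil_append, List.cons.injEq] at hT2
            right; right; left
            exact ⟨by simpa using hT1, hT2.1.symm, hT2.2⟩
          · simp only [List.cons_append, List.cons.injEq] at hT2
            obtain ⟨rfl, hT2⟩ := hT2
            right; right; right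
            exact ⟨T, hT1, hT2⟩
        · rcases T with _ | ⟨t, _ | ⟨t', T⟩⟩
          · simp only [List.nil_append, List.cons.injEq] at hT2
            right; right; left
            exact ⟨by simpa using hT1.symm, hT2.1, hT2.2.symm⟩
          · simp only [List.cons_append, List.nil_append, List.cons.injEq] at hT2
            obtain ⟨rfl, rfl, rfl⟩ := hT2
            right; left
            exact ⟨hT1, rfl, rfl⟩
          · simp only [List.cons_append, List.cons.injEq] at hT2
            obtain ⟨rfl, rfl, rfl⟩ := hT2
            left
            exact ⟨T, hT1, rfl⟩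
      rcases hc with ⟨C', rfl, rfl⟩ | ⟨rfl, rfl, rfl⟩ | ⟨rfl, rfl, rfl⟩ | ⟨A'', rfl, rfl⟩
      · obtain ⟨w', h1, h2⟩ := ih A' c d (C' ++ Y) s (by simp)
        have s1 := Std.cons a (X := A' ++ d :: c :: C') (Y := Y) (by simpa using h1)
        refine ⟨_, by simpa using s1, ?_⟩
        have rc := (run_crs s c d C').shiftL A'
        have e1 := ((ins_nat a rc).right Y).symm.appL (u := w) (X' := []) (by simpa using h.run)
        have e2 := h2.appR (v := ins a (A' ++ d :: c :: C').length)
          (Z := a :: (A' ++ d :: c :: C' ++ op a :: Y)) (by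
            have := run_ins a (A' ++ d :: c :: C') Y
            simpa using this)
        refine E1.trans (E1.of_eq ?_) ((e1.cast rfl (by simp)).e1.trans (E1.trans (E1.of_eq ?_)
          ((e2.cast rfl (by simp)).trans (E1.of_eq ?_))))
        · simp
        · simp
        · simp
      · have s1 := Std.cons a (X := A') (Y := c :: C) (by simpa using h)
        refine ⟨_, by simpa using s1, ?_⟩
        have e1 := crs_crs_e1 (A := a :: A') (a := op a) (b := c) (C := C) (s := true) (t := s)
          (u := w ++ ins a A'.length) (v := []) (X := [])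
          (Y := (a :: A') ++ op a :: c :: C) (by
            have := run_ins a A' (c :: C)
            simpa using (by simpa using h.run : Run w [] (A' ++ c :: C)).append this)
            (Run.nil _)
        refine E1.trans (E1.of_eq ?_) ((e1.cast rfl (by simp)).trans (E1.of_eq ?_))
        · simp [ins_succ]
        · simp
      · have s1 := Std.cons a (X := A' ++ [d]) (Y := C) (by simpa using h)
        refine ⟨_, by simpa using s1, ?_⟩
        have rr : Run ((w ++ ins a A'.length) ++ (A'.length + 1, Gen.crs s) :: []) []
            (a :: A' ++ d :: op a :: C) := by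
          have h1 := run_ins a A' (d :: C)
          have h2 := (run_crs s (op a) d C).shiftL (a :: A')
          simp at h1 h2
          exact ((by simpa using h.run : Run w [] (A' ++ d :: C)).append h1).append
            (by simpa using h2)
        have e1 := E1.cc true rr
        refine E1.trans (E1.of_eq ?_) (e1.trans (E1.of_eq ?_))
        · simp
        · simp [ins_succ]
      · obtain ⟨w', h1, h2⟩ := ih (X ++ A'') c d C s (by simp)
        have s1 := Std.cons a (X := X) (Y := A'' ++ d :: c :: C) (by simpa using h1)
        refine ⟨_, by simpa using s1, ?_⟩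
        have rc := (run_crs s c d C).shiftL A''
        have e1 := (interchange (run_ins a X []) rc).appL (u := w) (X' := [])
          (by simpa using h.run)
        have e2 := h2.appR (v := ins a X.length)
          (Z := a :: (X ++ op a :: (A'' ++ d :: c :: C))) (by
            have := run_ins a X (A'' ++ d :: c :: C)
            simpa using this)
        refine E1.trans (E1.of_eq ?_) ((e1.cast rfl (by simp)).e1.trans (E1.trans (E1.of_eq ?_)
          ((e2.cast rfl (by simp)).trans (E1.of_eq ?_))))
        · simp; omega
        · simp; omega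
        · simp

theorem Std.braid {β' : Word α} : ∀ {Z Z' : List (Pt α)} {w : Word α}, Std Z w →
    OnlyCrs β' → Run β' Z Z' → ∃ w', Std Z' w' ∧ E1 [] Z' (w ++ β') w' := by
  induction β' with
  | nil =>
    intro Z Z' w h _ hr
    cases hr
    exact ⟨w, h, E1.of_eq (by simp)⟩
  | cons x β' ih =>
    intro Z Z' w h ho hr
    obtain ⟨p, g⟩ := x
    obtain ⟨s, hs⟩ := ho (p, g) (by simp)
    simp only at hs
    subst hs
    cases hr with
    | @cons A B C D _ _ _ hg hw =>
      cases hg with
      | crs _ a b =>
        obtain ⟨w1, h1, h2⟩ := h.crs A a b D s rfl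
        obtain ⟨w2, h3, h4⟩ := ih h1 (fun x hx => ho x (by simp [hx])) hw
        refine ⟨w2, h3, E1.trans (E1.of_eq ?_) ((h2.appR hw).trans h4)⟩
        simp

theorem Std.gen {Z Z' : List (Pt α)} {w : Word α} (h : Std Z w) {p : ℕ} {g : Gen α}
    (hr : Run [(p, g)] Z Z') (hnc : NoClosed (w ++ [(p, g)]) [] Z') :
    ∃ w', Std Z' w' ∧ E1 [] Z' (w ++ [(p, g)]) w' := by
  cases hr with
  | @cons A B C D _ _ _ hg hw =>
    cases hw
    cases hg with
    | crs s a b => exact h.crs A a b D s rfl
    | cup b =>
      have s1 := Std.cons b (X := []) (Y := A ++ D) (by simpa using h)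
      obtain ⟨w', h1, h2⟩ := s1.braid (β' := blkR true 2 A.length) (onlyCrs_blkR _ _ _)
        (Z' := A ++ ([b, op b] ++ D)) (by
          have := (run_blkR true [b, op b] A).right D
          simpa using this)
      refine ⟨w', h1, E1.trans ?_ h2⟩
      have rc : Run [(0, Gen.cup b)] [] [b, op b] := by exact Run.cast (run_cup b [] []) (by first | rfl | (simp; done) | (simp; omega) | (simp; ring_nf; done) | (simp; constructor <;> (first | rfl | omega | (ring_nf; done))) | (ring_nf; done)) (by first | rfl | (simp; done) | (simp; omega) | (simp; ring_nf; done) | (simp; constructor <;> (first | rfl | omega | (ring_nf; done))) | (ring_nf; done)) (by first | rfl | (simp; done) | (simp; omega) | (simp; ring_nf; done) | (simp; constructor <;> (first | rfl | omega | (ring_nf; done))) | (ring_nf; done))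
      have e := ((natB1 true A rc).right D).symm.appL (u := w) (X' := [])
        (by simpa using h.run)
      refine E1.trans (E1.of_eq ?_) ((e.cast rfl (by simp)).e1.trans (E1.of_eq ?_))
      · simp
      · simp [ins]
    | cap b =>
      have hr1 : Run (blkR true A.length 2) (A ++ ([b, op b] ++ D)) (b :: op b :: (A ++ D)) := by
        have := (run_blkR true A [b, op b]).right D
        simpa using this
      obtain ⟨w', h1, h2⟩ := h.braid (onlyCrs_blkR true A.length 2) hr1
      have rcap : Run [(0, Gen.cap b)] (b :: op b :: (A ++ D)) (A ++ D) := run_cap b [] _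
      have rcap' : Run [(0, Gen.cap b)] [b, op b] [] := run_cap b [] []
      have e0 : E1 [] (A ++ D) (w ++ [(A.length, Gen.cap b)]) (w' ++ [(0, Gen.cap b)]) := by
        have e := ((natB2 true A rcap').right D).symm.appL (u := w) (X' := [])
          (by simpa using h.run)
        have e' := h2.appR rcap
        refine E1.trans (E1.of_eq ?_) ((e.cast rfl (by simp)).e1.trans (E1.trans (E1.of_eq ?_)
          e'))
        · simp
        · simp
      obtain ⟨X0, Y0, w0, hXY, rfl, h0⟩ := h1.inv
      have hnc' : NoClosed ((w0 ++ ins b X0.length) ++ [(0, Gen.cap b)]) [] (A ++ D) :=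
        e0.noClosed.1 (by simpa using hnc)
      cases X0 with
      | nil =>
        exfalso
        simp only [List.nil_append, List.cons.injEq, true_and] at hXY
        subst hXY
        have hs := NoClosed.right (u := w0) (v := [(0, Gen.cup b), (0, Gen.cap b)])
          (Y := A ++ D) (by simpa [ins] using hnc') (by simpa using h0.run)
        have := hs [(0, Gen.cup ((b.1, false), b.2)), (0, Gen.cap ((b.1, false), b.2))]
          (by simp [Gen.relabel]) (by
            have k1 := run_cup (((b.1, false), b.2) : Pt (α × Bool)) []
              (relabelPts (fun a => (a, true)) (A ++ D))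
            have k2 := run_cap (((b.1, false), b.2) : Pt (α × Bool)) []
              (relabelPts (fun a => (a, true)) (A ++ D))
            exact k1.append k2)
        simp [Gen.relabel] at this
      | cons y X1 =>
        simp only [List.cons_append, List.cons.injEq] at hXY
        obtain ⟨rfl, hXY⟩ := hXY
        obtain ⟨w2, h3, h4⟩ := h0.braid (onlyCrs_slR true X1.length)
          (Z' := A ++ D) (by
            have := (run_slR true (op b) X1).right Y0
            simpa [hXY] using this)
        refine ⟨w2, by simpa using h3, ?_⟩
        have e1 := ((interchange rcap' (run_slR true (op b) X1)).symm.right Y0).appL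
          (u := w0 ++ [(0, Gen.cup b), (1, Gen.crs true)]) (X' := []) (by
            have k1 := run_cup b [] (op b :: (X1 ++ Y0))
            have k2 := (run_crs true (op b) (op b) (X1 ++ Y0)).shiftL [b]
            simp at k1 k2
            have := (h0.run).append (k1.append k2)
            simpa using this)
        have e2 : Iso [op b] [op b] [(0, Gen.cup b), (1, Gen.crs true), (0, Gen.cap b)] [] := by
          have k1 := (mv_slideCap (a := b) rfl (op b) true).appL (u := [(0, Gen.cup b)])
            (X' := [op b]) (by simpa using (run_cup b [] [op b]))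
          have k2 := ((mv_r1cup (a := b) rfl (!true)).right [op b]).appR
            (v := [(1, Gen.cap b)]) (Y' := [op b]) (by simpa using run_cap b [op b] [])
          have k3 := mv_zag (a := op b) (b := b) (by simp)
          refine Iso.trans (Iso.of_eq ?_) (k1.trans (Iso.trans (Iso.of_eq ?_) ((k2.cast (by simp)
            rfl).trans (Iso.trans (Iso.of_eq ?_) k3))))
          · simp
          · simp
          · simp
        have e3 := (e2.right (X1 ++ Y0)).congr (u := w0) (v := slR true X1.length)
          (X' := []) (Y' := A ++ D) (by simpa using h0.run) (by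
            have := (run_slR true (op b) X1).right Y0
            simpa [hXY] using this)
        refine E1.trans (by simpa using e0) (E1.trans (E1.of_eq ?_) ((e1.cast rfl
          (by simp [hXY])).e1.trans (E1.trans (E1.of_eq ?_) (e3.e1.trans (E1.trans
          (E1.of_eq ?_) h4)))))
        · simp [ins, slR_succ]
        · simp
        · simp

/-- **Every word without closed components is standard up to crossing changes.** -/
theorem exists_std {w : Word α} : ∀ {Z : List (Pt α)}, Run w [] Z → NoClosed w [] Z →
    ∃ s, Std Z s ∧ E1 [] Z w s := by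
  induction w using List.reverseRecOn with
  | nil =>
    intro Z h _
    cases h
    exact ⟨[], Std.nil, E1.refl _⟩
  | append_singleton w x ih =>
    intro Z h hnc
    obtain ⟨p, g⟩ := x
    obtain ⟨Y, h1, h2⟩ := h.append_inv
    obtain ⟨s, h3, h4⟩ := ih h1 (hnc.left h2)
    have e := h4.appR h2
    obtain ⟨s', h5, h6⟩ := h3.gen h2 (e.noClosed.1 hnc)
    exact ⟨s', h5, e.trans h6⟩

/-- There are only finitely many standard words for a given level. -/
theorem Std.finite (n : ℕ) : ∀ Z : List (Pt α), Z.length ≤ n → {w | Std Z w}.Finite := by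
  induction n with
  | zero =>
    intro Z hZ
    have : Z = [] := List.length_eq_zero_iff.1 (by omega)
    subst this
    refine (Set.finite_singleton []).subset ?_
    intro w hw
    have hw : Std [] w := hw
    cases hw
    rfl
  | succ n ih =>
    intro Z hZ
    cases Z with
    | nil =>
      refine (Set.finite_singleton []).subset ?_
      intro w hw
      have hw : Std [] w := hw
      cases hw
      rfl
    | cons d Z =>
      have hfin : (⋃ k ∈ Finset.range (Z.length + 1), (fun w0 => w0 ++ ins d k) ''
          {w | Std (Z.take k ++ Z.drop (k + 1)) w}).Finite := by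
        refine Set.Finite.biUnion (Finset.finite_toSet _) ?_
        intro k hk
        have hk : k < Z.length + 1 := by simpa using hk
        rcases Nat.lt_or_ge k Z.length with h | h
        · refine (ih _ ?_).image _
          simp at hZ ⊢
          omega
        · by_cases hZ0 : Z.length = n
          · refine (ih _ ?_).image _
            simp
            omega
          · refine (ih _ ?_).image _
            simp at hZ ⊢
            omega
      refine hfin.subset ?_
      intro w hw
      obtain ⟨X, Y, w0, rfl, rfl, h0⟩ := Std.inv (show Std (d :: Z) w from hw)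
      simp only [Set.mem_iUnion]
      refine ⟨X.length, by simp, w0, ?_, rfl⟩
      simpa using h0

/-- The standard word is unique when every label occurs at most twice. -/
theorem Std.unique {Z : List (Pt α)} {w : Word α} (h : Std Z w) (hZ : ∀ l, occ l Z ≤ 2) :
    ∀ {w' : Word α}, Std Z w' → w = w' := by
  induction h with
  | nil =>
    intro w' h
    cases h
    rfl
  | @cons a X Y w h ih =>
    intro w' h'
    obtain ⟨X', Y', w0, hXY, rfl, h0⟩ := h'.inv
    have hlen : X.length = X'.length := by
      by_contra hne
      -- a third occurrence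
      have h1 := hZ a.1
      rw [occ_cons, occ_append, occ_cons] at h1
      simp only [if_true, op] at h1
      rcases List.append_eq_append_iff.1 hXY with ⟨T, hT1, hT2⟩ | ⟨T, hT1, hT2⟩
      · rcases T with _ | ⟨t, T⟩
        · apply hne; rw [hT1]; simp
        · simp only [List.cons_append, List.cons.injEq] at hT2
          obtain ⟨rfl, rfl⟩ := hT2
          rw [occ_append, occ_cons] at h1
          simp [op] at h1
          omega
      · rcases T with _ | ⟨t, T⟩
        · apply hne; rw [hT1]; simp
        · simp only [List.cons_append, List.cons.injEq] at hT2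
          obtain ⟨rfl, rfl⟩ := hT2
          rw [hT1, occ_append, occ_cons] at h1
          simp [op] at h1
          omega
    obtain ⟨rfl, h2⟩ := List.append_inj hXY hlen
    simp only [List.cons.injEq, true_and] at h2
    subst h2
    rw [ih (fun l => ?_) h0]
    have := hZ l
    rw [occ_cons, occ_append, occ_cons] at this
    rw [occ_append]
    omega

/-! ### Bending -/

/-- bend the bottom of a word from `X` to the left -/
def bend (X : List (Pt α)) (w : Word α) : Word α := cupN (opL X) ++ sh X.length w

theorem run_bend {X Z : List (Pt α)} {w : Word α} (hw : Run w X Z) :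
    Run (bend X w) [] (opL X ++ Z) := by
  have h1 := run_cupN (opL X)
  have h2 := hw.shiftL (opL X)
  simp at h1 h2
  exact h1.append h2

theorem unbend {X Z : List (Pt α)} {w : Word α} (hw : Run w X Z) :
    Iso X Z (sh X.length (bend X w) ++ capN X) w := by
  have k3 := (interchange (run_capN X) hw).symm.appL (u := sh X.length (cupN (opL X)))
    (X' := X) (by simpa using (run_cupN (opL X)).shiftL X)
  have k4 := (zigN X).appR hw
  refine Iso.trans (Iso.of_eq ?_) ((k3.cast rfl (by simp)).trans (Iso.trans (Iso.of_eq ?_)
    (k4.trans (Iso.of_eq ?_))))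
  · simp [bend]
  · simp
  · simp

theorem NoClosed.bend {X Z : List (Pt α)} {w : Word α} (hw : Run w X Z)
    (h : NoClosed w X Z) : NoClosed (bend X w) [] (opL X ++ Z) := by
  have h1 := ((unbend hw).noClosed.2 h).left (Y := X ++ (opL X ++ Z)) (by
    have := (run_capN X).right Z
    simpa using this)
  exact NoClosed.unshift (A := X) (C := []) (by simpa using h1)

theorem e1_of_bend {X Z : List (Pt α)} {w w' : Word α} (hw : Run w X Z) (hw' : Run w' X Z)
    (h : E1 [] (opL X ++ Z) (MP5b16f0.bend X w) (MP5b16f0.bend X w')) : E1 X Z w w' := by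
  have h1 := (h.shiftL X).appR (v := capN X) (Z := Z) (by
    have := (run_capN X).right Z
    simpa using this)
  exact ((unbend hw).symm.e1.trans (h1.cast (by simp) rfl)).trans (unbend hw').e1

theorem occ_opL (l : α) (X : List (Pt α)) : occ l (opL X) = occ l X := by
  induction X with
  | nil => rfl
  | cons x X ih =>
    rw [opL_cons, occ_append, ih, occ_cons, occ_cons, occ_nil]
    by_cases h : x.1 = l
    · simp [op, h]; omega
    · simp [op, h]

/-- two words without closed components are related by crossing changes and isotopies when the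
labels of their end points determine the connections -/
theorem e1_of_occ {X Z : List (Pt α)} (hocc : ∀ l, occ l X + occ l Z ≤ 2) {w w' : Word α}
    (hw : Run w X Z) (hw' : Run w' X Z) (h : NoClosed w X Z) (h' : NoClosed w' X Z) :
    E1 X Z w w' := by
  obtain ⟨s, h1, h2⟩ := exists_std (run_bend hw) (h.bend hw)
  obtain ⟨s', h3, h4⟩ := exists_std (run_bend hw') (h'.bend hw')
  have := h1.unique (fun l => by rw [occ_append, occ_opL]; exact hocc l) h3
  subst this
  exact e1_of_bend hw hw' (h2.trans h4.symm)

theorem base_e1 {V : List (Pt α)} (hV : ∀ l, occ l V ≤ 1) {x : Word α} (hx : Run x V V)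
    (h : NoClosed x V V) : E1 V V x [] :=
  e1_of_occ (fun l => by have := hV l; omega) hx (Run.nil _) h (noClosed_nil _)

/-- **The group of string links modulo `Cong (n + 1)`.** -/
theorem group_prop {V : List (Pt α)} (hV : ∀ l, occ l V ≤ 1) (n : ℕ)
    {x : Word α} (hx : Run x V V) (hnc : NoClosed x V V) :
      ∃ y : Word α, Run y V V ∧ NoClosed y V V ∧ Cong (n + 1) V V (y ++ x) [] ∧
        Cong (n + 1) V V (x ++ y) [] :=
  two_sided_inverse hV (fun _ hx h => (base_e1 hV hx h).cong) n hx hnc

/-- finitely many words without closed components up to crossing changes -/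
theorem finite_e1 (X Z : List (Pt α)) : ∃ S : Set (Word α), S.Finite ∧
    (∀ s ∈ S, Run s X Z ∧ NoClosed s X Z) ∧
    ∀ w, Run w X Z → NoClosed w X Z → ∃ s ∈ S, E1 X Z w s := by
  classical
  -- choose a representative for every standard word
  let P : Word α → Word α → Prop := fun s w =>
    Run w X Z ∧ NoClosed w X Z ∧ E1 [] (opL X ++ Z) (MP5b16f0.bend X w) s
  let r : Word α → Word α := fun s => if h : ∃ w, P s w then h.choose else []
  refine ⟨r '' {s | Std (opL X ++ Z) s ∧ ∃ w, P s w}, ?_, ?_, ?_⟩
  · exact ((Std.finite _ _ (le_refl _)).subset (fun s hs => hs.1)).image _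
  · rintro _ ⟨s, ⟨_, hs⟩, rfl⟩
    simp only [r, dif_pos hs]
    exact ⟨hs.choose_spec.1, hs.choose_spec.2.1⟩
  · intro w hw hnc
    obtain ⟨s, h1, h2⟩ := exists_std (run_bend hw) (hnc.bend hw)
    have hs : ∃ w, P s w := ⟨w, hw, hnc, h2⟩
    refine ⟨r s, ⟨s, ⟨h1, hs⟩, rfl⟩, ?_⟩
    simp only [r, dif_pos hs]
    exact e1_of_bend hw hs.choose_spec.1 (h2.trans hs.choose_spec.2.2.symm)

end MP5b16f0
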